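import Pool.Agent.Work.MP_7ba843_gt.Defs

/-! Definitions used in the statement of the all-genus counterexample. -/

open Set

namespace Pool.Agent.Work.MP_7ba843_gt.N

/-- A plane polygon which is a disc with `g` holes: the strip `[0, 8g+6] × [0, 2]`, the teeth
`[4i, 4i+2] × [0, 6]` and the `g` bridges `[8j+6, 8j+8] × [4, 6]`. -/
def Pl (g : ℕ) (x y : ℝ) : Prop :=
  0 ≤ x ∧ x ≤ 8 * g + 6 ∧ 0 ≤ y ∧ y ≤ 6 ∧
    (y ≤ 2 ∨ (∃ i : ℕ, (4 * i : ℝ) ≤ x ∧ x ≤ 4 * i + 2) ∨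
      (4 ≤ y ∧ ∃ j : ℕ, (8 * j + 6 : ℝ) ≤ x ∧ x ≤ 8 * j + 8))

/-- The disc with `g` holes times the cube `[0, 2] ^ D`: for `D = 1` the handlebody of genus `g`,
for `D = 2` the boundary connected sum of `g` copies of `S¹ × B³`. -/
def Th (D g : ℕ) : Set (Fin (D + 2) → ℝ) :=
  {x | Pl g (x 0) (x 1) ∧ ∀ i : Fin (D + 2), 2 ≤ i.1 → 0 ≤ x i ∧ x i ≤ 2}

/-- `T 0, T 1, T 2` is a (topological) trisection of genus `g` of `X` with core `S`. -/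
def Trisection {X : Type} [TopologicalSpace X] (g : ℕ) (S : Set X) (T : Fin 3 → Set X) : Prop :=
  (⋃ i, T i) = univ ∧ (∀ i j, i ≠ j → Disjoint (interior (T i)) (interior (T j))) ∧
  (∀ i, ∃ k : ℕ, Nonempty (T i ≃ₜ Th 2 k)) ∧
  (∀ i j, i ≠ j → Nonempty ((T i ∩ T j : Set X) ≃ₜ Th 1 g)) ∧
  (⋂ i, T i) = S

end Pool.Agent.Work.MP_7ba843_gt.N
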