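import Mathlib
import Pool.Agent.Work.MP_735653_gt.CovSC
import Pool.Agent.Work.MP_735653_gt.WSC
import Pool.Agent.Work.MP_735653_gt.XDefs
import Pool.Agent.Work.MP_735653_gt.SDefs
import Pool.Agent.Work.MP_7ba843_gt.N.Defs
import Pool.Agent.Work.MP_735653_gt.Homeo
import Pool.Agent.Work.MP_735653_gt.Reg

-- merged part: Pool.Agent.Work.MP_7ba843_gt.N.Tr
section
-- merged part: Pool.Agent.Work.MP_7ba843_gt.N.ADefs
section
/-! Algebraic definitions. FROZEN: do not edit. -/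

namespace Pool.Agent.Work.MP_7ba843_gt.N

section Sys

variable {P E : Type} [Group P] [Group E]

/-- the commutator of a pair `(x, t)` -/
def cm (p : P × P) : P := p.2⁻¹ * p.1⁻¹ * p.2 * p.1

/-- the surface relator -/
def rel (L : List (P × P)) : P := (L.map cm).prod

/-- the generators of a system -/
def gens (L : List (P × P)) : Set P := {x | ∃ p ∈ L, x = p.1 ∨ x = p.2}

/-- the meridians of a system -/
def mers (L : List (P × P)) : Set P := {x | ∃ p ∈ L, x = p.2}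

/-- `P` is presented by the pairs of `L` and the surface relator -/
structure IsSys (L : List (P × P)) : Prop where
  rel_eq : rel L = 1
  gen : Subgroup.closure (gens L) = ⊤
  univ : ∀ (E : Type) [Group E] (L' : List (E × E)), L'.length = L.length → rel L' = 1 →
    ∃ f : P →* E, L.map (Prod.map f f) = L'

/-- `f` kills the meridians -/
def Kill (f : P →* E) (L : List (P × P)) : Prop := ∀ p ∈ L, f p.2 = 1

/-- the relator of the double of a planar surface -/
def Vv (x t : ℕ → P) : ℕ → P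
  | 0 => 1
  | k + 1 => ((t k)⁻¹ * x k * t k)⁻¹ * Vv x t k * x k

/-- `P` is presented by `x k`, `t k` for `k < g` and the planar relator -/
structure PSys (g : ℕ) (x t : ℕ → P) : Prop where
  rel_eq : Vv x t g = 1
  gen : Subgroup.closure {y | ∃ k < g, y = x k ∨ y = t k} = ⊤
  univ : ∀ (E : Type) [Group E] (x' t' : ℕ → E), Vv x' t' g = 1 →
    ∃ f : P →* E, ∀ k < g, f (x k) = x' k ∧ f (t k) = t' k

end Sys

section Dual

variable {U : Type} [Group U]

/-- almost invariant functions -/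
def AI (φ : U → ZMod 2) : Prop := ∀ g, {h | φ (h * g) ≠ φ h}.Finite

/-- `Z` is the set of lines `f ⟨w⟩` whose two ends are separated by `φ` -/
def IsD (w : U) (φ : U → ZMod 2) (Z : (U ⧸ Subgroup.zpowers w) →₀ ZMod 2) : Prop :=
  ∀ f : U, ∃ N₀ : ℕ, ∀ N ≥ N₀,
    Z (QuotientGroup.mk f) = φ (f * w ^ N) + φ (f * (w ^ N)⁻¹)

/-- the boundary operator of a graph -/
noncomputable def bd {Λ V : Type} (e₀ e₁ : Λ → V) (Z : Λ →₀ ZMod 2) : V →₀ ZMod 2 :=
  Z.mapDomain e₀ + Z.mapDomain e₁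

/-- the line pattern of `w` has an abstract dual: its cuts are the cycles of a graph -/
def Planar (w : U) : Prop :=
  ∃ (V : Type) (e₀ e₁ : U ⧸ Subgroup.zpowers w → V),
    (∀ φ, AI φ → ∃ Z, IsD w φ Z ∧ bd e₀ e₁ Z = 0) ∧
    ∀ Z, bd e₀ e₁ Z = 0 → ∃ φ, AI φ ∧ IsD w φ Z

/-- the free group on `a = 0` and `t = 1` -/
abbrev F2 : Type := FreeGroup (Fin 2)

/-- seen from `v`, some line has its ends in the directions `r₁` and `r₂` -/
def Line (ι : U →* F2) (w : U) (v : F2) (r₁ r₂ : List (Fin 2 × Bool)) : Prop :=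
  ∃ h : U, ∀ N : ℕ, 1 ≤ N → r₁ <+: (v⁻¹ * ι (h * w ^ N)).toWord ∧
    r₂ <+: (v⁻¹ * ι (h * (w ^ N)⁻¹)).toWord

end Dual

section Nielsen

/-- a generator or its inverse -/
def val {ι G : Type} [Group G] (u : ι → G) (s : ι × Bool) : G :=
  if s.2 then u s.1 else (u s.1)⁻¹

end Nielsen

section Spell

/-- the relator after its top letter `5` -/
def Qt : List (ℤ × Bool) :=
  [(4, true), (3, false), (0, true), (1, true), (2, false), (3, true), (4, true), (4, true),
    (4, true), (3, true), (3, true), (4, false), (3, false), (4, false), (4, false), (4, false),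
    (3, false), (3, false)]

/-- the relator after its bottom letter `0` -/
def Qb : List (ℤ × Bool) :=
  [(1, true), (2, false), (3, true), (4, true), (4, true), (4, true), (3, true), (3, true),
    (4, false), (3, false), (4, false), (4, false), (4, false), (3, false), (3, false),
    (5, true), (4, true), (3, false)]

/-- shift of the levels -/
def sh (j : ℤ) (l : List (ℤ × Bool)) : List (ℤ × Bool) := l.map fun x => (x.1 + j, x.2)

/-- the shifted relator -/
def cj (j : ℤ) : FreeGroup ℤ := FreeGroup.mk (sh j ((0, true) :: Qb))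

/-- the relator subgroup of the infinite cyclic cover -/
def Nb (n : ℕ) : Subgroup (FreeGroup ℤ) := Subgroup.normalClosure (Set.range fun j => cj j ^ n)

instance (n : ℕ) : (Nb n).Normal := Subgroup.normalClosure_normal

/-- the quotient map -/
def pb (n : ℕ) : FreeGroup ℤ →* FreeGroup ℤ ⧸ Nb n := QuotientGroup.mk' (Nb n)

/-- a word or its inverse -/
def Qe {α : Type} (ε : Bool) (Q : List (α × Bool)) : List (α × Bool) :=
  if ε then Q else FreeGroup.invRev Q

/-- almost the `n`-th power of a rotation of the relator -/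
def run (n : ℕ) (b : ℤ) (Q : List (ℤ × Bool)) (ε : Bool) : List (ℤ × Bool) :=
  (b, ε) :: (List.replicate (n - 1) (Qe ε Q ++ [(b, ε)])).flatten

/-- the word contains a long piece of a relator -/
def Long (n : ℕ) (u : List (ℤ × Bool)) : Prop :=
  ∃ j ε, run n (j + 5) (sh j Qt) ε <:+: u ∨ run n j (sh j Qb) ε <:+: u

/-- the word `t ^ k` -/
def tp (k : ℤ) : List (Fin 2 × Bool) := List.replicate k.natAbs (1, decide (0 < k))

/-- expansion of a word in the levels, starting at level `i` -/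
def ex : ℤ → List (ℤ × Bool) → List (Fin 2 × Bool)
  | _, [] => []
  | i, x :: l => tp (x.1 - i) ++ (0, x.2) :: ex x.1 l

/-- the four rotations of the relator and its inverse -/
def Cw (top ε : Bool) : List (Fin 2 × Bool) :=
  if top then ex 5 (Qe ε Qt ++ [(5, ε)]) else ex 0 (Qe ε Qb ++ [(0, ε)])

/-- the root of the relator -/
def cc : F2 := FreeGroup.mk (Cw false true)

/-- the relator subgroup -/
def NN (n : ℕ) : Subgroup F2 := Subgroup.normalClosure {cc ^ n}

instance (n : ℕ) : (NN n).Normal := Subgroup.normalClosure_normal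

/-- `z` or its inverse -/
def zs {Γ : Type} [Group Γ] (z : Γ) (ε : Bool) : Γ := if ε then z else z⁻¹

/-- the exponent of `a` -/
def aexp : F2 →* Multiplicative ℤ :=
  FreeGroup.lift fun i => if i = 0 then Multiplicative.ofAdd 1 else 1

/-- the basis `a ^ d, t, a t a⁻¹, …` of the subgroup of index `d` -/
def theta (d i : ℕ) : F2 :=
  if i = 0 then FreeGroup.of 0 ^ d else
    FreeGroup.of 0 ^ (i - 1) * FreeGroup.of 1 * (FreeGroup.of 0 ^ (i - 1))⁻¹

/-- the embedding of the free group of rank `d + 1` -/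
def th (d : ℕ) : FreeGroup (Fin (d + 1)) →* F2 := FreeGroup.lift fun i => theta d i.1

end Spell

theorem red_of_inf {α : Type} {L₁ L₂ : List (α × Bool)} (h : FreeGroup.IsReduced L₂)
    (h' : L₁ <:+: L₂) : FreeGroup.IsReduced L₁ := by
  obtain ⟨A, B, rfl⟩ := h'
  exact (List.isChain_append.1 (List.isChain_append.1 h).1).2.1

theorem toWord_mk_red {α : Type} [DecidableEq α] {L : List (α × Bool)}
    (h : FreeGroup.IsReduced L) : (FreeGroup.mk L).toWord = L := by
  rw [FreeGroup.toWord_mk, h.reduce_eq]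

end Pool.Agent.Work.MP_7ba843_gt.N
end

-- merged part: Pool.Agent.Work.MP_7ba843_gt.N.CDefs
section
/-! Regular coverings and equivariant lifts. FROZEN: do not edit. -/

namespace Pool.Agent.Work.MP_7ba843_gt.N

/-- a regular covering of `Y` with group `Γ` -/
structure Cv (Y Γ : Type) [TopologicalSpace Y] [Group Γ] where
  E : Type
  [top : TopologicalSpace E]
  [act : MulAction Γ E]
  p : E → Y
  cov : IsQuotientCoveringMap p Γ

attribute [instance] Cv.top Cv.act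

variable {Y Y' Γ Γ' : Type} [TopologicalSpace Y] [TopologicalSpace Y'] [Group Γ] [Group Γ']

/-- universal coverings -/
def Cv.Univ (C : Cv Y Γ) : Prop := SimplyConnectedSpace C.E ∧ LocallyPathConnectedSpace C.E

/-- transport along a homeomorphism of the base -/
def Cv.homeo (C : Cv Y Γ) (e : Y ≃ₜ Y') : Cv Y' Γ where
  E := C.E
  p := e ∘ C.p
  cov := C.cov.homeomorph_comp e

/-- `F` is a `θ`-equivariant lift of `f` -/
structure Lf (C : Cv Y Γ) (C' : Cv Y' Γ') (f : Y → Y') (θ : Γ →* Γ') (F : C.E → C'.E) : Prop where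
  cont : Continuous F
  proj : ∀ e, C'.p (F e) = f (C.p e)
  eqv : ∀ g e, F (g • e) = θ g • F e

end Pool.Agent.Work.MP_7ba843_gt.N
end

-- merged part: Pool.Agent.Work.MP_7ba843_gt.N.TDefs
section
/-! Lattice models. FROZEN: do not edit. -/

namespace Pool.Agent.Work.MP_7ba843_gt.N

open Pool.Agent.Work.MP_735653_gt

/-- the covering of a lattice complex -/
def LCv {D : ℕ} {G : Type} [Group G] (X : LC D G) : Cv (Re X.K) G where
  E := Cov X
  p := Cov.x
  cov := isQuotientCoveringMap_x X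

/-- cells of the comb with its top edges -/
def Gp (g : ℕ) (k h : ℤ) : Prop := Tt g k h ∨ Tp g k h

open Classical in
/-- the comb with its top edges, a planar graph with `g` cycles -/
noncomputable def gr (D g : ℕ) : Finset (Cell (D + 2)) :=
  (Fintype.piFinset fun _ => Finset.Icc 0 (4 * (g : ℤ) + 2)).filter fun a =>
    Gp g (a 0) (a 1) ∧ ∀ i : Fin (D + 2), 2 ≤ i.1 → a i = 0

theorem mem_gr {D g : ℕ} {a : Cell (D + 2)} :
    a ∈ gr D g ↔ Gp g (a 0) (a 1) ∧ ∀ i : Fin (D + 2), 2 ≤ i.1 → a i = 0 := by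
  simp only [gr, Finset.mem_filter, Fintype.mem_piFinset, Finset.mem_Icc]
  refine ⟨fun h => h.2, fun h => ⟨fun i => ?_, h⟩⟩
  have h1 := h.1
  simp only [Gp, Tt, Tp] at h1
  by_cases h0 : i = 0
  · subst h0
    omega
  by_cases h2 : i = 1
  · subst h2
    omega
  have h3 : 2 ≤ i.1 := by
    rw [Fin.ext_iff] at h0 h2
    simp only [Fin.val_zero, Fin.val_one] at h0 h2
    omega
  rw [h.2 i h3]
  omega

/-- the graph in three-space -/
noncomputable abbrev gr3 (g : ℕ) : Finset (Cell 3) := gr 1 g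

theorem mem_gr3 {g : ℕ} {a : Cell 3} : a ∈ gr3 g ↔ Gp g (a 0) (a 1) ∧ a 2 = 0 := by
  refine mem_gr.trans (and_congr Iff.rfl ⟨fun h => h 2 le_rfl, fun h i hi => ?_⟩)
  have : i = 2 := Fin.ext (by have := i.2; simp only [Fin.val_two]; omega)
  rw [this]
  exact h

theorem down_gr (D g : ℕ) : Down (gr D g) := by
  intro a ha b hb
  rw [mem_gr] at ha ⊢
  have h0 := hb 0
  have h1 := hb 1
  refine ⟨?_, fun i hi => ?_⟩
  · have := ha.1
    simp only [Gp, Tt, Tp] at this ⊢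
    omega
  · have := hb i
    have := ha.2 i hi
    omega

theorem down_WK {D : ℕ} {K : Finset (Cell D)} (h : Down K) : Down (WK K) :=
  fun _ ha _ hb => mem_WK.2 (h _ (mem_WK.1 ha) _ hb.lo)

theorem down_EK {D : ℕ} {K : Finset (Cell D)} (h : Down K) : Down (EK K) :=
  fun _ ha _ hb => mem_EK.2 ⟨h _ (mem_EK.1 ha).1 _ hb.lo,
    fun h' => (mem_EK.1 ha).2 (h _ h' _ hb.hi)⟩

/-- the labels of the edges of the graph -/
def glab {D : ℕ} (g : ℕ) (v : Cell (D + 2)) (i : Fin (D + 2)) : FreeGroup (Fin g) :=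
  if i = 0 ∧ v 1 = 2 ∧ v 0 % 4 = 2 then lab (Equiv.refl (Fin g)) (v 0 / 4) else 1

/-- the labels of the edges of the boundary surface -/
def slab {P : Type} [Group P] (g : ℕ) (x t : ℕ → P) (v : Cell 3) (i : Fin 3) : P :=
  if i = 0 then
    (if v 0 % 8 = 6 ∧ 4 ≤ v 1 then
      (if v 2 = 2 then x (v 0 / 8).toNat
        else (t (v 0 / 8).toNat)⁻¹ * x (v 0 / 8).toNat * t (v 0 / 8).toNat) else 1)
  else if i = 1 then 1
  else if v 1 = 0 then 1
  else if v 1 ≤ 4 ∧ v 0 % 8 = 6 ∧ v 0 / 8 < g then (t (v 0 / 8).toNat)⁻¹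
  else if v 1 ≤ 4 ∧ v 0 % 8 = 0 ∧ 0 < v 0 then (t (v 0 / 8 - 1).toNat)⁻¹
  else Vv x t (v 0 / 8).toNat

/-- the Euler characteristic of a lattice complex -/
def chi {D : ℕ} (K : Finset (Cell D)) : ℤ := ∑ a ∈ K, sgn (dim a)

/-- the collapse of the fat line onto the coarse line -/
noncomputable def kap (t : ℝ) : ℝ :=
  2 * ((t + 1 / 2) / 4 - Int.fract ((t + 1 / 2) / 4) + max 0 (4 * Int.fract ((t + 1 / 2) / 4) - 3))

/-- the graph inside the five-dimensional complex -/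
def emb (off : ℕ) (a : Cell 3) : Cell 5 := ![a 0 + 4 * off, a 1, 0, 0, 0]

/-- `y` is a small coordinatewise displacement of `x` -/
def Near {D : ℕ} (x y : Fin D → ℝ) : Prop :=
  ∀ i (k : ℤ), (2 * (k : ℝ) ≤ x i → 2 * (k : ℝ) - 1 / 2 ≤ y i) ∧
    (x i ≤ 2 * (k : ℝ) → y i ≤ 2 * (k : ℝ) + 1 / 2)

end Pool.Agent.Work.MP_7ba843_gt.N
end

-- merged part: Pool.Agent.Work.MP_7ba843_gt.N.Flow
section
/-! The smooth models are homeomorphic to the cubical ones.

PLAN. Read 735653/Flw.lean (`homeo_of_flow`) and Homeo.lean. `level_near`: copy `homeo_of_flow`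
with the extra conclusion `∀ z, ∃ l, (e z).1 = φ l z`; `flw l` fixes points outside the intervals
`(2k - 1/2, 2k + 1/2)` and keeps each interval (`Flw_out`, `lgs_mem`, `nk_spec`), so
`Near x (flw l ∘ x)`. `super_homeo`: abstract lemma for a flow `φ`, compact `A ⊆ W`, `τ : A → ℝ`
the continuous crossing time of `F = c`, `φ m z ∈ W ↔ m ≤ 0` for `z ∈ A`, and `z ∈ W ↔ c ≤ F z`
for `z` whose orbit misses `A`. On the open set `Ω` of points whose orbit meets `A` the time
`l z` and the point `a z` with `z = φ (l z) (a z)` are continuous (crossing time of `F = c` is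
continuous by the sandwich argument, then use `e.symm`). With `L > sup |τ|` put
`s z = τ (a z) * max 0 (1 - |l z| / L)` on `Ω`, `0` elsewhere; it is continuous because it vanishes
off the compact set `φ ([-L, L] × A) ⊆ Ω`; `z ↦ φ (s z) z` is a bijection from the compact `W` onto
`{c ≤ F}` (`l ↦ l + τ max 0 (1 - |l| / L)` is strictly increasing, onto). For the lattice facts use
`Homeo_lo`, `Homeo_hi`, `lo_cellOf`, `Homeo_cross`, and redo `Homeo_h4` from its two inner facts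
`hO`, `hO'`. About 400 lines. -/

namespace Pool.Agent.Work.MP_7ba843_gt.N

open Pool.Agent.Work.MP_735653_gt

open Filter Topology

/-- The crossing time and the homeomorphism onto the level set. -/
theorem Flow_level {Z : Type} [TopologicalSpace Z] [T2Space Z] (φ : ℝ → Z → Z)
    (h0 : ∀ z, φ 0 z = z) (h1 : ∀ l m z, φ (l + m) z = φ l (φ m z))
    (h2 : Continuous fun p : ℝ × Z => φ p.1 p.2) (F : Z → ℝ) (hF : Continuous F) (c : ℝ)
    {A : Set Z} (hA : IsCompact A)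
    (h3 : ∀ z ∈ A, ∃ l, (∀ m, m < l → c < F (φ m z)) ∧ ∀ m, l < m → F (φ m z) < c)
    (h4 : ∀ z, F z = c → ∃ l, φ l z ∈ A) (h5 : ∀ z ∈ A, ∀ l, φ l z ∈ A → l = 0) :
    ∃ (T : Z → ℝ) (e : A ≃ₜ {z // F z = c}), (∀ a : A, (e a).1 = φ (T a) a) ∧
      (∀ z, (¬ ∃ l, φ l z ∈ A) → T z = 0) ∧ (∀ z, (∃ l, φ l z ∈ A) → ContinuousAt T z) ∧
      (∀ a ∈ A, ∀ l, T (φ l a) = T a - l) ∧ (∀ a ∈ A, ∀ m, c ≤ F (φ m a) ↔ m ≤ T a) ∧
      IsOpen {z | ∃ l, φ l z ∈ A} := by
  have : CompactSpace A := isCompact_iff_compactSpace.1 hA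
  have hT : ∀ z, ∃ t, ((∃ l, φ l z ∈ A) → (∀ m, m < t → c < F (φ m z)) ∧
      ∀ m, t < m → F (φ m z) < c) ∧ ((¬ ∃ l, φ l z ∈ A) → t = 0) := fun z => by
    by_cases hz : ∃ l, φ l z ∈ A
    · obtain ⟨l, hl⟩ := hz
      obtain ⟨t, t1, t2⟩ := h3 _ hl
      have e : ∀ m, φ m z = φ (m - l) (φ l z) := fun m => by rw [← h1, sub_add_cancel]
      refine ⟨t + l, fun _ => ⟨fun m hm => ?_, fun m hm => ?_⟩, fun h => absurd ⟨l, hl⟩ h⟩
      · rw [e]; exact t1 _ (by linarith)
      · rw [e]; exact t2 _ (by linarith)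
    · exact ⟨0, fun h => absurd h hz, fun _ => rfl⟩
  choose T tc tz using hT
  have cz : ∀ m, Continuous fun z => F (φ m z) := fun m =>
    hF.comp (h2.comp (continuous_const.prodMk continuous_id))
  have cl : ∀ z, Continuous fun m => F (φ m z) := fun z =>
    hF.comp (h2.comp (continuous_id.prodMk continuous_const))
  have hAΩ : ∀ a ∈ A, ∀ l, ∃ m, φ m (φ l a) ∈ A := fun a ha l =>
    ⟨-l, by rw [← h1, neg_add_cancel, h0]; exact ha⟩
  have hA0 : ∀ a ∈ A, ∃ m, φ m a ∈ A := fun a ha => ⟨0, by rw [h0]; exact ha⟩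
  have hop : ∀ z, (∃ l, φ l z ∈ A) → ∀ᶠ w in 𝓝 z, ∃ l, φ l w ∈ A := fun z hz => by
    filter_upwards [(cz (T z - 1)).continuousAt.eventually
        (lt_mem_nhds ((tc z hz).1 _ (by linarith))),
      (cz (T z + 1)).continuousAt.eventually (gt_mem_nhds ((tc z hz).2 _ (by linarith)))]
      with w a b
    obtain ⟨m, hm⟩ := intermediate_value_univ (T z + 1) (T z - 1) (cl w) ⟨b.le, a.le⟩
    obtain ⟨l, hl⟩ := h4 _ hm
    exact ⟨l + m, by rw [h1]; exact hl⟩
  have cT : ∀ z, (∃ l, φ l z ∈ A) → ContinuousAt T z := fun z hz => by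
    refine tendsto_order.2 ⟨fun a ha => ?_, fun a ha => ?_⟩
    · obtain ⟨b, b1, b2⟩ := exists_between ha
      filter_upwards [hop z hz,
        (cz b).continuousAt.eventually (lt_mem_nhds ((tc z hz).1 b b2))] with w hw0 hw
      by_contra e
      exact absurd ((tc w hw0).2 b ((not_lt.1 e).trans_lt b1)) hw.not_gt
    · obtain ⟨b, b1, b2⟩ := exists_between ha
      filter_upwards [hop z hz,
        (cz b).continuousAt.eventually (gt_mem_nhds ((tc z hz).2 b b1))] with w hw0 hw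
      by_contra e
      exact absurd ((tc w hw0).1 b (b2.trans_le (not_lt.1 e))) hw.not_gt
  have v : ∀ z, (∃ l, φ l z ∈ A) → F (φ (T z) z) = c := fun z hz => le_antisymm
    (le_of_tendsto ((cl z).continuousAt.tendsto.mono_left (nhdsWithin_le_nhds (s := Set.Ioi (T z))))
      (eventually_nhdsWithin_of_forall fun m hm => ((tc z hz).2 m hm).le))
    (ge_of_tendsto ((cl z).continuousAt.tendsto.mono_left (nhdsWithin_le_nhds (s := Set.Iio (T z))))
      (eventually_nhdsWithin_of_forall fun m hm => ((tc z hz).1 m hm).le))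
  have uq : ∀ z, (∃ l, φ l z ∈ A) → ∀ m, F (φ m z) = c → T z = m := fun z hz m hm => by
    rcases lt_trichotomy (T z) m with a | a | a
    · exact absurd ((tc z hz).2 _ a) (by rw [hm]; exact lt_irrefl c)
    · exact a
    · exact absurd ((tc z hz).1 _ a) (by rw [hm]; exact lt_irrefl c)
  let f : A → {z // F z = c} := fun z => ⟨φ (T z) z, v z (hA0 z z.2)⟩
  have hb : Function.Bijective f := by
    refine ⟨fun z w e => ?_, fun y => ?_⟩
    · have e1 : φ (T z) z = φ (T w) w := congrArg Subtype.val e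
      have e2 : φ (-T w + T z) z = w := by rw [h1, e1, ← h1, neg_add_cancel, h0]
      have e3 := h5 z z.2 (-T w + T z) (by rw [e2]; exact w.2)
      rw [e3, h0] at e2
      exact Subtype.ext e2
    · obtain ⟨l, hl⟩ := h4 y y.2
      have e1 : φ (-l) (φ l y) = y := by rw [← h1, neg_add_cancel, h0]
      have e2 : T (φ l y) = -l := uq _ (hA0 _ hl) _ (by rw [e1, y.2])
      exact ⟨⟨_, hl⟩, Subtype.ext (by simp only [f, e2, e1])⟩
  have cτ : Continuous fun z : A => T z := continuous_iff_continuousAt.2 fun z =>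
    (cT z (hA0 z z.2)).comp continuous_subtype_val.continuousAt
  refine ⟨T, Continuous.homeoOfEquivCompactToT2 (f := Equiv.ofBijective f hb)
    ((h2.comp (cτ.prodMk continuous_subtype_val)).subtype_mk _), fun a => rfl, tz, cT,
    fun a ha l => uq _ (hAΩ a ha l) _ ?_, fun a ha m => ⟨fun h => ?_, fun h => ?_⟩,
    isOpen_iff_mem_nhds.2 hop⟩
  · rw [← h1, sub_add_cancel]; exact v a (hA0 a ha)
  · by_contra e
    exact absurd ((tc a (hA0 a ha)).2 m (not_le.1 e)) h.not_gt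
  · rcases h.eq_or_lt with rfl | h
    · exact (v a (hA0 a ha)).ge
    · exact ((tc a (hA0 a ha)).1 m h).le

/-- the reparametrisation of an orbit -/
noncomputable def Flow_h (L τ l : ℝ) : ℝ := τ * max 0 (1 - |τ - l| / L)

theorem Flow_mono {L τ : ℝ} (h : |τ| < L) :
    StrictMono fun l => τ * max 0 (1 - |l| / L) + l := by
  intro l m hlm
  have hL : 0 < L := (abs_nonneg _).trans_lt h
  have a1 : |max 0 (1 - |l| / L) - max 0 (1 - |m| / L)| ≤ (m - l) / L := by
    rw [max_comm 0, max_comm 0]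
    refine (abs_max_sub_max_le_abs _ _ _).trans ?_
    rw [show 1 - |l| / L - (1 - |m| / L) = (|m| - |l|) / L by ring, abs_div, abs_of_pos hL]
    refine div_le_div_of_nonneg_right ((abs_abs_sub_abs_le_abs_sub _ _).trans ?_) hL.le
    rw [abs_of_pos (sub_pos.2 hlm)]
  have a2 : τ * (max 0 (1 - |l| / L) - max 0 (1 - |m| / L)) ≤ |τ| * ((m - l) / L) := by
    refine (le_abs_self _).trans ?_
    rw [abs_mul]
    exact mul_le_mul_of_nonneg_left a1 (abs_nonneg _)
  have a3 : |τ| * ((m - l) / L) < L * ((m - l) / L) :=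
    mul_lt_mul_of_pos_right h (div_pos (sub_pos.2 hlm) hL)
  have a4 : L * ((m - l) / L) = m - l := by field_simp
  show τ * max 0 (1 - |l| / L) + l < τ * max 0 (1 - |m| / L) + m
  linarith

theorem Flow_far {L l : ℝ} (hL : 0 < L) (h : L ≤ |l|) : max 0 (1 - |l| / L) = 0 :=
  max_eq_left (sub_nonpos.2 ((one_le_div hL).2 h))

theorem Flow_surj {L : ℝ} (hL : 0 < L) (τ m : ℝ) : ∃ l, τ * max 0 (1 - |l| / L) + l = m := by
  have hc : Continuous fun l : ℝ => τ * max 0 (1 - |l| / L) + l := by fun_prop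
  have hm := abs_nonneg m
  refine intermediate_value_univ (-(L + |m|)) (L + |m|) hc ⟨?_, ?_⟩
  · show τ * max 0 (1 - |-(L + |m|)| / L) + -(L + |m|) ≤ m
    rw [Flow_far hL (by rw [abs_neg, abs_of_pos (by linarith)]; linarith)]
    linarith [neg_abs_le m]
  · show m ≤ τ * max 0 (1 - |(L + |m|)| / L) + (L + |m|)
    rw [Flow_far hL (by rw [abs_of_pos (by linarith)]; linarith)]
    linarith [le_abs_self m]

theorem Flow_super {Z : Type} [TopologicalSpace Z] [T2Space Z] (φ : ℝ → Z → Z)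
    (h0 : ∀ z, φ 0 z = z) (h1 : ∀ l m z, φ (l + m) z = φ l (φ m z))
    (h2 : Continuous fun p : ℝ × Z => φ p.1 p.2) (F : Z → ℝ) (hF : Continuous F) (c : ℝ)
    {A W : Set Z} (hA : IsCompact A) (hW : IsCompact W)
    (h3 : ∀ z ∈ A, ∃ l, (∀ m, m < l → c < F (φ m z)) ∧ ∀ m, l < m → F (φ m z) < c)
    (h4 : ∀ z, F z = c → ∃ l, φ l z ∈ A) (h5 : ∀ z ∈ A, ∀ l, φ l z ∈ A → l = 0)
    (h6 : ∀ z ∈ A, ∀ m, φ m z ∈ W ↔ m ≤ 0)
    (h7 : ∀ z, (¬ ∃ l, φ l z ∈ A) → (z ∈ W ↔ c ≤ F z)) :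
    Nonempty ({z | c ≤ F z} ≃ₜ W) := by
  classical
  have : CompactSpace W := isCompact_iff_compactSpace.1 hW
  obtain ⟨T, e, he, tz, cT, tl, tc, hop⟩ := Flow_level φ h0 h1 h2 F hF c hA h3 h4 h5
  have hA0 : ∀ a ∈ A, ∃ m, φ m a ∈ A := fun a ha => ⟨0, by rw [h0]; exact ha⟩
  have cA : ContinuousOn T A := fun a ha => (cT a (hA0 a ha)).continuousWithinAt
  obtain ⟨L0, hL0⟩ := hA.exists_bound_of_continuousOn cA
  obtain ⟨L, hL, hb⟩ : ∃ L : ℝ, 0 < L ∧ ∀ a ∈ A, |T a| < L :=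
    ⟨|L0| + 1, by positivity, fun a ha => by
      have := hL0 a ha
      rw [Real.norm_eq_abs] at this
      linarith [le_abs_self L0]⟩
  have par : ∀ z, (∃ l, φ l z ∈ A) → ∃ a ∈ A, ∃ l, z = φ l a := fun z ⟨l, hl⟩ =>
    ⟨_, hl, -l, by rw [← h1, neg_add_cancel, h0]⟩
  have hΩ : ∀ a ∈ A, ∀ l, ∃ m, φ m (φ l a) ∈ A := fun a ha l =>
    ⟨-l, by rw [← h1, neg_add_cancel, h0]; exact ha⟩
  let u : Z → ℝ := fun y => if h : F y = c then T (e.symm ⟨y, h⟩) else 0
  have cu : ContinuousOn u {y | F y = c} := by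
    rw [continuousOn_iff_continuous_domRestrict]
    have c1 : Continuous fun y : {z // F z = c} => T (e.symm y) :=
      cA.comp_continuous (continuous_subtype_val.comp e.symm.continuous) fun y => (e.symm y).2
    refine c1.congr fun y => ?_
    have hy : F y = c := y.2
    show _ = u y
    simp only [u, dif_pos hy]
  have ua : ∀ a ∈ A, F (φ (T a) a) = c ∧ u (φ (T a) a) = T a := fun a ha => by
    have h : F (φ (T a) a) = c := by rw [← he ⟨a, ha⟩]; exact (e ⟨a, ha⟩).2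
    refine ⟨h, (dif_pos h).trans ?_⟩
    rw [show (⟨φ (T a) a, h⟩ : {z // F z = c}) = e ⟨a, ha⟩ from Subtype.ext (he ⟨a, ha⟩).symm,
      e.symm_apply_apply]
  have pa : ∀ a ∈ A, ∀ l, φ (T (φ l a)) (φ l a) = φ (T a) a := fun a ha l => by
    rw [tl a ha, ← h1, sub_add_cancel]
  let s : Z → ℝ := fun z => Flow_h L (u (φ (T z) z)) (T z)
  have s1 : ∀ a ∈ A, ∀ l, s (φ l a) = T a * max 0 (1 - |l| / L) := fun a ha l => by
    simp only [s, Flow_h]
    rw [pa a ha, (ua a ha).2, tl a ha, sub_sub_cancel]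
  have s0 : ∀ z, (¬ ∃ l, φ l z ∈ A) → s z = 0 := fun z hz => by
    simp only [s, Flow_h, u]
    rw [tz z hz, h0, dif_neg fun h => hz (h4 z h), zero_mul]
  have cs : Continuous s := by
    refine continuous_iff_continuousAt.2 fun z => ?_
    by_cases hz : ∃ l, φ l z ∈ A
    · have c1 : ContinuousAt (fun z => φ (T z) z) z :=
        h2.continuousAt.comp (f := fun z => (T z, z)) ((cT z hz).prodMk continuousAt_id)
      have m1 : ∀ w, (∃ l, φ l w ∈ A) → F (φ (T w) w) = c := fun w hw => by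
        obtain ⟨a, ha, l, rfl⟩ := par w hw
        rw [pa a ha]; exact (ua a ha).1
      have c2 : ContinuousAt (fun z => u (φ (T z) z)) z :=
        Tendsto.comp (cu _ (m1 z hz)) (tendsto_nhdsWithin_iff.2
          ⟨c1, Filter.mem_of_superset (hop.mem_nhds hz) m1⟩)
      have c3 : Continuous fun p : ℝ × ℝ => Flow_h L p.1 p.2 := by unfold Flow_h; fun_prop
      exact c3.continuousAt.comp (f := fun z => (u (φ (T z) z), T z)) (c2.prodMk (cT z hz))
    · have hC : IsClosed ((fun p : ℝ × Z => φ p.1 p.2) '' (Set.Icc (-L) L ×ˢ A)) :=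
        ((isCompact_Icc.prod hA).image h2).isClosed
      have hz' : z ∈ ((fun p : ℝ × Z => φ p.1 p.2) '' (Set.Icc (-L) L ×ˢ A))ᶜ := by
        rintro ⟨p, hp, rfl⟩
        exact hz (hΩ _ hp.2 _)
      refine (continuousAt_const (y := (0 : ℝ))).congr ?_
      filter_upwards [hC.isOpen_compl.mem_nhds hz'] with w hw
      by_cases hw0 : ∃ l, φ l w ∈ A
      · obtain ⟨a, ha, l, rfl⟩ := par w hw0
        rw [s1 a ha, Flow_far hL, mul_zero]
        by_contra h
        exact hw ⟨(l, a), ⟨abs_le.1 (not_le.1 h).le, ha⟩, rfl⟩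
      · exact (s0 w hw0).symm
  have g1 : ∀ a ∈ A, ∀ l, φ (s (φ l a)) (φ l a) = φ (T a * max 0 (1 - |l| / L) + l) a :=
    fun a ha l => by rw [s1 a ha, h1]
  have g0 : ∀ z, (¬ ∃ l, φ l z ∈ A) → φ (s z) z = z := fun z hz => by rw [s0 z hz, h0]
  have gW : ∀ z, z ∈ W ↔ c ≤ F (φ (s z) z) := fun z => by
    by_cases hz : ∃ l, φ l z ∈ A
    · obtain ⟨a, ha, l, rfl⟩ := par z hz
      rw [g1 a ha, tc a ha, h6 a ha, ← (Flow_mono (hb a ha)).le_iff_le]
      simp
    · rw [g0 z hz]; exact h7 z hz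
  have back : ∀ z m, (∃ l, φ l (φ m z) ∈ A) → ∃ l, φ l z ∈ A := fun z m ⟨l, hl⟩ =>
    ⟨l + m, by rw [h1]; exact hl⟩
  have fwd : ∀ z m, (∃ l, φ l z ∈ A) → ∃ l, φ l (φ m z) ∈ A := fun z m ⟨l, hl⟩ =>
    ⟨l - m, by rw [← h1, sub_add_cancel]; exact hl⟩
  have gi : Function.Injective fun z => φ (s z) z := fun z w (h : φ (s z) z = φ (s w) w) => by
    by_cases hz : ∃ l, φ l z ∈ A
    · have hw : ∃ l, φ l w ∈ A := back w (s w) (h ▸ fwd z (s z) hz)
      obtain ⟨a, ha, l, rfl⟩ := par z hz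
      obtain ⟨b, hb', m, rfl⟩ := par w hw
      rw [g1 a ha, g1 b hb'] at h
      have e2 : φ (-(T b * max 0 (1 - |m| / L) + m) + (T a * max 0 (1 - |l| / L) + l)) a = b := by
        rw [h1, h, ← h1, neg_add_cancel, h0]
      have e3 := h5 a ha _ (by rw [e2]; exact hb')
      rw [e3, h0] at e2
      subst e2
      rw [(Flow_mono (hb a ha)).injective (neg_add_eq_zero.1 e3)]
    · have hw : ¬ ∃ l, φ l w ∈ A := fun hw => hz (back z (s z) (h ▸ fwd w (s w) hw))
      rwa [g0 z hz, g0 w hw] at h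
  have gs : ∀ y, ∃ z, φ (s z) z = y := fun y => by
    by_cases hy : ∃ l, φ l y ∈ A
    · obtain ⟨a, ha, m, rfl⟩ := par y hy
      obtain ⟨l, hl⟩ := Flow_surj hL (T a) m
      exact ⟨φ l a, by rw [g1 a ha, hl]⟩
    · exact ⟨y, g0 y hy⟩
  let f : W → {z | c ≤ F z} := fun z => ⟨φ (s z) z, (gW z).1 z.2⟩
  have hf : Function.Bijective f := by
    refine ⟨fun z w h => Subtype.ext (gi (congrArg Subtype.val h)), fun y => ?_⟩
    obtain ⟨z, hz⟩ := gs y
    exact ⟨⟨z, (gW z).2 (by rw [hz]; exact y.2)⟩, Subtype.ext hz⟩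
  exact ⟨(Continuous.homeoOfEquivCompactToT2 (f := Equiv.ofBijective f hf)
    ((h2.comp ((cs.comp continuous_subtype_val).prodMk continuous_subtype_val)).subtype_mk _)).symm⟩

theorem Flow_near (l t : ℝ) (k : ℤ) : (2 * (k : ℝ) ≤ t → 2 * (k : ℝ) - 1 / 2 ≤ flw l t) ∧
    (t ≤ 2 * (k : ℝ) → flw l t ≤ 2 * (k : ℝ) + 1 / 2) := by
  by_cases h : 0 < qk (nk t) t ∧ qk (nk t) t < 1
  · obtain ⟨a, b⟩ := lgs_mem h.1 h.2 l
    unfold flw
    generalize lgs l (qk (nk t) t) = s at a b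
    obtain ⟨h1, h2⟩ := h
    unfold qk at h1 h2 ⊢
    generalize nk t = n at h1 h2
    have up : 2 * (k : ℝ) < 2 * n + 1 / 2 → (k : ℝ) ≤ n := fun h => by
      have : k < n + 1 := by exact_mod_cast (by linarith : (k : ℝ) < n + 1)
      exact_mod_cast Int.lt_add_one_iff.1 this
    have dn : 2 * (n : ℝ) - 1 / 2 < 2 * k → (n : ℝ) ≤ k := fun h => by
      have : n < k + 1 := by exact_mod_cast (by linarith : (n : ℝ) < k + 1)
      exact_mod_cast Int.lt_add_one_iff.1 this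
    rcases Flw_dk n with e | e <;> rw [e] at h1 h2 ⊢ <;> refine ⟨fun h => ?_, fun h => ?_⟩
    · linarith [up (by linarith)]
    · linarith [dn (by linarith)]
    · linarith [up (by linarith)]
    · linarith [dn (by linarith)]
  · rw [flw, Homeo_lgs_of_not h]
    constructor <;> intro h <;> linarith

section Lattice

variable {D : ℕ} {K : Finset (Cell D)}

theorem Flow_e0 (x : Fin D → ℝ) : (fun i => flw 0 (x i)) = x := funext fun _ => flw_zero _

theorem Flow_cont : Continuous fun p : ℝ × (Fin D → ℝ) => fun i => flw p.1 (p.2 i) :=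
  continuous_pi fun i => continuous_flw.comp
    (continuous_fst.prodMk ((continuous_apply i).comp continuous_snd))

theorem Flow_h3 (hK : Down K) (x : Fin D → ℝ) (hx : x ∈ Re (EK K)) :
    ∃ l, (∀ m, m < l → 1 / 2 < FK K fun i => flw m (x i)) ∧
      ∀ m, l < m → (FK K fun i => flw m (x i)) < 1 / 2 := by
  have hx' := (Homeo_mem K x 0).1 (by rw [Flow_e0]; exact hx)
  simp only [Homeo_FK]
  exact Homeo_h3 (famK_down hK _) _ hx'.1 hx'.2

theorem Flow_h4 (hK : Down K) (x : Fin D → ℝ) (hx : FK K x = 1 / 2) :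
    ∃ l, (fun i => flw l (x i)) ∈ Re (EK K) := by
  have h1 := Homeo_FK K x 0
  rw [Flow_e0, hx] at h1
  obtain ⟨l, hl⟩ := Homeo_h4 (famK_down hK _) _ h1.symm
  exact ⟨l, (Homeo_mem K x l).2 hl⟩

theorem Flow_h5 (hK : Down K) (x : Fin D → ℝ) (hx : x ∈ Re (EK K)) (l : ℝ)
    (hl : (fun i => flw l (x i)) ∈ Re (EK K)) : l = 0 := by
  have hx' := (Homeo_mem K x 0).1 (by rw [Flow_e0]; exact hx)
  have hl' := (Homeo_mem K x l).1 hl
  exact le_antisymm (Homeo_h5 (famK_down hK _) _ hx'.2 hl'.1)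
    (Homeo_h5 (famK_down hK _) _ hl'.2 hx'.1)

theorem Flow_memW (K : Finset (Cell D)) (x : Fin D → ℝ) (l : ℝ) :
    (fun i => flw l (x i)) ∈ Re (WK K) ↔
      Homeo_lo (fun i => qk (nk (x i)) (x i)) l ∈ (famK K fun i => nk (x i)) := by
  simp only [Re, Set.mem_ofPred_eq, mem_WK, lo_cellOf, nk_flw, qk_flw, famK,
    Finset.mem_filter, Finset.mem_univ, true_and, Homeo_lo]

theorem Flow_h6 (hK : Down K) (x : Fin D → ℝ) (hx : x ∈ Re (EK K)) (m : ℝ) :
    (fun i => flw m (x i)) ∈ Re (WK K) ↔ m ≤ 0 := by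
  have hx' := (Homeo_mem K x 0).1 (by rw [Flow_e0]; exact hx)
  rw [Flow_memW]
  refine ⟨fun h => Homeo_h5 (famK_down hK _) _ hx'.2 h,
    fun h => famK_down hK _ _ hx'.1 _ fun i hi => ?_⟩
  simp only [Homeo_lo, Finset.mem_filter, Finset.mem_univ, true_and] at hi ⊢
  exact hi.trans_le (Homeo_lgs_mono _ h)

theorem Flow_h7 (hK : Down K) (x : Fin D → ℝ) (hx : ¬ ∃ l, (fun i => flw l (x i)) ∈ Re (EK K)) :
    x ∈ Re (WK K) ↔ 1 / 2 ≤ FK K x := by
  have hne : ∀ l, (FK K fun i => flw l (x i)) ≠ 1 / 2 := fun l h => by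
    obtain ⟨m, hm⟩ := Flow_h4 hK _ h
    exact hx ⟨m + l, by simpa only [flw_add] using hm⟩
  have e1 := Flow_memW K x 0
  have e2 := Homeo_FK K x 0
  rw [Flow_e0] at e1 e2
  simp only [Homeo_FK] at hne
  rw [e1, e2]
  have h := famK_down hK fun i => nk (x i)
  generalize (famK K fun i => nk (x i)) = 𝒟 at h hne
  generalize (fun i => qk (nk (x i)) (x i)) = q at hne
  have hb := Homeo_g_atBot 𝒟 q
  have ht := Homeo_g_atTop 𝒟 q
  by_cases hO : Finset.univ.filter (fun i => 1 ≤ q i) ∈ 𝒟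
  · by_cases hO' : Finset.univ.filter (fun i => 0 < q i) ∈ 𝒟
    · rw [if_pos hO'] at ht
      have := le_of_tendsto ht ((eventually_ge_atTop (0 : ℝ)).mono fun l hl => Homeo_g_anti h q hl)
      refine iff_of_true (h _ hO' _ fun i hi => ?_) (le_trans (by norm_num) this)
      simp only [Homeo_lo, Finset.mem_filter, Finset.mem_univ, true_and, lgs_zero] at hi ⊢
      linarith
    · rw [if_pos hO] at hb
      rw [if_neg hO'] at ht
      obtain ⟨a, ha⟩ := (hb.eventually (lt_mem_nhds (show (1 / 2 : ℝ) < 1 by norm_num))).exists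
      obtain ⟨b, hb'⟩ := (ht.eventually (gt_mem_nhds (show (0 : ℝ) < 1 / 2 by norm_num))).exists
      have hc : Continuous fun l => pD 𝒟 (Homeo_r q l) := (Homeo_pD_cont 𝒟).comp (Homeo_r_cont q)
      obtain ⟨l, hl⟩ := intermediate_value_univ b a hc ⟨hb'.le, ha.le⟩
      exact absurd hl (hne l)
  · rw [if_neg hO] at hb
    have := ge_of_tendsto hb ((eventually_le_atBot (0 : ℝ)).mono fun l hl => Homeo_g_anti h q hl)
    refine iff_of_false (fun h' => hO (h _ h' _ fun i hi => ?_))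
      (not_le.2 (lt_of_le_of_lt this (by norm_num)))
    simp only [Homeo_lo, Finset.mem_filter, Finset.mem_univ, true_and, lgs_zero] at hi ⊢
    linarith

end Lattice

theorem level_near {D : ℕ} {K : Finset (Cell D)} (hK : Down K) :
    ∃ e : Re (EK K) ≃ₜ {x // FK K x = 1 / 2}, ∀ x, Near x.1 (e x).1 := by
  obtain ⟨T, e, he, -⟩ := Flow_level (fun l (x : Fin D → ℝ) i => flw l (x i)) Flow_e0
    (fun l m x => funext fun i => flw_add _ _ _) Flow_cont (FK K) (contDiff_FK K).continuous (1 / 2)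
    (isCompact_Re (down_EK hK)) (Flow_h3 hK) (Flow_h4 hK) (Flow_h5 hK)
  refine ⟨e, fun x i k => ?_⟩
  rw [he]
  exact Flow_near _ _ k

theorem super_homeo {D : ℕ} {K : Finset (Cell D)} (hK : Down K) :
    Nonempty ({x | 1 / 2 ≤ FK K x} ≃ₜ Re (WK K)) := by
  exact Flow_super (fun l (x : Fin D → ℝ) i => flw l (x i)) Flow_e0
    (fun l m x => funext fun i => flw_add _ _ _) Flow_cont (FK K) (contDiff_FK K).continuous (1 / 2)
    (isCompact_Re (down_EK hK)) (isCompact_Re (down_WK hK)) (Flow_h3 hK) (Flow_h4 hK) (Flow_h5 hK)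
    (Flow_h6 hK) (Flow_h7 hK)

end Pool.Agent.Work.MP_7ba843_gt.N
end

-- merged part: Pool.Agent.Work.MP_7ba843_gt.N.NielA
section
/-! Cancellation in free groups and a freeness criterion.

PLAN. `exists_cancel`: induction on `y.toWord` (or on the length): compare the last letter of
`x.toWord` with the first of `y.toWord`; if they do not cancel, the concatenation is reduced
(`List.isChain_append`). `free_of_cancel`: prove for every reduced word `s :: l` over `ι` that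
`(lift u (mk (s :: l))).toWord = A ++ R` where `(val u s).toWord = A ++ invRev C` and
`2 * C.length = norm (val u s) + norm (val u s') - norm (val u s * val u s')` for the head `s'` of
`l` (`C = []` if `l = []`). Step: with `exists_cancel` for `val u s₀`, `val u s` the cancelled part
`C₀` is strictly shorter than `A` by the hypothesis (for `l = []` use `s'' = s` and
`norm_mul_le`-type bounds), so `A = C₀ ++ B₁`, `B₁ ≠ []`, and `A₀ ++ B₁ ++ R` is reduced by
`IsReduced.append_overlap` and `red_of_inf`. `A ≠ []` by the hypothesis with `s = s'`.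
Never write the Mathlib name ending in dot-i-n-f-i-x: use `red_of_inf`. About 200 lines. -/

namespace Pool.Agent.Work.MP_7ba843_gt.N

variable {α ι : Type} [DecidableEq α]

omit [DecidableEq α] in
theorem NielA_mk_cancel (A C B : List (α × Bool)) :
    FreeGroup.mk (A ++ FreeGroup.invRev C) * FreeGroup.mk (C ++ B) = FreeGroup.mk (A ++ B) := by
  rw [← FreeGroup.mul_mk, ← FreeGroup.mul_mk, ← FreeGroup.mul_mk, ← FreeGroup.inv_mk]
  group

omit [DecidableEq α] in
theorem NielA_list (L₂ : List (α × Bool)) : ∀ L₁ : List (α × Bool), FreeGroup.IsReduced L₁ →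
    FreeGroup.IsReduced L₂ → ∃ A C B : List (α × Bool),
      L₁ = A ++ FreeGroup.invRev C ∧ L₂ = C ++ B ∧ FreeGroup.IsReduced (A ++ B) := by
  induction L₂ with
  | nil => exact fun L₁ h₁ _ => ⟨L₁, [], [], by simp, rfl, by simpa using h₁⟩
  | cons b L ih =>
    intro L₁ h₁ h₂
    by_cases hr : FreeGroup.IsReduced (L₁ ++ b :: L)
    · exact ⟨L₁, [], b :: L, by simp, rfl, hr⟩
    · rcases List.eq_nil_or_concat L₁ with rfl | ⟨L', a, rfl⟩
      · exact absurd h₂ hr
      · rw [List.concat_eq_append] at h₁ hr ⊢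
        have ha : a = (b.1, !b.2) := by
          by_contra c
          apply hr
          have h3 : FreeGroup.IsReduced ([a] ++ b :: L) := by
            refine FreeGroup.isReduced_cons_cons.2 ⟨fun e => ?_, h₂⟩
            by_contra e'
            refine c (Prod.ext e ?_)
            revert e'
            cases a.2 <;> cases b.2 <;> simp
          exact h₁.append_overlap h3 (by simp)
        obtain ⟨A, C, B, e₁, e₂, e₃⟩ := ih L' (red_of_inf h₁ ⟨[], [a], by simp⟩)
          (red_of_inf h₂ ⟨[b], [], by simp⟩)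
        refine ⟨A, b :: C, B, ?_, by rw [e₂]; rfl, e₃⟩
        rw [e₁, ha]
        simp [FreeGroup.invRev]

theorem exists_cancel (x y : FreeGroup α) : ∃ A C B : List (α × Bool),
    x.toWord = A ++ FreeGroup.invRev C ∧ y.toWord = C ++ B ∧ (x * y).toWord = A ++ B := by
  obtain ⟨A, C, B, e₁, e₂, e₃⟩ :=
    NielA_list y.toWord x.toWord FreeGroup.isReduced_toWord FreeGroup.isReduced_toWord
  refine ⟨A, C, B, e₁, e₂, ?_⟩
  have : x * y = FreeGroup.mk (A ++ B) := by
    rw [← NielA_mk_cancel A C B, ← e₁, ← e₂, FreeGroup.mk_toWord, FreeGroup.mk_toWord]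
  rw [this, toWord_mk_red e₃]

theorem NielA_lift_cons {G : Type} [Group G] (u : ι → G) (s : ι × Bool) (l : List (ι × Bool)) :
    FreeGroup.lift u (FreeGroup.mk (s :: l)) = val u s * FreeGroup.lift u (FreeGroup.mk l) := by
  obtain ⟨i, b⟩ := s
  cases b <;> simp [val]

theorem NielA_inv (u : ι → FreeGroup α)
    (h : ∀ s s' s'' : ι × Bool, s' ≠ (s.1, !s.2) → s'' ≠ (s'.1, !s'.2) →
      (val u s).norm + (val u s'').norm <
        (val u s * val u s').norm + (val u s' * val u s'').norm) (l : List (ι × Bool)) :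
    ∀ s : ι × Bool, FreeGroup.IsReduced (s :: l) → ∃ A D R : List (α × Bool),
      (val u s).toWord = A ++ D ∧ (FreeGroup.lift u (FreeGroup.mk (s :: l))).toWord = A ++ R ∧
      ∀ s₀ : ι × Bool, s ≠ (s₀.1, !s₀.2) →
        (val u s₀).norm + (val u s).norm < (val u s₀ * val u s).norm + 2 * A.length := by
  have hne : ∀ s : ι × Bool, s ≠ (s.1, !s.2) := fun s e => by
    have := congrArg Prod.snd e
    simp at this
  induction l with
  | nil =>
    intro s _
    refine ⟨(val u s).toWord, [], [], by simp, ?_, fun s₀ hs => ?_⟩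
    · rw [NielA_lift_cons, ← FreeGroup.one_eq_mk, map_one, mul_one, List.append_nil]
    · have h1 := h s₀ s s hs (hne s)
      have h2 := FreeGroup.norm_mul_le (val u s) (val u s)
      have h3 : (val u s).toWord.length = (val u s).norm := rfl
      omega
  | cons s' l ih =>
    intro s hr
    obtain ⟨hss, hr'⟩ := FreeGroup.isReduced_cons_cons.1 hr
    have hs : s' ≠ (s.1, !s.2) := fun e => by
      have := hss (by rw [e])
      rw [e] at this
      simp at this
    obtain ⟨A', D', R', e₁, e₂, e₃⟩ := ih s' hr'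
    obtain ⟨A, C, B, f₁, f₂, f₃⟩ := exists_cancel (val u s) (val u s')
    have n₁ : (val u s).norm = A.length + C.length := by
      change (val u s).toWord.length = _
      rw [f₁]; simp
    have n₂ : (val u s').norm = C.length + B.length := by
      change (val u s').toWord.length = _
      rw [f₂]; simp
    have n₃ : (val u s * val u s').norm = A.length + B.length := by
      change (val u s * val u s').toWord.length = _
      rw [f₃]; simp
    have hlt : C.length < A'.length := by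
      have := e₃ s hs
      omega
    obtain ⟨B₁, hA, hB⟩ : ∃ B₁, A' = C ++ B₁ ∧ B = B₁ ++ D' := by
      rcases List.append_eq_append_iff.1 (e₁.symm.trans f₂) with ⟨B₁, a, -⟩ | ⟨B₁, a, b⟩
      · rw [a, List.length_append] at hlt
        omega
      · exact ⟨B₁, a, b⟩
    have hB₁ : B₁ ≠ [] := by
      rintro rfl
      simp [hA] at hlt
    have r₁ : FreeGroup.IsReduced (A ++ B₁) := by
      refine red_of_inf (L₂ := A ++ B) (f₃ ▸ FreeGroup.isReduced_toWord) ⟨[], D', ?_⟩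
      simp [hB]
    have r₂ : FreeGroup.IsReduced (B₁ ++ R') := by
      refine red_of_inf (L₂ := A' ++ R') (e₂ ▸ FreeGroup.isReduced_toWord) ⟨C, [], ?_⟩
      simp [hA]
    refine ⟨A, FreeGroup.invRev C, B₁ ++ R', f₁, ?_, fun s₀ hs₀ => ?_⟩
    · have : FreeGroup.lift u (FreeGroup.mk (s :: s' :: l)) = FreeGroup.mk (A ++ (B₁ ++ R')) := by
        rw [NielA_lift_cons, ← NielA_mk_cancel A C, ← f₁, FreeGroup.mk_toWord,
          ← List.append_assoc, ← hA, ← e₂, FreeGroup.mk_toWord]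
      rw [this, toWord_mk_red]
      rw [← List.append_assoc]
      exact r₁.append_overlap r₂ hB₁
    · have := h s₀ s s' hs₀ hs
      omega

theorem free_of_cancel (u : ι → FreeGroup α)
    (h : ∀ s s' s'' : ι × Bool, s' ≠ (s.1, !s.2) → s'' ≠ (s'.1, !s'.2) →
      (val u s).norm + (val u s'').norm <
        (val u s * val u s').norm + (val u s' * val u s'').norm) :
    Function.Injective (FreeGroup.lift u) := by
  classical
  refine (injective_iff_map_eq_one _).2 fun x hx => ?_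
  by_contra hne
  obtain ⟨s, l, e⟩ : ∃ s l, x.toWord = s :: l :=
    List.exists_cons_of_ne_nil fun e => hne (FreeGroup.toWord_eq_nil_iff.1 e)
  obtain ⟨A, D, R, -, e₂, e₃⟩ := NielA_inv u h l s (e ▸ FreeGroup.isReduced_toWord)
  rw [← e, FreeGroup.mk_toWord, hx, FreeGroup.toWord_one] at e₂
  have hA : A = [] := (List.append_eq_nil_iff.1 e₂.symm).1
  have h1 := e₃ s fun e => by
    have := congrArg Prod.snd e
    simp at this
  have h2 := FreeGroup.norm_mul_le (val u s) (val u s)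
  rw [hA, List.length_nil] at h1
  omega

end Pool.Agent.Work.MP_7ba843_gt.N
end

-- merged part: Pool.Agent.Work.MP_7ba843_gt.N.DualA
section
/-! Crossing cocycles.

PLAN. Use `univ` with the group `Equiv.Perm (Y →₀ ZMod 2)`: `act g = mapDomain (g • ·)` is a
homomorphism `U →* Perm _`; send `s` to `Z ↦ single y₀ 1 + act (p s) Z` and the other generators
`γ` to `act (p γ)`; the relator holds since `p c` fixes `y₀` (the `cm` of the first pair is
`act (p (cm (c, s)))`). By `gen`, `f γ Z = act (p γ) Z + f γ 0`; put `u γ = f γ 0`.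
`fox_phi`: the same with `Y = U`, `q.1 ↦ (Z ↦ single 1 1 + act (p q.1) Z)`, meridians `↦ 1` (every
`cm` is then `1`); `f` kills the normal closure, so `v γ = f γ 0` depends only on `p γ`; put
`φ (p γ) = v γ h₀`; `φ (h * p δ) + φ h = v δ (h⁻¹ * h₀)`, finitely supported in `h`.
About 200 lines. -/

namespace Pool.Agent.Work.MP_7ba843_gt.N

variable {P U : Type} [Group P] [Group U]

/-- the action on chains -/
noncomputable def DualA_act (U Y : Type) [Group U] [MulAction U Y] :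
    U →* MulAut (Multiplicative (Y →₀ ZMod 2)) :=
  MonoidHom.mk' (fun g => AddEquiv.toMultiplicative (Finsupp.domCongr (MulAction.toPerm g)))
    fun a b => MulEquiv.ext fun z => by
      rw [show MulAction.toPerm (a * b) = (MulAction.toPerm b).trans (MulAction.toPerm (β := Y) a)
        from Equiv.ext (mul_smul a b), ← Finsupp.domCongr_trans]
      rfl

theorem DualA_app {Y : Type} [MulAction U Y] (g : U) (z : Multiplicative (Y →₀ ZMod 2)) :
    (DualA_act U Y g z).toAdd = z.toAdd.mapDomain (g • ·) :=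
  Finsupp.equivMapDomain_eq_mapDomain _ _

theorem DualA_rel {E : Type} [Group E] (f : P →* E) (L : List (P × P)) :
    rel (L.map (Prod.map f f)) = f (rel L) := by
  rw [rel, rel, map_list_prod, List.map_map, List.map_map]
  exact congrArg (fun g => (L.map g).prod) (funext fun p => by simp [cm])

open SemidirectProduct in
theorem DualA_core {N : Type} [Group N] {φ : U →* MulAut N} {L : List (P × P)} (h : IsSys L)
    (p : P →* U) (L' : List ((N ⋊[φ] U) × (N ⋊[φ] U)))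
    (hl : L'.map (Prod.map rightHom rightHom) = L.map (Prod.map p p)) (hr : rel L' = 1) :
    ∃ f : P →* N ⋊[φ] U, L.map (Prod.map f f) = L' ∧ ∀ γ, (f γ).right = p γ := by
  obtain ⟨f, hf⟩ := h.univ _ L' (by simpa using congrArg List.length hl) hr
  refine ⟨f, hf, fun γ => ?_⟩
  rw [← hf, List.map_map, List.map_inj_left] at hl
  refine DFunLike.congr_fun (MonoidHom.eq_of_eqOn_dense (f := rightHom.comp f) h.gen ?_) γ
  rintro x ⟨q, hq, rfl | rfl⟩
  exacts [congrArg Prod.fst (hl q hq), congrArg Prod.snd (hl q hq)]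

open SemidirectProduct in
theorem cocycle_u {Y : Type} [MulAction U Y] {L : List (P × P)} {c s : P}
    (h : IsSys ((c, s) :: L)) (p : P →* U) (y₀ : Y) (hy : p c • y₀ = y₀) :
    ∃ u : P → (Y →₀ ZMod 2), (∀ γ δ, u (γ * δ) = u γ + (u δ).mapDomain (p γ • ·)) ∧ u c = 0 ∧
      u s = Finsupp.single y₀ 1 ∧ ∀ q ∈ L, u q.1 = 0 ∧ u q.2 = 0 := by
  obtain ⟨f, hf, hr⟩ := DualA_core (φ := DualA_act U Y) h p
    ((inr (p c), inl (.ofAdd (Finsupp.single y₀ 1)) * inr (p s)) ::
      L.map (Prod.map (inr.comp p) (inr.comp p))) (by simp [Function.comp_def]) (by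
      have e : DualA_act U Y (p c) (.ofAdd (Finsupp.single y₀ 1)) = .ofAdd (Finsupp.single y₀ 1) :=
        Multiplicative.toAdd.injective (by
          rw [DualA_app, toAdd_ofAdd, Finsupp.mapDomain_single, hy])
      have e' := inl_aut (φ := DualA_act U Y) (p c) (.ofAdd (Finsupp.single y₀ 1))
      rw [e, map_inv] at e'
      rw [← map_one (inr.comp p), ← h.rel_eq, ← DualA_rel]
      refine congrArg (· * _) ?_
      simp only [cm, Prod.map, MonoidHom.comp_apply]
      rw [mul_inv_rev]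
      nth_rewrite 2 [e']
      group)
  rw [List.map_cons, List.cons.injEq, List.map_inj_left] at hf
  refine ⟨fun γ => (f γ).left.toAdd, fun γ δ => ?_, ?_, ?_, fun q hq => ⟨?_, ?_⟩⟩
  · simp only [map_mul, mul_left, toAdd_mul, DualA_app, hr]
  · exact congrArg (fun x => x.1.left.toAdd) hf.1
  · exact (congrArg (fun x => x.2.left.toAdd) hf.1).trans
      (show _ = Finsupp.single y₀ (1 : ZMod 2) by simp)
  · exact congrArg (fun x => x.1.left.toAdd) (hf.2 q hq)
  · exact congrArg (fun x => x.2.left.toAdd) (hf.2 q hq)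

open Classical SemidirectProduct in
theorem fox_phi {A B : List (P × P)} {q : P × P} (h : IsSys (A ++ q :: B)) (p : P →* U)
    (hp : Function.Surjective p) (hK : Kill p (A ++ q :: B))
    (hker : ∀ γ, p γ = 1 → γ ∈ Subgroup.normalClosure (mers (A ++ q :: B))) (h₀ : U) :
    ∃ φ : U → ZMod 2, AI φ ∧ (∀ h, φ (h * p q.1) + φ h = if h = h₀ then 1 else 0) ∧
      ∀ r ∈ A ++ B, ∀ h, φ (h * p r.1) = φ h := by
  have k1 : ∀ r ∈ A, p r.2 = 1 := fun r hr => hK r (by simp [hr])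
  have k2 : p q.2 = 1 := hK q (by simp)
  have k3 : ∀ r ∈ B, p r.2 = 1 := fun r hr => hK r (by simp [hr])
  let ι : P →* _ ⋊[DualA_act U U] U := inr.comp p
  have k4 : ∀ r ∈ A.map (Prod.map ι ι) ++
      (⟨.ofAdd (Finsupp.single 1 1), p q.1⟩, 1) :: B.map (Prod.map ι ι), r.2 = 1 := by
    simp only [List.forall_mem_append, List.forall_mem_cons, List.forall_mem_map, Prod.map_snd,
      MonoidHom.comp_apply, true_and, ι]
    exact ⟨fun r hr => by rw [k1 r hr, map_one], fun r hr => by rw [k3 r hr, map_one]⟩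
  obtain ⟨f, hf, hr⟩ := DualA_core h p (A.map (Prod.map ι ι) ++
      (⟨.ofAdd (Finsupp.single 1 1), p q.1⟩, 1) :: B.map (Prod.map ι ι))
    (by simp [Function.comp_def, Prod.map, k2, ι]; rfl) (List.prod_eq_one fun x hx => by
      obtain ⟨r, hr, rfl⟩ := List.mem_map.1 hx
      simp [cm, k4 r hr])
  have hk : ∀ γ δ, p γ = p δ → f γ = f δ := fun γ δ e => by
    rw [← mul_inv_eq_one, ← map_inv, ← map_mul]
    refine (Subgroup.normalClosure_le_normal (N := f.ker) ?_) (hker _ (by simp [e]))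
    rintro x ⟨r, hr, rfl⟩
    exact k4 _ (hf ▸ List.mem_map_of_mem hr)
  rw [List.map_append, List.map_cons] at hf
  obtain ⟨e1, e2⟩ := List.append_inj hf (by simp)
  rw [List.cons.injEq] at e2
  rw [List.map_inj_left] at e1 e2
  have key : ∀ g δ, (f (Function.surjInv hp (g * p δ))).left.toAdd h₀ =
      (f (Function.surjInv hp g)).left.toAdd h₀ + (f δ).left.toAdd (g⁻¹ * h₀) := fun g δ => by
    rw [hk _ (Function.surjInv hp g * δ) (by simp [Function.surjInv_eq]), map_mul, mul_left,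
      toAdd_mul, DualA_app, hr, Function.surjInv_eq hp, Finsupp.add_apply,
      ← Finsupp.mapDomain_apply (MulAction.injective g) _ (g⁻¹ * h₀), smul_eq_mul,
      mul_inv_cancel_left]
  refine ⟨fun g => (f (Function.surjInv hp g)).left.toAdd h₀, fun g => ?_, fun g => ?_,
    fun r hr g => ?_⟩
  · obtain ⟨δ, rfl⟩ := hp g
    refine (((f δ).left.toAdd.support.finite_toSet).preimage
      (f := fun g => g⁻¹ * h₀) fun a _ b _ e => by simpa using e).subset fun g hg => ?_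
    exact Finsupp.mem_support_iff.2 fun e => hg (by simp only [key, e, add_zero])
  · have e : (f q.1).left.toAdd = Finsupp.single 1 1 := congrArg (fun x => x.1.left.toAdd) e2.1
    simp only [key, e]
    rw [add_right_comm, CharTwo.add_self_eq_zero, zero_add, Finsupp.single_apply]
    exact if_congr (eq_comm.trans inv_mul_eq_one) rfl rfl
  · have e : (f r.1).left.toAdd = 0 := (List.mem_append.1 hr).elim
      (fun hr => congrArg (fun x => x.1.left.toAdd) (e1 r hr))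
      fun hr => congrArg (fun x => x.1.left.toAdd) (e2.2 r hr)
    simp only [key, e, Finsupp.zero_apply, add_zero]

end Pool.Agent.Work.MP_7ba843_gt.N
end

-- merged part: Pool.Agent.Work.MP_7ba843_gt.N.FP
section
/-! The normal form in a free product with a cyclic group, and the step of the spelling theorem.

PLAN. `exists_fp`: `Γ = Monoid.CoprodI M` over `Bool` with `M true = A`,
`M false = Multiplicative (ZMod n)` (or an own ping-pong action on reduced lists). Suppose neither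
alternative holds. Induction from the right: for `l = x :: l'` there are `j` with `1 ≤ j < n`, a
prefix `r` of `l` of length `j` of constant sign with the chain property, and a reduced `Word` `W`
whose first index is not `false`, with product `= ι (pre x) * zs z ε ^ j * W.prod`. At the end
compare with the word of `ι _` (`Monoid.CoprodI.Word.equiv`, injectivity of `Word.prod`).
`step`: cut `u` at the letters `b`: `u = u₀ ++ (segs.map fun x => (b, x.1) :: x.2).flatten` with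
`segs ≠ []` and all letters of `u₀`, `x.2` in `Lo`. With `q = π (mk Q)` put
`pre x = if x.1 then 1 else q`, `post x = (if x.1 then q⁻¹ else 1) * π (mk x.2)`. About 300 lines. -/

namespace Pool.Agent.Work.MP_7ba843_gt.N

/-- the two factors -/
def FP_M (A : Type) (n : ℕ) : Bool → Type
  | true => A
  | false => Multiplicative (ZMod n)

instance FP_grp (A : Type) [Group A] (n : ℕ) : ∀ b, Group (FP_M A n b)
  | true => inferInstanceAs (Group A)
  | false => inferInstanceAs (Group (Multiplicative (ZMod n)))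

open Monoid.CoprodI in
theorem FP_pp (A : Type) [Group A] (n : ℕ) :
    ∃ (Γ : Type) (_ : Group Γ) (ι : A →* Γ) (z : Γ) (X : Type) (_ : MulAction Γ X) (P : Set X)
      (o : X), z ^ n = 1 ∧ (∀ a ≠ 1, ∀ w ∈ P, ι a • w ∉ P) ∧
        (∀ ε j, j + 1 < n → ∀ w ∉ P, zs z ε ^ (j + 1) • w ∈ P) ∧ ∀ a, ι a • o ∉ P := by
  classical
  have key : ∀ (i : Bool) (m : FP_M A n i) (w : Word (FP_M A n)), m ≠ 1 → w.fstIdx ≠ some i →
      (of m • w).fstIdx = some i := fun i m w h1 h2 => by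
    rw [← Word.cons_eq_smul (h1 := h2) (h2 := h1), Word.fstIdx_cons]
  let κ : Multiplicative (ZMod n) →* Monoid.CoprodI (FP_M A n) := of (M := FP_M A n) (i := false)
  have ho : orderOf (Multiplicative.ofAdd (1 : ZMod n)) = n := by
    rw [orderOf_ofAdd_eq_addOrderOf, ZMod.addOrderOf_one]
  refine ⟨Monoid.CoprodI (FP_M A n), inferInstance, of (M := FP_M A n) (i := true),
    κ (.ofAdd 1), Word (FP_M A n), inferInstance, {w | w.fstIdx = some false}, Word.empty, ?_,
    fun a ha w hw h => ?_, fun ε j hj w hw => ?_, fun a h => ?_⟩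
  · rw [← map_pow, pow_eq_one_iff_modEq.2 (by rw [ho]; exact Nat.modEq_zero_iff_dvd.2 dvd_rfl),
      map_one]
  · exact absurd ((key true a w ha fun e => absurd (e.symm.trans hw) (by decide)).symm.trans h)
      (by decide)
  · have h1 := pow_ne_one_of_lt_orderOf j.succ_ne_zero (ho.symm ▸ hj)
    cases ε
    · simp only [zs, Bool.false_eq_true, if_false, inv_pow, ← map_pow, ← map_inv]
      exact key false _ w (inv_ne_one.2 h1) hw
    · simp only [zs, if_true, ← map_pow]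
      exact key false _ w h1 hw
  · by_cases e : a = 1
    · rw [e, map_one, one_smul] at h
      exact absurd h (by simp [Word.fstIdx])
    · exact absurd ((key true a _ e (by simp [Word.fstIdx])).symm.trans h) (by decide)

theorem exists_fp (A : Type) [Group A] {n : ℕ} (hn : 2 ≤ n) :
    ∃ (Γ : Type) (_ : Group Γ) (ι : A →* Γ) (z : Γ), z ^ n = 1 ∧
      ∀ (σ : Type) (pre post : σ → A) (sg : σ → Bool) (l : List σ) (a : A), l ≠ [] →
        (l.map fun x => ι (pre x) * zs z (sg x) * ι (post x)).prod = ι a →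
        (∃ (l₁ : List σ) (x y : σ) (l₂ : List σ), l = l₁ ++ x :: y :: l₂ ∧ post x * pre y = 1 ∧ sg y = !sg x) ∨
        ∃ (l₁ r l₂ : List σ) (ε : Bool), l = l₁ ++ r ++ l₂ ∧ r.length = n ∧ (∀ x ∈ r, sg x = ε) ∧
          r.IsChain fun x y => post x * pre y = 1 := by
  obtain ⟨Γ, _, ι, z, X, _, P, o, h1, h2, h3, h4⟩ := FP_pp A n
  refine ⟨Γ, inferInstance, ι, z, h1, fun σ pre post sg l a hl e => ?_⟩
  by_contra hc
  obtain ⟨x, l, rfl⟩ := List.exists_cons_of_ne_nil hl
  suffices h : ∃ r l₂, ∃ w ∉ P, l = r ++ l₂ ∧ r.length + 1 < n ∧ (∀ y ∈ x :: r, sg y = sg x) ∧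
      (x :: r).IsChain (fun x y => post x * pre y = 1) ∧
      ((x :: l).map fun x => ι (pre x) * zs z (sg x) * ι (post x)).prod • o =
        ι (pre x) • zs z (sg x) ^ (r.length + 1) • w by
    obtain ⟨r, -, w, hw, -, hr, -, -, h⟩ := h
    refine h4 ((pre x)⁻¹ * a) ?_
    rw [map_mul, mul_smul, ← e, h, map_inv, inv_smul_smul]
    exact h3 _ _ hr w hw
  clear e hl
  induction l generalizing x with
  | nil => exact ⟨[], [], _, h4 (post x), rfl, hn, by simp, by simp, by simp [mul_smul]⟩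
  | cons y l ih =>
    obtain ⟨r, l₂, w, hw, rfl, k1, k2, k3, k4⟩ := ih y fun h => hc (h.imp
      (fun ⟨l₁, u, v, l₂, e, h⟩ => ⟨x :: l₁, u, v, l₂, congrArg _ e, h⟩)
      fun ⟨l₁, r, l₂, ε, e, h⟩ => ⟨x :: l₁, r, l₂, ε, congrArg _ e, h⟩)
    rw [List.map_cons, List.prod_cons, mul_smul, k4, mul_smul, mul_smul, smul_smul (ι _) (ι _),
      ← map_mul]
    by_cases e : post x * pre y = 1
    · have e1 : sg y = sg x := by
        by_contra n
        exact hc (.inl ⟨[], x, y, _, rfl, e, Bool.eq_not.2 n⟩)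
      have e2 : ∀ u ∈ x :: y :: r, sg u = sg x :=
        List.forall_mem_cons.2 ⟨rfl, fun u hu => (k2 u hu).trans e1⟩
      refine ⟨y :: r, l₂, w, hw, rfl, lt_of_le_of_ne k1 fun n => ?_, e2, k3.cons_cons e, ?_⟩
      · exact hc (.inr ⟨[], x :: y :: r, l₂, sg x, rfl, n, e2, k3.cons_cons e⟩)
      · rw [e, map_one, one_smul, e1, smul_smul (zs z _), ← pow_succ', List.length_cons]
    · exact ⟨[], _, _, h2 _ e _ (h3 (sg y) _ k1 w hw), rfl, hn, by simp, by simp, by simp⟩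

theorem FP_cut (b : ℤ) (Lo : ℤ → Prop) (u : List (ℤ × Bool)) (hu : ∀ x ∈ u, Lo x.1 ∨ x.1 = b) :
    ∃ (u₀ : List (ℤ × Bool)) (s : List (Bool × List (ℤ × Bool))),
      u = u₀ ++ (s.map fun x => (b, x.1) :: x.2).flatten ∧ (∀ x ∈ u₀, Lo x.1 ∧ x.1 ≠ b) ∧
        ∀ y ∈ s, ∀ x ∈ y.2, Lo x.1 := by
  induction u with
  | nil => exact ⟨[], [], rfl, by simp, by simp⟩
  | cons x u ih =>
    obtain ⟨u₀, s, rfl, h1, h2⟩ := ih fun y hy => hu y (List.mem_cons_of_mem _ hy)
    by_cases e : x.1 = b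
    · exact ⟨[], (x.2, u₀) :: s, by simp [← e], by simp,
        List.forall_mem_cons.2 ⟨fun y hy => (h1 y hy).1, h2⟩⟩
    · exact ⟨x :: u₀, s, rfl,
        List.forall_mem_cons.2 ⟨⟨(hu x List.mem_cons_self).resolve_right e, e⟩, h1⟩, h2⟩

theorem FP_run (b : ℤ) (ε : Bool) (G : List (ℤ × Bool) → Prop) (r : List (Bool × List (ℤ × Bool)))
    (x : Bool × List (ℤ × Bool)) (h1 : ∀ y ∈ x :: r, y.1 = ε)
    (h2 : (x :: r).IsChain fun x _ => G x.2) :
    ∃ (us : List (List (ℤ × Bool))) (t : List (ℤ × Bool)), us.length = r.length ∧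
      (∀ u ∈ us, G u) ∧ ((x :: r).map fun x => (b, x.1) :: x.2).flatten =
        (b, ε) :: (us.map (· ++ [(b, ε)])).flatten ++ t := by
  have e := h1 x List.mem_cons_self
  induction r generalizing x with
  | nil => exact ⟨[], x.2, rfl, by simp, by simp [e]⟩
  | cons y r ih =>
    obtain ⟨k1, k2⟩ := List.isChain_cons_cons.1 h2
    obtain ⟨us, t, k3, k4, k5⟩ := ih y (fun u hu => h1 u (List.mem_cons_of_mem _ hu)) k2
      (h1 y (by simp))
    refine ⟨x.2 :: us, t, congrArg (· + 1) k3, List.forall_mem_cons.2 ⟨k1, k4⟩, ?_⟩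
    rw [List.map_cons, List.flatten_cons, k5]
    simp [e]

theorem FP_cons (i : ℤ) (ε : Bool) (l : List (ℤ × Bool)) :
    FreeGroup.mk ((i, ε) :: l) = zs (FreeGroup.of i) ε * FreeGroup.mk l := by
  cases ε <;> rfl

theorem step {A : Type} [Group A] {n : ℕ} (hn : 2 ≤ n) (π : FreeGroup ℤ →* A) (b : ℤ)
    (Q : List (ℤ × Bool)) (Lo : ℤ → Prop)
    (hρ : ∀ (Γ : Type) [Group Γ] (ι : A →* Γ) (z : Γ), z ^ n = 1 → ∃ ρ : A →* Γ,
      (∀ i, Lo i → ρ (π (FreeGroup.of i)) = ι (π (FreeGroup.of i))) ∧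
      ρ (π (FreeGroup.of b)) = z * (ι (π (FreeGroup.mk Q)))⁻¹)
    {u v : List (ℤ × Bool)} (hu : ∀ x ∈ u, Lo x.1 ∨ x.1 = b) (hb : ∃ x ∈ u, x.1 = b)
    (hv : ∀ x ∈ v, Lo x.1) (e : π (FreeGroup.mk u) = π (FreeGroup.mk v)) :
    (∃ ε u', (b, ε) :: u' ++ [(b, !ε)] <:+: u ∧ π (FreeGroup.mk u') = 1) ∨
    ∃ (ε : Bool) (us : List (List (ℤ × Bool))), us.length = n - 1 ∧
      (∀ u' ∈ us, (∀ x ∈ u', Lo x.1) ∧ π (FreeGroup.mk u') = π (FreeGroup.mk (Qe ε Q))) ∧
      (b, ε) :: (us.map (· ++ [(b, ε)])).flatten <:+: u := by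
  obtain ⟨Γ, _, ι, z, hz, H⟩ := exists_fp A hn
  obtain ⟨ρ, h1, h2⟩ := hρ Γ ι z hz
  have k1 : ∀ l : List (ℤ × Bool), (∀ x ∈ l, Lo x.1) →
      ρ (π (FreeGroup.mk l)) = ι (π (FreeGroup.mk l)) := fun l hl => by
    induction l with
    | nil => simp [← FreeGroup.one_eq_mk]
    | cons x l ih =>
      obtain ⟨i, ε⟩ := x
      have := h1 i (hl _ List.mem_cons_self)
      have := ih fun y hy => hl y (List.mem_cons_of_mem _ hy)
      cases ε <;> simp [FP_cons, zs, *]
  obtain ⟨u₀, s, rfl, h3, h4⟩ := FP_cut b Lo u hu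
  have k2 : ∀ s : List (Bool × List (ℤ × Bool)), (∀ y ∈ s, ∀ x ∈ y.2, Lo x.1) →
      (s.map fun x => ι (if x.1 then 1 else π (FreeGroup.mk Q)) * zs z x.1 *
        ι ((if x.1 then (π (FreeGroup.mk Q))⁻¹ else 1) * π (FreeGroup.mk x.2))).prod =
      ρ (π (FreeGroup.mk (s.map fun x => (b, x.1) :: x.2).flatten)) := fun s hs => by
    induction s with
    | nil => simp [← FreeGroup.one_eq_mk]
    | cons x s ih =>
      obtain ⟨ε, l⟩ := x
      rw [List.map_cons, List.map_cons, List.prod_cons, List.flatten_cons, ← FreeGroup.mul_mk,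
        ih fun y hy => hs y (List.mem_cons_of_mem _ hy), map_mul π, map_mul ρ, FP_cons, map_mul π,
        map_mul ρ, k1 l (hs _ List.mem_cons_self)]
      cases ε <;> simp [zs, h2, mul_assoc]
  refine (H _ _ _ _ s ((π (FreeGroup.mk u₀))⁻¹ * π (FreeGroup.mk v)) ?_ ((k2 s h4).trans ?_)).imp
    ?_ ?_
  · rintro rfl
    obtain ⟨x, hx, e⟩ := hb
    exact (h3 x (by simpa using hx)).2 e
  · rw [map_mul, map_inv, ← k1 v hv, ← e, ← FreeGroup.mul_mk, map_mul, map_mul,
      k1 u₀ fun x hx => (h3 x hx).1, inv_mul_cancel_left]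
  · rintro ⟨l₁, ⟨ε, x⟩, ⟨δ, y⟩, l₂, rfl, h5, rfl : δ = !ε⟩
    refine ⟨ε, x, ⟨u₀ ++ (l₁.map fun x => (b, x.1) :: x.2).flatten,
      y ++ (l₂.map fun x => (b, x.1) :: x.2).flatten, by simp⟩, ?_⟩
    cases ε
    · simpa using h5
    · simpa [mul_assoc, inv_mul_eq_one] using h5
  · rintro ⟨l₁, r, l₂, ε, rfl, h5, h6, h7⟩
    obtain ⟨x, r, rfl⟩ := List.exists_cons_of_length_pos (l := r) (by omega)
    obtain ⟨us, t, k3, k4, k5⟩ := FP_run b ε (fun u' => (∀ x ∈ u', Lo x.1) ∧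
      π (FreeGroup.mk u') = π (FreeGroup.mk (Qe ε Q))) r x h6 (h7.imp_of_mem_imp
        fun p q hp hq h => ⟨h4 p (List.mem_append_left _ (List.mem_append_right _ hp)), by
          rw [h6 p hp, h6 q hq] at h
          cases ε
          · simpa [Qe, ← FreeGroup.inv_mk, mul_eq_one_iff_eq_inv] using h
          · simpa [Qe, inv_mul_eq_iff_eq_mul] using h⟩)
    refine ⟨ε, us, by rw [k3, ← h5]; rfl, k4, u₀ ++ (l₁.map fun x => (b, x.1) :: x.2).flatten,
      t ++ (l₂.map fun x => (b, x.1) :: x.2).flatten, ?_⟩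
    rw [List.map_append, List.map_append, List.flatten_append, List.flatten_append, k5]
    simp only [List.append_assoc]

end Pool.Agent.Work.MP_7ba843_gt.N
end

-- merged part: Pool.Agent.Work.MP_7ba843_gt.N.Rec
section
/-! Homomorphisms on the infinite cyclic cover, defined by recursion on the level.

PLAN. `cj j = of j * mk (sh j Qb)` is conjugate to `of (j + 5) * mk (sh j Qt)`
(`(0, true) :: Qb = A ++ B`, `(5, true) :: Qt = B ++ A`). `lift f (mk l)` depends only on the values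
of `f` at the letters of `l`; `sh j Qt` has levels in `[j, j+4]`, `sh j Qb` in `[j+1, j+5]`.
`rec_up`: a general lemma: if `Φ f i` depends only on `f` below `i`, there is `f` with
`f i = f₀ i` for `i ≤ hi` and `f i = Φ f i` for `hi < i` (iterate
`F (k+1) = update (F k) (hi+k+1) (Φ (F k) (hi+k+1))`); apply it to `i ↦ -i` for `rec_dn`.
`rho_top`: `f₀ i = ι (pb n (of i))` for `i < hi`, `f₀ hi = z * _`; all `cj j ^ n` die (three
cases), use `QuotientGroup.lift`. `free5`: `f = of` on `[j, j+4]`, extend down, then up, so that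
every `cj` dies. About 250 lines. -/

namespace Pool.Agent.Work.MP_7ba843_gt.N

theorem Rec_congr {Γ : Type} [Group Γ] {φ ψ : FreeGroup ℤ →* Γ} {l : List (ℤ × Bool)}
    (h : ∀ x ∈ l, φ (FreeGroup.of x.1) = ψ (FreeGroup.of x.1)) :
    φ (FreeGroup.mk l) = ψ (FreeGroup.mk l) := by
  induction l with
  | nil => rw [← FreeGroup.one_eq_mk, map_one, map_one]
  | cons x l ih =>
    have e : FreeGroup.mk (x :: l) = FreeGroup.mk [x] * FreeGroup.mk l := rfl
    have h1 := h x (by simp)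
    rw [e, map_mul, map_mul, ih fun y hy => h y (by simp [hy])]
    congr 1
    obtain ⟨a, b⟩ := x
    cases b
    · have e2 : FreeGroup.mk [(a, false)] = (FreeGroup.of a)⁻¹ := rfl
      rw [e2, map_inv, map_inv, h1]
    · exact h1

theorem Rec_sh {j a b : ℤ} {Q : List (ℤ × Bool)} (h : ∀ x ∈ Q, a ≤ x.1 ∧ x.1 ≤ b)
    {x : ℤ × Bool} (hx : x ∈ sh j Q) : j + a ≤ x.1 ∧ x.1 ≤ j + b := by
  obtain ⟨y, hy, rfl⟩ := List.mem_map.1 hx
  have := h y hy
  simp only
  omega

theorem Rec_Qt {j : ℤ} {x : ℤ × Bool} (hx : x ∈ sh j Qt) : j + 0 ≤ x.1 ∧ x.1 ≤ j + 4 :=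
  Rec_sh (by decide) hx

theorem Rec_Qb {j : ℤ} {x : ℤ × Bool} (hx : x ∈ sh j Qb) : j + 1 ≤ x.1 ∧ x.1 ≤ j + 5 :=
  Rec_sh (by decide) hx

theorem Rec_Q {j : ℤ} {x : ℤ × Bool} (hx : x ∈ sh j ((0, true) :: Qb)) :
    j + 0 ≤ x.1 ∧ x.1 ≤ j + 5 :=
  Rec_sh (by decide) hx

theorem Rec_bot (j : ℤ) : cj j = FreeGroup.of j * FreeGroup.mk (sh j Qb) := by
  rw [cj, FreeGroup.of, FreeGroup.mul_mk, sh, List.map_cons, zero_add]
  rfl

theorem Rec_top (j : ℤ) :
    ∃ a, cj j = a * (FreeGroup.of (j + 5) * FreeGroup.mk (sh j Qt)) * a⁻¹ := by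
  refine ⟨FreeGroup.mk (sh j (Qt.drop 2)), ?_⟩
  rw [eq_mul_inv_iff_mul_eq, cj, FreeGroup.of, FreeGroup.mul_mk, FreeGroup.mul_mk,
    FreeGroup.mul_mk, add_comm j]
  rfl

theorem Rec_gen {Γ : Type} (Φ : (ℤ → Γ) → ℤ → Γ)
    (hΦ : ∀ f g i, (∀ k < i, f k = g k) → Φ f i = Φ g i) (f₀ : ℤ → Γ) (hi : ℤ) :
    ∃ f : ℤ → Γ, (∀ i ≤ hi, f i = f₀ i) ∧ ∀ i, hi < i → f i = Φ f i := by
  let F : ℕ → ℤ → Γ := fun k => Nat.rec f₀ (fun _ g i => if i ≤ hi then f₀ i else Φ g i) k
  have F1 : ∀ k i, F (k + 1) i = if i ≤ hi then f₀ i else Φ (F k) i := fun _ _ => rfl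
  have P : ∀ k m : ℕ, k ≤ m → ∀ i ≤ hi + k, F m i = F k i := by
    intro k
    induction k with
    | zero =>
      intro m _ i h
      cases m with
      | zero => rfl
      | succ m => exact (F1 m i).trans (if_pos (by simpa using h))
    | succ k ih =>
      intro m hm i h
      obtain ⟨m, rfl⟩ : ∃ m', m = m' + 1 := ⟨m - 1, by omega⟩
      rw [F1, F1, hΦ _ _ i fun l hl => ih m (by omega) l (by push_cast at h; omega)]
  refine ⟨fun i => F (i - hi).toNat i, fun i h => ?_, fun i h => ?_⟩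
  · exact P 0 _ (Nat.zero_le _) i (by simpa using h)
  · obtain ⟨k, hk⟩ : ∃ k, (i - hi).toNat = k + 1 := ⟨(i - hi).toNat - 1, by omega⟩
    change F (i - hi).toNat i = _
    rw [hk, F1, if_neg (by omega)]
    exact hΦ _ _ i fun l hl => P _ k (by omega) l (by omega)

theorem Rec_lift {Γ : Type} [Group Γ] (n : ℕ) (φ : FreeGroup ℤ →* Γ) (h : ∀ j, φ (cj j) ^ n = 1) :
    ∃ ρ : FreeGroup ℤ ⧸ Nb n →* Γ, ∀ w, ρ (pb n w) = φ w := by
  have : Nb n ≤ φ.ker := Subgroup.normalClosure_le_normal (by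
    rintro _ ⟨j, rfl⟩
    exact (map_pow φ _ _).trans (h j))
  exact ⟨QuotientGroup.lift _ φ this, fun _ => rfl⟩

theorem Rec_die (n : ℕ) (j : ℤ) : pb n (cj j) ^ n = 1 := by
  rw [← map_pow]
  exact (QuotientGroup.eq_one_iff _).2 (Subgroup.subset_normalClosure ⟨j, rfl⟩)

theorem rec_up {Γ : Type} [Group Γ] (f₀ : ℤ → Γ) (hi : ℤ) :
    ∃ f : ℤ → Γ, (∀ i ≤ hi, f i = f₀ i) ∧ ∀ j, hi < j + 5 → FreeGroup.lift f (cj j) = 1 := by
  obtain ⟨f, h1, h2⟩ := Rec_gen (fun f i => (FreeGroup.lift f (FreeGroup.mk (sh (i - 5) Qt)))⁻¹)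
    (fun f g i h => congrArg _ (Rec_congr fun x hx => by
      rw [FreeGroup.lift_apply_of, FreeGroup.lift_apply_of, h _ (by have := Rec_Qt hx; omega)]))
    f₀ hi
  refine ⟨f, h1, fun j hj => ?_⟩
  obtain ⟨a, ha⟩ := Rec_top j
  have := h2 (j + 5) hj
  rw [add_sub_cancel_right] at this
  rw [ha, map_mul, map_mul, map_mul, FreeGroup.lift_apply_of, this, inv_mul_cancel, mul_one,
    ← map_mul, mul_inv_cancel, map_one]

theorem rec_dn {Γ : Type} [Group Γ] (f₀ : ℤ → Γ) (lo : ℤ) :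
    ∃ f : ℤ → Γ, (∀ i, lo ≤ i → f i = f₀ i) ∧ ∀ j < lo, FreeGroup.lift f (cj j) = 1 := by
  obtain ⟨f, h1, h2⟩ := Rec_gen
    (fun f i => (FreeGroup.lift (fun k => f (-k)) (FreeGroup.mk (sh (-i) Qb)))⁻¹)
    (fun f g i h => congrArg _ (Rec_congr fun x hx => by
      rw [FreeGroup.lift_apply_of, FreeGroup.lift_apply_of, h _ (by have := Rec_Qb hx; omega)]))
    (fun k => f₀ (-k)) (-lo)
  refine ⟨fun k => f (-k), fun i h => ?_, fun j hj => ?_⟩
  · exact (h1 (-i) (by omega)).trans (by rw [neg_neg])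
  · have := h2 (-j) (by omega)
    rw [neg_neg] at this
    rw [Rec_bot, map_mul, FreeGroup.lift_apply_of, this, inv_mul_cancel]

theorem rho_top (n : ℕ) (j : ℤ) (Γ : Type) [Group Γ] (ι : FreeGroup ℤ ⧸ Nb n →* Γ) (z : Γ)
    (hz : z ^ n = 1) : ∃ ρ : FreeGroup ℤ ⧸ Nb n →* Γ,
      (∀ i, i < j + 5 → ρ (pb n (FreeGroup.of i)) = ι (pb n (FreeGroup.of i))) ∧
      ρ (pb n (FreeGroup.of (j + 5))) = z * (ι (pb n (FreeGroup.mk (sh j Qt))))⁻¹ := by
  obtain ⟨f, h1, h2⟩ := rec_up (fun i => if i < j + 5 then ι (pb n (FreeGroup.of i)) else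
    z * (ι (pb n (FreeGroup.mk (sh j Qt))))⁻¹) (j + 5)
  have a1 : ∀ i, i < j + 5 → FreeGroup.lift f (FreeGroup.of i) =
      (ι.comp (pb n)) (FreeGroup.of i) := fun i h => by
    rw [FreeGroup.lift_apply_of, h1 i h.le, if_pos h]; rfl
  have a2 : FreeGroup.lift f (FreeGroup.of (j + 5)) =
      z * (ι (pb n (FreeGroup.mk (sh j Qt))))⁻¹ := by
    rw [FreeGroup.lift_apply_of, h1 _ le_rfl, if_neg (lt_irrefl _)]
  obtain ⟨ρ, hρ⟩ := Rec_lift n (FreeGroup.lift f) fun i => by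
    rcases lt_trichotomy i j with h | rfl | h
    · rw [cj, Rec_congr fun x hx => a1 _ (by have := Rec_Q hx; omega), ← cj,
        MonoidHom.comp_apply, ← map_pow, Rec_die, map_one]
    · obtain ⟨a, ha⟩ := Rec_top i
      rw [ha, map_mul, map_mul, map_mul, a2,
        Rec_congr fun x hx => a1 _ (by have := Rec_Qt hx; omega), MonoidHom.comp_apply,
        inv_mul_cancel_right, map_inv, conj_pow, hz, mul_one, mul_inv_cancel]
    · rw [h2 i (by omega), one_pow]
  exact ⟨ρ, fun i h => (hρ _).trans (a1 i h), (hρ _).trans a2⟩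

theorem rho_bot (n : ℕ) (j : ℤ) (Γ : Type) [Group Γ] (ι : FreeGroup ℤ ⧸ Nb n →* Γ) (z : Γ)
    (hz : z ^ n = 1) : ∃ ρ : FreeGroup ℤ ⧸ Nb n →* Γ,
      (∀ i, j < i → ρ (pb n (FreeGroup.of i)) = ι (pb n (FreeGroup.of i))) ∧
      ρ (pb n (FreeGroup.of j)) = z * (ι (pb n (FreeGroup.mk (sh j Qb))))⁻¹ := by
  obtain ⟨f, h1, h2⟩ := rec_dn (fun i => if j < i then ι (pb n (FreeGroup.of i)) else
    z * (ι (pb n (FreeGroup.mk (sh j Qb))))⁻¹) j
  have a1 : ∀ i, j < i → FreeGroup.lift f (FreeGroup.of i) =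
      (ι.comp (pb n)) (FreeGroup.of i) := fun i h => by
    rw [FreeGroup.lift_apply_of, h1 i h.le, if_pos h]; rfl
  have a2 : FreeGroup.lift f (FreeGroup.of j) =
      z * (ι (pb n (FreeGroup.mk (sh j Qb))))⁻¹ := by
    rw [FreeGroup.lift_apply_of, h1 _ le_rfl, if_neg (lt_irrefl _)]
  obtain ⟨ρ, hρ⟩ := Rec_lift n (FreeGroup.lift f) fun i => by
    rcases lt_trichotomy i j with h | rfl | h
    · rw [h2 i h, one_pow]
    · rw [Rec_bot, map_mul, a2,
        Rec_congr fun x hx => a1 _ (by have := Rec_Qb hx; omega), MonoidHom.comp_apply,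
        inv_mul_cancel_right, hz]
    · rw [cj, Rec_congr fun x hx => a1 _ (by have := Rec_Q hx; omega), ← cj,
        MonoidHom.comp_apply, ← map_pow, Rec_die, map_one]
  exact ⟨ρ, fun i h => (hρ _).trans (a1 i h), (hρ _).trans a2⟩

theorem free5 (n : ℕ) (j : ℤ) {u v : List (ℤ × Bool)} (hu : ∀ x ∈ u, j ≤ x.1 ∧ x.1 ≤ j + 4)
    (hv : ∀ x ∈ v, j ≤ x.1 ∧ x.1 ≤ j + 4)
    (e : pb n (FreeGroup.mk u) = pb n (FreeGroup.mk v)) : FreeGroup.mk u = FreeGroup.mk v := by
  obtain ⟨f, h1, h2⟩ := rec_dn (fun i : ℤ => FreeGroup.of i) j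
  obtain ⟨g, h3, h4⟩ := rec_up f (j + 4)
  obtain ⟨ρ, hρ⟩ := Rec_lift n (FreeGroup.lift g) fun i => by
    rcases lt_or_ge i j with h | h
    · rw [cj, Rec_congr (ψ := FreeGroup.lift f) fun x hx => by
        rw [FreeGroup.lift_apply_of, FreeGroup.lift_apply_of, h3 _ (by have := Rec_Q hx; omega)],
        ← cj, h2 i h, one_pow]
    · rw [h4 i (by omega), one_pow]
  have a : ∀ l : List (ℤ × Bool), (∀ x ∈ l, j ≤ x.1 ∧ x.1 ≤ j + 4) →
      ρ (pb n (FreeGroup.mk l)) = FreeGroup.mk l := fun l hl =>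
    (hρ _).trans (Rec_congr (ψ := MonoidHom.id _) fun x hx => by
      rw [FreeGroup.lift_apply_of, h3 _ (hl x hx).2, h1 _ (hl x hx).1]; rfl)
  rw [← a u hu, e, a v hv]

end Pool.Agent.Work.MP_7ba843_gt.N
end

-- merged part: Pool.Agent.Work.MP_7ba843_gt.N.Spell
section
/-! The spelling theorem in the infinite cyclic cover.

PLAN. Strong induction on `u.length`, both halves together; `Long` passes from an infix to the
word. Top half: `b` = the largest level in `u`, `j = b - 5`, `step` with `Lo = (· < j + 5)`,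
`rho_top`. First alternative: `u' ≠ []` as `u` is reduced, `u'` is reduced and shorter, use the top
half with `v = []`. Second: each `u' ∈ us` is a reduced shorter infix; if one has a level `< j` use
the bottom half with `v = Qe ε (sh j Qt)`; otherwise `free5` and reducedness of
`Qe ε (sh j Qt)` (`toWord_mk_red`) give `u' = Qe ε (sh j Qt)`, so `us` is a `List.replicate`.
The bottom half is symmetric (`rho_bot`, `free5 n (j + 1)`). About 200 lines. -/

namespace Pool.Agent.Work.MP_7ba843_gt.N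

theorem Spell_long {n : ℕ} {u u' : List (ℤ × Bool)} (h : Long n u') (h' : u' <:+: u) :
    Long n u := by
  obtain ⟨j, ε, h | h⟩ := h
  exacts [⟨j, ε, .inl (h.trans h')⟩, ⟨j, ε, .inr (h.trans h')⟩]

theorem Spell_Qe_sh (ε : Bool) (j : ℤ) (Q : List (ℤ × Bool)) :
    Qe ε (sh j Q) = sh j (Qe ε Q) := by
  cases ε <;> simp [Qe, sh, FreeGroup.invRev, List.map_reverse, Function.comp_def]

theorem Spell_red_sh (j : ℤ) {Q : List (ℤ × Bool)} (h : FreeGroup.IsReduced Q) :
    FreeGroup.IsReduced (sh j Q) := by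
  unfold FreeGroup.IsReduced sh at *
  rw [List.isChain_map]
  exact h.imp fun a b hab e => hab (by simpa using e)

theorem Spell_mem_sh {j lo : ℤ} {Q : List (ℤ × Bool)} (h : ∀ x ∈ Q, lo ≤ x.1 ∧ x.1 ≤ lo + 4) :
    ∀ x ∈ sh j Q, j + lo ≤ x.1 ∧ x.1 ≤ j + lo + 4 := by
  intro x hx
  obtain ⟨y, hy, rfl⟩ := List.mem_map.1 hx
  have := h y hy
  constructor <;> simp only <;> omega

theorem Spell_Qt (ε : Bool) (j : ℤ) : FreeGroup.IsReduced (Qe ε (sh j Qt)) ∧
    ∀ x ∈ Qe ε (sh j Qt), j + 0 ≤ x.1 ∧ x.1 ≤ j + 0 + 4 := by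
  rw [Spell_Qe_sh]
  refine ⟨Spell_red_sh j ?_, Spell_mem_sh ?_⟩
  · unfold FreeGroup.IsReduced; cases ε <;> decide
  · cases ε <;> decide

theorem Spell_Qb (ε : Bool) (j : ℤ) : FreeGroup.IsReduced (Qe ε (sh j Qb)) ∧
    ∀ x ∈ Qe ε (sh j Qb), j + 1 ≤ x.1 ∧ x.1 ≤ j + 1 + 4 := by
  rw [Spell_Qe_sh]
  refine ⟨Spell_red_sh j ?_, Spell_mem_sh ?_⟩
  · unfold FreeGroup.IsReduced; cases ε <;> decide
  · cases ε <;> decide

/-- the two halves of the statement -/
def Spell_P (n : ℕ) (u : List (ℤ × Bool)) : Prop :=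
  (∀ v, pb n (FreeGroup.mk u) = pb n (FreeGroup.mk v) → (∃ x ∈ u, ∀ y ∈ v, y.1 < x.1) →
      Long n u) ∧
    (∀ v, pb n (FreeGroup.mk u) = pb n (FreeGroup.mk v) → (∃ x ∈ u, ∀ y ∈ v, x.1 < y.1) →
      Long n u)

theorem Spell_core {n : ℕ} {u : List (ℤ × Bool)} (hu : FreeGroup.IsReduced u)
    (ih : ∀ u' : List (ℤ × Bool), u'.length < u.length → FreeGroup.IsReduced u' → Spell_P n u')
    {b lo : ℤ} {Q : List (ℤ × Bool)}
    (hQ : ∀ ε, FreeGroup.IsReduced (Qe ε Q) ∧ ∀ x ∈ Qe ε Q, lo ≤ x.1 ∧ x.1 ≤ lo + 4)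
    (hrun : ∀ ε, run n b Q ε <:+: u → Long n u) {Lo : ℤ → Prop}
    (h : (∃ ε u', (b, ε) :: u' ++ [(b, !ε)] <:+: u ∧ pb n (FreeGroup.mk u') = 1) ∨
      ∃ (ε : Bool) (us : List (List (ℤ × Bool))), us.length = n - 1 ∧
        (∀ u' ∈ us, (∀ x ∈ u', Lo x.1) ∧
          pb n (FreeGroup.mk u') = pb n (FreeGroup.mk (Qe ε Q))) ∧
        (b, ε) :: (us.map (· ++ [(b, ε)])).flatten <:+: u) : Long n u := by
  rcases h with ⟨ε, u', h1, h2⟩ | ⟨ε, us, h1, h2, h3⟩
  · have i1 : u' <:+: u := List.IsInfix.trans ⟨[(b, ε)], [(b, !ε)], by simp⟩ h1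
    have l1 : u'.length < u.length := by
      have := h1.length_le
      simp only [List.length_append, List.length_cons] at this
      omega
    rcases u' with _ | ⟨x, u'⟩
    · have := red_of_inf hu h1
      simp [FreeGroup.IsReduced] at this
    · refine Spell_long ((ih _ l1 (red_of_inf hu i1)).1 [] ?_ ⟨x, by simp, by simp⟩) i1
      rw [h2, ← FreeGroup.one_eq_mk, map_one]
  · have hin : ∀ u' ∈ us, u' <:+: u ∧ u'.length < u.length := fun u' hu' => by
      have i0 : u' ++ [(b, ε)] <:+: (us.map (· ++ [(b, ε)])).flatten :=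
        List.infix_of_mem_flatten (List.mem_map.2 ⟨u', hu', rfl⟩)
      have i1 : u' ++ [(b, ε)] <:+: u :=
        (i0.trans ⟨[(b, ε)], [], by simp⟩).trans h3
      refine ⟨List.IsInfix.trans ⟨[], [(b, ε)], by simp⟩ i1, ?_⟩
      have := i1.length_le
      simp only [List.length_append, List.length_cons] at this
      omega
    by_cases hc : ∀ u' ∈ us, ∀ x ∈ u', lo ≤ x.1 ∧ x.1 ≤ lo + 4
    · refine hrun ε ?_
      have e : us = List.replicate (n - 1) (Qe ε Q) := by
        refine List.eq_replicate_iff.2 ⟨h1, fun u' hu' => ?_⟩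
        have := free5 n lo (hc u' hu') (hQ ε).2 (h2 u' hu').2
        rw [← toWord_mk_red (red_of_inf hu (hin u' hu').1), this, toWord_mk_red (hQ ε).1]
      rw [e, List.map_replicate] at h3
      exact h3
    · push Not at hc
      obtain ⟨u', hu', x, hx, hxl⟩ := hc
      obtain ⟨i1, l1⟩ := hin u' hu'
      have p := ih u' l1 (red_of_inf hu i1)
      refine Spell_long ?_ i1
      by_cases c : lo ≤ x.1
      · refine p.1 _ (h2 u' hu').2 ⟨x, hx, fun y hy => ?_⟩
        have := (hQ ε).2 y hy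
        have := hxl c
        omega
      · refine p.2 _ (h2 u' hu').2 ⟨x, hx, fun y hy => ?_⟩
        have := (hQ ε).2 y hy
        omega

theorem spell_Z {n : ℕ} (hn : 2 ≤ n) (u : List (ℤ × Bool)) (hu : FreeGroup.IsReduced u) :
    (∀ v, pb n (FreeGroup.mk u) = pb n (FreeGroup.mk v) → (∃ x ∈ u, ∀ y ∈ v, y.1 < x.1) →
      Long n u) ∧
    (∀ v, pb n (FreeGroup.mk u) = pb n (FreeGroup.mk v) → (∃ x ∈ u, ∀ y ∈ v, x.1 < y.1) →
      Long n u) := by
  change Spell_P n u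
  induction hN : u.length using Nat.strong_induction_on generalizing u with
  | _ N ih =>
  subst hN
  have ih' : ∀ u' : List (ℤ × Bool), u'.length < u.length → FreeGroup.IsReduced u' →
      Spell_P n u' := fun u' h1 h2 => ih _ h1 u' h2 rfl
  refine ⟨fun v e ⟨x, hx, hxv⟩ => ?_, fun v e ⟨x, hx, hxv⟩ => ?_⟩
  · obtain ⟨x0, h0, hmax⟩ := Finset.exists_max_image u.toFinset (fun y => y.1)
      ⟨x, List.mem_toFinset.2 hx⟩
    simp only [List.mem_toFinset] at h0 hmax
    obtain ⟨j, hj⟩ : ∃ j, x0.1 = j + 5 := ⟨x0.1 - 5, by ring⟩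
    refine Spell_core (Lo := (· < j + 5)) hu ih' (fun ε => Spell_Qt ε j)
      (fun ε h => ⟨j, ε, .inl h⟩)
      (step hn (pb n) (j + 5) (sh j Qt) (· < j + 5) (fun Γ _ ι z hz => rho_top n j Γ ι z hz)
        (fun y hy => ?_) ⟨x0, h0, hj⟩ (fun y hy => ?_) e)
    · have := hmax y hy; omega
    · have := hmax x hx; have := hxv y hy; omega
  · obtain ⟨x0, h0, hmin⟩ := Finset.exists_min_image u.toFinset (fun y => y.1)
      ⟨x, List.mem_toFinset.2 hx⟩
    simp only [List.mem_toFinset] at h0 hmin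
    refine Spell_core (Lo := (x0.1 < ·)) hu ih' (fun ε => Spell_Qb ε x0.1)
      (fun ε h => ⟨x0.1, ε, .inr h⟩)
      (step hn (pb n) x0.1 (sh x0.1 Qb) (x0.1 < ·) (fun Γ _ ι z hz => rho_bot n x0.1 Γ ι z hz)
        (fun y hy => ?_) ⟨x0, h0, rfl⟩ (fun y hy => ?_) e)
    · have := hmin y hy; omega
    · have := hmin x hx; have := hxv y hy; omega

end Pool.Agent.Work.MP_7ba843_gt.N
end

-- merged part: Pool.Agent.Work.MP_7ba843_gt.N.Tr
section
/-! The spelling theorem for the one-relator group.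

PLAN. `lv i w`: the word of levels of `w` started at height `i` (`(0, ε) ↦ (i, ε)`, `(1, true)`
raises, `(1, false)` lowers the height), `ht w` the exponent of `t`. (1) Action of `F2` on
`ℤ × (FreeGroup ℤ ⧸ Nb n)` by `a • (i, g) = (i, pb (of i) * g)`, `t • (i, g) = (i - 1, g)`
(`FreeGroup.lift` into `Equiv.Perm`): `mk w • (i + ht w, g) = (i, pb (mk (lv i w)) * g)`;
`lv i (Cw false true) = sh i (Qb ++ [(0, true)])`, conjugate to `cj i`, so `cc ^ n` and then `NN n`
act trivially: `ht w = 0`, `pb (mk (lv 0 w)) = 1`. (2) A reduced word with `lv i w = []` is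
`tp (ht w)`. (3) If `w` is reduced and `lv i w = Z ++ Y` then `w = ex i Z ++ w₂` with
`lv (last level of Z, or i) w₂ = Y` (induction); in particular `lv i w` is reduced (two adjacent
letters of equal level are adjacent in `w`) and nonempty if `w ≠ []`, `ht w = 0`.
(4) `ex i (Z ++ Z') = ex i Z ++ ex (last) Z'`, `ex (i + j) (sh j Z) = ex i Z`, `Qe` commutes with
`sh`. Then `spell_Z` with `v = []`. About 300 lines. -/

namespace Pool.Agent.Work.MP_7ba843_gt.N

/-- the last level of a word started at level `i` -/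
def Tr_lst : ℤ → List (ℤ × Bool) → ℤ
  | i, [] => i
  | _, x :: l => Tr_lst x.1 l

theorem Tr_ex_append (i : ℤ) (A B : List (ℤ × Bool)) :
    ex i (A ++ B) = ex i A ++ ex (Tr_lst i A) B := by
  induction A generalizing i with
  | nil => rfl
  | cons x l ih => simp [ex, Tr_lst, ih]

theorem Tr_lst_concat (i : ℤ) (A : List (ℤ × Bool)) (x : ℤ × Bool) :
    Tr_lst i (A ++ [x]) = x.1 := by
  induction A generalizing i with
  | nil => rfl
  | cons y l ih => exact ih _

theorem Tr_ex_sh (i j : ℤ) (Z : List (ℤ × Bool)) : ex (i + j) (sh j Z) = ex i Z := by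
  induction Z generalizing i with
  | nil => rfl
  | cons x l ih =>
    have := ih x.1
    simp only [sh, List.map_cons, ex] at this ⊢
    rw [this, add_sub_add_right_eq_sub]

theorem Tr_Qe_sh (ε : Bool) (j b : ℤ) (Q : List (ℤ × Bool)) :
    Qe ε (sh j Q) ++ [(b + j, ε)] = sh j (Qe ε Q ++ [(b, ε)]) := by
  cases ε <;> simp [Qe, sh, FreeGroup.invRev, Function.comp_def]

theorem Tr_ex_rep (b : ℤ) (X : List (ℤ × Bool)) (ε : Bool) (m : ℕ) :
    ex b (List.replicate m (X ++ [(b, ε)])).flatten =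
      (List.replicate m (ex b (X ++ [(b, ε)]))).flatten := by
  induction m with
  | zero => rfl
  | succ m ih =>
    rw [List.replicate_succ, List.flatten_cons, Tr_ex_append, Tr_lst_concat, ih,
      List.replicate_succ, List.flatten_cons]

theorem Tr_run {n : ℕ} {b j : ℤ} {Q u : List (ℤ × Bool)} {ε : Bool}
    (h : run n (b + j) (sh j Q) ε <:+: u) (i : ℤ) (R : List (Fin 2 × Bool)) :
    (List.replicate (n - 1) (ex b (Qe ε Q ++ [(b, ε)]))).flatten <:+: ex i u ++ R := by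
  obtain ⟨A, B, rfl⟩ := h
  rw [Tr_ex_append i, Tr_ex_append i, run, ex, Tr_ex_rep, Tr_Qe_sh, Tr_ex_sh]
  exact ⟨ex i A ++ tp (b + j - Tr_lst i A) ++ [(0, ε)], ex _ B ++ R, by
    simp only [List.append_assoc, List.cons_append, List.nil_append]
    rfl⟩

theorem Tr_tp_cons {δ : Bool} {m : ℤ} {R : List (Fin 2 × Bool)}
    (h : FreeGroup.IsReduced ((1, δ) :: (tp m ++ R))) :
    (1, δ) :: tp m = tp (m + if δ then 1 else -1) := by
  rcases lt_trichotomy m 0 with hm | rfl | hm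
  · obtain ⟨k, rfl⟩ : ∃ k : ℕ, m = -(k + 1) := ⟨(-m - 1).toNat, by omega⟩
    have e1 : (-((k : ℤ) + 1)).natAbs = k + 1 := by omega
    have e2 : (-((k : ℤ) + 1) + -1).natAbs = k + 1 + 1 := by omega
    have e3 : decide (0 < -((k : ℤ) + 1)) = false := decide_eq_false (by omega)
    have e4 : decide (0 < -((k : ℤ) + 1) + -1) = false := decide_eq_false (by omega)
    rw [tp, e1, e3, List.replicate_succ, List.cons_append] at h
    obtain rfl : δ = false := (FreeGroup.isReduced_cons_cons.1 h).1 rfl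
    rw [if_neg (by simp), tp, tp, e1, e2, e3, e4]
    rfl
  · cases δ <;> rfl
  · obtain ⟨k, rfl⟩ : ∃ k : ℕ, m = k + 1 := ⟨(m - 1).toNat, by omega⟩
    have e1 : ((k : ℤ) + 1).natAbs = k + 1 := by omega
    have e2 : ((k : ℤ) + 1 + 1).natAbs = k + 1 + 1 := by omega
    have e3 : decide (0 < (k : ℤ) + 1) = true := decide_eq_true (by omega)
    have e4 : decide (0 < (k : ℤ) + 1 + 1) = true := decide_eq_true (by omega)
    rw [tp, e1, e3, List.replicate_succ, List.cons_append] at h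
    obtain rfl : δ = true := (FreeGroup.isReduced_cons_cons.1 h).1 rfl
    rw [if_pos rfl, tp, tp, e1, e2, e3, e4]
    rfl

theorem Tr_struct {w : List (Fin 2 × Bool)} (h : FreeGroup.IsReduced w) (i : ℤ) :
    ∃ u k, w = ex i u ++ tp k := by
  induction w generalizing i with
  | nil => exact ⟨[], 0, rfl⟩
  | cons x w ih =>
    have h' : FreeGroup.IsReduced w := red_of_inf h ⟨[x], [], by simp⟩
    obtain ⟨c, δ⟩ := x
    obtain rfl | rfl : c = 0 ∨ c = 1 := by omega
    · obtain ⟨u, k, rfl⟩ := ih h' i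
      exact ⟨(i, δ) :: u, k, by simp [ex, tp]⟩
    · obtain ⟨u, k, rfl⟩ := ih h' (i + if δ then 1 else -1)
      cases u with
      | nil => exact ⟨[], _, Tr_tp_cons (R := []) (by simpa [ex] using h)⟩
      | cons y l =>
        refine ⟨y :: l, k, ?_⟩
        rw [ex, List.append_assoc] at h
        rw [ex, ex, List.append_assoc, List.append_assoc, ← List.cons_append, Tr_tp_cons h]
        congr 2
        ring

theorem Tr_red {u : List (ℤ × Bool)} {i : ℤ} {R : List (Fin 2 × Bool)}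
    (h : FreeGroup.IsReduced (ex i u ++ R)) : FreeGroup.IsReduced u := by
  induction u generalizing i with
  | nil => exact FreeGroup.IsReduced.nil
  | cons x l ih =>
    have h1 : FreeGroup.IsReduced ((0, x.2) :: (ex x.1 l ++ R)) :=
      red_of_inf h ⟨tp (x.1 - i), [], by simp [ex]⟩
    have h2 := ih (i := x.1) (red_of_inf h1 ⟨[(0, x.2)], [], by simp⟩)
    cases l with
    | nil => exact FreeGroup.IsReduced.singleton
    | cons y l =>
      refine FreeGroup.isReduced_cons_cons.2 ⟨fun e => ?_, h2⟩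
      rw [ex, e, sub_self] at h1
      exact (FreeGroup.isReduced_cons_cons.1 h1).1 rfl

/-- the action on the infinite cyclic cover -/
def Tr_rho (n : ℕ) : F2 →* Equiv.Perm (ℤ × (FreeGroup ℤ ⧸ Nb n)) :=
  FreeGroup.lift ![Equiv.prodShear (Equiv.refl ℤ) fun i => Equiv.mulLeft (pb n (FreeGroup.of i)),
    (Equiv.subRight 1).prodCongr (Equiv.refl _)]

theorem Tr_rho_a (n : ℕ) (ε : Bool) (i : ℤ) (g : FreeGroup ℤ ⧸ Nb n) :
    Tr_rho n (FreeGroup.mk [(0, ε)]) (i, g) = (i, pb n (FreeGroup.mk [(i, ε)]) * g) := by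
  have h (g) : Tr_rho n (FreeGroup.of 0) (i, g) = (i, pb n (FreeGroup.of i) * g) := by
    simp [Tr_rho]
  cases ε
  · change Tr_rho n (FreeGroup.of 0)⁻¹ (i, g) = (i, pb n (FreeGroup.of i)⁻¹ * g)
    rw [map_inv, Equiv.Perm.inv_eq_iff_eq, h, map_inv, mul_inv_cancel_left]
  · exact h g

theorem Tr_rho_t (n : ℕ) (δ : Bool) (i : ℤ) (g : FreeGroup ℤ ⧸ Nb n) :
    Tr_rho n (FreeGroup.mk [(1, δ)]) (i, g) = (i - if δ then 1 else -1, g) := by
  have h (i) : Tr_rho n (FreeGroup.of 1) (i, g) = (i - 1, g) := by simp [Tr_rho]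
  cases δ
  · change Tr_rho n (FreeGroup.of 1)⁻¹ (i, g) = (i - -1, g)
    rw [map_inv, Equiv.Perm.inv_eq_iff_eq, h]
    simp
  · exact h i

theorem Tr_rho_tp (n : ℕ) (k i : ℤ) (g : FreeGroup ℤ ⧸ Nb n) :
    Tr_rho n (FreeGroup.mk (tp k)) (i, g) = (i - k, g) := by
  have h (δ : Bool) (m : ℕ) : Tr_rho n (FreeGroup.mk (List.replicate m (1, δ))) (i, g) =
      (i - m * if δ then 1 else -1, g) := by
    induction m with
    | zero => simp [← FreeGroup.one_eq_mk]
    | succ m ih =>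
      rw [List.replicate_succ, ← List.singleton_append, ← FreeGroup.mul_mk, map_mul,
        Equiv.Perm.mul_apply, ih, Tr_rho_t]
      congr 1
      push_cast
      ring
  rw [tp, h]
  congr 2
  by_cases e : 0 < k
  · rw [decide_eq_true e, if_pos rfl]
    omega
  · rw [decide_eq_false e, if_neg (by simp)]
    omega

theorem Tr_rho_ex (n : ℕ) (u : List (ℤ × Bool)) (i : ℤ) (g : FreeGroup ℤ ⧸ Nb n) :
    Tr_rho n (FreeGroup.mk (ex i u)) (Tr_lst i u, g) = (i, pb n (FreeGroup.mk u) * g) := by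
  induction u generalizing i with
  | nil => simp [ex, Tr_lst, ← FreeGroup.one_eq_mk]
  | cons x l ih =>
    rw [ex, Tr_lst, ← List.singleton_append, ← FreeGroup.mul_mk, ← FreeGroup.mul_mk, map_mul,
      map_mul, Equiv.Perm.mul_apply, Equiv.Perm.mul_apply, ih, Tr_rho_a, Tr_rho_tp, sub_sub_cancel,
      ← mul_assoc, ← map_mul, FreeGroup.mul_mk]
    rfl

theorem Tr_ker (n : ℕ) : NN n ≤ (Tr_rho n).ker := by
  refine Subgroup.normalClosure_le_normal (Set.singleton_subset_iff.2 ?_)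
  refine Equiv.ext fun ⟨j, g⟩ => ?_
  have e : FreeGroup.mk (sh j (Qb ++ [(0, true)])) =
      (FreeGroup.of j)⁻¹ * cj j * (FreeGroup.of j)⁻¹⁻¹ := by
    rw [inv_inv, mul_assoc, eq_inv_mul_iff_mul_eq, cj, FreeGroup.of, FreeGroup.mul_mk,
      FreeGroup.mul_mk]
    simp [sh]
  have h1 (g) : Tr_rho n cc (j, g) = (j, pb n (FreeGroup.mk (sh j (Qb ++ [(0, true)]))) * g) := by
    have e1 : Tr_lst j (sh j (Qb ++ [(0, true)])) = j := by
      rw [sh, List.map_append, List.map_singleton, Tr_lst_concat]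
      exact zero_add j
    have e2 : cc = FreeGroup.mk (ex 0 (Qb ++ [(0, true)])) := by
      simp only [cc, Cw, Qe, Bool.false_eq_true, if_false, if_true]
    have e3 := Tr_ex_sh 0 j (Qb ++ [(0, true)])
    rw [zero_add j] at e3
    have := Tr_rho_ex n (sh j (Qb ++ [(0, true)])) j g
    rw [e3, e1] at this
    rw [e2]
    exact this
  have h2 (m : ℕ) : Tr_rho n (cc ^ m) (j, g) =
      (j, pb n (FreeGroup.mk (sh j (Qb ++ [(0, true)])) ^ m) * g) := by
    induction m with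
    | zero => simp
    | succ m ih => rw [pow_succ', map_mul, Equiv.Perm.mul_apply, ih, h1, pow_succ', map_mul, mul_assoc]
  have h3 : pb n (FreeGroup.mk (sh j (Qb ++ [(0, true)])) ^ n) = 1 := by
    rw [e, conj_pow]
    exact (QuotientGroup.eq_one_iff _).2 (Subgroup.Normal.conj_mem inferInstance _
      (Subgroup.subset_normalClosure (Set.mem_range_self (f := fun j => cj j ^ n) j)) _)
  rw [h2, h3, one_mul]
  rfl

theorem spell_F2 {n : ℕ} (hn : 2 ≤ n) {w : F2} (hw : w ∈ NN n) (h1 : w ≠ 1) :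
    ∃ top ε, (List.replicate (n - 1) (Cw top ε)).flatten <:+: w.toWord := by
  obtain ⟨u, k, e⟩ := Tr_struct (FreeGroup.isReduced_toWord (x := w)) 0
  have hu : FreeGroup.IsReduced u := Tr_red (e ▸ FreeGroup.isReduced_toWord (x := w))
  have h2 : Tr_rho n w (Tr_lst 0 u + k, 1) = (0, pb n (FreeGroup.mk u) * 1) := by
    rw [← FreeGroup.mk_toWord (x := w), e, ← FreeGroup.mul_mk, map_mul, Equiv.Perm.mul_apply,
      Tr_rho_tp, add_sub_cancel_right, Tr_rho_ex]
  rw [show Tr_rho n w = 1 from Tr_ker n hw, Equiv.Perm.one_apply, Prod.mk.injEq, mul_one] at h2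
  cases u with
  | nil =>
    obtain rfl : k = 0 := by simpa [Tr_lst] using h2.1
    exact absurd (FreeGroup.toWord_eq_nil_iff.1 e) h1
  | cons x l =>
    obtain ⟨j, ε, h | h⟩ := (spell_Z hn _ hu).1 [] (h2.2.symm.trans (map_one _).symm)
      ⟨x, List.mem_cons_self, fun _ hy => absurd hy List.not_mem_nil⟩
    · rw [add_comm] at h
      exact ⟨true, ε, e ▸ Tr_run h 0 _⟩
    · rw [← zero_add j] at h
      nth_rewrite 2 [zero_add j] at h
      exact ⟨false, ε, e ▸ Tr_run h 0 _⟩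

end Pool.Agent.Work.MP_7ba843_gt.N
end
end

-- merged part: Pool.Agent.Work.MP_7ba843_gt.N.CW
section
-- merged part: Pool.Agent.Work.MP_7ba843_gt.N.LatA
section
/-! General facts on lattice complexes.

PLAN. `lpc_cov`: `Re K` is locally path connected, since for small `r` the set `Re K ∩ ball x r` is
star shaped at `x` (`eventually_face`, `cellOf_face_iff`: the segment from `x` to `y` lies in the
closed cell of `y`); `Cov.x` is a covering map, so a local homeomorphism. `exists_mu`: see `hμ` in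
`exists_lattice` (735653/XOut). `gauge`: copy `SCe.scp` (735653/EtoP). `mue_lo`: compute `lo`
coordinatewise (`omega`), `LC.μ_self`. `lift_cell`:
`F ⟨g, x⟩ = ⟨θ g * β a * X'.μ (m a) (cellOf (f x)), f x⟩`, `a = cellOf x`; continuity by
`continuous_lift` (openness of `{p | CLe X c p.cell}` is `CovB_open_st`, and `eventually_face`).
`kap_cont`: `ContinuousOn.comp_fract''`. About 300 lines. -/

namespace Pool.Agent.Work.MP_7ba843_gt.N

open Pool.Agent.Work.MP_735653_gt

variable {D D' : ℕ} {G G' : Type} [Group G] [Group G']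

theorem LatA_re {K : Finset (Cell D)} (hK : Down K) : LocallyPathConnectedSpace (Re K) := by
  refine ⟨fun x => Filter.hasBasis_self.2 fun t ht => ?_⟩
  obtain ⟨r, hr, h1⟩ := Metric.mem_nhds_iff.1 (Filter.inter_mem ht
    (continuous_subtype_val.continuousAt.eventually (eventually_face x.1)))
  refine ⟨Metric.ball x r, Metric.ball_mem_nhds x hr, ?_, fun y hy => (h1 hy).1⟩
  rw [Topology.IsInducing.subtypeVal.isPathConnected_iff]
  refine StarConvex.isPathConnected (a := x.1) ?_ ⟨x, Metric.mem_ball_self hr, rfl⟩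
  rintro _ ⟨y, hy, rfl⟩ a b ha hb hab
  have h2 := cellOf_face_iff.1 (h1 hy).2
  have h3 := cellOf_face_iff.1 (Face.refl (cellOf y.1))
  refine ⟨⟨a • x.1 + b • y.1, hK _ y.2 _ (cellOf_face_iff.2 fun i => ?_)⟩, ?_, rfl⟩
  · exact convex_Icc _ _ (h2 i) (h3 i) ha hb hab
  · exact convex_ball x.1 r (Metric.mem_ball_self hr) hy ha hb hab

theorem LatA_kap (t : ℝ) (k : ℤ) : ((k : ℝ) ≤ (t + 1 / 2) / 4 → ((2 * k : ℤ) : ℝ) ≤ kap t) ∧
    ((t + 1 / 2) / 4 ≤ k + 3 / 4 → kap t ≤ ((2 * k : ℤ) : ℝ)) := by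
  unfold kap
  generalize (t + 1 / 2) / 4 = s
  rw [Int.self_sub_fract]
  push_cast
  refine ⟨fun h => ?_, fun h => ?_⟩
  · have h1 : (k : ℝ) ≤ ⌊s⌋ := Int.cast_le.2 (Int.le_floor.2 h)
    have h2 := le_max_left 0 (4 * Int.fract s - 3)
    linarith
  · have h1 := Int.fract_lt_one s
    have h2 := Int.floor_add_fract s
    rcases lt_or_ge ⌊s⌋ k with h3 | h3
    · have h4 : ((⌊s⌋ + 1 : ℤ) : ℝ) ≤ k := Int.cast_le.2 h3
      have h5 : max 0 (4 * Int.fract s - 3) ≤ 1 := max_le zero_le_one (by linarith)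
      push_cast at h4
      linarith
    · have h4 : (k : ℝ) ≤ ⌊s⌋ := Int.cast_le.2 h3
      have h5 : ⌊s⌋ < k + 1 := Int.floor_lt.2 (by push_cast; linarith)
      have h6 : (⌊s⌋ : ℝ) ≤ k := Int.cast_le.2 (by omega)
      rw [max_eq_left (by linarith)]
      linarith

theorem lpc_cov (X : LC D G) : LocallyPathConnectedSpace (Cov X) := by
  have := LatA_re X.down
  have h := (isQuotientCoveringMap_x X).isCoveringMap.isLocalHomeomorph
  let _ : ChartedSpace (Re X.K) (Cov X) :=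
    { atlas := Set.univ
      chartAt := fun p => (h p).choose
      mem_chart_source := fun p => (h p).choose_spec.1
      chart_mem_atlas := fun _ => Set.mem_univ _ }
  exact ChartedSpace.locallyPathConnectedSpace (Re X.K) (Cov X)

theorem univ_LCv {X : LC D G} (h1 : SCp X) (h2 : Conn X) : (LCv X).Univ :=
  ⟨simplyConnected_cov h1 h2, lpc_cov X⟩

theorem exists_mu {K : Finset (Cell D)} (hK : Down K) {ε : Cell D → Fin D → G} (h : ECoc K ε) :
    ∃ μ, Coc K μ ∧ ∀ v i, Vtx v → v + ee i ∈ K → mue μ v i = ε v i := by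
  obtain ⟨μ, h1, h2⟩ := exists_coc hK h
  refine ⟨μ, h1, fun v i hv hm => ?_⟩
  have hi : (v + ee i) i % 2 = 1 := by
    have := hv i
    simp only [ee, Pi.add_apply, Pi.single_eq_same]
    omega
  have hb : bot (v + ee i) = v := by
    funext j
    have := hv j
    by_cases hj : j = i
    · subst hj
      simp only [bot, ee, Pi.add_apply, Pi.single_eq_same]
      omega
    · simp only [bot, ee, Pi.add_apply, Pi.single_eq_of_ne hj]
      omega
  obtain ⟨h3, h4⟩ := h2 _ hm i hi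
  rw [add_sub_cancel_right] at h3
  rw [add_assoc, ← two_nsmul, hb] at h4
  rw [mue, h3, h4, inv_one, one_mul]

theorem gauge {K : Finset (Cell D)} (hK : Down K) {ψ ψ' : Cell D → Cell D → G} (h1 : Coc K ψ)
    (h2 : Coc K ψ') (h : ∀ v i, Vtx v → v + ee i ∈ K → mue ψ v i = mue ψ' v i) :
    ∃ β : Cell D → G, ∀ a ∈ K, ∀ b, Face b a → ψ a b = β a * ψ' a b * (β b)⁻¹ := by
  have key : ∀ a ∈ K, ∀ v, Vtx v → Face v a →
      ψ a v * (ψ' a v)⁻¹ = ψ a (bot a) * (ψ' a (bot a))⁻¹ := by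
    intro a ha
    refine vtx_induction _ rfl fun v i hv hfa ih => ?_
    rw [← ih, EtoP_mue h1 ha hv hfa, EtoP_mue h2 ha hv hfa, h v i hv (hK a ha _ hfa)]
    group
  refine ⟨fun a => ψ a (bot a) * (ψ' a (bot a))⁻¹, fun a ha b hb => ?_⟩
  beta_reduce
  rw [← key a ha (bot b) (vtx_bot b) ((bot_face b).trans hb), h1 a ha b _ hb (bot_face b),
    h2 a ha b _ hb (bot_face b)]
  group

theorem mue_lo (X : LC D G) {v : Cell D} {i : Fin D} (hv : Vtx v) (h : lo (v + ee i) ∈ X.K) :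
    Vtx (lo v) ∧ (v i % 4 = 2 → lo (v + ee i) = lo v + ee i) ∧
      mue (fun y z => X.μ (lo y) (lo z)) v i = if v i % 4 = 2 then mue X.μ (lo v) i else 1 := by
  have e : ∀ n : ℕ, n ≤ 2 → (v i % 4 = 2 → lo (v + n • ee i) = lo v + n • ee i) ∧
      (¬ v i % 4 = 2 → lo (v + n • ee i) = lo v) := by
    intro n hn
    refine ⟨fun h2 => funext fun j => ?_, fun h2 => funext fun j => ?_⟩ <;>
    · have := hv j
      by_cases hj : j = i
      · subst hj
        simp only [lo, Pi.add_apply, Pi.smul_apply, LCB_ee_self, nsmul_one]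
        split_ifs <;> omega
      · simp only [lo, Pi.add_apply, Pi.smul_apply, LCB_ee_ne hj, smul_zero, add_zero]
  have e1 := e 1 one_le_two
  have e2 := e 2 le_rfl
  rw [one_nsmul] at e1
  refine ⟨fun j => ?_, e1.1, ?_⟩
  · have := hv j
    simp only [lo]
    split_ifs <;> omega
  · unfold mue
    beta_reduce
    split_ifs with h2
    · rw [e1.1 h2, e2.1 h2]
    · rw [e1.2 h2, e2.2 h2, inv_mul_cancel]

theorem lift_cell (X : LC D G) (X' : LC D' G') {f : Re X.K → Re X'.K} (hf : Continuous f)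
    (θ : G →* G') (m : Cell D → Cell D') (β : Cell D → G') (h1 : ∀ a ∈ X.K, m a ∈ X'.K)
    (h2 : ∀ a ∈ X.K, ∀ b, Face b a → Face (m b) (m a))
    (h3 : ∀ x, Face (cellOf (f x).1) (m (cellOf x.1)))
    (h4 : ∀ a ∈ X.K, ∀ b, Face b a → θ (X.μ a b) = β a * X'.μ (m a) (m b) * (β b)⁻¹) :
    ∃ F, Lf (LCv X) (LCv X') f θ F := by
  refine ⟨fun p : Cov X => (⟨θ p.g * β (cellOf p.x.1) * X'.μ (m (cellOf p.x.1))
    (cellOf (f p.x).1), f p.x⟩ : Cov X'), ?_, fun _ => rfl, fun g p => ?_⟩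
  · refine continuous_lift _ (hf.comp Cov.continuous_x) fun z => ?_
    have k1 := (CovB_open_st z.cell).mem_nhds (CLe.refl z.cell)
    have k2 := (continuous_subtype_val.comp (hf.comp Cov.continuous_x)).continuousAt.eventually
      (eventually_face (f z.x).1)
    filter_upwards [k1, k2] with w a1 a2
    refine ⟨a2, ?_⟩
    have a3 : Face (cellOf z.x.1) (cellOf w.x.1) := a1.1
    have a4 : z.g = w.g * X.μ (cellOf w.x.1) (cellOf z.x.1) := a1.2
    have a5 := X'.coc _ (h1 _ w.x.2) _ _ (h2 _ w.x.2 _ a3) (h3 z.x)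
    have a6 := X'.coc _ (h1 _ w.x.2) _ _ (h3 w.x) a2
    change θ z.g * β (cellOf z.x.1) * X'.μ (m (cellOf z.x.1)) (cellOf (f z.x).1) =
      θ w.g * β (cellOf w.x.1) * X'.μ (m (cellOf w.x.1)) (cellOf (f w.x).1) *
        X'.μ (cellOf (f w.x).1) (cellOf (f z.x).1)
    rw [a4, map_mul, h4 _ w.x.2 _ a3, mul_assoc (θ w.g * β (cellOf w.x.1)), ← a6, a5]
    group
  · refine congrArg (fun g' => Cov.mk g' (f p.x)) ?_
    change θ (g * p.g) * _ * _ = θ g * (θ p.g * _ * _)
    rw [map_mul]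
    simp only [mul_assoc]
    rfl

theorem near_lo {x y : Fin D → ℝ} (h : Near x y) (i : Fin D) :
    2 * (lo (cellOf x) i : ℝ) - 1 / 2 ≤ y i ∧ y i ≤ 2 * (lo (cellOf x) i : ℝ) + 5 / 2 := by
  have h1 := cellOf_face_iff.1 (Face.refl (cellOf x)) i
  have e1 : 2 * lo (cellOf x) i ≤ cellOf x i - cellOf x i % 2 := by
    simp only [lo]
    split_ifs <;> omega
  have e2 : cellOf x i + cellOf x i % 2 ≤ 2 * (lo (cellOf x) i + 1) := by
    simp only [lo]
    split_ifs <;> omega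
  have e3 := ((Int.cast_le (R := ℝ)).2 e1).trans h1.1
  have e4 := h1.2.trans ((Int.cast_le (R := ℝ)).2 e2)
  have k1 := (h i (lo (cellOf x) i)).1 (by exact_mod_cast e3)
  have k2 := (h i (lo (cellOf x) i + 1)).2 (by exact_mod_cast e4)
  push_cast at k2
  exact ⟨k1, by linarith⟩

theorem kap_cont : Continuous kap := by
  have h : Continuous ((fun u : ℝ => -u + max 0 (4 * u - 3)) ∘ Int.fract) :=
    ContinuousOn.comp_fract'' (by fun_prop) (by norm_num)
  have h1 : Continuous fun t : ℝ => (t + 1 / 2) / 4 := by fun_prop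
  refine (continuous_const.mul (h1.add (h.comp h1)) :
    Continuous fun t : ℝ => 2 * ((t + 1 / 2) / 4 + _)).congr fun t => ?_
  simp only [kap, Function.comp, Pi.mul_apply]
  ring

theorem kap_face {y : Fin D → ℝ} {a : Cell D}
    (h : ∀ i, |y i - (2 * (a i : ℝ) + 1)| ≤ 3 / 2 + 2 * ((a i % 2 : ℤ) : ℝ)) :
    Face (cellOf fun i => kap (y i)) a := by
  refine cellOf_face_iff.2 fun i => ?_
  obtain ⟨h1, h2⟩ := abs_le.1 (h i)
  obtain ⟨k, e1, e2⟩ : ∃ k, a i - a i % 2 = 2 * k ∧ a i + a i % 2 = 2 * (k + a i % 2) :=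
    ⟨a i / 2, by omega, by omega⟩
  have e3 : (a i : ℝ) - ((a i % 2 : ℤ) : ℝ) = 2 * k := by exact_mod_cast e1
  rw [e1, e2]
  refine ⟨(LatA_kap _ _).1 (by linarith), (LatA_kap _ _).2 ?_⟩
  rw [Int.cast_add]
  linarith

theorem kap_mem {K : Finset (Cell D)} (hK : Down K) {y : Fin D → ℝ} (h : FK K y ≠ 0) :
    (fun i => kap (y i)) ∈ Re K := by
  obtain ⟨a, ha, h1⟩ := Finset.exists_ne_zero_of_sum_ne_zero h
  refine hK a ha _ (kap_face fun i => ?_)
  have h2 := Finset.prod_ne_zero_iff.1 h1 i (Finset.mem_univ i)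
  have h3 := CovC_mod a i
  unfold psi at h2
  refine abs_le.2 ⟨?_, ?_⟩
  · by_contra e
    rw [Real.smoothTransition.zero_of_nonpos (by linarith),
      Real.smoothTransition.zero_of_nonpos (by linarith)] at h2
    exact h2 (sub_self _)
  · by_contra e
    rw [Real.smoothTransition.one_of_one_le (by linarith),
      Real.smoothTransition.one_of_one_le (by linarith)] at h2
    exact h2 (sub_self _)

end Pool.Agent.Work.MP_7ba843_gt.N
end

-- merged part: Pool.Agent.Work.MP_7ba843_gt.N.Graph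
section
/-! The fundamental group of the comb graph is free.

PLAN. There are no squares in `gr D g`, so `ECoc` is vacuous; `exists_mu`. `SCe` (then
`SCe.scp`): vertices are `(k, h, 0, …)`, `k` even in `[0, 4g+2]`, `h ∈ {0, 2}`. Write
`pt k h : Cell (D+2)` for them. Gauge `f`: the inverse of the product of `ε` along the bottom row
from `(0,0)` to `(k,0)`, then up; `θ = FreeGroup.lift` of the gauged values on the top edges from
`(4j+2, 2)`. `ConnE` (then `ConnE.conn`): `φ γ v ↔ φ γ (0,0)` along the tree, and a top edge gives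
`φ γ 0 ↔ φ (γ * of j) 0`; induction on `FreeGroup`. About 250 lines. -/

namespace Pool.Agent.Work.MP_7ba843_gt.N

open Pool.Agent.Work.MP_735653_gt

theorem dim_gr {D g : ℕ} {a : Cell (D + 2)} (h : a ∈ gr D g) : dim a ≤ 1 := by
  obtain ⟨h1, h2⟩ := mem_gr.1 h
  simp only [Gp, Tt, Tp] at h1
  have : (Finset.univ.filter fun i => a i % 2 = 1).card ≤ 1 := by
    refine Finset.card_le_one.2 fun i hi j hj => Fin.ext ?_
    have k : ∀ i : Fin (D + 2), a i % 2 = 1 → (i.1 = 0 ∧ a 0 % 2 = 1) ∨ (i.1 = 1 ∧ a 1 % 2 = 1) := by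
      rintro ⟨_ | _ | i, hi⟩ k
      · exact .inl ⟨rfl, k⟩
      · exact .inr ⟨rfl, k⟩
      · rw [h2 _ (by simp)] at k
        omega
    have := k i (Finset.mem_filter.1 hi).2
    have := k j (Finset.mem_filter.1 hj).2
    omega
  exact Int.ofNat_le.2 this

/-- points of the plane -/
def Graph_pt {D : ℕ} (k h : ℤ) : Cell (D + 2) :=
  fun i => if i = 0 then k else if i = 1 then h else 0

variable {D g : ℕ}

theorem Graph_0 (k h : ℤ) : (Graph_pt k h : Cell (D + 2)) 0 = k := rfl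

theorem Graph_1 (k h : ℤ) : (Graph_pt k h : Cell (D + 2)) 1 = h := rfl

theorem Graph_ge (k h : ℤ) {i : Fin (D + 2)} (hi : 2 ≤ i.1) : Graph_pt k h i = 0 := by
  rw [Graph_pt, if_neg, if_neg] <;> rintro rfl <;> simp at hi

theorem Graph_mem {k h : ℤ} : Graph_pt k h ∈ gr D g ↔ Gp g k h :=
  mem_gr.trans ⟨fun h => h.1, fun h => ⟨h, fun _ hi => Graph_ge _ _ hi⟩⟩

theorem Graph_ext {a b : Cell (D + 2)} (h0 : a 0 = b 0) (h1 : a 1 = b 1)
    (h : ∀ i : Fin (D + 2), 2 ≤ i.1 → a i = b i) : a = b := by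
  funext i
  rcases i with ⟨_ | _ | i, hi⟩
  exacts [h0, h1, h _ (by simp)]

theorem Graph_ex {a : Cell (D + 2)} (h : a ∈ gr D g) : a = Graph_pt (a 0) (a 1) :=
  Graph_ext rfl rfl fun i hi => ((mem_gr.1 h).2 i hi).trans (Graph_ge _ _ hi).symm

theorem Graph_a0 (k h : ℤ) (c : ℕ) :
    (Graph_pt k h : Cell (D + 2)) + c • ee 0 = Graph_pt (k + c) h := by
  funext i
  by_cases h0 : i = 0 <;> simp [Graph_pt, ee, h0]

theorem Graph_a1 (k h : ℤ) (c : ℕ) :
    (Graph_pt k h : Cell (D + 2)) + c • ee 1 = Graph_pt k (h + c) := by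
  funext i
  by_cases h0 : i = 1 <;> simp [Graph_pt, ee, h0]

theorem Graph_vtx {k h : ℤ} (h0 : k % 2 = 0) (h1 : h % 2 = 0) :
    Vtx (Graph_pt k h : Cell (D + 2)) := fun i => by
  rw [Graph_pt]
  split_ifs <;> omega

theorem Graph_e0 {k h : ℤ} (h1 : Gp g (k + 1) h) : Graph_pt k h + ee 0 ∈ gr D g := by
  rw [← one_nsmul (ee 0), Graph_a0]
  exact Graph_mem.2 h1

theorem Graph_e1 {k h : ℤ} (h1 : Gp g k (h + 1)) : Graph_pt k h + ee 1 ∈ gr D g := by
  rw [← one_nsmul (ee 1), Graph_a1]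
  exact Graph_mem.2 h1

theorem Graph_edge {v : Cell (D + 2)} {i : Fin (D + 2)} (hv : Vtx v) (h : v + ee i ∈ gr D g) :
    ∃ a : ℕ, (v = Graph_pt (2 * a) 0 ∧ (i = 0 ∨ i = 1)) ∨
      (a < g ∧ v = Graph_pt (4 * a + 2) 2 ∧ i = 0) := by
  have e := Graph_ex (down_gr D g _ h v (EtoP_face_lo (hv i)))
  obtain ⟨h1, h2⟩ := mem_gr.1 h
  have h3 := hv 0
  have h4 := hv 1
  rcases i with ⟨_ | _ | i, hi⟩
  · have h5 : Gp g (v 0 + 1) (v 1 + 0) := h1
    simp only [Gp, Tt, Tp] at h5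
    by_cases k : v 1 = 0
    · exact ⟨(v 0 / 2).toNat, .inl ⟨e.trans (by congr 1; omega), .inl rfl⟩⟩
    · exact ⟨(v 0 / 4).toNat, .inr ⟨by omega, e.trans (by congr 1 <;> omega), rfl⟩⟩
  · have h5 : Gp g (v 0 + 0) (v 1 + 1) := h1
    simp only [Gp, Tt, Tp] at h5
    exact ⟨(v 0 / 2).toNat, .inl ⟨e.trans (by congr 1 <;> omega), .inr rfl⟩⟩
  · have h5 := h2 ⟨i + 2, hi⟩ (by simp)
    have := hv ⟨i + 2, hi⟩
    simp only [ee, Pi.add_apply, Pi.single_eq_same] at h5
    omega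

theorem Graph_l0 (k : ℤ) (i : Fin (D + 2)) : glab g (Graph_pt k 0) i = 1 :=
  if_neg fun h => absurd h.2.1 (by simp [Graph_1])

theorem Graph_l2 {a : ℕ} (h : a < g) :
    glab g (Graph_pt (4 * a + 2) 2 : Cell (D + 2)) 0 = FreeGroup.of ⟨a, h⟩ := by
  have e : (4 * (a : ℤ) + 2) / 4 = a := by omega
  rw [glab, if_pos ⟨rfl, rfl, by rw [Graph_0]; omega⟩, Graph_0, e, lab, dif_pos (by omega)]
  rfl

/-- the gauge along the bottom row -/
def Graph_F {H : Type} [Group H] (ε : Cell (D + 2) → Fin (D + 2) → H) : ℕ → H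
  | 0 => 1
  | a + 1 => (ε (Graph_pt (2 * a) 0) 0)⁻¹ * Graph_F ε a

theorem exists_LG (D g : ℕ) : ∃ (μ : Cell (D + 2) → Cell (D + 2) → FreeGroup (Fin g))
    (hc : Coc (gr D g) μ), SCp ⟨gr D g, μ, down_gr D g, hc⟩ ∧ Conn ⟨gr D g, μ, down_gr D g, hc⟩ ∧
      ∀ v i, Vtx v → v + ee i ∈ gr D g → mue μ v i = glab g v i := by
  obtain ⟨μ, hc, e⟩ := exists_mu (down_gr D g) (ε := glab g) fun v i j hv hij hm => by
    have := dim_gr hm
    rw [WSC_sq hv hij] at this
    omega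
  refine ⟨μ, hc, SCe.scp fun H _ ε _ => ?_, ConnE.conn ⟨⟨Graph_pt 0 0,
    Graph_mem.2 (by unfold Gp Tt Tp; omega), Graph_vtx rfl rfl⟩, fun φ hφ => ?_⟩, e⟩
  · let f : Cell (D + 2) → H := fun v => (if v 1 = 2 then (ε (Graph_pt (v 0) 0) 1)⁻¹ else 1) *
      Graph_F ε (v 0 / 2).toNat
    refine ⟨FreeGroup.lift fun a => (f (Graph_pt (4 * a + 2) 2))⁻¹ * ε (Graph_pt (4 * a + 2) 2) 0 *
      f (Graph_pt (4 * a + 2) 2 + 2 • ee 0), f, fun v i hv hm => ?_⟩
    rw [e v i hv hm]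
    obtain ⟨a, ⟨rfl, rfl | rfl⟩ | ⟨ha, rfl, rfl⟩⟩ := Graph_edge hv hm
    · have e1 : (2 * (a : ℤ) / 2).toNat = a := by omega
      have e2 : ((2 * (a : ℤ) + (2 : ℕ)) / 2).toNat = a + 1 := by omega
      simp only [Graph_l0, Graph_a0, f, Graph_0, Graph_1, e1, e2, Graph_F]
      simp
    · simp only [Graph_l0, Graph_a1, f, Graph_0, Graph_1]
      simp
    · rw [Graph_l2 ha, FreeGroup.lift_apply_of]
      group
  have s0 : ∀ γ (k h : ℤ), k % 2 = 0 → h % 2 = 0 → Gp g (k + 1) h → (φ γ (Graph_pt k h) ↔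
      φ (γ * glab g (Graph_pt k h : Cell (D + 2)) 0) (Graph_pt (k + 2) h)) := fun γ k h h0 h1 h2 => by
    have := hφ γ _ 0 (Graph_vtx h0 h1) (Graph_e0 h2)
    rwa [e _ _ (Graph_vtx h0 h1) (Graph_e0 h2), Graph_a0] at this
  have row : ∀ γ (a : ℕ), a ≤ 2 * g + 1 → (φ γ (Graph_pt (2 * a) 0) ↔ φ γ (Graph_pt 0 0)) := by
    intro γ a
    induction a with
    | zero => exact fun _ => Iff.rfl
    | succ a ih =>
      intro ha
      have := s0 γ (2 * a) 0 (by omega) rfl (by unfold Gp Tt Tp; omega)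
      rw [Graph_l0, mul_one] at this
      rw [← ih (by omega), this]
      push_cast
      ring_nf
  have T : ∀ γ (k h : ℤ), k % 2 = 0 → h % 2 = 0 → Gp g k h →
      (φ γ (Graph_pt k h) ↔ φ γ (Graph_pt 0 0)) := fun γ k h h0 h1 h2 => by
    simp only [Gp, Tt, Tp] at h2
    have k0 := row γ (k / 2).toNat (by omega)
    rw [show 2 * ((k / 2).toNat : ℤ) = k by omega] at k0
    obtain rfl | rfl : h = 0 ∨ h = 2 := by omega
    · exact k0
    · have m : Graph_pt k 0 + ee 1 ∈ gr D g := Graph_e1 (by unfold Gp Tt Tp; omega)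
      have := hφ γ _ 1 (Graph_vtx h0 rfl) m
      rw [e _ _ (Graph_vtx h0 rfl) m, Graph_a1, Graph_l0, mul_one] at this
      exact this.symm.trans k0
  have T' : ∀ γ, ∀ a ∈ gr D g, Vtx a → (φ γ a ↔ φ γ (Graph_pt 0 0)) := fun γ a ha hv => by
    rw [Graph_ex ha]
    exact T γ _ _ (hv 0) (hv 1) (mem_gr.1 ha).1
  have key : ∀ δ γ, φ γ (Graph_pt 0 0) ↔ φ (γ * δ) (Graph_pt 0 0) := fun δ => by
    induction δ using FreeGroup.induction_on with
    | C1 => exact fun γ => by rw [mul_one]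
    | of a =>
      intro γ
      have := a.2
      have k := s0 γ (4 * a + 2) 2 (by omega) rfl (by unfold Gp Tt Tp; omega)
      rwa [Graph_l2 a.2, T _ _ 2 (by omega) rfl (by unfold Gp Tt Tp; omega),
        T _ _ 2 (by omega) rfl (by unfold Gp Tt Tp; omega)] at k
    | inv_of a h => exact fun γ => by rw [h (γ * _), inv_mul_cancel_right]
    | mul a b h1 h2 => exact fun γ => by rw [h1 γ, h2, mul_assoc]
  intro γ γ' a ha b hb h1 h2 h
  rw [T' _ b hb h2, ← mul_inv_cancel_left γ γ', ← key]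
  exact (T' _ a ha h1).1 h

end Pool.Agent.Work.MP_7ba843_gt.N
end

-- merged part: Pool.Agent.Work.MP_7ba843_gt.N.Emb
section
/-! The smooth embedding of the handlebody.

PLAN. `σ t = 1 + 4 ∑ k ∈ range (2g+3), smoothTransition (t - 4k - 5/2)`: smooth, `= 1 + 4k` on
`[4k - 1/2, 4k + 5/2]`, between `1 + 4k` and `5 + 4k` on `[4k + 5/2, 4k + 7/2]`.
`δ = 1 / (100 (g + 1))`. Shear `Ψ (x, s) = (σ x₀ + 8 off + δ x₂, σ x₁ + s, 1 + δ x₀, 1 + δ x₁)`, a
diffeomorphism `(Fin 3 → ℝ) × ℝ → E4` with explicit inverse. `O = {FK (gr3 g) > 0}` (`psi ≥ 0`,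
`psi j t ≠ 0 → 2j - 1/2 < t < 2j + 5/2`). Box lemma: if `piFinset B ⊆ K` and for every `a ∈ K`
outside it some `psi (a i) (y i) = 0`, then `FK K y = ∏ i, ∑ j ∈ B i, psi j (y i)`. For `x ∈ O`,
`|s| < 1/4` and any `u`: `FK K (Ψ (x, s), u) = psi 0 u` (take a cell `a ∈ gr3 g` with nonzero
product; if `a 0` is odd and `x 0` is within the support of an even neighbour pass to that face;
`B 0 = {b}` or `{b-1, b, b+1}` shifted by `4 off`, the sum of `psi` telescopes to `1`).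
`psi 0 u = 1/2 ∧ u < 1 ↔ u = 0` (`smoothTransition_strict`, `smoothTransition (1/2) = 1/2`).
`Φ x = (Ψ (x, 0), 0)`. Chart of the level set with source `{n | Ψ⁻¹ (proj n) ∈ O ×ˢ Ioo (-1/4) (1/4)
∧ n 4 < 1}`, `n ↦ L (Ψ⁻¹ (proj n))`; finish as `smoothEmbedding_torus` in `../Torus.lean`
(`IsImmersionAtOfComplement.mk_of_continuousAt`, `mem_maximalAtlas_of_contMDiffOn`).
About 450 lines. -/

namespace Pool.Agent.Work.MP_7ba843_gt.N

open Pool.Agent.Work.MP_735653_gt

open scoped Manifold ContDiff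

open Real in
theorem Emb_zero {j : ℤ} {t : ℝ} (h : t ≤ 2 * j - 1 / 2 ∨ 2 * j + 5 / 2 ≤ t) : psi j t = 0 := by
  rcases h with h | h
  · rw [psi, smoothTransition.zero_of_nonpos (by linarith),
      smoothTransition.zero_of_nonpos (by linarith), sub_self]
  · rw [psi, smoothTransition.one_of_one_le (by linarith),
      smoothTransition.one_of_one_le (by linarith), sub_self]

open Real in
theorem Emb_one {e : ℤ} {t : ℝ} (h : |t - (2 * e + 1)| ≤ 1 / 2 + 2 * ((e % 2 : ℤ) : ℝ)) :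
    ∑ j ∈ Finset.Icc (e - e % 2) (e + e % 2), psi j t = 1 := by
  rcases Int.emod_two_eq_zero_or_one e with r | r <;> rw [r, abs_le] at h <;> rw [r] <;>
    push_cast at h
  · rw [sub_zero, add_zero, Finset.Icc_self, Finset.sum_singleton, psi,
      smoothTransition.one_of_one_le (by linarith [h.1]),
      smoothTransition.zero_of_nonpos (by linarith [h.2]), sub_zero]
  · rw [show Finset.Icc (e - 1) (e + 1) = {e - 1, e, e + 1} by ext; simp; omega,
      Finset.sum_insert (by simp; omega), Finset.sum_insert (by simp), Finset.sum_singleton]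
    simp only [psi]
    push_cast
    rw [smoothTransition.one_of_one_le (x := t - 2 * (e - 1) + 1 / 2) (by linarith [h.1]),
      smoothTransition.zero_of_nonpos (x := t - 2 * (e + 1) - 2 + 1 / 2) (by linarith [h.2]),
      show t - 2 * ((e : ℝ) - 1) - 2 + 1 / 2 = t - 2 * e + 1 / 2 by ring,
      show t - 2 * ((e : ℝ) + 1) + 1 / 2 = t - 2 * e - 2 + 1 / 2 by ring]
    ring

theorem Emb_box {K : Finset (Cell 5)} (h4 : ∀ a ∈ K, a 4 = 0) {e : Cell 5} (e4 : e 4 = 0)
    (he : ∀ b, Face b e → b ∈ K) {y : Fin 5 → ℝ}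
    (hy : ∀ i, i ≠ 4 → |y i - (2 * e i + 1)| ≤ 1 / 2 + 2 * ((e i % 2 : ℤ) : ℝ)) :
    FK K y = psi 0 (y 4) := by
  rw [FK, ← Finset.sum_subset (s₁ := Fintype.piFinset fun i =>
    Finset.Icc (e i - e i % 2) (e i + e i % 2)) (fun b hb => he b fun i => by
      have := Finset.mem_Icc.1 (Fintype.mem_piFinset.1 hb i)
      omega) fun a ha hb => ?_, ← Finset.prod_univ_sum (f := fun i j => psi j (y i)),
    Finset.prod_eq_single 4 (fun i _ hi => Emb_one (hy i hi)) (by simp)]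
  · simp [e4]
  · obtain ⟨i, hi⟩ := not_forall.1 (mt Fintype.mem_piFinset.2 hb)
    rw [Finset.mem_Icc] at hi
    have i4 : i ≠ 4 := by
      rintro rfl
      simp [h4 a ha, e4] at hi
    have := abs_le.1 (hy i i4)
    refine Finset.prod_eq_zero (Finset.mem_univ i) (Emb_zero ?_)
    rcases (by omega : e i + e i % 2 + 1 ≤ a i ∨ a i + 1 + e i % 2 ≤ e i) with h | h
    · have h' := (Int.cast_le (R := ℝ)).2 h
      rw [Int.cast_add, Int.cast_add, Int.cast_one] at h'
      exact .inl (by linarith [this.2])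
    · have h' := (Int.cast_le (R := ℝ)).2 h
      rw [Int.cast_add, Int.cast_add, Int.cast_one] at h'
      exact .inr (by linarith [this.1])

open Real in
theorem Emb_half : smoothTransition (1 / 2) = 1 / 2 := by
  have := smoothTransition.pos_denom (1 / 2)
  rw [smoothTransition, div_eq_iff this.ne', show (1 : ℝ) - 1 / 2 = 1 / 2 by norm_num]
  ring

open Real in
theorem Emb_level {u : ℝ} (h : u < 1) : psi 0 u = 1 / 2 ↔ u = 0 := by
  have e : psi 0 u = smoothTransition (u + 1 / 2) := by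
    rw [psi, smoothTransition.zero_of_nonpos (x := u - _ - 2 + 1 / 2) (by simp; linarith)]
    simp
  rw [e]
  refine ⟨fun h => ?_, fun h => by rw [h, zero_add, Emb_half]⟩
  rcases lt_trichotomy u 0 with r | r | r
  · have a := smoothTransition.monotone (le_max_right 0 (u + 1 / 2))
    have b := smoothTransition_strict (le_max_left 0 (u + 1 / 2)) (t := 1 / 2)
      (max_lt (by norm_num) (by linarith)) (by norm_num)
    linarith [Emb_half]
  · exact r
  · have a := smoothTransition.monotone (min_le_right 1 (u + 1 / 2))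
    have b := smoothTransition_strict (s := 1 / 2) (by norm_num)
      (lt_min (by norm_num) (by linarith)) (min_le_left 1 (u + 1 / 2))
    linarith [Emb_half]

/-- the staircase -/
noncomputable def Emb_s (N : ℕ) (t : ℝ) : ℝ :=
  1 + 4 * ∑ k ∈ Finset.range N, Real.smoothTransition (t - 4 * k - 5 / 2)

theorem Emb_smooth (N : ℕ) : ContDiff ℝ ∞ (Emb_s N) :=
  contDiff_const.add (contDiff_const.mul (ContDiff.sum fun _ _ =>
    Real.smoothTransition.contDiff.comp (by fun_prop)))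

open Real in
theorem Emb_lo {N k : ℕ} (hk : k ≤ N) {t : ℝ} (h : 4 * k - 1 / 2 ≤ t) : 1 + 4 * k ≤ Emb_s N t := by
  have h1 : ∑ m ∈ Finset.range k, smoothTransition (t - 4 * m - 5 / 2) = k := by
    rw [Finset.sum_congr rfl fun m hm => smoothTransition.one_of_one_le (by
      have : (m : ℝ) + 1 ≤ k := by exact_mod_cast Finset.mem_range.1 hm
      linarith)]
    simp
  have h2 := Finset.sum_le_sum_of_subset_of_nonneg (Finset.range_subset_range.2 hk)
    fun m _ _ => smoothTransition.nonneg (t - 4 * m - 5 / 2)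
  rw [Emb_s]
  linarith

open Real in
theorem Emb_hi (N k : ℕ) {t : ℝ} (h : t ≤ 4 * k + 5 / 2) : Emb_s N t ≤ 1 + 4 * k := by
  have h1 := Finset.sum_le_card_nsmul (Finset.range k) _ 1
    fun m _ => smoothTransition.le_one (t - 4 * m - 5 / 2)
  have h2 := Finset.sum_le_sum_of_subset_of_nonneg (Finset.range_subset_range.2 (N.le_add_left k))
    fun m _ _ => smoothTransition.nonneg (t - 4 * m - 5 / 2)
  rw [Finset.sum_range_add, Finset.sum_eq_zero (s := Finset.range N) (f := fun m =>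
    smoothTransition (t - 4 * (k + m : ℕ) - 5 / 2)) fun m _ => smoothTransition.zero_of_nonpos (by
      have : (0 : ℝ) ≤ m := m.cast_nonneg
      push_cast
      linarith)] at h2
  rw [Finset.card_range, nsmul_one] at h1
  rw [Emb_s]
  linarith

theorem Emb_step {N : ℕ} {e : ℤ} (h0 : 0 ≤ e) (h1 : e ≤ 2 * N) {t : ℝ}
    (h : 2 * (e : ℝ) - 1 / 2 ≤ t ∧ t ≤ 2 * (e : ℝ) + 5 / 2) :
    |Emb_s N t - (2 * e + 1)| ≤ 2 * ((e % 2 : ℤ) : ℝ) := by
  obtain ⟨k, hk⟩ : ∃ k : ℕ, e = 2 * k + e % 2 := ⟨(e / 2).toNat, by omega⟩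
  have hN : k ≤ N := by omega
  have e' := congrArg (Int.cast : ℤ → ℝ) hk
  rcases Int.emod_two_eq_zero_or_one e with r | r <;> rw [r] at e' ⊢ <;> push_cast at e' ⊢
  · have a := Emb_lo hN (t := t) (by linarith [h.1])
    have b := Emb_hi N k (t := t) (by linarith [h.2])
    exact abs_le.2 ⟨by linarith, by linarith⟩
  · have a := Emb_lo hN (t := t) (by linarith [h.1])
    have b := Emb_hi N (k + 1) (t := t) (by push_cast; linarith [h.2])
    push_cast at b
    exact abs_le.2 ⟨by linarith, by linarith⟩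

/-- the shear -/
noncomputable def Emb_J (off g : ℕ) (q : (Fin 3 → ℝ) × ℝ) : Fin 5 → ℝ :=
  ![Emb_s (2 * g + 1) (q.1 0) + 8 * off + q.1 2 / (100 * (g + 1)), Emb_s (2 * g + 1) (q.1 1) + q.2,
    1 + q.1 0 / (100 * (g + 1)), 1 + q.1 1 / (100 * (g + 1)), 0]

/-- the inverse shear -/
noncomputable def Emb_I (off g : ℕ) (n : Fin 5 → ℝ) : (Fin 3 → ℝ) × ℝ :=
  (![(n 2 - 1) * (100 * (g + 1)), (n 3 - 1) * (100 * (g + 1)),
    (n 0 - 8 * off - Emb_s (2 * g + 1) ((n 2 - 1) * (100 * (g + 1)))) * (100 * (g + 1))],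
    n 1 - Emb_s (2 * g + 1) ((n 3 - 1) * (100 * (g + 1))))

theorem Emb_IJ (off g : ℕ) (q : (Fin 3 → ℝ) × ℝ) : Emb_I off g (Emb_J off g q) = q := by
  have h : (100 * (g + 1) : ℝ) ≠ 0 := by positivity
  refine Prod.ext (funext fun i => ?_) ?_
  · fin_cases i <;> simp [Emb_I, Emb_J, h]
    field_simp
    ring
  · simp [Emb_I, Emb_J, h]

theorem Emb_JI (off g : ℕ) (n : Fin 5 → ℝ) (i : Fin 5) (hi : i ≠ 4) :
    Emb_J off g (Emb_I off g n) i = n i := by
  have h : (100 * (g + 1) : ℝ) ≠ 0 := by positivity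
  fin_cases i <;> simp [Emb_I, Emb_J, h] at hi ⊢
  ring

theorem Emb_smJ (off g : ℕ) : ContDiff ℝ ∞ (Emb_J off g) := by
  have := Emb_smooth (2 * g + 1)
  refine contDiff_pi.2 fun i => ?_
  fin_cases i <;> simp [Emb_J] <;> fun_prop

theorem Emb_smI (off g : ℕ) : ContDiff ℝ ∞ (Emb_I off g) := by
  have := Emb_smooth (2 * g + 1)
  refine ContDiff.prodMk (contDiff_pi.2 fun i => ?_) (by fun_prop)
  fin_cases i <;> simp <;> fun_prop

theorem Emb_est (off g : ℕ) {q : (Fin 3 → ℝ) × ℝ} (hq : |q.2| ≤ 1 / 2) {a : Cell 3}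
    (ha : a ∈ gr3 g) (h : ∀ i, 2 * (a i : ℝ) - 1 / 2 ≤ q.1 i ∧ q.1 i ≤ 2 * (a i : ℝ) + 5 / 2)
    (i : Fin 5) (hi : i ≠ 4) : |Emb_J off g q i - (2 * (emb off a i : ℝ) + 1)| ≤
      1 / 2 + 2 * ((emb off a i % 2 : ℤ) : ℝ) := by
  obtain ⟨a1, a2⟩ := mem_gr3.1 ha
  simp only [Gp, Tt, Tp] at a1
  have hg : (0 : ℝ) ≤ g := g.cast_nonneg
  have k : ∀ j, |q.1 j / (100 * (g + 1))| ≤ 1 / 2 := fun j => by
    have b : 0 ≤ a j ∧ a j ≤ 4 * g + 2 := by
      fin_cases j <;> simp <;> omega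
    have b1 : (0 : ℝ) ≤ a j := by exact_mod_cast b.1
    have b2 : (a j : ℝ) ≤ 4 * g + 2 := by exact_mod_cast b.2
    rw [abs_div, div_le_iff₀ (by positivity), abs_of_pos (a := (100 * (g + 1) : ℝ)) (by positivity)]
    exact abs_le.2 ⟨by linarith [(h j).1], by linarith [(h j).2]⟩
  have k0 := abs_le.1 (Emb_step (N := 2 * g + 1) (by omega) (by omega) (h 0))
  have k1 := abs_le.1 (Emb_step (N := 2 * g + 1) (by omega) (by omega) (h 1))
  fin_cases i
  · change |_ + _ + _ - (2 * ((a 0 + 4 * off : ℤ) : ℝ) + 1)| ≤ _ + 2 * (((a 0 + 4 * off) % 2 : ℤ) : ℝ)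
    rw [show (a 0 + 4 * off) % 2 = a 0 % 2 by omega, Int.cast_add, Int.cast_mul, Int.cast_natCast,
      Int.cast_ofNat]
    have := abs_le.1 (k 2)
    exact abs_le.2 ⟨by linarith [k0.1], by linarith [k0.2]⟩
  · change |_ + _ - (2 * (a 1 : ℝ) + 1)| ≤ _ + 2 * ((a 1 % 2 : ℤ) : ℝ)
    have := abs_le.1 hq
    exact abs_le.2 ⟨by linarith [k1.1], by linarith [k1.2]⟩
  · simpa [Emb_J, emb] using k 0
  · simpa [Emb_J, emb] using k 1
  · exact absurd rfl hi

theorem Emb_FK {K : Finset (Cell 5)} (h4 : ∀ a ∈ K, a 4 = 0) (off g : ℕ)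
    (hK : ∀ a ∈ gr3 g, emb off a ∈ K) {q : (Fin 3 → ℝ) × ℝ} (h : 0 < FK (gr3 g) q.1)
    (hq : |q.2| < 1 / 2) {y : Fin 5 → ℝ} (hy : ∀ i, i ≠ 4 → Emb_J off g q i = y i) :
    FK K y = psi 0 (y 4) := by
  obtain ⟨a, ha, h0⟩ := Finset.exists_ne_zero_of_sum_ne_zero h.ne'
  refine Emb_box h4 (e := emb off a) rfl (fun b hb => ?_) fun i hi => hy i hi ▸
    Emb_est off g hq.le ha (fun j => ?_) i hi
  · have b0 := hb 0
    have b1 := hb 1
    have b2 := hb 2
    have b3 := hb 3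
    have b4 := hb 4
    simp [emb] at b0 b1 b2 b3 b4
    have e : b = emb off ![b 0 - 4 * off, b 1, a 2] := by
      funext i
      fin_cases i <;> simp [emb, b2, b3, b4]
    refine e ▸ hK _ (down_gr 1 g a ha _ fun i => ?_)
    fin_cases i <;> simp <;> omega
  · have := mt Emb_zero (Finset.prod_ne_zero_iff.1 h0 j (Finset.mem_univ j))
    rw [not_or, not_le, not_le] at this
    exact ⟨this.1.le, this.2.le⟩

theorem exists_emb {K : Finset (Cell 5)} (h4 : ∀ a ∈ K, a 4 = 0) (off g : ℕ)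
    (hK : ∀ a ∈ gr3 g, emb off a ∈ K)
    [ChartedSpace (EuclideanSpace ℝ (Fin 4)) {x // FK K x = 1 / 2}]
    [IsManifold (𝓡 4) ∞ {x // FK K x = 1 / 2}]
    (h1 : ContMDiff (𝓡 4) 𝓘(ℝ, Fin 5 → ℝ) ∞ (Subtype.val : {x // FK K x = 1 / 2} → Fin 5 → ℝ))
    (h2 : ∀ (f : EuclideanSpace ℝ (Fin 4) → {x // FK K x = 1 / 2}) (v : EuclideanSpace ℝ (Fin 4)),
      ContDiffAt ℝ ∞ (fun w => (f w).1) v → ContMDiffAt (𝓡 4) (𝓡 4) ∞ f v) :
    ∃ (O : TopologicalSpace.Opens (Fin 3 → ℝ)) (Φ : O → {x // FK K x = 1 / 2}),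
      (∀ x, 1 / 2 ≤ FK (gr3 g) x → x ∈ O) ∧
      Manifold.IsSmoothEmbedding 𝓘(ℝ, Fin 3 → ℝ) (𝓡 4) ∞ Φ ∧
      ∀ (x : O) (a : Cell 3), a ∈ gr3 g →
        (∀ i, 2 * (a i : ℝ) - 1 / 2 ≤ x.1 i ∧ x.1 i ≤ 2 * (a i : ℝ) + 5 / 2) →
        ∀ i, |(Φ x).1 i - (2 * (emb off a i : ℝ) + 1)| ≤
          3 / 2 + 2 * ((emb off a i % 2 : ℤ) : ℝ) := by
  classical
  have hO : IsOpen {x | 0 < FK (gr3 g) x} := isOpen_lt continuous_const (contDiff_FK _).continuous
  have hW : IsOpen {q : (Fin 3 → ℝ) × ℝ | 0 < FK (gr3 g) q.1 ∧ |q.2| < 1 / 2} :=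
    (hO.preimage continuous_fst).inter (isOpen_lt continuous_snd.abs continuous_const)
  have hJ : ∀ q : (Fin 3 → ℝ) × ℝ, 0 < FK (gr3 g) q.1 ∧ |q.2| < 1 / 2 →
      FK K (Emb_J off g q) = 1 / 2 := fun q hq =>
    (Emb_FK h4 off g hK hq.1 hq.2 fun _ _ => rfl).trans ((Emb_level zero_lt_one).2 rfl)
  let O : TopologicalSpace.Opens (Fin 3 → ℝ) := ⟨_, hO⟩
  let Φ : O → {x // FK K x = 1 / 2} := fun x => ⟨Emb_J off g (x.1, 0), hJ _ ⟨x.2, by norm_num⟩⟩
  have hΦ : Topology.IsEmbedding Φ :=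
    (((Function.LeftInverse.isEmbedding (Emb_IJ off g) (Emb_smI off g).continuous
      (Emb_smJ off g).continuous).comp (isEmbedding_prodMkLeft 0)).comp
        Topology.IsEmbedding.subtypeVal).codRestrict _ fun x => (Φ x).2
  refine ⟨O, Φ, fun x hx => lt_of_lt_of_le one_half_pos hx,
    ⟨Manifold.IsImmersionOfComplement.isImmersion (F := ℝ) fun x0 => ?_, hΦ⟩, fun x a ha h i => ?_⟩
  · let L : ((Fin 3 → ℝ) × ℝ) ≃L[ℝ] EuclideanSpace ℝ (Fin 4) :=
      ContinuousLinearEquiv.ofFinrankEq (by simp)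
    let G : EuclideanSpace ℝ (Fin 4) → {x // FK K x = 1 / 2} := fun w =>
      if h : FK K (Emb_J off g (L.symm w)) = 1 / 2 then ⟨_, h⟩ else Φ x0
    have hG : ∀ w, 0 < FK (gr3 g) (L.symm w).1 ∧ |(L.symm w).2| < 1 / 2 →
        (G w).1 = Emb_J off g (L.symm w) := fun w hw => by simp only [G, dif_pos (hJ _ hw)]
    have s1 : ContMDiff (𝓡 4) (𝓡 4) ∞ fun n : {x // FK K x = 1 / 2} => L (Emb_I off g n.1) :=
      (L.contDiff.comp (Emb_smI off g)).contMDiff.comp h1
    have hT := hW.preimage L.symm.continuous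
    have s2 : ContMDiffOn (𝓡 4) (𝓡 4) ∞ G
        {w | 0 < FK (gr3 g) (L.symm w).1 ∧ |(L.symm w).2| < 1 / 2} := fun w hw =>
      (h2 G w (((Emb_smJ off g).comp L.symm.contDiff).contDiffAt.congr_of_eventuallyEq
        (Filter.mem_of_superset (hT.mem_nhds hw) hG))).contMDiffWithinAt
    let ψ : OpenPartialHomeomorph {x // FK K x = 1 / 2} (EuclideanSpace ℝ (Fin 4)) :=
      { toFun := fun n => L (Emb_I off g n.1)
        invFun := G
        source := {n | (0 < FK (gr3 g) (Emb_I off g n.1).1 ∧ |(Emb_I off g n.1).2| < 1 / 2) ∧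
          n.1 4 < 1}
        target := {w | 0 < FK (gr3 g) (L.symm w).1 ∧ |(L.symm w).2| < 1 / 2}
        map_source' := fun n hn => by
          rw [Set.mem_ofPred_eq, L.symm_apply_apply]
          exact hn.1
        map_target' := fun w hw => by
          rw [Set.mem_ofPred_eq, hG w hw, Emb_IJ]
          exact ⟨hw, zero_lt_one⟩
        left_inv' := fun n hn => Subtype.ext (by
          rw [hG _ (by rw [L.symm_apply_apply]; exact hn.1), L.symm_apply_apply]
          funext i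
          by_cases hi : i = 4
          · rw [hi, (Emb_level hn.2).1
              ((Emb_FK h4 off g hK hn.1.1 hn.1.2 (Emb_JI off g n.1)).symm.trans n.2)]
            rfl
          · exact Emb_JI off g n.1 i hi)
        right_inv' := fun w hw => by rw [hG w hw, Emb_IJ, L.apply_symm_apply]
        open_source := (hW.preimage ((Emb_smI off g).continuous.comp continuous_subtype_val)).inter
          (isOpen_lt ((continuous_apply 4).comp continuous_subtype_val) continuous_const)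
        open_target := hT
        continuousOn_toFun := s1.continuous.continuousOn
        continuousOn_invFun := s2.continuousOn }
    refine Manifold.IsImmersionAtOfComplement.mk_of_continuousAt hΦ.continuous.continuousAt L
      (chartAt (Fin 3 → ℝ) x0) ψ (mem_chart_source _ _) ⟨?_, zero_lt_one⟩
      (IsManifold.chart_mem_maximalAtlas _)
      (OpenPartialHomeomorph.mem_maximalAtlas_of_contMDiffOn _ s1.contMDiffOn s2) fun u hu => ?_
    · simp only [Φ, Emb_IJ]
      exact ⟨x0.2, by norm_num⟩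
    · rw [OpenPartialHomeomorph.extend_target] at hu
      change L (Emb_I off g (Emb_J off g (((chartAt (Fin 3 → ℝ) x0).symm u).1, 0))) = L (u, 0)
      rw [Emb_IJ]
      exact congrArg (fun z => L (z, 0)) ((chartAt (Fin 3 → ℝ) x0).right_inv hu.1)
  · by_cases hi : i = 4
    · subst hi
      simp [Φ, Emb_J, emb]
      norm_num
    · exact (Emb_est off g (q := (x.1, 0)) (by norm_num) ha h i hi).trans (by linarith)

end Pool.Agent.Work.MP_7ba843_gt.N
end

-- merged part: Pool.Agent.Work.MP_7ba843_gt.N.CW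
section
/-! The Euler characteristic of lattice complexes.

PLAN. `euler_Re`: `CWComplex.mkFinite` as in `../Cells.lean` (copy `continuousOn_symm_aux`; do not
import that file, its `Cell` clashes). Cells of dimension `n`: `{a : K // dim a = n}`. With
`σ : Fin n ≃ {i // a i % 2 = 1}` the characteristic map sends `s` to the point with coordinates
`a i + max (-1) (min 1 (s (σ.symm i)))` for odd `a i` and `a i` otherwise (it always lies in the
closed cell, `cellOf_face_iff`), followed by `e`; open ball ↔ `cellOf = a` (`cellOf_eq_iff`);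
`Face.dim_le`, `Face.eq_of_dim`. `chi_EK`: `chi (WK K) = chi (EK K) + chi (QK K)`;
`sgn (dim y) = ∏ i, (if y i % 2 = 1 then -1 else 1)`; the fibres of `lo` and of `hi` over `a` are
`Fintype.piFinset`s (`lo`: `{2a, 2a+1, 2a+2}` for even `a i`, `{2a+1}` for odd; `hi`: the other way
round), `Finset.prod_univ_sum`, `Finset.sum_fiberwise_of_maps_to`. About 350 lines. -/

namespace Pool.Agent.Work.MP_7ba843_gt.N

open Pool.Agent.Work.MP_735653_gt

section CWAux

open Set Topology Metric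

theorem CW_symm {A X : Type} [TopologicalSpace A] [TopologicalSpace X] [T2Space X]
    [Nonempty A] {f : A → X} {U K : Set A} (hK : IsCompact K) (hUK : U ⊆ K)
    (hf : ContinuousOn f K) (inj : InjOn f U) (sat : ∀ a ∈ K, f a ∈ f '' U → a ∈ U) :
    ContinuousOn (inj.toPartialEquiv f U).symm (inj.toPartialEquiv f U).target := by
  rw [continuousOn_iff_isClosed]
  intro Z hZ
  refine ⟨f '' (K ∩ Z), ((hK.inter_right hZ).image_of_continuousOn
    (hf.mono inter_subset_left)).isClosed, ?_⟩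
  ext x
  constructor
  · rintro ⟨h1, h2⟩
    refine ⟨⟨_, ⟨hUK ((inj.toPartialEquiv f U).map_target h2), h1⟩, ?_⟩, h2⟩
    exact (inj.toPartialEquiv f U).right_inv h2
  · rintro ⟨⟨a, ⟨haK, haZ⟩, rfl⟩, h2⟩
    refine ⟨?_, h2⟩
    have := (inj.toPartialEquiv f U).left_inv (x := a) (sat a haK h2)
    rw [mem_preimage]
    exact this.symm ▸ haZ

theorem CW_abs {Y ι : Type} [TopologicalSpace Y] [T2Space Y] [Fintype ι] (dm : ι → ℕ)
    (ch : ∀ n, {c // dm c = n} → (Fin n → ℝ) → Y) (oc : Y → ι) (h0 : ∀ n c, Continuous (ch n c))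
    (h1 : ∀ n c, ∀ s ∈ closedBall 0 1, oc (ch n c s) = c.1 ↔ s ∈ ball 0 1)
    (h2 : ∀ n c, InjOn (ch n c) (ball 0 1))
    (h3 : ∀ y, ∃ s ∈ ball 0 1, ch _ ⟨oc y, rfl⟩ s = y)
    (h4 : ∀ n c s, oc (ch n c s) = c.1 ∨ dm (oc (ch n c s)) < n) :
    HasEulerChar Y (∑ c, (-1) ^ dm c) := by
  classical
  obtain ⟨N, hN⟩ : ∃ N, ∀ c, dm c < N :=
    ⟨Finset.univ.sup dm + 1, fun c => Nat.lt_succ_of_le (Finset.le_sup (Finset.mem_univ c))⟩
  have he : ∀ n ≥ N, IsEmpty {c // dm c = n} := fun n hn => ⟨fun c => by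
    have := hN c.1
    have := c.2
    omega⟩
  refine ⟨CWComplex.mkFinite univ (fun n => {c // dm c = n})
    (fun n c => (h2 n c).toPartialEquiv (ch n c) (ball 0 1)) (Filter.eventually_atTop.2 ⟨N, he⟩)
    (fun _ => inferInstance) (fun _ _ => rfl) (fun n c => (h0 n c).continuousOn)
    (fun n c => CW_symm (isCompact_closedBall 0 1) ball_subset_closedBall
      (h0 n c).continuousOn _ ?_) ?_ ?_ ?_, ?_, ?_⟩
  · rintro s hs ⟨t, ht, e⟩
    exact (h1 n c s hs).1 (e ▸ (h1 n c t (ball_subset_closedBall ht)).2 ht)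
  · rintro ⟨n, c⟩ - ⟨n', c'⟩ - hne
    rw [Function.onFun, Set.disjoint_left]
    rintro M ⟨s, hs, rfl⟩ ⟨t, ht, e⟩
    have e' : ch n' c' t = ch n c s := e
    have k : c.1 = c'.1 := ((h1 n c s (ball_subset_closedBall hs)).2 hs).symm.trans
      (e' ▸ (h1 n' c' t (ball_subset_closedBall ht)).2 ht)
    apply hne
    obtain ⟨c, rfl⟩ := c
    obtain ⟨c', rfl⟩ := c'
    obtain rfl : c = c' := k
    rfl
  · intro n c s hs
    obtain ⟨t, ht, e⟩ := h3 (ch n c s)
    simp only [mem_iUnion]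
    refine ⟨_, (h4 n c s).resolve_left fun k => ?_, _, t, ball_subset_closedBall ht, e⟩
    have := (h1 n c s (sphere_subset_closedBall hs)).1 k
    simp [mem_sphere_zero_iff_norm.1 hs] at this
  · refine eq_univ_of_forall fun y => ?_
    obtain ⟨t, ht, e⟩ := h3 y
    simp only [mem_iUnion]
    exact ⟨_, _, t, ball_subset_closedBall ht, e⟩
  · change Finite (Σ n, {c // dm c = n})
    exact Finite.of_equiv _ (Equiv.sigmaFiberEquiv dm).symm
  · change ∑ᶠ n, (-1 : ℤ) ^ n * (Nat.card {c // dm c = n} : ℤ) = _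
    rw [finsum_eq_sum_of_support_subset (s := Finset.range N),
      ← Finset.sum_fiberwise_of_maps_to (g := dm) fun c _ => Finset.mem_range.2 (hN c)]
    · refine Finset.sum_congr rfl fun n _ => ?_
      rw [Finset.sum_congr rfl fun c hc => by rw [(Finset.mem_filter.1 hc).2], Finset.sum_const,
        Nat.card_eq_fintype_card, Fintype.card_subtype, nsmul_eq_mul, mul_comm]
    · intro n hn
      by_contra h
      have := he n (by simpa using h)
      simp at hn

variable {D n : ℕ} {a : Cell D}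

/-- the parametrisation of a closed cell -/
noncomputable def CW_pt (a : Cell D) (τ : LCB_odd a ≃ Fin n) (s : Fin n → ℝ) : Fin D → ℝ :=
  fun i => a i + if h : i ∈ LCB_odd a then max (-1) (min 1 (s (τ ⟨i, h⟩))) else 0

theorem CW_cont (τ : LCB_odd a ≃ Fin n) : Continuous (CW_pt a τ) := by
  refine continuous_pi fun i => ?_
  unfold CW_pt
  split_ifs <;> fun_prop

theorem CW_face (τ : LCB_odd a ≃ Fin n) (s : Fin n → ℝ) : Face (cellOf (CW_pt a τ s)) a := by
  refine cellOf_face_iff.2 fun i => ?_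
  unfold CW_pt
  split_ifs with h
  · have k1 := le_max_left (-1) (min 1 (s (τ ⟨i, h⟩)))
    have k2 : max (-1) (min 1 (s (τ ⟨i, h⟩))) ≤ 1 := max_le (by norm_num) (min_le_left _ _)
    rw [LCB_mem.1 h]
    push_cast
    constructor <;> linarith
  · have : a i % 2 = 0 := by
      rw [LCB_mem] at h
      omega
    simp [this]

theorem CW_val (τ : LCB_odd a ≃ Fin n) {s : Fin n → ℝ} (hs : s ∈ closedBall 0 1) (m : Fin n) :
    CW_pt a τ s (τ.symm m) = a (τ.symm m) + s m := by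
  have k : |s m| ≤ 1 := (norm_le_pi_norm s m).trans (mem_closedBall_zero_iff.1 hs)
  rw [CW_pt, dif_pos (τ.symm m).2, Subtype.coe_eta, Equiv.apply_symm_apply,
    min_eq_right (abs_le.1 k).2, max_eq_right (abs_le.1 k).1]

theorem CW_ev (τ : LCB_odd a ≃ Fin n) (s : Fin n → ℝ) {i : Fin D} (h : i ∉ LCB_odd a) :
    CW_pt a τ s i = a i := by
  rw [CW_pt, dif_neg h, add_zero]

theorem CW_open (τ : LCB_odd a ≃ Fin n) {s : Fin n → ℝ} (hs : s ∈ closedBall 0 1) :
    cellOf (CW_pt a τ s) = a ↔ s ∈ ball 0 1 := by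
  rw [cellOf_eq_iff, mem_ball_zero_iff, pi_norm_lt_iff one_pos]
  refine ⟨fun h m => ?_, fun h i => ?_⟩
  · have k := LCB_mem.1 (τ.symm m).2
    obtain ⟨-, k1, k2⟩ := (h (τ.symm m)).resolve_left fun q => by omega
    rw [CW_val τ hs] at k1 k2
    exact abs_lt.2 ⟨by linarith, by linarith⟩
  · by_cases q : i ∈ LCB_odd a
    · have k := CW_val τ hs (τ ⟨i, q⟩)
      have k' := abs_lt.1 (h (τ ⟨i, q⟩))
      rw [Equiv.symm_apply_apply] at k
      exact Or.inr ⟨LCB_mem.1 q, by linarith, by linarith⟩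
    · refine Or.inl ⟨?_, CW_ev τ s q⟩
      rw [LCB_mem] at q
      omega

theorem CW_inj (τ : LCB_odd a ≃ Fin n) : InjOn (CW_pt a τ) (ball 0 1) := fun s hs t ht h =>
  funext fun m => by
    have k := congrFun h (τ.symm m)
    rwa [CW_val τ (ball_subset_closedBall hs), CW_val τ (ball_subset_closedBall ht),
      add_right_inj] at k

theorem CW_surj (τ : LCB_odd a ≃ Fin n) {x : Fin D → ℝ} (hx : cellOf x = a) :
    ∃ s ∈ ball 0 1, CW_pt a τ s = x := by
  rw [cellOf_eq_iff] at hx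
  have hs : (fun m => x (τ.symm m) - a (τ.symm m)) ∈ ball (0 : Fin n → ℝ) 1 := by
    rw [mem_ball_zero_iff, pi_norm_lt_iff one_pos]
    intro m
    have k := LCB_mem.1 (τ.symm m).2
    obtain ⟨-, k1, k2⟩ := (hx (τ.symm m)).resolve_left fun q => by omega
    exact abs_lt.2 ⟨by linarith, by linarith⟩
  refine ⟨_, hs, funext fun i => ?_⟩
  by_cases q : i ∈ LCB_odd a
  · have k := CW_val τ (ball_subset_closedBall hs) (τ ⟨i, q⟩)
    rw [Equiv.symm_apply_apply] at k
    exact k.trans (add_sub_cancel _ _)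
  · rw [CW_ev τ _ q]
    exact ((hx i).resolve_right fun r => q (LCB_mem.2 r.1)).2.symm

theorem CW_sgn (m : ℕ) : sgn m = (-1) ^ m := by
  simp only [sgn, Int.even_coe_nat, neg_one_pow_eq_ite]

/-- the sign of a coordinate -/
def CW_t (k : ℤ) : ℤ := if k % 2 = 1 then -1 else 1

theorem CW_prod (a : Cell D) : sgn (dim a) = ∏ i, CW_t (a i) := by
  rw [LCB_dim, CW_sgn]
  simp only [CW_t]
  rw [Finset.prod_ite, Finset.prod_const, Finset.prod_const_one, mul_one]
  rfl

theorem CW_fib {K S : Finset (Cell D)} (f : ℤ → ℤ) (ε : ℤ)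
    (hS : ∀ y, y ∈ S ↔ (fun i => f (y i)) ∈ K)
    (hf : ∀ k, ∃ L : Finset ℤ, (∀ j, j ∈ L ↔ f j = k) ∧ ∑ j ∈ L, CW_t j = ε * CW_t k) :
    chi S = ε ^ D * chi K := by
  choose L h1 h2 using hf
  unfold chi
  rw [← Finset.sum_fiberwise_of_maps_to (g := fun y i => f (y i)) fun y hy => (hS y).1 hy,
    Finset.mul_sum]
  refine Finset.sum_congr rfl fun b hb => ?_
  have e : (S.filter fun y => (fun i => f (y i)) = b) = Fintype.piFinset fun i => L (b i) := by
    ext y
    rw [Finset.mem_filter, Fintype.mem_piFinset, hS]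
    simp only [h1, ← funext_iff]
    exact and_iff_right_of_imp fun k => k ▸ hb
  simp only [CW_prod]
  rw [e, ← Finset.prod_univ_sum]
  simp only [h2]
  rw [Finset.prod_mul_distrib, Finset.prod_const, Finset.card_univ, Fintype.card_fin]

theorem CW_three (k : ℤ) : ∑ j ∈ ({2 * k, 2 * k + 1, 2 * k + 2} : Finset ℤ), CW_t j = 1 := by
  rw [Finset.sum_insert (by simp), Finset.sum_pair (by simp)]
  unfold CW_t
  rw [if_neg (by omega), if_pos (by omega), if_neg (by omega)]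
  rfl

theorem CW_one (k : ℤ) : ∑ j ∈ ({2 * k + 1} : Finset ℤ), CW_t j = -1 := by
  rw [Finset.sum_singleton, CW_t, if_pos (by omega)]

end CWAux



theorem euler_Re {D : ℕ} {K : Finset (Cell D)} (hK : Down K) {Y : Type} [TopologicalSpace Y]
    [T2Space Y] (e : Re K ≃ₜ Y) : HasEulerChar Y (chi K) := by
  have e1 : chi K = ∑ c : K, (-1) ^ (LCB_odd c.1).card := by
    rw [chi, ← Finset.sum_coe_sort]
    exact Finset.sum_congr rfl fun c _ => CW_sgn _
  rw [e1]
  refine CW_abs (fun c : K => (LCB_odd c.1).card)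
    (fun n c s => e ⟨CW_pt c.1.1 (Finset.equivFinOfCardEq c.2) s, hK _ c.1.2 _ (CW_face _ s)⟩)
    (fun y => ⟨cellOf (e.symm y).1, (e.symm y).2⟩)
    (fun n c => e.continuous.comp ((CW_cont _).subtype_mk _)) (fun n c s hs => ?_)
    (fun n c s hs t ht h => CW_inj _ hs ht (congrArg Subtype.val (e.injective h))) (fun y => ?_)
    fun n c s => ?_
  · simp only [Homeomorph.symm_apply_apply, Subtype.ext_iff]
    exact CW_open _ hs
  · obtain ⟨s, hs, h⟩ := CW_surj (Finset.equivFinOfCardEq rfl) (x := (e.symm y).1) rfl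
    exact ⟨s, hs, e.eq_symm_apply.1 (Subtype.ext h)⟩
  · simp only [Homeomorph.symm_apply_apply, Subtype.ext_iff]
    have k := CW_face (Finset.equivFinOfCardEq c.2) s
    refine or_iff_not_imp_right.2 fun q => k.eq_of_dim ?_
    rw [LCB_dim, LCB_dim, c.2]
    exact_mod_cast not_lt.1 q

theorem chi_EK {D : ℕ} {K : Finset (Cell D)} (hK : Down K) :
    chi (EK K) = (1 - (-1) ^ D) * chi K := by
  have h1 : chi (WK K) = 1 ^ D * chi K := by
    refine CW_fib (fun j => 2 * (j / 4) + if j % 4 = 3 then 1 else 0) 1 (fun y => mem_WK)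
      fun k => ?_
    by_cases q : k % 2 = 1
    · refine ⟨_, fun j => ?_, (CW_one k).trans (by rw [CW_t, if_pos q, one_mul])⟩
      rw [Finset.mem_singleton]
      split_ifs <;> omega
    · refine ⟨_, fun j => ?_, (CW_three k).trans (by rw [CW_t, if_neg q, one_mul])⟩
      simp only [Finset.mem_insert, Finset.mem_singleton]
      split_ifs <;> omega
  have h2 : chi (QK K) = (-1) ^ D * chi K := by
    refine CW_fib (fun j => 2 * (j / 4) + if j % 4 = 0 then -1 else if j % 4 = 1 then 0 else 1)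
      (-1) (fun y => mem_QK hK) fun k => ?_
    by_cases q : k % 2 = 1
    · refine ⟨_, fun j => ?_, (CW_three k).trans (by rw [CW_t, if_pos q]; rfl)⟩
      simp only [Finset.mem_insert, Finset.mem_singleton]
      split_ifs <;> omega
    · refine ⟨_, fun j => ?_, (CW_one k).trans (by rw [CW_t, if_neg q, mul_one])⟩
      rw [Finset.mem_singleton]
      split_ifs <;> omega
  have h3 : chi (QK K) + chi (EK K) = chi (WK K) := Finset.sum_filter_add_sum_filter_not _ _ _
  rw [one_pow] at h1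
  linear_combination h3 + h1 - h2

end Pool.Agent.Work.MP_7ba843_gt.N
end
end

-- merged part: Pool.Agent.Work.MP_7ba843_gt.N.SurfC
section
-- merged part: Pool.Agent.Work.MP_7ba843_gt.N.SurfB
section
/-! Every edge cocycle on the boundary surface is gauge equivalent to the standard labels.

See the header of `SurfA.lean` for the geometry. PLAN. (1) A gauge transform
`ε' v i = (f v)⁻¹ * ε v i * f (v + 2 • ee i)` of an `ECoc` is an `ECoc`. (2) Choose `f` with
`ε' = 1` on the tree: the edge from `(0,0,0)` in direction `2`, for `z ∈ {0, 2}` the edges of the row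
`y = 0` in direction `0` and all edges in direction `1` (every vertex `(x, y, z)` is joined to
`(x, 0, z)` by edges of the surface). Define `f` on `(2a, 2b, 2c)` by recursion on `a, b : ℕ`.
(3) In this gauge write `e0 x y z = ε' ![x,y,z] 0`, `e2 x y = ε' ![x,y,0] 2`. Squares in the faces
`z = 0, 2` give `e0 x (y+2) z = e0 x y z` when the square is in `P`; so `e0 = 1` except on the
bridges, where `e0 (8j+6) 4 z = e0 (8j+6) 6 z`. Put `x' j = e0 (8j+6) 6 2`,
`t' j = (e2 (8j+6) 2)⁻¹`. Walls: `e2 x 0 = 1` (induction on `x`); around hole `j` all four `e2` are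
`(t' j)⁻¹` and the roof gives `e0 (8j+6) 4 0 = (t' j)⁻¹ x' j t' j`; along the outer boundary,
induction on `j`: `e2 = Vv x' t' j` at the outer vertices with `8j ≤ x ≤ 8j+6`; the right wall
gives `Vv x' t' g = 1`. Prove small lemmas `sq01`, `sq02`, `sq12` that instantiate `ECoc` at
`![x,y,z]` under an arithmetic hypothesis. About 450 lines. -/

namespace Pool.Agent.Work.MP_7ba843_gt.N

open Pool.Agent.Work.MP_735653_gt

/-- cells of the planar region -/
def SurfB_P (g : ℕ) (x y : ℤ) : Prop :=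
  0 ≤ x ∧ x ≤ 8 * g + 6 ∧ 0 ≤ y ∧ y ≤ 6 ∧ (x % 4 = 3 → y ≤ 2 ∨ (x % 8 = 7 ∧ 4 ≤ y))

/-- cells of its boundary -/
def SurfB_B (g : ℕ) (x y : ℤ) : Prop :=
  y = 0 ∨ y = 6 ∨ x = 0 ∨ x = 8 * g + 6 ∨
    (x % 4 ≠ 1 ∧ 2 ≤ y ∧ (y ≤ 4 ∨ (2 ≤ x % 8 ∧ x % 8 ≤ 4)))

theorem SurfB_lo {g : ℕ} {x y : ℤ} :
    Gp g (2 * (x / 4) + if x % 4 = 3 then 1 else 0) (2 * (y / 4) + if y % 4 = 3 then 1 else 0) ↔
      SurfB_P g x y := by
  simp only [Gp, Tt, Tp, SurfB_P]
  split_ifs <;> constructor <;> intro h <;> omega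

theorem SurfB_hi {g : ℕ} {x y : ℤ} (hP : SurfB_P g x y) :
    ¬ Gp g (2 * (x / 4) + if x % 4 = 0 then -1 else if x % 4 = 1 then 0 else 1)
      (2 * (y / 4) + if y % 4 = 0 then -1 else if y % 4 = 1 then 0 else 1) ↔ SurfB_B g x y := by
  simp only [Gp, Tt, Tp, SurfB_P, SurfB_B] at hP ⊢
  obtain ⟨h1, h2, h3, h4, -⟩ := hP
  have hy : y = 0 ∨ y = 1 ∨ y = 2 ∨ y = 3 ∨ y = 4 ∨ y = 5 ∨ y = 6 := by omega
  rcases hy with rfl | rfl | rfl | rfl | rfl | rfl | rfl <;> norm_num <;> split_ifs <;> omega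

theorem SurfB_mem {g : ℕ} {x y z : ℤ} : (![x, y, z] : Cell 3) ∈ EK (gr3 g) ↔
    SurfB_P g x y ∧ (z = 0 ∨ z = 2 ∨ (z = 1 ∧ SurfB_B g x y)) := by
  have z1 : (2 * (z / 4) + if z % 4 = 3 then 1 else 0) = 0 ↔ 0 ≤ z ∧ z ≤ 2 := by
    split_ifs <;> omega
  have z2 : (2 * (z / 4) + if z % 4 = 0 then -1 else if z % 4 = 1 then 0 else 1) = 0 ↔ z = 1 := by
    split_ifs <;> omega
  have e : (![x, y, z] : Cell 3) ∈ EK (gr3 g) ↔
      (Gp g (2 * (x / 4) + if x % 4 = 3 then 1 else 0) (2 * (y / 4) + if y % 4 = 3 then 1 else 0) ∧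
        (2 * (z / 4) + if z % 4 = 3 then 1 else 0) = 0) ∧
      ¬ (Gp g (2 * (x / 4) + if x % 4 = 0 then -1 else if x % 4 = 1 then 0 else 1)
        (2 * (y / 4) + if y % 4 = 0 then -1 else if y % 4 = 1 then 0 else 1) ∧
        (2 * (z / 4) + if z % 4 = 0 then -1 else if z % 4 = 1 then 0 else 1) = 0) := by
    rw [mem_EK, mem_gr3, mem_gr3]
    rfl
  rw [e, SurfB_lo, z1, z2]
  constructor
  · rintro ⟨⟨hP, hz⟩, h⟩
    refine ⟨hP, ?_⟩
    by_cases h1 : z = 1
    · exact Or.inr (Or.inr ⟨h1, (SurfB_hi hP).1 fun k => h ⟨k, h1⟩⟩)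
    · omega
  · rintro ⟨hP, h⟩
    refine ⟨⟨hP, by omega⟩, fun k => ?_⟩
    rcases h with h | h | h
    · omega
    · omega
    · exact (SurfB_hi hP).2 h.2 k.1

theorem SurfB_a0 (x y z : ℤ) : (![x, y, z] : Cell 3) + ee 0 = ![x + 1, y, z] := by
  funext i; fin_cases i <;> simp [ee]

theorem SurfB_a1 (x y z : ℤ) : (![x, y, z] : Cell 3) + ee 1 = ![x, y + 1, z] := by
  funext i; fin_cases i <;> simp [ee]

theorem SurfB_a2 (x y z : ℤ) : (![x, y, z] : Cell 3) + ee 2 = ![x, y, z + 1] := by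
  funext i; fin_cases i <;> simp [ee]

theorem SurfB_b0 (x y z : ℤ) : (![x, y, z] : Cell 3) + 2 • ee 0 = ![x + 2, y, z] := by
  funext i; fin_cases i <;> simp [ee]

theorem SurfB_b1 (x y z : ℤ) : (![x, y, z] : Cell 3) + 2 • ee 1 = ![x, y + 2, z] := by
  funext i; fin_cases i <;> simp [ee]

theorem SurfB_b2 (x y z : ℤ) : (![x, y, z] : Cell 3) + 2 • ee 2 = ![x, y, z + 2] := by
  funext i; fin_cases i <;> simp [ee]

theorem SurfB_vtx {x y z : ℤ} (hx : x % 2 = 0) (hy : y % 2 = 0) (hz : z % 2 = 0) :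
    Vtx (![x, y, z] : Cell 3) := by
  intro i; fin_cases i
  · exact hx
  · exact hy
  · exact hz

section

variable {H : Type} [Group H]

theorem SurfB_gauge_coc {K : Finset (Cell 3)} {ε : Cell 3 → Fin 3 → H} (h : ECoc K ε)
    (f : Cell 3 → H) : ECoc K fun v i => (f v)⁻¹ * ε v i * f (v + 2 • ee i) := by
  intro v i j hv hij hK
  have e : v + 2 • ee j + 2 • ee i = v + 2 • ee i + 2 • ee j := add_right_comm _ _ _
  have h1 := h v i j hv hij hK
  simp only [e]
  calc _ = (f v)⁻¹ * (ε v i * ε (v + 2 • ee i) j) * f (v + 2 • ee i + 2 • ee j) := by group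
    _ = _ := by rw [h1]; group

/-- the gauge along the bottom rows -/
def SurfB_F0 (ε : Cell 3 → Fin 3 → H) (z : ℤ) : ℕ → H
  | 0 => if z = 0 then 1 else (ε ![0, 0, 0] 2)⁻¹
  | a + 1 => (ε ![2 * (a : ℤ), 0, z] 0)⁻¹ * SurfB_F0 ε z a

/-- the gauge along the columns -/
def SurfB_F (ε : Cell 3 → Fin 3 → H) (x z : ℤ) : ℕ → H
  | 0 => SurfB_F0 ε z (x / 2).toNat
  | b + 1 => (ε ![x, 2 * (b : ℤ), z] 1)⁻¹ * SurfB_F ε x z b

theorem SurfB_gauge (ε : Cell 3 → Fin 3 → H) : ∃ f : Cell 3 → H,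
    (f ![0, 0, 0])⁻¹ * ε ![0, 0, 0] 2 * f ![0, 0, 0 + 2] = 1 ∧
    (∀ x z : ℤ, 0 ≤ x → x % 2 = 0 → (f ![x, 0, z])⁻¹ * ε ![x, 0, z] 0 * f ![x + 2, 0, z] = 1) ∧
    ∀ x y z : ℤ, 0 ≤ y → y % 2 = 0 →
      (f ![x, y, z])⁻¹ * ε ![x, y, z] 1 * f ![x, y + 2, z] = 1 := by
  refine ⟨fun v => SurfB_F ε (v 0) (v 2) (v 1 / 2).toNat, ?_, ?_, ?_⟩
  · simp [SurfB_F, SurfB_F0]
  · intro x z h0 h2
    obtain ⟨a, rfl⟩ : ∃ a : ℕ, x = 2 * (a : ℤ) := ⟨(x / 2).toNat, by omega⟩
    have e1 : (2 * (a : ℤ) / 2).toNat = a := by omega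
    have e2 : ((2 * (a : ℤ) + 2) / 2).toNat = a + 1 := by omega
    have e3 : ((0 : ℤ) / 2).toNat = 0 := rfl
    simp only [Matrix.cons_val_zero, Matrix.cons_val_one, Matrix.cons_val, e3, SurfB_F, e1, e2,
      SurfB_F0]
    group
  · intro x y z h0 h2
    obtain ⟨b, rfl⟩ : ∃ b : ℕ, y = 2 * (b : ℤ) := ⟨(y / 2).toNat, by omega⟩
    have e1 : (2 * (b : ℤ) / 2).toNat = b := by omega
    have e2 : ((2 * (b : ℤ) + 2) / 2).toNat = b + 1 := by omega
    simp only [Matrix.cons_val_zero, Matrix.cons_val_one, Matrix.cons_val, e1, e2, SurfB_F]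
    group

/-- the relations in the gauge of the tree -/
structure SurfB_R (g : ℕ) (e0 : ℤ → ℤ → ℤ → H) (e2 : ℤ → ℤ → H) : Prop where
  base : e2 0 0 = 1
  row : ∀ x z, 0 ≤ x → x % 2 = 0 → e0 x 0 z = 1
  s01 : ∀ x y z y', y' = y + 2 → x % 2 = 0 → y % 2 = 0 → (z = 0 ∨ z = 2) →
    SurfB_P g (x + 1) (y + 1) → e0 x y' z = e0 x y z
  s02 : ∀ x y x', x' = x + 2 → x % 2 = 0 → y % 2 = 0 → SurfB_P g (x + 1) y →
    SurfB_B g (x + 1) y → e0 x y 0 * e2 x' y = e2 x y * e0 x y 2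
  s12 : ∀ x y y', y' = y + 2 → x % 2 = 0 → y % 2 = 0 → SurfB_P g x (y + 1) →
    SurfB_B g x (y + 1) → e2 x y' = e2 x y

namespace SurfB_R

variable {g : ℕ} {e0 : ℤ → ℤ → ℤ → H} {e2 : ℤ → ℤ → H} (R : SurfB_R g e0 e2)
include R

theorem flat {x y z : ℤ} (hx : x % 2 = 0) (hy : y % 2 = 0) (hz : z = 0 ∨ z = 2)
    (hP : SurfB_P g (x + 1) y) (hb : ¬ (x % 8 = 6 ∧ 4 ≤ y)) : e0 x y z = 1 := by
  unfold SurfB_P at hP
  have h0 : e0 x 0 z = 1 := R.row x z (by omega) hx
  have h2 : e0 x 2 z = 1 :=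
    (R.s01 x 0 z 2 rfl hx rfl hz (by unfold SurfB_P; omega)).trans h0
  have hy' : y = 0 ∨ y = 2 ∨ 4 ≤ y := by omega
  rcases hy' with rfl | rfl | h4
  · exact h0
  · exact h2
  have h4' : e0 x 4 z = 1 :=
    (R.s01 x 2 z 4 rfl hx rfl hz (by unfold SurfB_P; omega)).trans h2
  have hy' : y = 4 ∨ y = 6 := by omega
  rcases hy' with rfl | rfl
  · exact h4'
  · exact (R.s01 x 4 z 6 rfl hx rfl hz (by unfold SurfB_P; omega)).trans h4'

/-- a wall over a flat edge -/
theorem wall {x y x' : ℤ} (e : x' = x + 2) (hx : x % 2 = 0) (hy : y % 2 = 0)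
    (hP : SurfB_P g (x + 1) y) (hB : SurfB_B g (x + 1) y) (hb : ¬ (x % 8 = 6 ∧ 4 ≤ y)) :
    e2 x' y = e2 x y := by
  have h := R.s02 x y x' e hx hy hP hB
  rwa [R.flat hx hy (Or.inl rfl) hP hb, R.flat hx hy (Or.inr rfl) hP hb, one_mul, mul_one] at h

theorem bottom (a : ℕ) (ha : a ≤ 4 * g + 3) : e2 (2 * (a : ℤ)) 0 = 1 := by
  induction a with
  | zero => exact R.base
  | succ a ih =>
    rw [← ih (by omega)]
    exact R.wall (by push_cast; ring) (by omega) rfl (by unfold SurfB_P; omega) (Or.inl rfl)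
      (by omega)

theorem bottom' {x : ℤ} (h0 : 0 ≤ x) (h1 : x ≤ 8 * g + 6) (hx : x % 2 = 0) : e2 x 0 = 1 := by
  obtain ⟨a, rfl⟩ : ∃ a : ℕ, x = 2 * (a : ℤ) := ⟨(x / 2).toNat, by omega⟩
  exact R.bottom a (by omega)

theorem bridge {j : ℕ} (hj : j < g) {z : ℤ} (hz : z = 0 ∨ z = 2) :
    e0 (8 * (j : ℤ) + 6) 6 z = e0 (8 * (j : ℤ) + 6) 4 z :=
  R.s01 _ 4 z 6 rfl (by omega) rfl hz (by unfold SurfB_P; omega)

theorem up3 {x : ℤ} (h0 : 0 ≤ x) (h1 : x ≤ 8 * g + 6) (hx : x % 2 = 0) : e2 x 4 = e2 x 2 :=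
  R.s12 x 2 4 rfl hx rfl (by unfold SurfB_P; omega) (by unfold SurfB_B; omega)

theorem up5 {x : ℤ} (h0 : 0 ≤ x) (h1 : x ≤ 8 * g + 6) (hx : x % 2 = 0)
    (h : x = 0 ∨ x = 8 * g + 6 ∨ x % 8 = 2 ∨ x % 8 = 4) : e2 x 6 = e2 x 4 :=
  R.s12 x 4 6 rfl hx rfl (by unfold SurfB_P; omega) (by unfold SurfB_B; omega)

theorem up1 {x : ℤ} (h : x = 0 ∨ x = 8 * g + 6) : e2 x 2 = e2 x 0 :=
  R.s12 x 0 2 rfl (by omega) rfl (by unfold SurfB_P; omega) (by unfold SurfB_B; omega)

theorem hole {j : ℕ} (hj : j < g) : e2 (8 * (j : ℤ) + 8) 2 = e2 (8 * (j : ℤ) + 6) 2 :=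
  R.wall (by ring) (by omega) rfl (by unfold SurfB_P; omega) (by unfold SurfB_B; omega)
    (by omega)

theorem roof {j : ℕ} (hj : j < g) : e0 (8 * (j : ℤ) + 6) 6 0 =
    e2 (8 * (j : ℤ) + 6) 2 * e0 (8 * (j : ℤ) + 6) 6 2 * (e2 (8 * (j : ℤ) + 6) 2)⁻¹ := by
  have h := R.s02 (8 * (j : ℤ) + 6) 4 (8 * (j : ℤ) + 8) (by ring) (by omega) rfl
    (by unfold SurfB_P; omega) (by unfold SurfB_B; omega)
  rw [R.up3 (x := 8 * (j : ℤ) + 8) (by omega) (by omega) (by omega), R.hole hj,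
    R.up3 (x := 8 * (j : ℤ) + 6) (by omega) (by omega) (by omega),
    ← R.bridge hj (Or.inl rfl), ← R.bridge hj (Or.inr rfl)] at h
  rw [← h, mul_inv_cancel_right]

theorem top2 {j : ℕ} (hj : j ≤ g) : e2 (8 * (j : ℤ) + 2) 6 = e2 (8 * (j : ℤ)) 6 :=
  R.wall rfl (by omega) rfl (by unfold SurfB_P; omega) (by unfold SurfB_B; omega) (by omega)

theorem notch {j : ℕ} (hj : j ≤ g) : e2 (8 * (j : ℤ) + 4) 2 = e2 (8 * (j : ℤ) + 2) 2 :=
  R.wall (by ring) (by omega) rfl (by unfold SurfB_P; omega) (by unfold SurfB_B; omega)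
    (by omega)

theorem top4 {j : ℕ} (hj : j ≤ g) : e2 (8 * (j : ℤ) + 4) 6 = e2 (8 * (j : ℤ)) 6 := by
  rw [R.up5 (x := 8 * (j : ℤ) + 4) (by omega) (by omega) (by omega) (by omega),
    R.up3 (x := 8 * (j : ℤ) + 4) (by omega) (by omega) (by omega), R.notch hj,
    ← R.up3 (x := 8 * (j : ℤ) + 2) (by omega) (by omega) (by omega),
    ← R.up5 (x := 8 * (j : ℤ) + 2) (by omega) (by omega) (by omega) (by omega), R.top2 hj]

theorem top6 {j : ℕ} (hj : j ≤ g) : e2 (8 * (j : ℤ) + 6) 6 = e2 (8 * (j : ℤ)) 6 :=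
  (R.wall (by ring) (by omega) rfl (by unfold SurfB_P; omega) (by unfold SurfB_B; omega)
    (by omega)).trans (R.top4 hj)

theorem top0 (j : ℕ) (hj : j ≤ g) : e2 (8 * (j : ℤ)) 6 =
    Vv (fun k : ℕ => e0 (8 * (k : ℤ) + 6) 6 2) (fun k : ℕ => (e2 (8 * (k : ℤ) + 6) 2)⁻¹) j := by
  induction j with
  | zero =>
    have e : (8 * ((0 : ℕ) : ℤ)) = 0 := rfl
    rw [e, R.up5 le_rfl (by omega) rfl (Or.inl rfl), R.up3 le_rfl (by omega) rfl,
      R.up1 (Or.inl rfl), R.base]
    rfl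
  | succ j ih =>
    have h := R.s02 (8 * (j : ℤ) + 6) 6 (8 * ((j + 1 : ℕ) : ℤ)) (by push_cast; ring) (by omega)
      rfl (by unfold SurfB_P; omega) (by unfold SurfB_B; omega)
    rw [R.top6 (by omega), ih (by omega), R.roof hj] at h
    simp only [Vv, inv_inv]
    rw [mul_assoc, ← h, inv_mul_cancel_left]

theorem right {y : ℤ} (hy : y = 2 ∨ y = 4 ∨ y = 6) : e2 (8 * (g : ℤ) + 6) y = 1 := by
  have h2 : e2 (8 * (g : ℤ) + 6) 2 = 1 :=
    (R.up1 (Or.inr rfl)).trans (R.bottom' (by omega) le_rfl (by omega))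
  have h4 : e2 (8 * (g : ℤ) + 6) 4 = 1 := (R.up3 (by omega) le_rfl (by omega)).trans h2
  rcases hy with rfl | rfl | rfl
  · exact h2
  · exact h4
  · exact (R.up5 (by omega) le_rfl (by omega) (by omega)).trans h4

theorem rel : Vv (fun k : ℕ => e0 (8 * (k : ℤ) + 6) 6 2)
    (fun k : ℕ => (e2 (8 * (k : ℤ) + 6) 2)⁻¹) g = 1 := by
  rw [← R.top0 g le_rfl, ← R.top6 le_rfl, R.right (by omega)]

theorem lab0 {x y z : ℤ} (hx : x % 2 = 0) (hy : y % 2 = 0) (hz : z = 0 ∨ z = 2)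
    (hP : SurfB_P g (x + 1) y) : e0 x y z = slab g (fun k : ℕ => e0 (8 * (k : ℤ) + 6) 6 2)
      (fun k : ℕ => (e2 (8 * (k : ℤ) + 6) 2)⁻¹) ![x, y, z] 0 := by
  simp only [slab, if_true, Matrix.cons_val_zero, Matrix.cons_val_one, Matrix.cons_val]
  by_cases hb : x % 8 = 6 ∧ 4 ≤ y
  · rw [if_pos hb]
    unfold SurfB_P at hP
    obtain ⟨j, rfl⟩ : ∃ j : ℕ, x = 8 * (j : ℤ) + 6 := ⟨(x / 8).toNat, by omega⟩
    have e : ((8 * (j : ℤ) + 6) / 8).toNat = j := by omega
    have hj : j < g := by omega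
    have h6 : e0 (8 * (j : ℤ) + 6) y z = e0 (8 * (j : ℤ) + 6) 6 z := by
      have hy' : y = 4 ∨ y = 6 := by omega
      rcases hy' with rfl | rfl
      · exact (R.bridge hj hz).symm
      · rfl
    rw [e, h6]
    rcases hz with rfl | rfl
    · rw [if_neg (by omega), inv_inv]
      exact R.roof hj
    · rw [if_pos rfl]
  · rw [if_neg hb]
    exact R.flat hx hy hz hP hb

theorem lab2 {x y : ℤ} (hx : x % 2 = 0) (hy : y % 2 = 0) (hP : SurfB_P g x y) :
    e2 x y = slab g (fun k : ℕ => e0 (8 * (k : ℤ) + 6) 6 2)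
      (fun k : ℕ => (e2 (8 * (k : ℤ) + 6) 2)⁻¹) ![x, y, 0] 2 := by
  have n0 : ¬ ((2 : Fin 3) = 0) := by decide
  have n1 : ¬ ((2 : Fin 3) = 1) := by decide
  simp only [slab, n0, n1, if_false, Matrix.cons_val_zero, Matrix.cons_val_one, inv_inv]
  unfold SurfB_P at hP
  by_cases h0 : y = 0
  · rw [if_pos h0, h0]
    exact R.bottom' (by omega) (by omega) hx
  rw [if_neg h0]
  have low : y ≤ 4 → e2 x y = e2 x 2 := by
    intro h
    have hy' : y = 2 ∨ y = 4 := by omega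
    rcases hy' with rfl | rfl
    · rfl
    · exact R.up3 (by omega) (by omega) hx
  by_cases h1 : y ≤ 4 ∧ x % 8 = 6 ∧ x / 8 < g
  · rw [if_pos h1, low h1.1]
    congr 1
    omega
  rw [if_neg h1]
  by_cases h2 : y ≤ 4 ∧ x % 8 = 0 ∧ 0 < x
  · rw [if_pos h2, low h2.1]
    obtain ⟨j, rfl⟩ : ∃ j : ℕ, x = 8 * (j : ℤ) + 8 := ⟨(x / 8 - 1).toNat, by omega⟩
    have e : ((8 * (j : ℤ) + 8) / 8 - 1).toNat = j := by omega
    rw [e]
    exact R.hole (by omega)
  rw [if_neg h2]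
  obtain ⟨j, r, hr, rfl⟩ : ∃ (j : ℕ) (r : ℤ), (r = 0 ∨ r = 2 ∨ r = 4 ∨ r = 6) ∧
      x = 8 * (j : ℤ) + r := ⟨(x / 8).toNat, x % 8, by omega, by omega⟩
  have e : ((8 * (j : ℤ) + r) / 8).toNat = j := by omega
  have hj : j ≤ g := by omega
  rw [e, ← R.top0 j hj]
  have h6 : e2 (8 * (j : ℤ) + r) y = e2 (8 * (j : ℤ) + r) 6 := by
    by_cases h4 : y ≤ 4
    · rw [low h4, R.up5 (by omega) (by omega) hx (by omega), R.up3 (by omega) (by omega) hx]
    · congr 1
      omega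
  rw [h6]
  rcases hr with rfl | rfl | rfl | rfl
  · rw [add_zero]
  · exact R.top2 hj
  · exact R.top4 hj
  · exact R.top6 hj

end SurfB_R

end

theorem surf_sce (g : ℕ) {H : Type} [Group H] {ε : Cell 3 → Fin 3 → H}
    (h : ECoc (EK (gr3 g)) ε) : ∃ (x t : ℕ → H) (f : Cell 3 → H), Vv x t g = 1 ∧
      ∀ v i, Vtx v → v + ee i ∈ EK (gr3 g) →
        ε v i = f v * slab g x t v i * (f (v + 2 • ee i))⁻¹ := by
  obtain ⟨f, f0, f1, f2⟩ := SurfB_gauge ε
  have hc := SurfB_gauge_coc h f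
  set δ : Cell 3 → Fin 3 → H := fun v i => (f v)⁻¹ * ε v i * f (v + 2 • ee i) with hδ
  have d1 : ∀ x y z : ℤ, 0 ≤ y → y % 2 = 0 → δ ![x, y, z] 1 = 1 := by
    intro x y z h0 h2
    simp only [hδ, SurfB_b1]
    exact f2 x y z h0 h2
  have R : SurfB_R g (fun x y z => δ ![x, y, z] 0) (fun x y => δ ![x, y, 0] 2) := by
    refine ⟨?_, ?_, ?_, ?_, ?_⟩
    · simp only [hδ, SurfB_b2]
      exact f0
    · intro x z h0 h2
      simp only [hδ, SurfB_b0]
      exact f1 x z h0 h2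
    · rintro x y z _ rfl hx hy hz hP
      have h1 := hc ![x, y, z] 0 1 (SurfB_vtx hx hy (by omega)) (by decide)
        (by rw [SurfB_a0, SurfB_a1]; exact SurfB_mem.2 ⟨hP, by omega⟩)
      have h0 : 0 ≤ y := by unfold SurfB_P at hP; omega
      rw [SurfB_b0, SurfB_b1, d1 _ _ _ h0 hy, d1 _ _ _ h0 hy, one_mul, mul_one] at h1
      exact h1.symm
    · rintro x y _ rfl hx hy hP hB
      have h1 := hc ![x, y, 0] 0 2 (SurfB_vtx hx hy rfl) (by decide)
        (by rw [SurfB_a0, SurfB_a2]; exact SurfB_mem.2 ⟨hP, Or.inr (Or.inr ⟨rfl, hB⟩)⟩)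
      rw [SurfB_b0, SurfB_b2] at h1
      exact h1
    · rintro x y _ rfl hx hy hP hB
      have h1 := hc ![x, y, 0] 1 2 (SurfB_vtx hx hy rfl) (by decide)
        (by rw [SurfB_a1, SurfB_a2]; exact SurfB_mem.2 ⟨hP, Or.inr (Or.inr ⟨rfl, hB⟩)⟩)
      have h0 : 0 ≤ y := by unfold SurfB_P at hP; omega
      rw [SurfB_b1, SurfB_b2, d1 _ _ _ h0 hy, d1 _ _ _ h0 hy, one_mul, mul_one] at h1
      exact h1
  refine ⟨_, _, f, R.rel, fun v i hv he => ?_⟩
  have key : δ v i = slab g (fun k : ℕ => δ ![8 * (k : ℤ) + 6, 6, 2] 0)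
      (fun k : ℕ => (δ ![8 * (k : ℤ) + 6, 2, 0] 2)⁻¹) v i := by
    obtain ⟨x, y, z, rfl⟩ : ∃ x y z : ℤ, v = ![x, y, z] :=
      ⟨v 0, v 1, v 2, by funext k; fin_cases k <;> rfl⟩
    have hx : x % 2 = 0 := hv 0
    have hy : y % 2 = 0 := hv 1
    have hz : z % 2 = 0 := hv 2
    have hi : i = 0 ∨ i = 1 ∨ i = 2 := by fin_cases i <;> simp
    rcases hi with rfl | rfl | rfl
    · rw [SurfB_a0, SurfB_mem] at he
      exact R.lab0 hx hy (by omega) he.1
    · rw [SurfB_a1, SurfB_mem] at he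
      have h0 : 0 ≤ y := by have := he.1; unfold SurfB_P at this; omega
      rw [d1 _ _ _ h0 hy]
      rfl
    · rw [SurfB_a2, SurfB_mem] at he
      obtain rfl : z = 0 := by omega
      exact R.lab2 hx hy he.1
  rw [← key, hδ]
  group

end Pool.Agent.Work.MP_7ba843_gt.N
end

-- merged part: Pool.Agent.Work.MP_7ba843_gt.N.SurfA
section
/-! The labels of the boundary surface form a cocycle.

The surface `EK (gr3 g)` is the boundary of `P × [0, 2]`: vertices `(x, y, z)`, all even,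
`0 ≤ x ≤ 8g+6`, `0 ≤ y ≤ 6`, `z ∈ {0, 2}`; membership of a cell unfolds by
`simp only [mem_EK, mem_gr3, Gp, Tt, Tp, lo, hi, ee, Pi.add_apply, Pi.single_apply]` and `omega`.
PLAN. `ecoc_slab`: by symmetry `(i, j) ∈ {(0,1), (0,2), (1,2)}`. Squares `(0,1)`: the two
horizontal labels agree. Walls `(1,2)`: the two vertical labels agree (on the right wall
`Vv x t g = 1`, on the left wall `Vv x t 0 = 1`). Walls `(0,2)`: for `x % 8 = 6`, `y = 4` it is
`Y t⁻¹ = t⁻¹ X`, for `y = 6` the recursion of `Vv`; otherwise the vertical labels agree. Write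
`v 0 = 8 j + r` with `j : ℕ` first. About 250 lines. -/

namespace Pool.Agent.Work.MP_7ba843_gt.N

open Pool.Agent.Work.MP_735653_gt

variable {P E : Type} [Group P] [Group E] {g : ℕ} {x t : ℕ → P}

theorem Vv_map (f : P →* E) {x' t' : ℕ → E} (h : ∀ k < g, f (x k) = x' k ∧ f (t k) = t' k) :
    ∀ k ≤ g, f (Vv x t k) = Vv x' t' k := by
  intro k
  induction k with
  | zero => exact fun _ => map_one f
  | succ k ih =>
    intro hk
    simp only [Vv, map_mul, map_inv, (h k hk).1, (h k hk).2, ih (by omega)]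

theorem SurfA_ex (v : Cell 3) : ∃ a b c : ℤ, v = ![a, b, c] :=
  ⟨v 0, v 1, v 2, by
    funext i
    fin_cases i <;> rfl⟩

theorem SurfA_0 (a b c : ℤ) : slab g x t ![a, b, c] 0 = if a % 8 = 6 ∧ 4 ≤ b then
    (if c = 2 then x (a / 8).toNat else (t (a / 8).toNat)⁻¹ * x (a / 8).toNat * t (a / 8).toNat)
    else 1 := rfl

theorem SurfA_1 (a b c : ℤ) : slab g x t ![a, b, c] 1 = 1 := rfl

theorem SurfA_2 (a b c : ℤ) : slab g x t ![a, b, c] 2 = if b = 0 then 1
    else if b ≤ 4 ∧ a % 8 = 6 ∧ a / 8 < g then (t (a / 8).toNat)⁻¹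
    else if b ≤ 4 ∧ a % 8 = 0 ∧ 0 < a then (t (a / 8 - 1).toNat)⁻¹
    else Vv x t (a / 8).toNat := rfl

theorem ecoc_slab (h : Vv x t g = 1) : ECoc (EK (gr3 g)) (slab g x t) := by
  have h01 : ∀ v, Vtx v → v + ee 0 + ee 1 ∈ EK (gr3 g) → slab g x t v 0 *
      slab g x t (v + 2 • ee 0) 1 = slab g x t v 1 * slab g x t (v + 2 • ee 1) 0 := by
    intro v hv hm
    obtain ⟨a, b, c, rfl⟩ := SurfA_ex v
    have h0 : a % 2 = 0 := hv 0
    have h1 : b % 2 = 0 := hv 1
    rw [SurfB_a0, SurfB_a1, SurfB_mem] at hm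
    have k := hm.1
    simp only [SurfB_P] at k
    rw [SurfB_b0, SurfB_b1, SurfA_1, SurfA_1, SurfA_0, SurfA_0, mul_one, one_mul]
    exact if_congr (by omega) rfl rfl
  have h12 : ∀ v, Vtx v → v + ee 1 + ee 2 ∈ EK (gr3 g) → slab g x t v 1 *
      slab g x t (v + 2 • ee 1) 2 = slab g x t v 2 * slab g x t (v + 2 • ee 2) 1 := by
    intro v hv hm
    obtain ⟨a, b, c, rfl⟩ := SurfA_ex v
    have h0 : a % 2 = 0 := hv 0
    have h1 : b % 2 = 0 := hv 1
    have h2 : c % 2 = 0 := hv 2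
    rw [SurfB_a1, SurfB_a2, SurfB_mem] at hm
    simp only [SurfB_P, SurfB_B] at hm
    rw [SurfB_b1, SurfB_b2, SurfA_1, SurfA_1, SurfA_2, SurfA_2, mul_one, one_mul]
    by_cases e0 : a = 0
    · subst e0
      simp [Vv]
    by_cases e1 : a = 8 * g + 6
    · have e2 : (a / 8).toNat = g := by omega
      rw [e2, h]
      clear hm
      split_ifs <;> first | rfl | omega
    have e3 : b = 2 ∨ b = 4 ∧ a % 8 ≠ 6 ∧ a % 8 ≠ 0 := by omega
    rcases e3 with rfl | ⟨rfl, e3, e4⟩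
    · norm_num
    · simp [e3, e4]
  have h02 : ∀ v, Vtx v → v + ee 0 + ee 2 ∈ EK (gr3 g) → slab g x t v 0 *
      slab g x t (v + 2 • ee 0) 2 = slab g x t v 2 * slab g x t (v + 2 • ee 2) 0 := by
    intro v hv hm
    obtain ⟨a, b, c, rfl⟩ := SurfA_ex v
    have h0 : a % 2 = 0 := hv 0
    have h1 : b % 2 = 0 := hv 1
    have h2 : c % 2 = 0 := hv 2
    rw [SurfB_a0, SurfB_a2, SurfB_mem] at hm
    simp only [SurfB_P, SurfB_B] at hm
    obtain rfl : c = 0 := by omega
    rw [SurfB_b0, SurfB_b2, SurfA_0, SurfA_0, SurfA_2, SurfA_2]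
    by_cases e0 : a % 8 = 6
    · have e1 : ((a + 2) / 8).toNat = (a / 8).toNat + 1 := by omega
      have e2 : (a + 2) / 8 - 1 = a / 8 := by omega
      have e3 : a / 8 < g ∧ 0 < a + 2 ∧ (a + 2) % 8 = 0 ∧ (a + 2) % 8 ≠ 6 := by omega
      have e4 : b = 0 ∨ b = 2 ∨ b = 4 ∨ b = 6 := by omega
      rw [e1, e2, Vv]
      rcases e4 with rfl | rfl | rfl | rfl <;> simp [e0, e3, mul_assoc]
    · have e1 : (a + 2) / 8 = a / 8 := by omega
      have e4 : b = 0 ∨ b = 6 ∨ (2 ≤ b ∧ b ≤ 4 ∧ a % 8 = 2) := by omega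
      rw [e1]
      rcases e4 with rfl | rfl | ⟨e4, e5, e6⟩
      · simp [e0]
      · simp [e0]
      · have e7 : (a + 2) % 8 = 4 := by omega
        simp [e6, e7]
  intro v i j hv hij hm
  have hm' : v + ee j + ee i ∈ EK (gr3 g) := add_right_comm v _ _ ▸ hm
  fin_cases i <;> fin_cases j
  exacts [absurd rfl hij, h01 v hv hm, h02 v hv hm, (h01 v hv hm').symm, absurd rfl hij,
    h12 v hv hm, (h02 v hv hm').symm, (h12 v hv hm').symm, absurd rfl hij]

theorem slab_map (f : P →* E) {x' t' : ℕ → E} (h : ∀ k < g, f (x k) = x' k ∧ f (t k) = t' k)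
    {v : Cell 3} {i : Fin 3} (hv : Vtx v) (he : v + ee i ∈ EK (gr3 g)) :
    f (slab g x t v i) = slab g x' t' v i := by
  obtain ⟨a, b, c, rfl⟩ := SurfA_ex v
  have h0 : a % 2 = 0 := hv 0
  obtain rfl | rfl | rfl : i = 0 ∨ i = 1 ∨ i = 2 := by omega
  · have k := (SurfB_mem.1 (SurfB_a0 a b c ▸ he)).1
    simp only [SurfB_P] at k
    rw [SurfA_0, SurfA_0]
    split_ifs with k1
    · exact (h _ (by omega)).1
    · simp only [map_mul, map_inv, h (a / 8).toNat (by omega)]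
    · exact map_one f
  · exact map_one f
  · have k := (SurfB_mem.1 (SurfB_a2 a b c ▸ he)).1
    simp only [SurfB_P] at k
    rw [SurfA_2, SurfA_2]
    split_ifs
    · exact map_one f
    · rw [map_inv, (h _ (by omega)).2]
    · rw [map_inv, (h _ (by omega)).2]
    · exact Vv_map f h _ (by omega)

theorem slab_glab (p : P →* FreeGroup (Fin g))
    (h : ∀ k (hk : k < g), p (x k) = FreeGroup.of ⟨k, hk⟩ ∧ p (t k) = 1)
    {v : Cell 3} {i : Fin 3} (hv : Vtx v) (he : v + ee i ∈ EK (gr3 g)) :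
    p (slab g x t v i) = if v i % 4 = 2 then glab (D := 1) g (lo v) i else 1 := by
  have V : ∀ k ≤ g, p (Vv x t k) = 1 := fun k => by
    induction k with
    | zero => exact fun _ => map_one p
    | succ k ih =>
      intro hk
      simp only [Vv, map_mul, map_inv, (h k hk).2, ih (by omega), inv_one, one_mul, mul_one,
        inv_mul_cancel]
  obtain ⟨a, b, c, rfl⟩ := SurfA_ex v
  have h0 : a % 2 = 0 := hv 0
  have h1 : b % 2 = 0 := hv 1
  obtain rfl | rfl | rfl : i = 0 ∨ i = 1 ∨ i = 2 := by omega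
  · have k := (SurfB_mem.1 (SurfB_a0 a b c ▸ he)).1
    simp only [SurfB_P] at k
    have e : glab (D := 1) g (lo ![a, b, c]) 0 = if (2 * (b / 4) + if b % 4 = 3 then 1 else 0) = 2 ∧
        (2 * (a / 4) + if a % 4 = 3 then 1 else 0) % 4 = 2 then lab (Equiv.refl (Fin g))
          ((2 * (a / 4) + if a % 4 = 3 then 1 else 0) / 4) else 1 := by
      simp only [glab, true_and]
      rfl
    rw [SurfA_0, e, if_neg (by omega : ¬ b % 4 = 3), if_neg (by omega : ¬ a % 4 = 3)]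
    change _ = if a % 4 = 2 then _ else 1
    by_cases k1 : a % 8 = 6 ∧ 4 ≤ b
    · have e1 : (2 * (a / 4) + 0) / 4 = a / 8 := by omega
      rw [if_pos k1, if_pos (by omega : a % 4 = 2), if_pos (by omega :
        2 * (b / 4) + 0 = 2 ∧ (2 * (a / 4) + 0) % 4 = 2), e1, lab, dif_pos (by omega)]
      split_ifs <;> simp [h (a / 8).toNat (by omega)]
    · rw [if_neg k1, map_one]
      split_ifs <;> first | rfl | omega
  · simp [slab, glab]
  · have k := (SurfB_mem.1 (SurfB_a2 a b c ▸ he)).1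
    simp only [SurfB_P] at k
    rw [SurfA_2, show glab (D := 1) g (lo ![a, b, c]) 2 = 1 by simp [glab], ite_self]
    split_ifs
    · exact map_one p
    · rw [map_inv, (h _ (by omega)).2, inv_one]
    · rw [map_inv, (h _ (by omega)).2, inv_one]
    · exact V _ (by omega)

end Pool.Agent.Work.MP_7ba843_gt.N
end

-- merged part: Pool.Agent.Work.MP_7ba843_gt.N.SurfC
section
/-! The covering of the boundary surface is connected.

See the headers of `SurfA.lean`, `SurfB.lean`. PLAN. Along the tree of `SurfB` all labels are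
`1`, so `φ γ v ↔ φ γ 0` for every vertex `v` of the surface. The edge from `(8j+6, 6, 2)` in
direction `0` gives `φ γ 0 ↔ φ (γ * x j) 0`, the edge from `(8j+6, 2, 0)` in direction `2` gives
`φ γ 0 ↔ φ (γ * (t j)⁻¹) 0`. The set of `δ` with `∀ γ, φ γ 0 ↔ φ (γ * δ) 0` is a subgroup.
About 150 lines. -/

namespace Pool.Agent.Work.MP_7ba843_gt.N

open Pool.Agent.Work.MP_735653_gt

theorem surf_conn {P : Type} [Group P] {g : ℕ} {x t : ℕ → P}
    (hg : Subgroup.closure {y | ∃ k < g, y = x k ∨ y = t k} = ⊤) (φ : P → Cell 3 → Prop)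
    (hφ : ∀ γ v i, Vtx v → v + ee i ∈ EK (gr3 g) →
      (φ γ v ↔ φ (γ * slab g x t v i) (v + 2 • ee i))) :
    (0 : Cell 3) ∈ EK (gr3 g) ∧ ∀ γ γ', ∀ a ∈ EK (gr3 g), ∀ b ∈ EK (gr3 g), Vtx a → Vtx b →
      φ γ a → φ γ' b := by
  have z0 : (0 : Cell 3) = ![0, 0, 0] := by
    funext i
    fin_cases i <;> rfl
  have s0 : ∀ γ (a b c : ℤ), a % 2 = 0 → b % 2 = 0 → (c = 0 ∨ c = 2) → SurfB_P g (a + 1) b →
      (φ γ ![a, b, c] ↔ φ (γ * slab g x t ![a, b, c] 0) ![a + 2, b, c]) := fun γ a b c h1 h2 h3 h4 =>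
    SurfB_b0 a b c ▸ hφ γ _ 0 (SurfB_vtx h1 h2 (by omega))
      (by rw [SurfB_a0, SurfB_mem]; exact ⟨h4, by omega⟩)
  have s1 : ∀ γ (a b c : ℤ), a % 2 = 0 → b % 2 = 0 → (c = 0 ∨ c = 2) → SurfB_P g a (b + 1) →
      (φ γ ![a, b, c] ↔ φ γ ![a, b + 2, c]) := fun γ a b c h1 h2 h3 h4 => by
    have := hφ γ _ 1 (SurfB_vtx h1 h2 (by omega : c % 2 = 0))
      (by rw [SurfB_a1, SurfB_mem]; exact ⟨h4, by omega⟩)
    rwa [SurfB_b1, show slab g x t ![a, b, c] 1 = 1 by simp [slab], mul_one] at this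
  have s2 : ∀ γ (a b : ℤ), a % 2 = 0 → b % 2 = 0 → SurfB_P g a b → SurfB_B g a b →
      (φ γ ![a, b, 0] ↔ φ (γ * slab g x t ![a, b, 0] 2) ![a, b, 2]) := fun γ a b h1 h2 h3 h4 =>
    SurfB_b2 a b 0 ▸ hφ γ _ 2 (SurfB_vtx h1 h2 rfl)
      (by rw [SurfB_a2, SurfB_mem]; exact ⟨h3, .inr (.inr ⟨rfl, h4⟩)⟩)
  have row : ∀ γ (c : ℤ), (c = 0 ∨ c = 2) → ∀ a : ℕ, a ≤ 4 * g + 3 →
      (φ γ ![2 * (a : ℤ), 0, c] ↔ φ γ ![0, 0, 0]) := fun γ c hc a => by
    induction a with
    | zero =>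
      intro _
      rcases hc with rfl | rfl
      · exact Iff.rfl
      · have := s2 γ 0 0 rfl rfl (by simp only [SurfB_P]; omega) (.inl rfl)
        rw [show slab g x t ![0, 0, 0] 2 = 1 by simp [slab], mul_one] at this
        exact this.symm
    | succ a ih =>
      intro ha
      have := s0 γ (2 * a) 0 c (by omega) rfl hc (by simp only [SurfB_P]; omega)
      rw [show slab g x t ![2 * (a : ℤ), 0, c] 0 = 1 by simp [slab], mul_one] at this
      rw [← ih (by omega), this]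
      push_cast
      ring_nf
  have T : ∀ γ (a b c : ℤ), a % 2 = 0 → b % 2 = 0 → (c = 0 ∨ c = 2) → SurfB_P g a b →
      (φ γ ![a, b, c] ↔ φ γ ![0, 0, 0]) := fun γ a b c h1 h2 h3 h4 => by
    simp only [SurfB_P] at h4 s1
    have k0 := row γ c h3 (a / 2).toNat (by omega)
    rw [show 2 * ((a / 2).toNat : ℤ) = a by omega] at k0
    have k1 := (s1 γ a 0 c h1 rfl h3 (by omega)).symm.trans k0
    have k2 := (s1 γ a 2 c h1 rfl h3 (by omega)).symm.trans k1
    have k3 := (s1 γ a 4 c h1 rfl h3 (by omega)).symm.trans k2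
    obtain rfl | rfl | rfl | rfl : b = 0 ∨ b = 2 ∨ b = 4 ∨ b = 6 := by omega
    exacts [k0, k1, k2, k3]
  have T' : ∀ γ, ∀ a ∈ EK (gr3 g), Vtx a → (φ γ a ↔ φ γ ![0, 0, 0]) := fun γ a ha hv => by
    have e : a = ![a 0, a 1, a 2] := by
      funext i
      fin_cases i <;> rfl
    have := hv 2
    rw [e] at ha ⊢
    exact T γ _ _ _ (hv 0) (hv 1) (by have := (SurfB_mem.1 ha).2; omega) (SurfB_mem.1 ha).1
  have key : ∀ δ γ, φ γ ![0, 0, 0] ↔ φ (γ * δ) ![0, 0, 0] := fun δ => by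
    refine Subgroup.closure_induction (p := fun δ _ => ∀ γ, φ γ ![0, 0, 0] ↔ φ (γ * δ) ![0, 0, 0])
      ?_ (fun γ => by rw [mul_one]) (fun a b _ _ h1 h2 γ => by rw [h1 γ, h2, mul_assoc])
      (fun a _ h γ => by rw [h (γ * a⁻¹), inv_mul_cancel_right]) (hg ▸ Subgroup.mem_top δ)
    have e1 : ∀ k : ℕ, (8 * (k : ℤ) + 6) % 8 = 6 := fun k => by omega
    have e2 : ∀ k : ℕ, (8 * (k : ℤ) + 6) / 8 = k := fun k => by omega
    rintro _ ⟨k, hk, rfl | rfl⟩ γ
    · have := s0 γ (8 * k + 6) 6 2 (by omega) rfl (.inr rfl) (by simp only [SurfB_P]; omega)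
      rwa [show slab g x t ![8 * (k : ℤ) + 6, 6, 2] 0 = x k by simp [slab, e1, e2],
        T _ _ _ _ (by omega) rfl (.inr rfl) (by simp only [SurfB_P]; omega),
        T _ _ _ _ (by omega) rfl (.inr rfl) (by simp only [SurfB_P]; omega)] at this
    · have := s2 (γ * t k) (8 * k + 6) 2 (by omega) rfl (by simp only [SurfB_P]; omega)
        (by simp only [SurfB_B]; omega)
      rw [show slab g x t ![8 * (k : ℤ) + 6, 2, 0] 2 = (t k)⁻¹ by simp [slab, e1, e2, hk],
        T _ _ _ _ (by omega) rfl (.inl rfl) (by simp only [SurfB_P]; omega),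
        T _ _ _ _ (by omega) rfl (.inr rfl) (by simp only [SurfB_P]; omega),
        mul_inv_cancel_right] at this
      exact this.symm
  refine ⟨z0 ▸ SurfB_mem.2 ⟨by simp only [SurfB_P]; omega, .inl rfl⟩,
    fun γ γ' a ha b hb h1 h2 h => ?_⟩
  rw [T' _ b hb h2, ← mul_inv_cancel_left γ γ', ← key]
  exact (T' _ a ha h1).1 h

end Pool.Agent.Work.MP_7ba843_gt.N
end
end
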