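import Pool.Agent.Work.MP_7ba843_gt.N.SurfC

/-! The subgroup of index `d` of the free group of rank two.

PLAN. Reidemeister rewriting as an action of `F2` on `FreeGroup (Fin (d+1)) × Fin d` (or a
function on words): right action `(u, i) · a = (u, i+1)` if `i + 1 < d`, else `(u * of 0, 0)`;
`(u, i) · t = (u * of (i+1), i)`. As a homomorphism: `F2 →* (Equiv.Perm _)ᵐᵒᵖ`, or use the left
action `f • y = y · f⁻¹`. Facts: it commutes with left multiplication on `u`;
`(u, 0) · th d w = (u * w, 0)`; the map `(u, i) ↦ th d u * a ^ i` is equivariant, so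
`f = th d u * a ^ i` for `(u, i) = (1, 0) · f`. `ext_AI`: `φ f = φ₀ (rs f).1`; for a generator `y`
the set `{f | φ (f * y) ≠ φ f}` injects by `rs` into (a finite union of finite sets) `× Fin d`;
`AI` for the generators of a group implies `AI` (closure induction). `th_surj`: `aexp cc = 1`
(`decide` after `FreeGroup.lift_mk`/`simp`), `cc ^ d` is in the range, Bezout gives `cc` modulo
`NN n`, and `f * cc ^ (-aexp f)` is in the range. About 300 lines. -/

namespace Pool.Agent.Work.MP_7ba843_gt.N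

/-- the element whose image is `a ^ m * t * a ^ (-m)` -/
def RS_s (d : ℕ) (m : ℤ) : FreeGroup (Fin (d + 1)) :=
  FreeGroup.of 0 ^ (m / d) * FreeGroup.of (Fin.ofNat (d + 1) ((m % d).toNat + 1)) *
    FreeGroup.of 0 ^ (-(m / d))

/-- the action of `a` -/
def RS_A (d : ℕ) : Equiv.Perm (FreeGroup (Fin (d + 1)) × ℤ) :=
  ⟨fun y => (y.1, y.2 - 1), fun y => (y.1, y.2 + 1), fun y => by simp, fun y => by simp⟩

/-- the action of `t` -/
def RS_T (d : ℕ) : Equiv.Perm (FreeGroup (Fin (d + 1)) × ℤ) :=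
  ⟨fun y => (RS_s d y.2 * y.1, y.2), fun y => ((RS_s d y.2)⁻¹ * y.1, y.2), fun y => by simp,
    fun y => by simp⟩

/-- the rewriting action -/
def RS_rho (d : ℕ) : F2 →* Equiv.Perm (FreeGroup (Fin (d + 1)) × ℤ) :=
  FreeGroup.lift fun i => if i = 0 then RS_A d else RS_T d

theorem RS_rho_t (d : ℕ) (y : FreeGroup (Fin (d + 1)) × ℤ) :
    RS_rho d (FreeGroup.of 1) y = (RS_s d y.2 * y.1, y.2) := by
  rw [RS_rho, FreeGroup.lift_apply_of, if_neg (by decide)]
  rfl

theorem RS_rho_pow (d j : ℕ) (y : FreeGroup (Fin (d + 1)) × ℤ) :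
    RS_rho d (FreeGroup.of 0 ^ j) y = (y.1, y.2 - j) := by
  induction j with
  | zero => simp
  | succ j ih =>
    rw [pow_succ', map_mul, Equiv.Perm.mul_apply, ih, RS_rho, FreeGroup.lift_apply_of, if_pos rfl]
    exact Prod.ext rfl (by simp only [RS_A, Equiv.coe_fn_mk]; push_cast; ring)

theorem RS_rho_inv (d j : ℕ) (y : FreeGroup (Fin (d + 1)) × ℤ) :
    RS_rho d (FreeGroup.of 0 ^ j)⁻¹ y = (y.1, y.2 + j) := by
  rw [map_inv, Equiv.Perm.inv_eq_iff_eq, RS_rho_pow, add_sub_cancel_right]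

theorem RS_th_zero (d : ℕ) : th d (FreeGroup.of 0) = FreeGroup.of 0 ^ d := by
  rw [th, FreeGroup.lift_apply_of]
  exact if_pos rfl

theorem RS_th_succ {d : ℕ} (i : Fin d) : th d (FreeGroup.of i.succ) =
    FreeGroup.of 0 ^ (i : ℕ) * FreeGroup.of 1 * (FreeGroup.of 0 ^ (i : ℕ))⁻¹ := by
  rw [th, FreeGroup.lift_apply_of]
  exact if_neg (Nat.succ_ne_zero _)

theorem RS_s_eq {d : ℕ} (k : ℤ) (i : Fin d) : RS_s d (d * k + (i : ℕ)) =
    FreeGroup.of 0 ^ k * FreeGroup.of i.succ * FreeGroup.of 0 ^ (-k) := by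
  have hi : ((i : ℕ) : ℤ) < d := Int.ofNat_lt.2 i.2
  have h0 : (0 : ℤ) ≤ (i : ℕ) := Int.natCast_nonneg _
  have h1 : ((d : ℤ) * k + (i : ℕ)) / d = k := by
    rw [add_comm, Int.add_mul_ediv_left _ _ (by omega), Int.ediv_eq_zero_of_lt h0 hi, zero_add]
  have h2 : ((d : ℤ) * k + (i : ℕ)) % d = (i : ℕ) := by
    rw [add_comm, Int.add_mul_emod_self_left, Int.emod_eq_of_lt h0 hi]
  have h3 : Fin.ofNat (d + 1) ((i : ℕ) + 1) = i.succ :=
    Fin.ext (Nat.mod_eq_of_lt (Nat.succ_lt_succ i.2))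
  rw [RS_s, h1, h2, Int.toNat_natCast, h3]

theorem RS_key {d : ℕ} (hd : 1 ≤ d) (w : FreeGroup (Fin (d + 1))) :
    ∀ y y', RS_rho d (th d w) y = y' → ((d : ℤ) ∣ y.2 ↔ (d : ℤ) ∣ y'.2) ∧
      ((d : ℤ) ∣ y.2 → FreeGroup.of 0 ^ (-(y'.2 / d)) * y'.1 =
        w * (FreeGroup.of 0 ^ (-(y.2 / d)) * y.1)) := by
  have hd0 : (d : ℤ) ≠ 0 := by omega
  induction w using FreeGroup.induction_on with
  | C1 =>
    rintro y _ rfl
    simp
  | of i =>
    rintro ⟨u, m⟩ _ rfl
    induction i using Fin.cases with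
    | zero =>
      rw [RS_th_zero, RS_rho_pow]
      refine ⟨(dvd_sub_left (dvd_refl _)).symm, ?_⟩
      rintro ⟨k, rfl⟩
      have h : (d : ℤ) * k - d = d * (k - 1) := by ring
      simp only [h, Int.mul_ediv_cancel_left _ hd0]
      group
    | succ i =>
      rw [RS_th_succ, map_mul, map_mul, Equiv.Perm.mul_apply, Equiv.Perm.mul_apply, RS_rho_inv,
        RS_rho_t, RS_rho_pow]
      simp only [add_sub_cancel_right]
      refine ⟨trivial, ?_⟩
      rintro ⟨k, rfl⟩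
      rw [RS_s_eq, Int.mul_ediv_cancel_left _ hd0]
      group
  | inv_of i ih =>
    intro y y' h
    rw [map_inv, map_inv, Equiv.Perm.inv_eq_iff_eq] at h
    obtain ⟨h1, h2⟩ := ih y' y h.symm
    exact ⟨h1.symm, fun k => by rw [h2 (h1.2 k), inv_mul_cancel_left]⟩
  | mul a b ha hb =>
    rintro y _ rfl
    rw [map_mul, map_mul, Equiv.Perm.mul_apply]
    obtain ⟨h1, h2⟩ := hb y _ rfl
    obtain ⟨h3, h4⟩ := ha (RS_rho d (th d b) y) _ rfl
    exact ⟨h1.trans h3, fun k => by rw [h4 (h1.1 k), h2 k, mul_assoc]⟩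

theorem RS_aexp_a : aexp (FreeGroup.of 0) = Multiplicative.ofAdd 1 := by
  rw [aexp, FreeGroup.lift_apply_of, if_pos rfl]

theorem RS_aexp_t : aexp (FreeGroup.of 1) = 1 := by
  rw [aexp, FreeGroup.lift_apply_of, if_neg (by decide)]

theorem RS_aexp_zpow (j : ℤ) : (aexp (FreeGroup.of 0 ^ j)).toAdd = j := by
  rw [map_zpow, RS_aexp_a, toAdd_zpow, toAdd_ofAdd, smul_eq_mul, mul_one]

theorem RS_dvd (d : ℕ) (w : FreeGroup (Fin (d + 1))) : (d : ℤ) ∣ (aexp (th d w)).toAdd := by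
  induction w using FreeGroup.induction_on with
  | C1 => simp
  | of i =>
    induction i using Fin.cases with
    | zero => rw [RS_th_zero, ← zpow_natCast, RS_aexp_zpow]
    | succ i =>
      rw [RS_th_succ, map_mul aexp, map_mul aexp, map_inv, RS_aexp_t, mul_one, mul_inv_cancel]
      exact dvd_zero _
  | inv_of i ih =>
    rw [map_inv, map_inv, toAdd_inv]
    exact ih.neg_right
  | mul a b ha hb =>
    rw [map_mul, map_mul, toAdd_mul]
    exact ha.add hb

theorem RS_pow_mem (d : ℕ) (k : ℤ) : (FreeGroup.of 0 : F2) ^ ((d : ℤ) * k) ∈ (th d).range :=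
  ⟨FreeGroup.of 0 ^ k, by rw [map_zpow, RS_th_zero, ← zpow_natCast, ← zpow_mul]⟩

theorem RS_mem {d : ℕ} (hd : 1 ≤ d) (f : F2) : ∀ n : ℤ, FreeGroup.of 0 ^ n * f *
    FreeGroup.of 0 ^ (-(n + (aexp f).toAdd)) ∈ (th d).range := by
  induction f using FreeGroup.induction_on with
  | C1 =>
    intro n
    simp
  | of i =>
    intro n
    induction i using Fin.cases with
    | zero =>
      rw [RS_aexp_a, toAdd_ofAdd, ← zpow_add_one, ← zpow_add, add_neg_cancel, zpow_zero]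
      exact one_mem _
    | succ i =>
      obtain rfl : i = 0 := Subsingleton.elim _ _
      have h0 : 0 ≤ n % d := Int.emod_nonneg _ (by omega)
      have h1 : n % d < d := Int.emod_lt_of_pos _ (by omega)
      have h2 := mul_mem (mul_mem (RS_pow_mem d (n / d))
        (⟨_, RS_th_succ (⟨(n % d).toNat, by omega⟩ : Fin d)⟩ : _ ∈ (th d).range))
        (inv_mem (RS_pow_mem d (n / d)))
      have h3 : (FreeGroup.of 0 : F2) ^ n =
          FreeGroup.of 0 ^ ((d : ℤ) * (n / d)) * FreeGroup.of 0 ^ (n % d).toNat := by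
        rw [← zpow_natCast, ← zpow_add, Int.toNat_of_nonneg h0, Int.mul_ediv_add_emod]
      have h4 : (Fin.succ 0 : Fin 2) = 1 := rfl
      rw [h4, RS_aexp_t, toAdd_one, add_zero, zpow_neg, h3]
      simpa only [mul_inv_rev, mul_assoc] using h2
  | inv_of i ih =>
    intro n
    have h := inv_mem (ih (n - (aexp (FreeGroup.of i)).toAdd))
    rw [sub_add_cancel, mul_inv_rev, mul_inv_rev, ← zpow_neg, ← zpow_neg, neg_neg,
      ← mul_assoc] at h
    rwa [map_inv, toAdd_inv, ← sub_eq_add_neg]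
  | mul a b ha hb =>
    intro n
    have h := mul_mem (ha n) (hb (n + (aexp a).toAdd))
    rw [map_mul, toAdd_mul, ← add_assoc]
    simpa only [zpow_neg, mul_assoc, inv_mul_cancel_left] using h

theorem th_inj {d : ℕ} (hd : 1 ≤ d) : Function.Injective (th d) := by
  refine (injective_iff_map_eq_one _).2 fun w hw => ?_
  have h := (RS_key hd w (1, 0) (1, 0) (by rw [hw, map_one]; rfl)).2 (dvd_zero _)
  simpa using h.symm

theorem th_range {d : ℕ} (hd : 1 ≤ d) (f : F2) :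
    f ∈ (th d).range ↔ (d : ℤ) ∣ (aexp f).toAdd := by
  constructor
  · rintro ⟨w, rfl⟩
    exact RS_dvd d w
  · rintro ⟨k, hk⟩
    have h := mul_mem (RS_mem hd f 0) (RS_pow_mem d k)
    rwa [zpow_zero, one_mul, zero_add, hk, zpow_neg, inv_mul_cancel_right] at h

theorem ext_AI {d : ℕ} (hd : 1 ≤ d) (φ₀ : FreeGroup (Fin (d + 1)) → ZMod 2) (h : AI φ₀) :
    ∃ φ : F2 → ZMod 2, AI φ ∧ ∀ u, φ (th d u) = φ₀ u := by
  have h1 : ∀ f : F2, ∃ u, th d u * FreeGroup.of 0 ^ ((aexp f).toAdd % d) = f := fun f => by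
    obtain ⟨u, hu⟩ := (th_range hd (f * FreeGroup.of 0 ^ (-((aexp f).toAdd % d)))).2 (by
      rw [map_mul, toAdd_mul, RS_aexp_zpow, ← sub_eq_add_neg]
      exact Int.dvd_self_sub_of_emod_eq rfl)
    exact ⟨u, by rw [hu, zpow_neg, inv_mul_cancel_right]⟩
  choose R hR using h1
  have h2 : ∀ f g : F2, R (f * g) = R f * R (FreeGroup.of 0 ^ ((aexp f).toAdd % d) * g) := by
    intro f g
    have a := hR (f * g)
    have b := hR (FreeGroup.of 0 ^ ((aexp f).toAdd % d) * g)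
    rw [map_mul, toAdd_mul] at a b
    rw [RS_aexp_zpow, Int.emod_add_emod] at b
    refine th_inj hd (mul_right_cancel
      (b := FreeGroup.of 0 ^ (((aexp f).toAdd + (aexp g).toAdd) % d)) ?_)
    rw [a, map_mul, mul_assoc, b, ← mul_assoc, hR]
  refine ⟨fun f => φ₀ (R f), fun g => ?_, fun u => ?_⟩
  · refine ((Set.finite_Ico (0 : ℤ) d).biUnion fun j _ =>
      (h (R (FreeGroup.of 0 ^ j * g))).image fun u => th d u * FreeGroup.of 0 ^ j).subset ?_
    intro f hf
    refine Set.mem_biUnion (x := (aexp f).toAdd % d)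
      ⟨Int.emod_nonneg _ (by omega), Int.emod_lt_of_pos _ (by omega)⟩ ⟨R f, ?_, hR f⟩
    have hf' : φ₀ (R (f * g)) ≠ φ₀ (R f) := hf
    rwa [h2] at hf'
  · have a := hR (th d u)
    rw [Int.emod_eq_zero_of_dvd (RS_dvd d u), zpow_zero, mul_one] at a
    exact congrArg φ₀ (th_inj hd a)

theorem aexp_Cw (top ε : Bool) :
    (aexp (FreeGroup.mk (Cw top ε))).toAdd = if ε then 1 else -1 := by
  rw [aexp, FreeGroup.lift_mk]
  cases top <;> cases ε <;> decide +kernel

theorem th_surj {d n : ℕ} (hd : 1 ≤ d) (h : Nat.Coprime d n) :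
    Function.Surjective ((QuotientGroup.mk' (NN n)).comp (th d)) := by
  have h1 : (aexp cc).toAdd = 1 := aexp_Cw false true
  have h2 : ∀ f : F2, (d : ℤ) ∣ (aexp f).toAdd → QuotientGroup.mk' (NN n) f ∈
      ((QuotientGroup.mk' (NN n)).comp (th d)).range := fun f hf => by
    obtain ⟨u, rfl⟩ := (th_range hd f).2 hf
    exact ⟨u, rfl⟩
  have h3 : QuotientGroup.mk' (NN n) cc ^ n = 1 := by
    rw [← map_pow]
    exact (QuotientGroup.eq_one_iff _).2 (Subgroup.subset_normalClosure rfl)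
  obtain ⟨m, hm⟩ := exists_pow_eq_self_of_coprime (x := QuotientGroup.mk' (NN n) cc)
    (h.coprime_dvd_right (orderOf_dvd_of_pow_eq_one h3))
  have h4 : QuotientGroup.mk' (NN n) cc ∈ ((QuotientGroup.mk' (NN n)).comp (th d)).range := by
    rw [← hm, ← map_pow]
    refine pow_mem (h2 _ ?_) m
    rw [map_pow, toAdd_pow, h1, nsmul_eq_mul, mul_one]
  intro g
  obtain ⟨f, rfl⟩ := QuotientGroup.mk'_surjective (NN n) g
  have h5 := mul_mem (h2 (f * cc ^ (-(aexp f).toAdd)) (by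
    rw [map_mul, toAdd_mul, map_zpow, toAdd_zpow, h1, smul_eq_mul, mul_one, add_neg_cancel]
    exact dvd_zero _)) (zpow_mem h4 (aexp f).toAdd)
  rwa [← map_zpow, ← map_mul, zpow_neg, inv_mul_cancel_right] at h5

end Pool.Agent.Work.MP_7ba843_gt.N
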