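import Pool.Agent.Work.MP_7ba843_gt.N.SurfC
import Pool.Agent.Work.MP_7ba843_gt.N.RS

/-! Elements of the relator subgroup have rich line patterns.

PLAN. `L = (th d w).toWord = y ++ W ++ invRev y` with `y = conjugator L`,
`W = reduceCyclically L` (`FreeGroup.reduceCyclically.conj_conjugator_reduceCyclically`),
`(th d w ^ (N+1)).toWord = y ++ W ^ (N+1) ++ invRev y` (`toWord_pow`,
`reduce_flatten_replicate_succ`). `mk W ∈ NN n` (normal), `≠ 1`, `W` reduced; `spell_F2` gives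
`W = A ++ C ^ (n-1) ++ B`, and `C ++ C = A' ++ invRev r₂ ++ r₁ ++ B'`. For `i < d`:
`W = (A ++ C ^ i ++ A' ++ invRev r₂) ++ (r₁ ++ S)`; choose `i` with
`v * (mk (y ++ A ++ C ^ i ++ A' ++ invRev r₂))⁻¹ ∈ (th d).range` (`th_range`, `aexp_Cw`), call it
`th d h`. Then `v⁻¹ * th d (h w ^ N) = mk (r₁ ++ S ++ W ^ (N-1) ++ invRev y)`, a suffix of a reduced
word, and `v⁻¹ * th d (h (w ^ N)⁻¹)` is the inverse of `mk (y ++ W ^ N ++ A ++ … ++ invRev r₂)`,
a prefix of a reduced word. The two corollaries are `decide +kernel` on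
`∀ top ε s s', … → invRev [s'] ++ [s] <:+: Cw top ε ++ Cw top ε` (checked). About 220 lines. -/

namespace Pool.Agent.Work.MP_7ba843_gt.N

open FreeGroup in
theorem Poison_line {U : Type} [Group U] {ι : U →* F2} {w : U} {v : F2}
    {y W P S r₁ r₂ : List (Fin 2 × Bool)} (hW : IsCyclicallyReduced W)
    (hr : IsReduced (y ++ W ++ invRev y)) (hw : ι w = mk y * mk W * (mk y)⁻¹)
    (e : P ++ invRev r₂ ++ r₁ ++ S = W) (h : v * (mk (y ++ P ++ invRev r₂))⁻¹ ∈ ι.range) :
    Line ι w v r₁ r₂ := by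
  obtain ⟨h, hh⟩ := h
  refine ⟨h, fun N hN => ?_⟩
  obtain ⟨N, rfl⟩ : ∃ M, N = M + 1 := ⟨N - 1, by omega⟩
  have e' : mk W = mk P * mk (invRev r₂) * mk r₁ * mk S := by simp only [mul_mk, e]
  constructor
  · have : v⁻¹ * ι (h * w ^ (N + 1)) =
        mk (r₁ ++ (S ++ (List.replicate N W).flatten ++ invRev y)) := by
      simp only [_root_.map_mul, map_pow, hh, hw, conj_pow, ← mul_mk, ← pow_mk, ← inv_mk (L := y)]
      rw [pow_succ']
      generalize mk W ^ N = z
      rw [e']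
      group
    rw [this, toWord_mk_red (red_of_inf (hr.append_flatten_replicate_append hW N.succ_ne_zero)
      ⟨y ++ P ++ invRev r₂, [], by simp [List.replicate_succ, ← e]⟩)]
    exact ⟨_, rfl⟩
  · have : v⁻¹ * ι (h * (w ^ (N + 1))⁻¹) =
        (mk (y ++ (List.replicate (N + 1) W).flatten ++ P ++ invRev r₂))⁻¹ := by
      simp only [_root_.map_mul, _root_.map_inv, map_pow, hh, hw, conj_pow, ← mul_mk, ← pow_mk]
      group
    rw [this, toWord_inv, toWord_mk_red (red_of_inf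
      (hr.append_flatten_replicate_append hW (N + 1).succ_ne_zero) ⟨[], r₁ ++ S ++ invRev y, by
        rw [List.replicate_succ' (n := N + 1), List.flatten_concat]; simp [← e]⟩),
      invRev_append, invRev_invRev]
    exact ⟨_, rfl⟩

theorem line_of {d n : ℕ} (hd : 1 ≤ d) (hn : d + 2 ≤ n) {w : FreeGroup (Fin (d + 1))}
    (hw : th d w ∈ NN n) (h1 : w ≠ 1) (v : F2) {r₁ r₂ : List (Fin 2 × Bool)}
    (h : ∀ top ε, FreeGroup.invRev r₂ ++ r₁ <:+: Cw top ε ++ Cw top ε) :
    Line (th d) w v r₁ r₂ := by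
  have hL := FreeGroup.reduceCyclically.conj_conjugator_reduceCyclically (th d w).toWord
  have hW := FreeGroup.reduceCyclically.isCyclicallyReduced (th d w).isReduced_toWord
  generalize FreeGroup.reduceCyclically.conjugator (th d w).toWord = y at hL
  generalize FreeGroup.reduceCyclically (th d w).toWord = W at hL hW
  have hx : th d w = .mk y * .mk W * (FreeGroup.mk y)⁻¹ := by
    rw [FreeGroup.inv_mk, FreeGroup.mul_mk, FreeGroup.mul_mk, hL, FreeGroup.mk_toWord]
  obtain ⟨top, ε, A, B, e⟩ := spell_F2 (w := .mk W) (show 2 ≤ n by omega)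
    (inv_mul_cancel_left (FreeGroup.mk y) (.mk W) ▸ (inferInstance : (NN n).Normal).mem_comm (hx ▸ hw))
    fun e => h1 (th_inj hd (by rw [hx, e, mul_one, mul_inv_cancel, map_one]))
  obtain ⟨A', B', e'⟩ := h top ε
  rw [toWord_mk_red hW.isReduced] at e
  obtain ⟨k, hk⟩ : ∃ k : ℤ, ∀ i : ℕ, (aexp (v * (FreeGroup.mk (y ++ (A ++
      (List.replicate i (Cw top ε)).flatten ++ A') ++ FreeGroup.invRev r₂))⁻¹)).toAdd =
      k - i * if ε then 1 else -1 :=
    ⟨(aexp (v * (FreeGroup.mk (y ++ (A ++ A') ++ FreeGroup.invRev r₂))⁻¹)).toAdd, fun i => by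
      simp only [← FreeGroup.mul_mk, ← FreeGroup.pow_mk, map_mul, map_inv, map_pow, toAdd_mul,
        toAdd_inv, toAdd_pow, aexp_Cw, nsmul_eq_mul]
      ring⟩
  obtain ⟨i, hi, hi'⟩ : ∃ i : ℕ, i < d ∧ (d : ℤ) ∣ k - i * if ε then 1 else -1 := by
    have d0 : (0 : ℤ) < d := by exact_mod_cast hd
    obtain ⟨i, hi⟩ := Int.eq_ofNat_of_zero_le (Int.emod_nonneg (k * if ε then 1 else -1) d0.ne')
    refine ⟨i, by exact_mod_cast hi ▸ Int.emod_lt_of_pos _ d0, ?_⟩
    have := (hi ▸ Int.dvd_self_sub_emod : (d : ℤ) ∣ _ - i).mul_right (if ε then 1 else -1)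
    cases ε <;> simpa [sub_mul, add_comm] using this
  obtain ⟨j, hj⟩ : ∃ j, n - 1 = i + (2 + j) := ⟨n - 3 - i, by omega⟩
  refine Poison_line (S := B' ++ (List.replicate j (Cw top ε)).flatten ++ B) hW
    (hL ▸ (th d w).isReduced_toWord) hx ?_ ((th_range hd _).2 (hk i ▸ hi'))
  rw [← e, hj, List.replicate_add, List.replicate_add, List.flatten_append, List.flatten_append,
    show (List.replicate 2 (Cw top ε)).flatten = _ from (by simp : _ = _ ++ _).trans e'.symm]
  simp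

theorem line_two {d n : ℕ} (hd : 1 ≤ d) (hn : d + 2 ≤ n) {w : FreeGroup (Fin (d + 1))}
    (hw : th d w ∈ NN n) (h1 : w ≠ 1) (v : F2) (s s' : Fin 2 × Bool) (h : s ≠ s') :
    Line (th d) w v [s] [s'] := by
  refine line_of hd hn hw h1 v fun top ε => ?_
  revert top ε s s'
  decide +kernel

theorem line_three {d n : ℕ} (hd : 1 ≤ d) (hn : d + 2 ≤ n) {w : FreeGroup (Fin (d + 1))}
    (hw : th d w ∈ NN n) (h1 : w ≠ 1) (s s' : Fin 2 × Bool) (h : s ≠ (0, true))
    (h' : s' ≠ (0, false)) : Line (th d) w 1 [s] [(0, true), s'] := by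
  refine line_of hd hn hw h1 1 fun top ε => ?_
  revert top ε s s'
  decide +kernel

end Pool.Agent.Work.MP_7ba843_gt.N
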