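import Pool.Agent.Work.MP_7ba843_gt.N.SurfC
import Pool.Agent.Work.MP_735653_gt.Level
import Pool.Agent.Work.MP_735653_gt.Homeo
import Pool.Agent.Work.MP_735653_gt.Reg
import Pool.Agent.Work.MP_f0515e_an.Pos.HBor
import Pool.Agent.Work.MP_7ba843_gt.Defs
import Pool.Agent.Work.MP_7ba843_gt.N.Poison
import Pool.Agent.Work.MP_735653_gt.XOut

-- merged part: Pool.Agent.Work.MP_7ba843_gt.N.CvB
section
-- merged part: Pool.Agent.Work.MP_7ba843_gt.N.Model
section
/-! The models of the statement are realisations of lattice complexes.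

PLAN. For a coarse cell `a` let `box a = {x | ∀ i, 2 a i ≤ x i ≤ 2 a i + 2}`. `x ∈ box a` iff
`Face (lo (cellOf x)) a ∧ Face a (hi (cellOf x))` (coordinatewise, `CovB_cell`, `cellOf_eq_iff`);
so `Re (WK K) = ⋃ a ∈ K, box a`. If `hi (cellOf x) ∈ K` then near `x` (`eventually_face`,
`Face.hi`, `lo_face_hi`) all points are in `Re (WK K)`. If `hi (cellOf x) ∉ K`, points of the
segment from `x` to the centre of `box (hi _)` are in the open box, where `lo (cellOf _) = hi _`.
`Re (WK K)` is closed (`isCompact_Re`). `Re_WK_gr`: compare the union of boxes with `Pl` (for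
`x ∈ Th` choose the cell with `Int.floor`). About 300 lines. -/

namespace Pool.Agent.Work.MP_7ba843_gt.N

open Pool.Agent.Work.MP_735653_gt

theorem Model_lo {D : ℕ} (x : Fin D → ℝ) (i : Fin D) :
    ((2 * lo (cellOf x) i : ℤ) : ℝ) ≤ x i ∧ x i ≤ ((2 * lo (cellOf x) i + 2 : ℤ) : ℝ) := by
  rw [← Int.le_floor, ← Int.ceil_le]
  have := CovB_fc (x i)
  simp only [lo, CovB_cell]
  split_ifs <;> omega

theorem Model_hi {D : ℕ} (x : Fin D → ℝ) (i : Fin D) :
    ((2 * hi (cellOf x) i : ℤ) : ℝ) ≤ x i ∧ x i ≤ ((2 * hi (cellOf x) i + 2 : ℤ) : ℝ) := by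
  rw [← Int.le_floor, ← Int.ceil_le]
  have := CovB_fc (x i)
  simp only [hi, CovB_cell]
  split_ifs <;> omega

theorem Model_open {D : ℕ} {a : Cell D} {x : Fin D → ℝ}
    (h : x ∈ Set.pi Set.univ fun i => Set.Ioo ((2 * a i : ℤ) : ℝ) ((2 * a i + 2 : ℤ) : ℝ)) :
    lo (cellOf x) = a ∧ hi (cellOf x) = a := by
  have key : ∀ i, lo (cellOf x) i = a i ∧ hi (cellOf x) i = a i := by
    intro i
    obtain ⟨h1, h2⟩ := h i (Set.mem_univ _)
    rw [← Int.lt_ceil] at h1
    rw [← Int.floor_lt] at h2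
    have := CovB_fc (x i)
    simp only [lo, hi, CovB_cell]
    split_ifs <;> omega
  exact ⟨funext fun i => (key i).1, funext fun i => (key i).2⟩

theorem Model_cl {D : ℕ} {a : Cell D} {x : Fin D → ℝ}
    (h : ∀ i, ((2 * a i : ℤ) : ℝ) ≤ x i ∧ x i ≤ ((2 * a i + 2 : ℤ) : ℝ)) :
    x ∈ closure (Set.pi Set.univ fun i =>
      Set.Ioo ((2 * a i : ℤ) : ℝ) ((2 * a i + 2 : ℤ) : ℝ)) := by
  rw [closure_pi_set]
  intro i _
  change x i ∈ closure _
  rw [closure_Ioo (by push_cast; linarith)]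
  exact h i

theorem Model_int {D : ℕ} {K : Finset (Cell D)} (hK : Down K) {x : Fin D → ℝ} :
    x ∈ interior (Re (WK K)) ↔ hi (cellOf x) ∈ K := by
  constructor
  · intro h
    obtain ⟨y, h1, h2⟩ := mem_closure_iff.1 (Model_cl (Model_hi x)) _ isOpen_interior h
    rw [← (Model_open h2).1]
    have h3 : y ∈ Re (WK K) := interior_subset h1
    exact mem_WK.1 h3
  · intro h
    rw [mem_interior_iff_mem_nhds]
    filter_upwards [eventually_face x] with y hy
    exact mem_WK.2 (hK _ (hK _ h _ hy.hi) _ (lo_face_hi _))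

theorem frontier_WK {D : ℕ} {K : Finset (Cell D)} (hK : Down K) :
    frontier (Re (WK K)) = Re (EK K) := by
  ext x
  rw [(isCompact_Re (down_WK hK)).isClosed.frontier_eq, Set.mem_sdiff, Model_int hK]
  simp only [Re, Set.mem_ofPred_eq, mem_WK, mem_EK]

theorem subset_closure_interior_WK {D : ℕ} {K : Finset (Cell D)} (hK : Down K) :
    Re (WK K) ⊆ closure (interior (Re (WK K))) := by
  intro x hx
  refine closure_mono (fun y hy => ?_) (Model_cl (Model_lo x))
  rw [Model_int hK, (Model_open hy).2]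
  exact mem_WK.1 hx

private theorem lo_spec {D : ℕ} (x : Fin D → ℝ) (i : Fin D) :
    ⌊x i⌋ ≤ ⌈x i⌉ ∧ 2 * lo (cellOf x) i ≤ ⌊x i⌋ ∧ ⌈x i⌉ ≤ 2 * lo (cellOf x) i + 2 ∧
      (lo (cellOf x) i % 2 = 0 ∨
        2 * lo (cellOf x) i < ⌈x i⌉ ∧ ⌊x i⌋ < 2 * lo (cellOf x) i + 2) := by
  have := CovB_fc (x i)
  simp only [lo, CovB_cell]
  split_ifs <;> omega

theorem Re_WK_gr (D g : ℕ) : Re (WK (gr D g)) = Th D g := by
  ext x
  change cellOf x ∈ WK (gr D g) ↔ Pl g (x 0) (x 1) ∧ _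
  rw [mem_WK, mem_gr]
  refine and_congr ⟨fun h => ?_, fun h => ?_⟩ (forall₂_congr fun i _ => ⟨fun h => ?_, fun h => ?_⟩)
  · obtain ⟨h1, h2⟩ := Model_lo x 0
    obtain ⟨h3, h4⟩ := Model_lo x 1
    generalize lo (cellOf x) 0 = k at *
    generalize lo (cellOf x) 1 = l at *
    simp only [Gp, Tt, Tp] at h
    push_cast at h1 h2 h3 h4
    have a1 : (0 : ℝ) ≤ k := by exact_mod_cast (by omega : 0 ≤ k)
    have a2 : (k : ℝ) ≤ 4 * g + 2 := by exact_mod_cast (by omega : k ≤ 4 * g + 2)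
    have a3 : (0 : ℝ) ≤ l := by exact_mod_cast (by omega : 0 ≤ l)
    have a4 : (l : ℝ) ≤ 2 := by exact_mod_cast (by omega : l ≤ 2)
    refine ⟨by linarith, by linarith, by linarith, by linarith, ?_⟩
    by_cases c1 : l = 0
    · left
      rw [c1] at h4
      simpa using h4
    by_cases c2 : k % 2 = 0
    · right; left
      obtain ⟨i, rfl⟩ : ∃ i : ℕ, k = 2 * i := ⟨(k / 2).toNat, by omega⟩
      push_cast at h1 h2
      exact ⟨i, by linarith, by linarith⟩
    · right; right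
      obtain ⟨j, rfl⟩ : ∃ j : ℕ, k = 4 * j + 3 := ⟨(k / 4).toNat, by omega⟩
      obtain rfl : l = 2 := by omega
      push_cast at h1 h2 h3
      exact ⟨by linarith, j, by linarith, by linarith⟩
  · obtain ⟨h1, h2, h3, h4, h5⟩ := h
    have b0 := lo_spec x 0
    have b1 := lo_spec x 1
    have a1 : (0 : ℤ) ≤ ⌊x 0⌋ := Int.le_floor.2 (by simpa using h1)
    have a2 : ⌈x 0⌉ ≤ 8 * g + 6 := Int.ceil_le.2 (by push_cast; exact h2)
    have a3 : (0 : ℤ) ≤ ⌊x 1⌋ := Int.le_floor.2 (by simpa using h3)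
    have a4 : ⌈x 1⌉ ≤ 6 := Int.ceil_le.2 (by push_cast; exact h4)
    generalize lo (cellOf x) 0 = k at *
    generalize lo (cellOf x) 1 = l at *
    have k0 : 0 ≤ k := by omega
    have k1 : k ≤ 4 * g + 2 := by omega
    have l0 : 0 ≤ l := by omega
    have l1 : l ≤ 2 := by omega
    rcases h5 with h5 | ⟨i, h5, h6⟩ | ⟨h5, j, h6, h7⟩
    · have a5 : ⌈x 1⌉ ≤ 2 := Int.ceil_le.2 (by push_cast; exact h5)
      exact .inl ⟨k0, k1, l0, l1, fun _ => by omega⟩
    · have a5 : (4 * i : ℤ) ≤ ⌊x 0⌋ := Int.le_floor.2 (by push_cast; exact h5)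
      have a6 : ⌈x 0⌉ ≤ 4 * i + 2 := Int.ceil_le.2 (by push_cast; exact h6)
      exact .inl ⟨k0, k1, l0, l1, fun _ => by omega⟩
    · have a5 : (4 : ℤ) ≤ ⌊x 1⌋ := Int.le_floor.2 (by push_cast; exact h5)
      have a6 : (8 * j + 6 : ℤ) ≤ ⌊x 0⌋ := Int.le_floor.2 (by push_cast; exact h6)
      have a7 : ⌈x 0⌉ ≤ 8 * j + 8 := Int.ceil_le.2 (by push_cast; exact h7)
      by_cases c : k % 2 = 1
      · exact .inr ⟨k0, k1, by omega, by omega⟩
      · exact .inl ⟨k0, k1, l0, l1, fun e => absurd e c⟩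
  · have h1 := Model_lo x i
    rw [h] at h1
    simpa using h1
  · have b := CovB_fc (x i)
    have a1 : (0 : ℤ) ≤ ⌊x i⌋ := Int.le_floor.2 (by simpa using h.1)
    have a2 : ⌈x i⌉ ≤ 2 := Int.ceil_le.2 (by push_cast; exact h.2)
    simp only [lo, CovB_cell]
    split_ifs <;> omega

end Pool.Agent.Work.MP_7ba843_gt.N
end

-- merged part: Pool.Agent.Work.MP_7ba843_gt.N.Bd
section
/-! Boundaries of the pieces of a trisection, by invariance of domain. -/

namespace Pool.Agent.Work.MP_7ba843_gt.N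

open Pool.Agent.Work.MP_735653_gt Set Topology Metric

/-- locally Euclidean spaces -/
def Loc (n : ℕ) (M : Type) [TopologicalSpace M] : Prop :=
  ∀ x : M, ∃ e : OpenPartialHomeomorph M (EuclideanSpace ℝ (Fin n)), x ∈ e.source

variable {n : ℕ} {M M' : Type} [TopologicalSpace M] [TopologicalSpace M']

theorem Loc.homeo (h : Loc n M) (e : M' ≃ₜ M) : Loc n M' := fun x => by
  obtain ⟨c, hc⟩ := h (e x)
  exact ⟨e.toOpenPartialHomeomorph.trans c, ⟨mem_univ _, hc⟩⟩

theorem loc_chart [ChartedSpace (EuclideanSpace ℝ (Fin n)) M] : Loc n M := fun x =>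
  ⟨chartAt _ x, mem_chart_source _ x⟩

theorem loc_pi : Loc n (Fin n → ℝ) :=
  loc_chart.homeo (EuclideanSpace.equiv (Fin n) ℝ).symm.toHomeomorph

theorem loc_EK {K : Finset (Cell (n + 1))} (hK : Down K) : Loc n (Re (EK K)) := by
  obtain ⟨e⟩ := homeo_level (G := Unit) ⟨K, fun _ _ => 1, hK, fun _ _ _ _ _ _ => rfl⟩
  obtain ⟨C, -⟩ := level_manifold (FK K) (contDiff_FK K) (1 / 2) (FK_regular hK)
  exact loc_chart.homeo e

theorem Bd_open {U : Set (EuclideanSpace ℝ (Fin n))}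
    {f : EuclideanSpace ℝ (Fin n) → EuclideanSpace ℝ (Fin n)} (hU : IsOpen U)
    (hf : ContinuousOn f U) (hi : InjOn f U) : IsOpen (f '' U) := by
  refine isOpen_iff_mem_nhds.2 ?_
  rintro _ ⟨x, hx, rfl⟩
  obtain ⟨r, r0, hr⟩ := nhds_basis_closedBall.mem_iff.1 (hU.mem_nhds hx)
  have : TietzeExtension (EuclideanSpace ℝ (Fin n)) := TietzeExtension.of_tvs ℝ
  obtain ⟨g, hg⟩ := ContinuousMap.exists_restrict_eq isClosed_closedBall
    (⟨(closedBall x r).domRestrict f, (hf.mono hr).domRestrict⟩ : C(closedBall x r, _))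
  have e' : EqOn g f (ball x r) := fun y hy =>
    congrArg (fun k : C(closedBall x r, _) => k ⟨y, ball_subset_closedBall hy⟩) hg
  have hb := ball_subset_closedBall.trans hr
  have := BEp.inv_domain rfl isOpen_ball g.continuous
    ((hi.mono hb).congr e'.symm)
  rw [e'.image_eq] at this
  exact Filter.mem_of_superset (this.mem_nhds (mem_image_of_mem f (mem_ball_self r0))) (image_mono hb)

theorem Loc.isOpen_image (hM : Loc n M) (hN : Loc n M') {U : Set M} {f : M → M'} (hU : IsOpen U)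
    (hf : ContinuousOn f U) (hi : InjOn f U) : IsOpen (f '' U) := by
  refine isOpen_iff_mem_nhds.2 ?_
  rintro _ ⟨x, hx, rfl⟩
  obtain ⟨e, he⟩ := hM x
  obtain ⟨c, hc⟩ := hN (f x)
  have o1 : IsOpen (U ∩ f ⁻¹' c.source) := hf.isOpen_inter_preimage hU c.open_source
  have o2 := e.isOpen_inter_preimage_symm o1
  have o3 : IsOpen ((c ∘ f ∘ e.symm) '' (e.target ∩ e.symm ⁻¹' (U ∩ f ⁻¹' c.source))) := by
    refine Bd_open o2 (c.continuousOn.comp (hf.comp (e.continuousOn_symm.mono inter_subset_left)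
      fun y hy => hy.2.1) fun y hy => hy.2.2) fun y hy z hz h => ?_
    exact e.symm.injOn hy.1 hz.1 (hi hy.2.1 hz.2.1 (c.injOn hy.2.2 hz.2.2 h))
  refine Filter.mem_of_superset ((c.isOpen_inter_preimage o3).mem_nhds ⟨hc, e x, ⟨e.map_source he, ?_⟩,
    ?_⟩) ?_
  · rw [mem_preimage, e.left_inv he]
    exact ⟨hx, hc⟩
  · simp only [Function.comp, e.left_inv he]
  · rintro y ⟨hy, z, hz, h⟩
    exact ⟨_, hz.2.1, c.injOn hz.2.2 hy h⟩

theorem lift_emb {Z : Type} [TopologicalSpace Z] {u : M → M'} {b : Z → M'} (hu : IsEmbedding u)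
    (hb : IsEmbedding b) (h : range b ⊆ range u) :
    ∃ m : Z → M, IsEmbedding m ∧ ∀ w, u (m w) = b w := by
  choose m hm using fun w => h (mem_range_self w)
  have e : u ∘ m = b := funext hm
  exact ⟨m, hu.of_comp_iff.1 (e ▸ hb), hm⟩

theorem Loc.int_iff (hM : Loc n M) {A : Set (Fin n → ℝ)} {h : A → M} (hh : IsEmbedding h) (x : A) :
    h x ∈ interior (range h) ↔ x.1 ∈ interior A := by
  constructor
  · intro hx
    obtain ⟨m, hm, e⟩ := lift_emb hh (IsEmbedding.subtypeVal (p := (· ∈ range h)))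
      Subtype.range_val.subset
    let g : M → Fin n → ℝ := Function.extend Subtype.val (fun y => (m y).1) 0
    have e1 : ∀ y : range h, g y.1 = (m y).1 := fun y => Subtype.val_injective.extend_apply _ _ y
    have o : IsOpen (g '' interior (range h)) := by
      refine hM.isOpen_image loc_pi isOpen_interior (ContinuousOn.mono ?_ interior_subset)
        (InjOn.mono interior_subset fun y hy z hz k => ?_)
      · exact continuousOn_iff_continuous_domRestrict.2
          ((continuous_subtype_val.comp hm.continuous).congr fun y => (e1 y).symm)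
      · exact congrArg Subtype.val (hm.injective (Subtype.ext
          ((e1 ⟨y, hy⟩).symm.trans (k.trans (e1 ⟨z, hz⟩)))))
    refine interior_maximal ?_ o ⟨_, hx, ?_⟩
    · rintro _ ⟨y, hy, rfl⟩
      exact e1 ⟨y, interior_subset hy⟩ ▸ (m _).2
    · exact (e1 ⟨h x, mem_range_self x⟩).trans (congrArg Subtype.val (hh.injective (e _)))
  · intro hx
    let f : (Fin n → ℝ) → M := Function.extend Subtype.val h fun _ => h x
    have e1 : ∀ y : A, f y.1 = h y := fun y => Subtype.val_injective.extend_apply _ _ y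
    have o : IsOpen (f '' interior A) := by
      refine loc_pi.isOpen_image hM isOpen_interior (ContinuousOn.mono ?_ interior_subset)
        (InjOn.mono interior_subset fun y hy z hz k => ?_)
      · exact continuousOn_iff_continuous_domRestrict.2 (hh.continuous.congr fun y => (e1 y).symm)
      · exact congrArg Subtype.val (hh.injective ((e1 ⟨y, hy⟩).symm.trans (k.trans (e1 ⟨z, hz⟩))))
    refine interior_maximal ?_ o ⟨_, hx, e1 x⟩
    rintro _ ⟨y, hy, rfl⟩
    exact ⟨_, (e1 ⟨y, interior_subset hy⟩).symm⟩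

theorem EK_sub {D : ℕ} (K : Finset (Cell D)) : Re (EK K) ⊆ Re (WK K) :=
  fun _ h => mem_WK.2 (mem_EK.1 h).1

/-- the inclusion of the boundary -/
def incl {D : ℕ} (K : Finset (Cell D)) : Re (EK K) → Re (WK K) := inclusion (EK_sub K)

theorem incl_emb {D : ℕ} (K : Finset (Cell D)) : IsEmbedding (incl K) :=
  IsEmbedding.inclusion (EK_sub K)

instance {D g : ℕ} : CompactSpace (Re (WK (gr D g))) :=
  isCompact_iff_compactSpace.1 (isCompact_Re (down_WK (down_gr D g)))

instance {D g : ℕ} : CompactSpace (Re (EK (gr D g))) :=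
  isCompact_iff_compactSpace.1 (isCompact_Re (down_EK (down_gr D g)))

theorem Bd_mem {K : Finset (Cell n)} (hK : Down K) (x : Re (WK K)) :
    x ∈ range (incl K) ↔ x.1 ∉ interior (Re (WK K)) := by
  rw [incl, range_inclusion, mem_ofPred_eq, ← frontier_WK hK,
    (isCompact_Re (down_WK hK)).isClosed.frontier_eq]
  exact ⟨fun h => h.2, fun h => ⟨x.2, h⟩⟩

theorem Bd_sub (hM : Loc n M) {K : Finset (Cell n)} (hK : Down K) {h : Re (WK K) → M}
    (hh : IsEmbedding h) {C : Set M} (hC : IsClosed C) (hu : ∀ y, y ∈ range h ∨ y ∈ C)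
    (x : Re (EK K)) : h (incl K x) ∈ C := by
  by_contra k
  refine (Bd_mem hK _).1 ⟨x, rfl⟩ ((hM.int_iff hh _).1 ?_)
  exact interior_maximal (fun y hy => (hu y).resolve_right hy) hC.isOpen_compl k

theorem Bd_clos (hM : Loc n M) {K : Finset (Cell n)} (hK : Down K) {h : Re (WK K) → M}
    (hh : IsEmbedding h) : range h ⊆ closure (interior (range h)) := by
  rintro _ ⟨x, rfl⟩
  have : x ∈ closure (Subtype.val ⁻¹' interior (Re (WK K))) := by
    rw [IsEmbedding.subtypeVal.closure_eq_preimage_closure_image, Subtype.image_preimage_coe,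
      inter_eq_right.2 interior_subset]
    exact subset_closure_interior_WK hK x.2
  exact map_mem_closure hh.continuous this fun y hy => (hM.int_iff hh y).2 hy

theorem tri_data {X : Type} [TopologicalSpace X] [T2Space X] (hX : Loc 4 X) {g : ℕ}
    {T : Fin 3 → Set X} {j : Re (EK (gr3 g)) → X} (hj : IsEmbedding j)
    [ConnectedSpace (Re (EK (gr3 g)))] (hT : Trisection g (range j) T) :
    ∃ (k : Fin 3 → ℕ) (h : ∀ i, Re (WK (gr 2 (k i))) → X) (b : Fin 3 → Re (WK (gr3 g)) → X)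
      (β : Fin 3 → Re (EK (gr3 g)) ≃ₜ Re (EK (gr3 g))),
      (∀ i, IsEmbedding (h i)) ∧ (∀ i, IsEmbedding (b i)) ∧ (∀ i, range (h i) = T i) ∧
      (∀ i, range (b i) = T i ∩ T (i + 1)) ∧
      (∀ i, range (h i ∘ incl _) = range (b i) ∪ range (b (i + 2))) ∧
      ∀ i y, b i (incl _ (β i y)) = j y := by
  obtain ⟨h1, h2, h3, h4, h5⟩ := hT
  choose k hk using h3
  have emb : ∀ {D l : ℕ} {A : Set X}, Nonempty (A ≃ₜ Th D l) →
      ∃ h : Re (WK (gr D l)) → X, IsEmbedding h ∧ range h = A := fun {D l A} ⟨e⟩ => by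
    let e' := (Homeomorph.setCongr (Re_WK_gr D l)).trans e.symm
    exact ⟨Subtype.val ∘ e', IsEmbedding.subtypeVal.comp e'.isEmbedding,
      by rw [e'.surjective.range_comp, Subtype.range_val]⟩
  choose h hh rh using fun i => emb (hk i)
  have n1 : ∀ i : Fin 3, i ≠ i + 1 := by decide
  have n2 : ∀ i : Fin 3, i ≠ i + 2 := by decide
  have n3 : ∀ i : Fin 3, i + 2 + 1 = i := by decide
  have n4 : ∀ i l : Fin 3, l = i ∨ l = i + 1 ∨ l = i + 2 := by decide
  choose b hb rb using fun i => emb (h4 i (i + 1) (n1 i))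
  have cl : ∀ i, IsClosed (T i) := fun i => rh i ▸ (isCompact_range (hh i).continuous).isClosed
  have A : ∀ i, range (h i ∘ incl _) = range (b i) ∪ range (b (i + 2)) := fun i => by
    rw [rb, rb, n3, inter_comm (T (i + 2)), ← inter_union_distrib_left]
    refine Subset.antisymm ?_ fun y hy => ?_
    · rintro _ ⟨x, rfl⟩
      refine ⟨rh i ▸ mem_range_self _, Bd_sub hX (down_gr _ _) (hh i) ((cl _).union (cl _))
        (fun y => ?_) x⟩
      obtain ⟨l, hl⟩ := mem_iUnion.1 (h1.symm.subset (mem_univ y))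
      rw [rh]
      rcases n4 i l with rfl | rfl | rfl
      exacts [.inl hl, .inr (.inl hl), .inr (.inr hl)]
    · obtain ⟨x, rfl⟩ := (rh i).symm.subset hy.1
      have : ∀ l, i ≠ l → h i x ∈ T l → h i x ∉ interior (T i) := fun l hl k1 k2 => by
        have k3 := Bd_clos hX (down_gr _ _) (hh l) ((rh l).symm.subset k1)
        rw [rh] at k3
        exact disjoint_left.1 ((h2 i l hl).closure_right isOpen_interior) k2 k3
      obtain ⟨z, rfl⟩ := (Bd_mem (down_gr _ _) x).2 fun k1 => by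
        have k2 := (hX.int_iff (hh i) x).2 k1
        rw [rh] at k2
        exact hy.2.elim (fun k3 => this _ (n1 i) k3 k2) fun k3 => this _ (n2 i) k3 k2
      exact ⟨z, rfl⟩
  have B : ∀ i, ∃ β : Re (EK (gr3 g)) ≃ₜ Re (EK (gr3 g)), ∀ y, b i (incl _ (β y)) = j y := by
    intro i
    have hu := (hh i).comp (incl_emb _)
    obtain ⟨m, hm, e⟩ := lift_emb hu (hb i) (A i ▸ subset_union_left)
    have s : range (b i ∘ incl _) ⊆ range j := by
      rintro _ ⟨x, rfl⟩
      have k1 := Bd_sub (loc_EK (down_gr 2 (k i))) (down_gr 1 g) hm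
        ((isCompact_range (hb (i + 2)).continuous).isClosed.preimage hu.continuous) (fun y => by
          rcases (A i).subset (mem_range_self y) with ⟨w, hw⟩ | k
          · exact .inl ⟨w, hu.injective ((e w).trans hw)⟩
          · exact .inr k) x
      rw [mem_preimage, e, rb] at k1
      have k2 := (rb i).subset (mem_range_self (incl _ x))
      refine h5.subset (mem_iInter.2 fun l => ?_)
      rcases n4 i l with rfl | rfl | rfl
      exacts [k2.1, k2.2, k1.1]
    obtain ⟨a, ha, e'⟩ := lift_emb hj ((hb i).comp (incl_emb _)) s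
    have o := (loc_EK (down_gr 1 g)).isOpen_image (loc_EK (down_gr 1 g)) isOpen_univ
      ha.continuous.continuousOn ha.injective.injOn
    rw [image_univ] at o
    have su : Function.Surjective a := range_eq_univ.1
      (IsClopen.eq_univ ⟨(isCompact_range ha.continuous).isClosed, o⟩ (range_nonempty a))
    refine ⟨(ha.toHomeomorphOfSurjective su).symm, fun y => ?_⟩
    obtain ⟨z, rfl⟩ := (ha.toHomeomorphOfSurjective su).surjective y
    rw [Homeomorph.symm_apply_apply]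
    exact (e' z).symm
  choose β hβ using B
  exact ⟨k, h, b, β, hh, hb, rh, rb, A, hβ⟩

end Pool.Agent.Work.MP_7ba843_gt.N
end

-- merged part: Pool.Agent.Work.MP_7ba843_gt.N.CvA
section
/-! Existence and uniqueness of equivariant lifts.

PLAN. `Lf.unique`: pick `e₀`, `g` with `F' e₀ = g • F e₀` (`apply_eq_iff_mem_orbit`); two lifts
that agree at a point agree (`IsCoveringMap.eq_of_comp_eq`); the action is free
(`IsQuotientCoveringMap.isCancelSMul`). `Lf.exists`:
`IsCoveringMap.existsUnique_continuousMap_lifts` for `f ∘ C.p`; `θ k` is the element with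
`F (k • e₀) = θ k • F e₀`; both `F (k • ·)` and `θ k • F ·` lift the same map. `Lf.factor`: take any
lift of `g`, compose, compare by `unique`, correct by `Lf.smul`. `Lf.bij`: a lift of `e.symm`;
both composites lift the identity, so they are inner automorphisms. `pi1_gen`, `pi1_surj`:
`IsQuotientCoveringMap.fundamentalGroupEquiv`, `fundamentalGroupToMulOpposite_apply_eq_Iff`,
`IsCoveringMap.monodromy_eq_of_map_eq` (see `pi1_surj` in `../Loop.lean`): for `x = j (C.p e)` and a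
class with deck element `θ k` take a path from `e` to `k • e`, project it to `S`. About 300 lines. -/

namespace Pool.Agent.Work.MP_7ba843_gt.N

variable {Y Y' Y'' Γ Γ' Γ'' : Type} [TopologicalSpace Y] [TopologicalSpace Y']
  [TopologicalSpace Y''] [Group Γ] [Group Γ'] [Group Γ''] {C : Cv Y Γ} {C' : Cv Y' Γ'}
  {C'' : Cv Y'' Γ''}

theorem Lf.comp {f : Y → Y'} {g : Y' → Y''} {θ : Γ →* Γ'} {η : Γ' →* Γ''} {F : C.E → C'.E}
    {M : C'.E → C''.E} (h : Lf C C' f θ F) (h' : Lf C' C'' g η M) :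
    Lf C C'' (g ∘ f) (η.comp θ) (M ∘ F) :=
  ⟨h'.cont.comp h.cont, fun e => (h'.proj _).trans (congrArg g (h.proj e)),
    fun k e => (congrArg M (h.eqv k e)).trans (h'.eqv _ _)⟩

theorem Lf.smul {f : Y → Y'} {θ : Γ →* Γ'} {F : C.E → C'.E} (h : Lf C C' f θ F) (g : Γ') :
    Lf C C' f ((MulAut.conj g).toMonoidHom.comp θ) fun e => g • F e := by
  refine ⟨(C'.cov.continuous_const_smul g).comp h.cont,
    fun e => (C'.cov.map_smul g).trans (h.proj e), fun k e => ?_⟩
  change _ = (g * θ k * g⁻¹) • g • F e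
  rw [h.eqv, mul_smul, mul_smul, inv_smul_smul]

theorem CvA_deck (C : Cv Y Γ) {e e' : C.E} (h : C.p e = C.p e') : ∃ g : Γ, e = g • e' :=
  (C.cov.apply_eq_iff_mem_orbit.1 h).imp fun _ => Eq.symm

theorem CvA_cancel (C : Cv Y Γ) {g g' : Γ} {e : C.E} (h : g • e = g' • e) : g = g' :=
  C.cov.isCancelSMul.right_cancel' g g' e h

theorem Lf.unique [ConnectedSpace C.E] {f : Y → Y'} {θ θ' : Γ →* Γ'} {F F' : C.E → C'.E}
    (h : Lf C C' f θ F) (h' : Lf C C' f θ' F') :
    ∃ g : Γ', (∀ e, F' e = g • F e) ∧ ∀ k, θ' k = g * θ k * g⁻¹ := by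
  obtain ⟨e₀⟩ : Nonempty C.E := inferInstance
  obtain ⟨g, hg⟩ := CvA_deck C' ((h'.proj e₀).trans (h.proj e₀).symm)
  have key := congrFun (C'.cov.isCoveringMap.eq_of_comp_eq h'.cont (h.smul g).cont
    (funext fun e => (h'.proj e).trans ((h.smul g).proj e).symm) e₀ hg)
  refine ⟨g, key, fun k => CvA_cancel C' (e := F' e₀) ?_⟩
  rw [← h'.eqv, key, key]
  exact (h.smul g).eqv k e₀

theorem Lf.exists (hC : C.Univ) (C' : Cv Y' Γ') {f : Y → Y'} (hf : Continuous f) :
    ∃ θ F, Lf C C' f θ F := by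
  obtain ⟨h1, h2⟩ := hC
  obtain ⟨e₀⟩ : Nonempty C.E := inferInstance
  obtain ⟨e₁, he⟩ := C'.cov.surjective (f (C.p e₀))
  obtain ⟨F, ⟨-, hF⟩, -⟩ := C'.cov.isCoveringMap.existsUnique_continuousMap_lifts
    ⟨f ∘ C.p, hf.comp C.cov.continuous⟩ e₀ e₁ he
  have hp : ∀ e, C'.p (F e) = f (C.p e) := congrFun hF
  have hs : ∀ (k : Γ) e, C'.p (F (k • e)) = C'.p (F e) := fun k e => by
    rw [hp, hp, C.cov.map_smul]
  choose t ht using fun k : Γ => CvA_deck C' (hs k e₀)
  have key : ∀ (k : Γ) e, F (k • e) = t k • F e := fun k => congrFun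
    (C'.cov.isCoveringMap.eq_of_comp_eq (F.continuous.comp (C.cov.continuous_const_smul k))
      ((C'.cov.continuous_const_smul (t k)).comp F.continuous)
      (funext fun e => (hs k e).trans (C'.cov.map_smul _).symm) e₀ (ht k))
  refine ⟨MonoidHom.mk' t fun k l => CvA_cancel C' (e := F e₀) ?_, F, F.continuous, hp, key⟩
  rw [← key, mul_smul, key, key, mul_smul]

theorem Lf.factor [ConnectedSpace C.E] (hC' : C'.Univ) {f : Y → Y'} {g : Y' → Y''}
    (hg : Continuous g) {θ : Γ →* Γ'} {χ : Γ →* Γ''} {F : C.E → C'.E} {H : C.E → C''.E}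
    (h : Lf C C' f θ F) (h' : Lf C C'' (g ∘ f) χ H) :
    ∃ η M, Lf C' C'' g η M ∧ (∀ e, M (F e) = H e) ∧ ∀ k, η (θ k) = χ k := by
  obtain ⟨η, M, hM⟩ := Lf.exists hC' C'' hg
  obtain ⟨k, h1, h2⟩ := (h.comp hM).unique h'
  exact ⟨_, _, hM.smul k, fun e => (h1 e).symm, fun l => (h2 l).symm⟩

theorem CvA_id (C : Cv Y Γ) {f : Y → Y} (hf : ∀ y, f y = y) : Lf C C f (MonoidHom.id Γ) id :=
  ⟨continuous_id, fun _ => (hf _).symm, fun _ _ => rfl⟩

theorem Lf.bij (hC : C.Univ) (hC' : C'.Univ) (e : Y ≃ₜ Y') {θ : Γ →* Γ'} {F : C.E → C'.E}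
    (h : Lf C C' e θ F) : Function.Bijective θ := by
  have := hC.1
  have := hC'.1
  obtain ⟨η, M, hM, -, h1⟩ := h.factor hC' e.symm.continuous (CvA_id C e.symm_apply_apply)
  obtain ⟨g, -, h2⟩ := (hM.comp h).unique (CvA_id C' e.apply_symm_apply)
  refine ⟨Function.LeftInverse.injective h1, fun k => ⟨η (g * k * g⁻¹), ?_⟩⟩
  have h3 : g * k * g⁻¹ = g * θ (η (g * k * g⁻¹)) * g⁻¹ := h2 _
  exact (mul_left_cancel (mul_right_cancel h3)).symm

theorem Lf.range {f : Y → Y'} {θ : Γ →* Γ'} {F : C.E → C'.E} (h : Lf C C' f θ F)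
    (hθ : Function.Surjective θ) : Set.range F = C'.p ⁻¹' Set.range f := by
  ext e'
  constructor
  · rintro ⟨e, rfl⟩
    exact ⟨_, (h.proj e).symm⟩
  · rintro ⟨y, hy⟩
    obtain ⟨e, rfl⟩ := C.cov.surjective y
    obtain ⟨g, rfl⟩ := CvA_deck C' ((h.proj e).trans hy).symm
    obtain ⟨k, rfl⟩ := hθ g
    exact ⟨_, h.eqv k e⟩

theorem pi1_gen (hC : C.Univ) {a b : Γ} (h : Subgroup.closure {a, b} = ⊤) (x : Y) :
    ∃ a b : FundamentalGroup Y x, Subgroup.closure {a, b} = ⊤ := by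
  have := hC.1
  obtain ⟨e, he⟩ := C.cov.surjective x
  let φ : Γ ≃* FundamentalGroup Y x :=
    (MulEquiv.inv' Γ).trans (C.cov.fundamentalGroupEquiv ⟨e, he⟩).symm
  refine ⟨φ a, φ b, ?_⟩
  have h1 := congrArg (Subgroup.map φ.toMonoidHom) h
  rwa [MonoidHom.map_closure, Set.image_pair, Subgroup.map_top_of_surjective _ φ.surjective] at h1

theorem pi1_surj [PathConnectedSpace C.E] (hC' : C'.Univ) {j : Y → Y'} (hj : Continuous j)
    {θ : Γ →* Γ'} {F : C.E → C'.E} (h : Lf C C' j θ F) (hθ : Function.Surjective θ) {S : Set Y'}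
    (hS : S = Set.range j) (x : S) : Function.Surjective
      (FundamentalGroup.map (⟨Subtype.val, continuous_subtype_val⟩ : C(S, Y')) x) := by
  have := hC'.1
  intro g
  obtain ⟨γ, rfl⟩ : ∃ γ : Path (x : Y') x, g = Path.Homotopic.Quotient.mk γ := by
    obtain ⟨γ⟩ := g
    exact ⟨γ, rfl⟩
  obtain ⟨y, hy⟩ : (x : Y') ∈ Set.range j := hS ▸ x.2
  obtain ⟨e, rfl⟩ := C.cov.surjective y
  have hx : C'.p (F e) = x := (h.proj e).trans hy
  have γ0 : γ.toContinuousMap 0 = C'.p (F e) := γ.source.trans hx.symm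
  obtain ⟨Λ, Λp, Λ0⟩ := C'.cov.isCoveringMap.exists_path_lifts γ.toContinuousMap (F e) γ0
  obtain ⟨g, hg⟩ := CvA_deck C' ((congrFun Λp 1).trans (γ.target.trans hx.symm))
  obtain ⟨k, rfl⟩ := hθ g
  let Q := (PathConnectedSpace.somePath e (k • e)).map h.cont
  obtain ⟨H⟩ := SimplyConnectedSpace.paths_homotopic Q
    (⟨Λ, Λ0, hg.trans (h.eqv k e).symm⟩ : Path (F e) (F (k • e)))
  have hQ : ∀ t, C'.p (Q t) ∈ S := fun t => hS ▸ ⟨_, (h.proj _).symm⟩
  let δ : Path x x := ⟨⟨fun t => ⟨C'.p (Q t), hQ t⟩,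
    (C'.cov.continuous.comp Q.continuous).subtype_mk _⟩,
    Subtype.ext ((congrArg C'.p Q.source).trans hx),
    Subtype.ext ((congrArg C'.p (Q.target.trans (h.eqv k e))).trans
      ((C'.cov.map_smul _).trans hx))⟩
  refine ⟨Path.Homotopic.Quotient.mk δ, ?_⟩
  change Path.Homotopic.Quotient.mk (δ.map continuous_subtype_val) = _
  apply Quotient.sound
  refine ⟨(H.compContinuousMap ⟨C'.p, C'.cov.continuous⟩).cast ?_ ?_⟩
  · ext t
    rfl
  · ext t
    exact congrFun Λp t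

end Pool.Agent.Work.MP_7ba843_gt.N
end

-- merged part: Pool.Agent.Work.MP_7ba843_gt.N.PSy
section
/-! From the planar presentation to a surface system.

PLAN. `exists_psys`: `PresentedGroup {Vv X T g}` on `Fin g × Bool` with
`X k = if h : k < g then of (⟨k, h⟩, true) else 1`; `Vv` is natural under homomorphisms and
`Vv x t g` depends only on the values at `k < g`. `PSys.sys`: `cv x t 0 = []`,
`cv x t (k+1) = (x k, t k) :: (cv x t k).map (conjugation y ↦ (x k)⁻¹ y (x k))`; then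
`rel (cv x t k) = Vv x t k`, `cv` is natural, depends only on the values below `k`, and every list
of length `k` is some `cv x' t' k` (induction, `Function.update`). `p` comes from `univ` with
`t' = 1`. Kernel: with `K` the normal closure (it contains each `t k`, a conjugate of a meridian),
`mk' K = (FreeGroup.lift fun i => mk' K (x i)).comp p` on generators. About 200 lines. -/

namespace Pool.Agent.Work.MP_7ba843_gt.N

section PSyAux

variable {P E : Type} [Group P] [Group E]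

theorem PSy_Vv_map (f : P →* E) (x t : ℕ → P) (k : ℕ) :
    f (Vv x t k) = Vv (fun j => f (x j)) (fun j => f (t j)) k := by
  induction k with
  | zero => simp [Vv]
  | succ k ih => simp only [Vv, map_mul, map_inv, ih]

theorem PSy_Vv_congr {x t x' t' : ℕ → P} {k : ℕ} (h : ∀ j < k, x j = x' j ∧ t j = t' j) :
    Vv x t k = Vv x' t' k := by
  induction k with
  | zero => rfl
  | succ k ih =>
    have h1 := h k (Nat.lt_succ_self k)
    simp only [Vv, h1.1, h1.2, ih fun j hj => h j (Nat.lt_succ_of_lt hj)]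

theorem PSy_Vv_one (x : ℕ → P) (k : ℕ) : Vv x (fun _ => 1) k = 1 := by
  induction k with
  | zero => rfl
  | succ k ih => simp [Vv, ih]

/-- conjugation of a pair -/
def PSy_cj (a : P) (p : P × P) : P × P := (a⁻¹ * p.1 * a, a⁻¹ * p.2 * a)

theorem PSy_cm_cj (a : P) (p : P × P) : cm (PSy_cj a p) = a⁻¹ * cm p * a := by
  simp only [cm, PSy_cj]
  group

theorem PSy_rel_cons (p : P × P) (L : List (P × P)) : rel (p :: L) = cm p * rel L := by
  simp [rel]

theorem PSy_rel_cj (a : P) (L : List (P × P)) : rel (L.map (PSy_cj a)) = a⁻¹ * rel L * a := by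
  induction L with
  | nil => simp [rel]
  | cons p L ih =>
    rw [List.map_cons, PSy_rel_cons, PSy_rel_cons, ih, PSy_cm_cj]
    group

/-- the surface system of a planar system -/
def PSy_cv (x t : ℕ → P) : ℕ → List (P × P)
  | 0 => []
  | k + 1 => (x k, t k) :: (PSy_cv x t k).map (PSy_cj (x k))

theorem PSy_rel_cv (x t : ℕ → P) (k : ℕ) : rel (PSy_cv x t k) = Vv x t k := by
  induction k with
  | zero => simp [PSy_cv, rel, Vv]
  | succ k ih =>
    rw [PSy_cv, PSy_rel_cons, PSy_rel_cj, ih, Vv, cm]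
    group

theorem PSy_len (x t : ℕ → P) (k : ℕ) : (PSy_cv x t k).length = k := by
  induction k with
  | zero => rfl
  | succ k ih => simp [PSy_cv, ih]

theorem PSy_cv_map (f : P →* E) (x t : ℕ → P) (k : ℕ) :
    (PSy_cv x t k).map (Prod.map f f) = PSy_cv (fun j => f (x j)) (fun j => f (t j)) k := by
  induction k with
  | zero => rfl
  | succ k ih =>
    rw [PSy_cv, PSy_cv, List.map_cons, ← ih, List.map_map, List.map_map]
    refine congrArg₂ List.cons rfl (List.map_congr_left fun p _ => ?_)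
    simp [PSy_cj]

theorem PSy_cv_congr {x t x' t' : ℕ → P} {k : ℕ} (h : ∀ j < k, x j = x' j ∧ t j = t' j) :
    PSy_cv x t k = PSy_cv x' t' k := by
  induction k with
  | zero => rfl
  | succ k ih =>
    have h1 := h k (Nat.lt_succ_self k)
    simp only [PSy_cv, h1.1, h1.2, ih fun j hj => h j (Nat.lt_succ_of_lt hj)]

theorem PSy_cv_surj (k : ℕ) : ∀ L : List (P × P), L.length = k →
    ∃ x t : ℕ → P, PSy_cv x t k = L := by
  induction k with
  | zero =>
    intro L hL
    exact ⟨fun _ => 1, fun _ => 1, (List.length_eq_zero_iff.1 hL).symm⟩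
  | succ k ih =>
    intro L hL
    obtain ⟨p, L', rfl⟩ := List.exists_cons_of_length_eq_add_one hL
    obtain ⟨x, t, hx⟩ := ih (L'.map (PSy_cj p.1⁻¹)) (by simpa using hL)
    refine ⟨Function.update x k p.1, Function.update t k p.2, ?_⟩
    have h1 : PSy_cv (Function.update x k p.1) (Function.update t k p.2) k = PSy_cv x t k :=
      PSy_cv_congr fun j hj =>
        ⟨Function.update_of_ne hj.ne _ _, Function.update_of_ne hj.ne _ _⟩
    rw [PSy_cv, h1, hx, Function.update_self, Function.update_self, List.map_map]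
    refine congrArg₂ List.cons rfl ?_
    rw [List.map_congr_left (g := id), List.map_id]
    intro q _
    simp [PSy_cj, mul_assoc]

theorem PSy_gens (x t : ℕ → P) (k : ℕ) : ∀ j < k,
    x j ∈ Subgroup.closure (gens (PSy_cv x t k)) ∧
      t j ∈ Subgroup.closure (gens (PSy_cv x t k)) := by
  induction k with
  | zero => intro j hj; exact absurd hj (Nat.not_lt_zero j)
  | succ k ih =>
    have hx : x k ∈ Subgroup.closure (gens (PSy_cv x t (k + 1))) :=
      Subgroup.subset_closure ⟨(x k, t k), by simp [PSy_cv], Or.inl rfl⟩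
    have ht : t k ∈ Subgroup.closure (gens (PSy_cv x t (k + 1))) :=
      Subgroup.subset_closure ⟨(x k, t k), by simp [PSy_cv], Or.inr rfl⟩
    have hle : Subgroup.closure (gens (PSy_cv x t k)) ≤
        Subgroup.closure (gens (PSy_cv x t (k + 1))) := by
      rw [Subgroup.closure_le]
      rintro y ⟨p, hp, hy⟩
      have hm : PSy_cj (x k) p ∈ PSy_cv x t (k + 1) :=
        List.mem_cons_of_mem _ (List.mem_map_of_mem hp)
      have h2 : (x k)⁻¹ * y * x k ∈ Subgroup.closure (gens (PSy_cv x t (k + 1))) := by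
        refine Subgroup.subset_closure ⟨_, hm, ?_⟩
        rcases hy with rfl | rfl
        · exact Or.inl rfl
        · exact Or.inr rfl
      have h3 : y = x k * ((x k)⁻¹ * y * x k) * (x k)⁻¹ := by group
      rw [SetLike.mem_coe, h3]
      exact mul_mem (mul_mem hx h2) (inv_mem hx)
    intro j hj
    rcases Nat.lt_succ_iff_lt_or_eq.1 hj with hj | rfl
    · exact ⟨hle (ih j hj).1, hle (ih j hj).2⟩
    · exact ⟨hx, ht⟩

theorem PSy_mers (x t : ℕ → P) (k : ℕ) : ∀ j < k,
    t j ∈ Subgroup.normalClosure (mers (PSy_cv x t k)) := by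
  induction k with
  | zero => intro j hj; exact absurd hj (Nat.not_lt_zero j)
  | succ k ih =>
    have ht : t k ∈ Subgroup.normalClosure (mers (PSy_cv x t (k + 1))) :=
      Subgroup.subset_normalClosure ⟨(x k, t k), by simp [PSy_cv], rfl⟩
    have hle : Subgroup.normalClosure (mers (PSy_cv x t k)) ≤
        Subgroup.normalClosure (mers (PSy_cv x t (k + 1))) := by
      refine Subgroup.normalClosure_le_normal ?_
      rintro y ⟨p, hp, rfl⟩
      have hm : PSy_cj (x k) p ∈ PSy_cv x t (k + 1) :=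
        List.mem_cons_of_mem _ (List.mem_map_of_mem hp)
      have h2 : (x k)⁻¹ * p.2 * x k ∈ Subgroup.normalClosure (mers (PSy_cv x t (k + 1))) :=
        Subgroup.subset_normalClosure ⟨_, hm, rfl⟩
      have h3 : p.2 = x k * ((x k)⁻¹ * p.2 * x k) * (x k)⁻¹ := by group
      rw [SetLike.mem_coe, h3]
      exact Subgroup.Normal.conj_mem inferInstance _ h2 _
    intro j hj
    rcases Nat.lt_succ_iff_lt_or_eq.1 hj with hj | rfl
    · exact hle (ih j hj)
    · exact ht

theorem PSy_kill (f : P →* E) (x t : ℕ → P) (k : ℕ) (h : ∀ j < k, f (t j) = 1) :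
    Kill f (PSy_cv x t k) := by
  induction k with
  | zero => intro p hp; simp [PSy_cv] at hp
  | succ k ih =>
    intro p hp
    rcases List.mem_cons.1 hp with rfl | hp
    · exact h k (Nat.lt_succ_self k)
    · obtain ⟨q, hq, rfl⟩ := List.mem_map.1 hp
      have h1 := ih (fun j hj => h j (Nat.lt_succ_of_lt hj)) q hq
      simp [PSy_cj, h1]

/-- the generators of the free group, extended by `1` -/
def PSy_X (g : ℕ) (b : Bool) (k : ℕ) : FreeGroup (Fin g × Bool) :=
  if h : k < g then FreeGroup.of (⟨k, h⟩, b) else 1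

end PSyAux

theorem exists_psys (g : ℕ) : ∃ (P : Type) (_ : Group P) (x t : ℕ → P), PSys g x t := by
  let R : Set (FreeGroup (Fin g × Bool)) := {Vv (PSy_X g true) (PSy_X g false) g}
  refine ⟨PresentedGroup R, inferInstance, fun k => PresentedGroup.mk R (PSy_X g true k),
    fun k => PresentedGroup.mk R (PSy_X g false k), ?_, ?_, ?_⟩
  · rw [← PSy_Vv_map]
    exact PresentedGroup.one_of_mem rfl
  · rw [eq_top_iff, ← PresentedGroup.closure_range_of R, Subgroup.closure_le]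
    rintro y ⟨⟨i, b⟩, rfl⟩
    refine Subgroup.subset_closure ⟨i.1, i.2, ?_⟩
    cases b
    · right
      simp only [PSy_X, dif_pos i.2]
      rfl
    · left
      simp only [PSy_X, dif_pos i.2]
      rfl
  · intro E _ x' t' hE
    let F : Fin g × Bool → E := fun p => if p.2 then x' p.1.1 else t' p.1.1
    have hF : ∀ k < g, FreeGroup.lift F (PSy_X g true k) = x' k ∧
        FreeGroup.lift F (PSy_X g false k) = t' k := by
      intro k hk
      simp [PSy_X, dif_pos hk, F]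
    have hR : ∀ r ∈ R, FreeGroup.lift F r = 1 := by
      rintro r rfl
      rw [PSy_Vv_map, PSy_Vv_congr hF, hE]
    exact ⟨PresentedGroup.toGroup hR, fun k hk => hF k hk⟩

theorem PSys.sys {P : Type} [Group P] {g : ℕ} {x t : ℕ → P} (h : PSys g x t) :
    ∃ (p : P →* FreeGroup (Fin g)) (L : List (P × P)),
      (∀ k (hk : k < g), p (x k) = FreeGroup.of ⟨k, hk⟩ ∧ p (t k) = 1) ∧
      Function.Surjective p ∧ IsSys L ∧ L.length = g ∧ Kill p L ∧
      ∀ γ, p γ = 1 → γ ∈ Subgroup.normalClosure (mers L) := by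
  obtain ⟨p, hp⟩ := h.univ (FreeGroup (Fin g))
    (fun k => if hk : k < g then FreeGroup.of ⟨k, hk⟩ else 1) (fun _ => 1) (PSy_Vv_one _ _)
  have hp' : ∀ k (hk : k < g), p (x k) = FreeGroup.of ⟨k, hk⟩ ∧ p (t k) = 1 := by
    intro k hk
    have h1 := hp k hk
    rw [dif_pos hk] at h1
    exact h1
  refine ⟨p, PSy_cv x t g, hp', ?_, ⟨?_, ?_, ?_⟩, PSy_len _ _ _,
    PSy_kill p x t g fun j hj => (hp' j hj).2, ?_⟩
  · rw [← MonoidHom.range_eq_top, eq_top_iff, ← FreeGroup.closure_range_of, Subgroup.closure_le]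
    rintro y ⟨i, rfl⟩
    exact ⟨x i.1, (hp' i.1 i.2).1⟩
  · rw [PSy_rel_cv, h.rel_eq]
  · rw [eq_top_iff, ← h.gen, Subgroup.closure_le]
    rintro y ⟨k, hk, rfl | rfl⟩
    · exact (PSy_gens x t g k hk).1
    · exact (PSy_gens x t g k hk).2
  · intro E _ L' hL hr
    rw [PSy_len] at hL
    obtain ⟨x', t', rfl⟩ := PSy_cv_surj g L' hL
    rw [PSy_rel_cv] at hr
    obtain ⟨f, hf⟩ := h.univ E x' t' hr
    exact ⟨f, by rw [PSy_cv_map]; exact PSy_cv_congr hf⟩
  · intro γ hγ
    let K := Subgroup.normalClosure (mers (PSy_cv x t g))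
    have hK : QuotientGroup.mk' K =
        (FreeGroup.lift fun i : Fin g => QuotientGroup.mk' K (x i.1)).comp p := by
      refine MonoidHom.eq_of_eqOn_dense h.gen ?_
      rintro y ⟨k, hk, rfl | rfl⟩
      · simp only [MonoidHom.comp_apply, (hp' k hk).1, FreeGroup.lift_apply_of]
      · simp only [MonoidHom.comp_apply, (hp' k hk).2, map_one]
        exact (QuotientGroup.eq_one_iff _).2 (PSy_mers x t g k hk)
    have h1 : QuotientGroup.mk' K γ = 1 := by
      rw [hK, MonoidHom.comp_apply, hγ, map_one]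
    exact (QuotientGroup.eq_one_iff _).1 h1

end Pool.Agent.Work.MP_7ba843_gt.N
end

-- merged part: Pool.Agent.Work.MP_7ba843_gt.N.Surf
section
/-! Universal coverings of the models and the lifts of the standard maps. -/

namespace Pool.Agent.Work.MP_7ba843_gt.N

open Pool.Agent.Work.MP_735653_gt Set

theorem exists_surf {P : Type} [Group P] {g : ℕ} {x t : ℕ → P} (h : PSys g x t) :
    ∃ (μ : Cell 3 → Cell 3 → P) (hc : Coc (EK (gr3 g)) μ),
      (LCv ⟨EK (gr3 g), μ, down_EK (down_gr 1 g), hc⟩).Univ ∧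
      ∀ v i, Vtx v → v + ee i ∈ EK (gr3 g) → mue μ v i = slab g x t v i := by
  obtain ⟨μ, hc, e⟩ := exists_mu (down_EK (down_gr 1 g)) (ecoc_slab h.rel_eq)
  refine ⟨μ, hc, univ_LCv (SCe.scp fun H _ ε hε => ?_) (ConnE.conn ?_), e⟩
  · obtain ⟨x', t', f, h1, h2⟩ := surf_sce g hε
    obtain ⟨θ, hθ⟩ := h.univ H x' t' h1
    exact ⟨θ, f, fun v i hv hm => by
      rw [h2 v i hv hm, ← slab_map θ hθ hv hm, ← e v i hv hm]⟩
  · exact ⟨⟨0, (surf_conn h.gen (fun _ _ => True) fun _ _ _ _ _ => Iff.rfl).1, fun _ => rfl⟩,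
      fun φ hφ => (surf_conn h.gen φ fun γ v i hv hm => e v i hv hm ▸ hφ γ v i hv hm).2⟩

theorem surf_gauge {P Γ : Type} [Group P] [Group Γ] {g : ℕ} {x t : ℕ → P}
    (p : P →* FreeGroup (Fin g))
    (hp : ∀ k (hk : k < g), p (x k) = FreeGroup.of ⟨k, hk⟩ ∧ p (t k) = 1)
    {μ : Cell 3 → Cell 3 → P} (hc : Coc (EK (gr3 g)) μ)
    (hμ : ∀ v i, Vtx v → v + ee i ∈ EK (gr3 g) → mue μ v i = slab g x t v i)
    (χ : FreeGroup (Fin g) →* Γ) {ν : Cell 3 → Cell 3 → Γ} (hν : Coc (gr3 g) ν)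
    (e : ∀ v i, Vtx v → v + ee i ∈ gr3 g → mue ν v i = χ (glab (D := 1) g v i)) :
    ∃ β : Cell 3 → Γ, ∀ a ∈ EK (gr3 g), ∀ b, Face b a →
      χ.comp p (μ a b) = β a * ν (lo a) (lo b) * (β b)⁻¹ := by
  let Y : LC 3 Γ := ⟨gr3 g, ν, down_gr 1 g, hν⟩
  refine gauge (ψ := fun a b => χ.comp p (μ a b)) (down_EK (down_gr 1 g))
    (fun a ha b c hb h => (congrArg _ (hc a ha b c hb h)).trans (map_mul _ _ _)) Y.E.coc
    fun v i hv hm => ?_
  obtain ⟨h1, h2, h3⟩ := mue_lo Y hv (mem_EK.1 hm).1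
  refine Eq.trans ?_ h3.symm
  have : mue (fun a b => χ.comp p (μ a b)) v i = χ (p (mue μ v i)) := by
    simp only [mue, map_mul, map_inv, MonoidHom.comp_apply]
  rw [this, hμ v i hv hm, slab_glab p hp hv hm]
  split_ifs with k
  · exact (e _ i h1 (h2 k ▸ (mem_EK.1 hm).1)).symm
  · exact map_one χ

theorem emb_face (off : ℕ) {a b : Cell 3} (h : Face b a) : Face (emb off b) (emb off a) := by
  intro i
  have h0 := h 0
  have h1 := h 1
  fin_cases i <;> simp [emb] <;> omega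

theorem surf_lifts (g : ℕ) : ∃ (P : Type) (_ : Group P) (CS : Cv (Re (EK (gr3 g))) P)
    (CW : Cv (Re (WK (gr3 g))) (FreeGroup (Fin g))) (p : P →* FreeGroup (Fin g))
    (L₀ : List (P × P)) (F₀ : CS.E → CW.E), CS.Univ ∧ CW.Univ ∧ Lf CS CW (incl _) p F₀ ∧
      Function.Surjective p ∧ IsSys L₀ ∧ L₀.length = g ∧ Kill p L₀ ∧
      (∀ γ, p γ = 1 → γ ∈ Subgroup.normalClosure (mers L₀)) ∧
      ∀ (G : Type) [Group G] (X : LC 5 G) (off : ℕ) (χ : FreeGroup (Fin g) →* G)
        (f : Re (EK (gr3 g)) → Re X.K), Continuous f → (∀ a ∈ gr3 g, emb off a ∈ X.K) →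
        (∀ v i, Vtx v → v + ee i ∈ gr3 g →
          mue (fun a b => X.μ (emb off a) (emb off b)) v i = χ (glab (D := 1) g v i)) →
        (∀ y, Face (cellOf (f y).1) (emb off (lo (cellOf y.1)))) →
        ∃ F, Lf CS (LCv X) f (χ.comp p) F := by
  obtain ⟨P, _, x, t, hP⟩ := exists_psys g
  obtain ⟨p, L₀, a1, a2, a3, a4, a5, a6⟩ := hP.sys
  obtain ⟨μ, hc, b1, b2⟩ := exists_surf hP
  obtain ⟨ν, hν, c1, c2, c3⟩ := exists_LG 1 g
  obtain ⟨β, hβ⟩ := surf_gauge p a1 hc b2 (MonoidHom.id _) hν c3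
  obtain ⟨F₀, l₀⟩ := lift_cell ⟨_, μ, down_EK (down_gr 1 g), hc⟩ (LC.W ⟨_, ν, down_gr 1 g, hν⟩)
    (incl_emb (gr3 g)).continuous p id β (fun _ ha => mem_WK.2 (mem_EK.1 ha).1) (fun _ _ _ h => h)
    (fun _ => Face.refl _) hβ
  refine ⟨P, _, LCv ⟨_, μ, down_EK (down_gr 1 g), hc⟩, LCv (LC.W ⟨_, ν, down_gr 1 g, hν⟩), p, L₀,
    F₀, b1, univ_LCv c1.W c2.W, l₀, a2, a3, a4, a5, a6, fun G _ X off χ f hf h1 h2 h3 => ?_⟩
  obtain ⟨β, hβ⟩ := surf_gauge p a1 hc b2 χ (fun a ha b c hb h =>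
    X.coc _ (h1 a ha) _ _ (emb_face off hb) (emb_face off h)) h2
  exact lift_cell ⟨_, μ, down_EK (down_gr 1 g), hc⟩ X hf _ (fun a => emb off (lo a)) β
    (fun _ ha => h1 _ (mem_EK.1 ha).1) (fun _ _ _ h => emb_face off h.lo) h3 hβ

theorem sector_cv (k : ℕ) : ∃ C : Cv (Re (WK (gr 2 k))) (FreeGroup (Fin k)),
    C.Univ ∧ IsPreconnected (C.p ⁻¹' range (incl (gr 2 k))) := by
  obtain ⟨ν, hν, c1, c2, -⟩ := exists_LG 2 k
  let Y : LC 4 (FreeGroup (Fin k)) := ⟨_, ν, down_gr 2 k, hν⟩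
  obtain ⟨F, l⟩ := lift_cell Y.E Y.W (incl_emb (gr 2 k)).continuous (MonoidHom.id _) id
    (fun _ => 1) (fun _ ha => mem_WK.2 (mem_EK.1 ha).1) (fun _ _ _ h => h) (fun _ => Face.refl _)
    fun a _ b _ => by
      rw [one_mul, inv_one, mul_one]
      rfl
  refine ⟨LCv Y.W, univ_LCv c1.W c2.W, ?_⟩
  have : PathConnectedSpace (LCv Y.E).E := (Conn.E (X := Y) c2 fun a ha => by
    have := dim_gr ha
    omega).pathConnected
  exact l.range Function.surjective_id ▸ isPreconnected_range l.cont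

theorem face_kap {D D' : ℕ} {x y : Fin D → ℝ} (h : Near x y) {z : Fin D' → ℝ} {a : Cell D'}
    (k : (∀ i, 2 * (lo (cellOf x) i : ℝ) - 1 / 2 ≤ y i ∧ y i ≤ 2 * (lo (cellOf x) i : ℝ) + 5 / 2) →
      ∀ i, |z i - (2 * (a i : ℝ) + 1)| ≤ 3 / 2 + 2 * ((a i % 2 : ℤ) : ℝ)) :
    Face (cellOf fun i => kap (z i)) a :=
  kap_face (k (near_lo h))

theorem level_cv {D : ℕ} {G : Type} [Group G] (X : LC D G) (hd : ∀ a ∈ X.K, dim a + 3 ≤ D)
    (h1 : SCp X) (h2 : Conn X) : ∃ (C : Cv {x // FK X.K x = 1 / 2} G)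
      (κ : {x // FK X.K x = 1 / 2} → Re X.K) (F : C.E → (LCv X).E), C.Univ ∧ Continuous κ ∧
        (∀ y, (κ y).1 = fun i => kap (y.1 i)) ∧ Lf C (LCv X) κ (MonoidHom.id G) F := by
  obtain ⟨e, he⟩ := level_near X.down
  let κ : {x // FK X.K x = 1 / 2} → Re X.K := fun y =>
    ⟨fun i => kap (y.1 i), kap_mem X.down (by rw [y.2]; norm_num)⟩
  have hκ : Continuous κ := (continuous_pi fun i =>
    kap_cont.comp ((continuous_apply i).comp continuous_subtype_val)).subtype_mk _
  obtain ⟨F, l⟩ := lift_cell X.E X (hκ.comp e.continuous) (MonoidHom.id G) lo (fun _ => 1)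
    (fun _ ha => (mem_EK.1 ha).1) (fun _ _ _ h => h.lo)
    (fun x => face_kap (he x) fun k i => by
      have : (0 : ℝ) ≤ ((lo (cellOf x.1) i % 2 : ℤ) : ℝ) := by
        exact_mod_cast Int.emod_nonneg _ two_ne_zero
      have := k i
      rw [abs_le]
      constructor <;> linarith)
    fun a _ b _ => by
      rw [one_mul, inv_one, mul_one]
      rfl
  exact ⟨(LCv X.E).homeo e, κ, F, univ_LCv (h1.E hd) (h2.E hd), hκ, fun _ => rfl,
    l.cont, l.proj, l.eqv⟩

end Pool.Agent.Work.MP_7ba843_gt.N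
end

-- merged part: Pool.Agent.Work.MP_7ba843_gt.N.CvB
section
/-! Surjectivity from a splitting of the boundary, and circle valued maps.

PLAN. `sector_surj`: `R = ψ.range = ηA.range = ηB.range`. For `z` over `range iA` there are `g`,
`e` with `z = g • MA e`; the coset `g R` does not depend on the choice (`iA` injective, orbits, free
action): a colouring `cA`, the same for `cB`; they agree over `range iA ∩ range iB` (`hS`, `hAB`).
Each colour class of `cA` is open in the preimage of `range iA`: near `z` take a local section `s`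
of `CA.p` (local homeomorphism), then `z' ↦ g • MA (s (iA⁻¹ (p z')))` is continuous, lifts `p z'` and
equals `z` at `z`, so it is the identity near `z` (local injectivity of `CZ.p`). Hence the set of
points of colour `R` and its complement are closed in the preconnected union
(`isPreconnected_closed_iff`); `g • MA e` has colour `g R`, so `g ∈ R`.
`exists_real`: every point has an open neighbourhood `U` with a continuous section `s`; the function
`e ↦ g` with `e = g • s (p e)` is locally constant over `U`; use a finite subcover and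
`PartitionOfUnity.exists_isSubordinate`, `φ e = ∑ i, ρ i (p e) * lam (g i e)`.
`hom_of_circle`: lift `G ∘ C.p` through `Circle.isCoveringMap_exp`; `φ (g • e) - φ e` is
continuous with values in `2πℤ`, so constant. About 350 lines. -/

namespace Pool.Agent.Work.MP_7ba843_gt.N

open Set Topology

variable {Y Z A B Γ P ΓA ΓB : Type} [TopologicalSpace Y] [TopologicalSpace Z] [TopologicalSpace A]
  [TopologicalSpace B] [Group Γ] [Group P] [Group ΓA] [Group ΓB]

theorem CvB_col {CA : Cv A ΓA} {CZ : Cv Z Γ} {i : A → Z} (hi : Function.Injective i)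
    {η : ΓA →* Γ} {M : CA.E → CZ.E} (h : Lf CA CZ i η M) {R : Subgroup Γ} (hR : ∀ k, η k ∈ R)
    {g g' : Γ} {e e' : CA.E} (he : g • M e = g' • M e') : g ∈ R ↔ g' ∈ R := by
  have := CZ.cov.isCancelSMul
  have h1 : CA.p e = CA.p e' := hi (by
    rw [← h.proj, ← h.proj, ← CZ.cov.map_smul g, he, CZ.cov.map_smul])
  obtain ⟨k, rfl⟩ := CA.cov.apply_eq_iff_mem_orbit.1 h1
  rw [h.eqv, smul_smul] at he
  rw [← IsCancelSMul.right_cancel _ _ _ he, R.mul_mem_cancel_right (hR k)]

theorem CvB_mem {CA : Cv A ΓA} {CZ : Cv Z Γ} {i : A → Z} {η : ΓA →* Γ} {M : CA.E → CZ.E}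
    (h : Lf CA CZ i η M) {z : CZ.E} (hz : CZ.p z ∈ range i) : ∃ (g : Γ) (e : CA.E), z = g • M e := by
  obtain ⟨a, ha⟩ := hz
  obtain ⟨e, rfl⟩ := CA.cov.surjective a
  obtain ⟨g, hg⟩ := CZ.cov.apply_eq_iff_mem_orbit.1 (ha.symm.trans (h.proj e).symm)
  exact ⟨g, e, hg.symm⟩

theorem CvB_near {CA : Cv A ΓA} {CZ : Cv Z Γ} {i : A → Z} (hi : IsInducing i) {η : ΓA →* Γ}
    {M : CA.E → CZ.E} (h : Lf CA CZ i η M) (e : CA.E) :
    ∀ᶠ z in 𝓝 (M e), CZ.p z ∈ range i → z ∈ range M := by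
  obtain ⟨V, hV, hd⟩ := CZ.cov.disjoint (M e)
  have h1 : CA.p '' (M ⁻¹' V) ∈ 𝓝 (CA.p e) :=
    CA.cov.isCoveringMap.isOpenMap.image_mem_nhds (h.cont.continuousAt.preimage_mem_nhds hV)
  rw [hi.nhds_eq_comap] at h1
  obtain ⟨N, hN, hs⟩ := h1
  rw [← h.proj] at hN
  filter_upwards [hV, CZ.cov.continuous.continuousAt.preimage_mem_nhds hN] with z hz hz' ⟨a, ha⟩
  obtain ⟨e', he', rfl⟩ := hs (show i a ∈ N from ha ▸ hz')
  obtain ⟨g, hg⟩ := CZ.cov.apply_eq_iff_mem_orbit.1 (ha.symm.trans (h.proj e').symm)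
  obtain rfl := hd g ⟨z, ⟨_, he', hg⟩, hz⟩
  exact ⟨e', (one_smul Γ _).symm.trans hg⟩

theorem CvB_closed {CA : Cv A ΓA} {CZ : Cv Z Γ} {i : A → Z} (hi : IsClosedEmbedding i)
    {η : ΓA →* Γ} {M : CA.E → CZ.E} (h : Lf CA CZ i η M) {R : Subgroup Γ} (hR : ∀ k, η k ∈ R)
    (b : Prop) : IsClosed {z : CZ.E | ∃ (g : Γ) (e : CA.E), (g ∈ R ↔ b) ∧ z = g • M e} := by
  refine isClosed_of_closure_subset fun z hz => ?_
  have h0 : ∀ w ∈ {z : CZ.E | ∃ (g : Γ) (e : CA.E), (g ∈ R ↔ b) ∧ z = g • M e},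
      w ∈ CZ.p ⁻¹' range i := by
    rintro _ ⟨g, e, -, rfl⟩
    exact ⟨_, ((CZ.cov.map_smul g).trans (h.proj e)).symm⟩
  obtain ⟨g, e, rfl⟩ := CvB_mem h
    (closure_minimal h0 (hi.isClosed_range.preimage CZ.cov.continuous) hz)
  have h1 : Filter.Tendsto (fun w : CZ.E => g⁻¹ • w) (𝓝 (g • M e)) (𝓝 (M e)) :=
    (CZ.cov.continuous_const_smul g⁻¹).tendsto' _ _ (inv_smul_smul g _)
  obtain ⟨w, hw, hw'⟩ := mem_closure_iff_nhds.1 hz _ (h1.eventually (CvB_near hi.isInducing h e))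
  obtain ⟨e', he'⟩ := hw (by rw [CZ.cov.map_smul]; exact h0 w hw')
  obtain ⟨g', e'', hb, rfl⟩ := hw'
  exact ⟨g, e, (CvB_col hi.injective h hR (eq_inv_smul_iff.1 he')).trans hb, rfl⟩

theorem sector_surj {CS : Cv Y P} {CA : Cv A ΓA} {CB : Cv B ΓB} {CZ : Cv Z Γ} [Nonempty Y]
    {iA : A → Z} {iB : B → Z} {jA : Y → A} {jB : Y → B} (hA : IsClosedEmbedding iA)
    (hB : IsClosedEmbedding iB) {ρA : P →* ΓA} {ρB : P →* ΓB} {GA : CS.E → CA.E}
    {GB : CS.E → CB.E} (h1 : Lf CS CA jA ρA GA) (h2 : Lf CS CB jB ρB GB)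
    (s1 : Function.Surjective ρA) (s2 : Function.Surjective ρB) {ηA : ΓA →* Γ} {ηB : ΓB →* Γ}
    {MA : CA.E → CZ.E} {MB : CB.E → CZ.E} (h3 : Lf CA CZ iA ηA MA) (h4 : Lf CB CZ iB ηB MB)
    (hAB : ∀ e, MA (GA e) = MB (GB e)) {ψ : P →* Γ} (e1 : ∀ k, ηA (ρA k) = ψ k)
    (e2 : ∀ k, ηB (ρB k) = ψ k) (hS : range iA ∩ range iB ⊆ range (iA ∘ jA))
    (hc : IsPreconnected (CZ.p ⁻¹' (range iA ∪ range iB))) : Function.Surjective ψ := by
  have hA' : ∀ k, ηA k ∈ ψ.range := fun k => by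
    obtain ⟨k, rfl⟩ := s1 k
    exact ⟨k, (e1 k).symm⟩
  have hB' : ∀ k, ηB k ∈ ψ.range := fun k => by
    obtain ⟨k, rfl⟩ := s2 k
    exact ⟨k, (e2 k).symm⟩
  have hx : ∀ {g g' : Γ} {e : CA.E} {e' : CB.E}, g • MA e = g' • MB e' →
      (g ∈ ψ.range ↔ g' ∈ ψ.range) := fun {g g' e e'} he => by
    obtain ⟨y, hy⟩ := hS (a := CZ.p (g • MA e))
      ⟨⟨_, ((CZ.cov.map_smul g).trans (h3.proj e)).symm⟩,
        ⟨_, ((congrArg CZ.p he).trans ((CZ.cov.map_smul g').trans (h4.proj e'))).symm⟩⟩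
    obtain ⟨s, rfl⟩ := CS.cov.surjective y
    obtain ⟨k, hk⟩ := CZ.cov.apply_eq_iff_mem_orbit.1
      (show CZ.p (g • MA e) = CZ.p (MA (GA s)) by rw [h3.proj, h1.proj, ← hy]; rfl)
    have hk' : k • MA (GA s) = g • MA e := hk
    exact (CvB_col hA.injective h3 hA' hk').symm.trans
      (CvB_col hB.injective h4 hB' ((congrArg (k • ·) (hAB s)).symm.trans (hk'.trans he)))
  intro g
  by_contra hg
  obtain ⟨s, -⟩ := CS.cov.surjective (Classical.arbitrary Y)
  have hp : ∀ g : Γ, g • MA (GA s) ∈ CZ.p ⁻¹' (range iA ∪ range iB) := fun g =>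
    Or.inl ⟨_, ((CZ.cov.map_smul g).trans (h3.proj _)).symm⟩
  obtain ⟨z, -, hz, hz'⟩ := isPreconnected_closed_iff.1 hc _ _
    ((CvB_closed hA h3 hA' True).union (CvB_closed hB h4 hB' True))
    ((CvB_closed hA h3 hA' False).union (CvB_closed hB h4 hB' False))
    (by
      rintro z (hz | hz)
      · obtain ⟨k, e, rfl⟩ := CvB_mem h3 hz
        by_cases hk : k ∈ ψ.range
        · exact Or.inl (Or.inl ⟨k, e, iff_true_intro hk, rfl⟩)
        · exact Or.inr (Or.inl ⟨k, e, iff_false_intro hk, rfl⟩)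
      · obtain ⟨k, e, rfl⟩ := CvB_mem h4 hz
        by_cases hk : k ∈ ψ.range
        · exact Or.inl (Or.inr ⟨k, e, iff_true_intro hk, rfl⟩)
        · exact Or.inr (Or.inr ⟨k, e, iff_false_intro hk, rfl⟩))
    ⟨_, hp 1, Or.inl ⟨1, _, iff_true_intro (one_mem _), rfl⟩⟩
    ⟨_, hp g, Or.inl ⟨g, _, iff_false_intro hg, rfl⟩⟩
  obtain ⟨k, e, hk, rfl⟩ | ⟨k, e, hk, rfl⟩ := hz <;>
    obtain ⟨k', e', hk', he⟩ | ⟨k', e', hk', he⟩ := hz'
  · exact hk'.1 ((CvB_col hA.injective h3 hA' he).1 (hk.2 trivial))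
  · exact hk'.1 ((hx he).1 (hk.2 trivial))
  · exact hk'.1 ((hx he.symm).2 (hk.2 trivial))
  · exact hk'.1 ((CvB_col hB.injective h4 hB' he).1 (hk.2 trivial))

theorem CvB_loc (C : Cv Z Γ) (z : Z) : ∃ (U : Set Z) (γ : C.E → Γ), IsOpen U ∧ z ∈ U ∧
    (∀ g e, γ (g • e) = g * γ e) ∧ ∀ e, C.p e ∈ U → ∀ᶠ e' in 𝓝 e, γ e' = γ e := by
  classical
  have := C.cov.isCancelSMul
  obtain ⟨e₀, rfl⟩ := C.cov.surjective z
  obtain ⟨V, hV, hd⟩ := C.cov.disjoint e₀
  have h1 : ∀ z : Z, ∃ u, C.p u = z ∧ (z ∈ C.p '' V → u ∈ V) := fun z => by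
    by_cases h : z ∈ C.p '' V
    · obtain ⟨u, hu, rfl⟩ := h
      exact ⟨u, rfl, fun _ => hu⟩
    · obtain ⟨u, rfl⟩ := C.cov.surjective z
      exact ⟨u, rfl, fun k => absurd k h⟩
  choose s hs hs' using h1
  choose γ hγ using fun e => C.cov.apply_eq_iff_mem_orbit.1 (hs (C.p e)).symm
  have hγ' : ∀ e, γ e • s (C.p e) = e := hγ
  have h2 : ∀ (g : Γ) (e : C.E), g⁻¹ • e ∈ V → γ e = g := fun g e h => by
    have h3 := hd (g⁻¹ * γ e) ⟨_, ⟨_, hs' (C.p e) ⟨_, h, C.cov.map_smul _⟩, rfl⟩, by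
      show (g⁻¹ * γ e) • s (C.p e) ∈ V
      rwa [mul_smul, hγ']⟩
    exact (inv_mul_eq_one.1 h3).symm
  refine ⟨C.p '' interior V, γ, C.cov.isCoveringMap.isOpenMap _ isOpen_interior,
    ⟨_, mem_interior_iff_mem_nhds.2 hV, rfl⟩, fun g e => ?_, ?_⟩
  · refine IsCancelSMul.right_cancel _ _ (s (C.p e)) ?_
    rw [mul_smul, hγ', ← C.cov.map_smul g, hγ']
  · rintro e ⟨u, hu, he⟩
    obtain ⟨g, rfl⟩ := C.cov.apply_eq_iff_mem_orbit.1 he.symm
    have h4 : Filter.Tendsto (fun w : C.E => g⁻¹ • w) (𝓝 (g • u)) (𝓝 u) :=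
      (C.cov.continuous_const_smul g⁻¹).tendsto' _ _ (inv_smul_smul g _)
    filter_upwards [h4.eventually (mem_interior_iff_mem_nhds.1 hu)] with w hw
    rw [h2 g w hw, h2 g _ (by rw [inv_smul_smul]; exact interior_subset hu)]

theorem exists_real [CompactSpace Z] [T2Space Z] (C : Cv Z Γ) (lam : Γ →* Multiplicative ℤ) :
    ∃ φ : C.E → ℝ, Continuous φ ∧ ∀ g e, φ (g • e) = ((lam g).toAdd : ℤ) + φ e := by
  choose U γ hU hz hγ hl using CvB_loc C
  obtain ⟨ρ, hρ⟩ := PartitionOfUnity.exists_isSubordinate isClosed_univ U hU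
    fun z _ => mem_iUnion.2 ⟨z, hz z⟩
  let σ : PartitionOfUnity Z C.E univ :=
    ⟨fun i => (ρ i).comp ⟨C.p, C.cov.continuous⟩,
      ρ.locallyFinite.preimage_continuous C.cov.continuous, fun i e => ρ.nonneg i _,
      fun e _ => ρ.sum_eq_one (mem_univ _), fun e => ρ.sum_le_one _⟩
  refine ⟨fun e => ∑ᶠ i, σ i e • (((lam (γ i e)).toAdd : ℤ) : ℝ),
    σ.continuous_finsum_smul fun i e he => ?_, fun g e => ?_⟩
  · have h1 : C.p e ∈ U i := hρ i (closure_minimal (t := C.p ⁻¹' tsupport (ρ i))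
      (fun w hw => subset_closure hw) (isClosed_closure.preimage C.cov.continuous) he)
    exact (continuousAt_const (y := (((lam (γ i e)).toAdd : ℤ) : ℝ))).congr
      ((hl i e h1).mono fun w hw => by simp only [hw])
  · show ∑ᶠ i, ρ i (C.p (g • e)) • (((lam (γ i (g • e))).toAdd : ℤ) : ℝ) =
      _ + ∑ᶠ i, ρ i (C.p e) • (((lam (γ i e)).toAdd : ℤ) : ℝ)
    rw [C.cov.map_smul, ← ρ.sum_finsupport_smul_eq_finsum
      fun i _ => (((lam (γ i (g • e))).toAdd : ℤ) : ℝ),
      ← ρ.sum_finsupport_smul_eq_finsum fun i _ => (((lam (γ i e)).toAdd : ℤ) : ℝ)]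
    simp only [hγ, map_mul, toAdd_mul, Int.cast_add, smul_add, Finset.sum_add_distrib]
    rw [← Finset.sum_smul, ρ.sum_finsupport (mem_univ _), one_smul]

theorem hom_of_circle {C : Cv Z Γ} (hC : C.Univ) {G : Z → Circle} (hG : Continuous G) :
    ∃ (φ : C.E → ℝ) (ν : Γ →* Multiplicative ℝ), Continuous φ ∧
      (∀ e, Circle.exp (φ e) = G (C.p e)) ∧ ∀ g e, φ (g • e) = (ν g).toAdd + φ e := by
  have := hC.1
  have := hC.2
  obtain ⟨e₀⟩ : Nonempty C.E := inferInstance
  obtain ⟨F, ⟨-, hF⟩, -⟩ := Circle.isCoveringMap_exp.existsUnique_continuousMap_lifts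
    (⟨G ∘ C.p, hG.comp C.cov.continuous⟩ : C(C.E, Circle)) e₀ _ (Circle.exp_arg _)
  have h1 : ∀ e, Circle.exp (F e) = G (C.p e) := fun e => congrFun hF e
  have h2 : ∀ (g : Γ) e, F (g • e) = (F (g • e₀) - F e₀) + F e := fun g e => by
    refine congrFun (Circle.isCoveringMap_exp.eq_of_comp_eq (g₁ := fun e => F (g • e))
      (g₂ := fun e => (F (g • e₀) - F e₀) + F e)
      (F.continuous.comp (C.cov.continuous_const_smul g)) (continuous_const.add F.continuous)
      (funext fun w => ?_) e₀ (sub_add_cancel _ _).symm) e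
    simp only [Function.comp, Circle.exp_add, Circle.exp_sub, h1, C.cov.map_smul, div_self',
      one_mul]
  refine ⟨F, MonoidHom.mk' (fun g => Multiplicative.ofAdd (F (g • e₀) - F e₀)) fun a b => ?_,
    F.continuous, h1, h2⟩
  rw [← ofAdd_add, mul_smul, h2 a, add_sub_assoc]

end Pool.Agent.Work.MP_7ba843_gt.N
end
end

-- merged part: Pool.Agent.Work.MP_7ba843_gt.N.NoTri
section
-- merged part: Pool.Agent.Work.MP_7ba843_gt.Logs
section
/-! Continuous logarithms of circle valued maps and the gluing argument. -/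

open Set Topology unitInterval

namespace Pool.Agent.Work.MP_7ba843_gt

variable {X : Type} [TopologicalSpace X]

/-- circle valued functions having a continuous logarithm on `S` -/
def Lg (S : Set X) : Subgroup (X → Circle) where
  carrier := {f | ∃ h : X → ℝ, ContinuousOn h S ∧ ∀ x ∈ S, f x = Circle.exp (h x)}
  mul_mem' := by
    rintro f g ⟨h, hc, hf⟩ ⟨k, kc, hg⟩
    exact ⟨fun x => h x + k x, hc.add kc, fun x hx => by
      simp [hf x hx, hg x hx]⟩
  one_mem' := ⟨fun _ => 0, continuousOn_const, fun x _ => by simp⟩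
  inv_mem' := by
    rintro f ⟨h, hc, hf⟩
    exact ⟨fun x => - h x, hc.neg, fun x hx => by simp [hf x hx]⟩

theorem mem_Lg {S : Set X} {f : X → Circle} :
    f ∈ Lg S ↔ ∃ h : X → ℝ, ContinuousOn h S ∧ ∀ x ∈ S, f x = Circle.exp (h x) := Iff.rfl

theorem Lg_mono {S S' : Set X} (h : S ⊆ S') : Lg S' ≤ Lg S := by
  rintro f ⟨k, kc, hk⟩
  exact ⟨k, kc.mono h, fun x hx => hk x (h hx)⟩

theorem Lg_congr {S : Set X} {f g : X → Circle} (hf : f ∈ Lg S) (h : ∀ x ∈ S, g x = f x) :
    g ∈ Lg S := by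
  obtain ⟨k, kc, hk⟩ := hf
  exact ⟨k, kc, fun x hx => (h x hx).trans (hk x hx)⟩

theorem Lg_root {S : Set X} (hS : IsPreconnected S) {f : X → Circle} (hf : ContinuousOn f S)
    {n : ℤ} (hn : n ≠ 0) (h : f ^ n ∈ Lg S) : f ∈ Lg S := by
  obtain ⟨k, kc, hk⟩ := h
  rcases S.eq_empty_or_nonempty with rfl | ⟨x0, hx0⟩
  · exact ⟨fun _ => 0, continuousOn_const, fun x hx => hx.elim⟩
  have : NeZero n := ⟨hn⟩
  have cov := (Circle.isQuotientCoveringMap_zpow n).isCoveringMap
  set g : X → Circle := fun x => f x / Circle.exp (k x / n) with hg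
  have gc : ContinuousOn g S :=
    hf.div' (Circle.exp.continuous.comp_continuousOn (kc.div_const _))
  have hg1 : ∀ x ∈ S, g x ^ n = 1 := by
    intro x hx
    have h1 := hk x hx
    simp only [Pi.pow_apply] at h1
    have h2 : Circle.exp (k x / n) ^ n = Circle.exp (k x) := by
      rw [← Circle.exp_intCast_mul]
      congr 1
      have : (n : ℝ) ≠ 0 := by exact_mod_cast hn
      field_simp
    simp only [hg, div_zpow, h1, h2, div_self']
  have hconst : ∀ x ∈ S, g x = g x0 := fun x hx =>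
    cov.constOn_of_comp hS gc (fun a ha b hb => by
      simp only [hg1 a ha, hg1 b hb]) hx hx0
  obtain ⟨c, hc⟩ := Circle.exp_surjective (g x0)
  refine ⟨fun x => c + k x / n, continuousOn_const.add (kc.div_const _), fun x hx => ?_⟩
  rw [Circle.exp_add, hc, ← hconst x hx]
  simp [hg]

theorem exists_ext [NormalSpace X] {S : Set X} (hS : IsClosed S) {h : X → ℝ}
    (hc : ContinuousOn h S) : ∃ k : X → ℝ, Continuous k ∧ ∀ x ∈ S, k x = h x := by
  obtain ⟨g, hg⟩ := ContinuousMap.exists_restrict_eq hS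
    (⟨fun x : S => h x, continuousOn_iff_continuous_domRestrict.1 hc⟩ : C(S, ℝ))
  refine ⟨g, g.continuous, fun x hx => ?_⟩
  exact congrArg (fun f : C(S, ℝ) => f ⟨x, hx⟩) hg

theorem Lg_ext [NormalSpace X] {S : Set X} (hS : IsClosed S) {f : X → Circle} (hf : f ∈ Lg S) :
    ∃ h : X → ℝ, Continuous h ∧ ∀ x ∈ S, f x = Circle.exp (h x) := by
  obtain ⟨k, kc, hk⟩ := hf
  obtain ⟨h, hc, hh⟩ := exists_ext hS kc
  exact ⟨h, hc, fun x hx => by rw [hh x hx, hk x hx]⟩

/-- gluing three circle valued maps -/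
theorem glue [NormalSpace X] {A B C S : Set X} (hA : IsClosed A) (hB : IsClosed B)
    (hC : IsClosed C) (hcov : A ∪ B ∪ C = univ) (hS : A ∩ B ∩ C = S) (hSc : IsPreconnected S)
    {gA gB gC : X → Circle} (cA : ContinuousOn gA A) (cB : ContinuousOn gB B)
    (cC : ContinuousOn gC C) (hAB : gA / gB ∈ Lg (A ∩ B)) (hBC : gB / gC ∈ Lg (B ∩ C))
    (hCA : gC / gA ∈ Lg (C ∩ A)) :
    ∃ G : X → Circle, Continuous G ∧ ∀ x ∈ A, G x = gA x := by
  classical
  obtain ⟨a, ac, ha⟩ := Lg_ext (hA.inter hB) hAB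
  obtain ⟨b, bc, hb⟩ := Lg_ext (hB.inter hC) hBC
  obtain ⟨c, cc, hc⟩ := Lg_ext (hC.inter hA) hCA
  simp only [Pi.div_apply] at ha hb hc
  have h1 : ∀ x ∈ S, Circle.exp (a x + b x + c x) = 1 := by
    intro x hx
    rw [← hS] at hx
    rw [Circle.exp_add, Circle.exp_add, ← ha x ⟨hx.1.1, hx.1.2⟩, ← hb x ⟨hx.1.2, hx.2⟩,
      ← hc x ⟨hx.2, hx.1.1⟩]
    simp
  obtain ⟨κ, hκ1, hκ⟩ : ∃ κ : ℝ, Circle.exp κ = 1 ∧ ∀ x ∈ S, a x + b x + c x = κ := by
    rcases S.eq_empty_or_nonempty with rfl | ⟨x0, hx0⟩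
    · exact ⟨0, by simp, fun x hx => hx.elim⟩
    refine ⟨a x0 + b x0 + c x0, h1 x0 hx0, fun x hx => ?_⟩
    exact Circle.isCoveringMap_exp.constOn_of_comp (g := fun x => a x + b x + c x) hSc
      (by fun_prop) (fun u hu v hv => by rw [h1 u hu, h1 v hv]) hx hx0
  -- the correction on `C`
  set v0 : X → ℝ := fun x => if x ∈ A then κ - c x else a x + b x with hv0
  have hvA : ∀ x ∈ C ∩ A, v0 x = κ - c x := fun x hx => by simp [hv0, hx.2]
  have hvB : ∀ x ∈ B ∩ C, v0 x = a x + b x := by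
    intro x hx
    by_cases hxA : x ∈ A
    · have : x ∈ S := by rw [← hS]; exact ⟨⟨hxA, hx.1⟩, hx.2⟩
      have := hκ x this
      simp only [hv0, hxA, if_true]
      linarith
    · simp [hv0, hxA]
  have v0c : ContinuousOn v0 ((C ∩ A) ∪ (B ∩ C)) := by
    refine ContinuousOn.union_of_isClosed ?_ ?_ (hC.inter hA) (hB.inter hC)
    · exact (ContinuousOn.congr (f := fun x => κ - c x) (by fun_prop) hvA)
    · exact (ContinuousOn.congr (f := fun x => a x + b x) (by fun_prop) hvB)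
  obtain ⟨v, vc, hv⟩ := exists_ext ((hC.inter hA).union (hB.inter hC)) v0c
  set G : X → Circle := fun x => if x ∈ A then gA x else if x ∈ B then gB x * Circle.exp (a x)
    else gC x * Circle.exp (v x) with hG
  have GA : ∀ x ∈ A, G x = gA x := fun x hx => by simp [hG, hx]
  have GB : ∀ x ∈ B, G x = gB x * Circle.exp (a x) := by
    intro x hx
    by_cases hxA : x ∈ A
    · rw [GA x hxA, ← ha x ⟨hxA, hx⟩]; simp
    · simp [hG, hx, hxA]
  have GC : ∀ x ∈ C, G x = gC x * Circle.exp (v x) := by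
    intro x hx
    by_cases hxA : x ∈ A
    · rw [GA x hxA, hv x (Or.inl ⟨hx, hxA⟩), hvA x ⟨hx, hxA⟩, Circle.exp_sub, hκ1,
        ← hc x ⟨hx, hxA⟩]
      simp
    · by_cases hxB : x ∈ B
      · rw [GB x hxB, hv x (Or.inr ⟨hxB, hx⟩), hvB x ⟨hxB, hx⟩, Circle.exp_add,
          ← hb x ⟨hxB, hx⟩]
        rw [mul_comm (Circle.exp (a x)), ← mul_assoc]
        simp
      · simp [hG, hxA, hxB]
  refine ⟨G, ?_, GA⟩
  rw [← continuousOn_univ, ← hcov]
  refine ContinuousOn.union_of_isClosed (ContinuousOn.union_of_isClosed ?_ ?_ hA hB) ?_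
    (hA.union hB) hC
  · exact cA.congr GA
  · exact ContinuousOn.congr (f := fun x => gB x * Circle.exp (a x))
      (cB.mul (Circle.exp.continuous.comp ac).continuousOn) GB
  · exact ContinuousOn.congr (f := fun x => gC x * Circle.exp (v x))
      (cC.mul (Circle.exp.continuous.comp vc).continuousOn) GC

/-- `H` behaves like a circle: first cohomology generated by one class -/
def CircleLike (H : Set X) : Prop :=
  ∃ ψ : X → Circle, ∀ f : X → Circle, ContinuousOn f H → ∃ d : ℤ, f / ψ ^ d ∈ Lg H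

theorem no_cover [NormalSpace X] {A B C S : Set X} (hA : IsClosed A) (hB : IsClosed B)
    (hC : IsClosed C) (hcov : A ∪ B ∪ C = univ) (hS : A ∩ B ∩ C = S) (hSc : IsPreconnected S)
    (hX : ∀ G : X → Circle, Continuous G → G ∈ Lg (univ : Set X))
    {fA fB fC : X → Circle} (cA : ContinuousOn fA A) (cB : ContinuousOn fB B)
    (cC : ContinuousOn fC C) (nA : fA ∉ Lg S) (nB : fB ∉ Lg S) (nC : fC ∉ Lg S)
    (hAB : CircleLike (A ∩ B)) (hBC : CircleLike (B ∩ C)) (hCA : CircleLike (C ∩ A)) :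
    False := by
  obtain ⟨ψ1, h1⟩ := hAB
  obtain ⟨ψ2, h2⟩ := hBC
  obtain ⟨ψ3, h3⟩ := hCA
  obtain ⟨a1, ha1⟩ := h1 fA (cA.mono inter_subset_left)
  obtain ⟨b1, hb1⟩ := h1 fB (cB.mono inter_subset_right)
  obtain ⟨b2, hb2⟩ := h2 fB (cB.mono inter_subset_left)
  obtain ⟨c2, hc2⟩ := h2 fC (cC.mono inter_subset_right)
  obtain ⟨c3, hc3⟩ := h3 fC (cC.mono inter_subset_left)
  obtain ⟨a3, ha3⟩ := h3 fA (cA.mono inter_subset_right)
  have sAB : S ⊆ A ∩ B := by rw [← hS]; exact inter_subset_left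
  have sBC : S ⊆ B ∩ C := by rw [← hS]; exact fun x hx => ⟨hx.1.2, hx.2⟩
  have sCA : S ⊆ C ∩ A := by rw [← hS]; exact fun x hx => ⟨hx.2, hx.1.1⟩
  have key : ∀ (H : Set X) (f g ψ : X → Circle) (m n k l : ℤ), f / ψ ^ m ∈ Lg H →
      g / ψ ^ n ∈ Lg H → m * k = n * l → f ^ k / g ^ l ∈ Lg H := by
    intro H f g ψ m n k l hf hg e
    have := (Lg H).div_mem ((Lg H).zpow_mem hf k) ((Lg H).zpow_mem hg l)
    rwa [div_zpow, div_zpow, ← zpow_mul, ← zpow_mul, e, div_div_div_cancel_right] at this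
  have hb1' : b1 ≠ 0 := by
    rintro rfl
    exact nB (Lg_mono sAB (by simpa using hb1))
  have hc2' : c2 ≠ 0 := by
    rintro rfl
    exact nC (Lg_mono sBC (by simpa using hc2))
  have sA : S ⊆ A := sAB.trans inter_subset_left
  have e3 : c3 * (a1 * b2) = a3 * (b1 * c2) := by
    by_contra hne
    have k1 := Lg_mono sAB (key _ _ _ _ _ _ (b1 * c2 * a3) (a1 * c2 * a3) ha1 hb1 (by ring))
    have k2 := Lg_mono sBC (key _ _ _ _ _ _ (a1 * c2 * a3) (a1 * b2 * a3) hb2 hc2 (by ring))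
    have k3 := Lg_mono sCA (key _ _ _ _ _ _ (a1 * b2 * a3) (a1 * b2 * c3) hc3 ha3 (by ring))
    have k4 := (Lg S).mul_mem ((Lg S).mul_mem k1 k2) k3
    rw [div_mul_div_cancel, div_mul_div_cancel, div_eq_mul_inv, ← zpow_sub] at k4
    refine nA (Lg_root hSc (cA.mono sA) ?_ k4)
    intro h0
    apply hne
    linarith
  obtain ⟨G, Gc, hG⟩ := glue hA hB hC hcov hS hSc (gA := fA ^ (b1 * c2)) (gB := fB ^ (a1 * c2))
    (gC := fC ^ (a1 * b2)) (cA.zpow _) (cB.zpow _) (cC.zpow _)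
    (key _ _ _ _ _ _ _ _ ha1 hb1 (by ring)) (key _ _ _ _ _ _ _ _ hb2 hc2 (by ring))
    (key _ _ _ _ _ _ _ _ hc3 ha3 e3)
  refine nA (Lg_root hSc (cA.mono sA) (mul_ne_zero hb1' hc2') ?_)
  exact Lg_congr (Lg_mono (subset_univ S) (hX G Gc)) fun x hx => (hG x (sA hx)).symm

end Pool.Agent.Work.MP_7ba843_gt
end

-- merged part: Pool.Agent.Work.MP_7ba843_gt.N.CvC
section
/-! A homomorphism to the integers that factors through the three sectors factors through the
manifold.

PLAN. `φ i` from `exists_real` for `μ i`; `e ↦ Circle.exp (2π φ i e)` descends (quotient map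
`(CZ i).p`) to a continuous `Z i → Circle`, and through the embedding `h i` to `f i : X → Circle`,
continuous on `range (h i)` (`Function.extend` or `IsEmbedding.toHomeomorph`). On
`range (b i)` the function `e ↦ 2π (φ i (M i e) - φ (i+1) (M' i e))` is invariant under `FW`
(`ρ i` onto, `hμ`), so it descends to a logarithm of `f i / f (i+1)`: membership in `Lg`. `glue`
with `A, B, C = range (h 0), range (h 1), range (h 2)` gives `G = f 0` on `range (h 0)`;
`hom_of_circle` gives `φ, ν`. On the connected `CS.E` the maps `φ ∘ FX` and `2π φ 0 ∘ F 0` lift the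
same circle map, so they differ by a constant and `ν (θ k) = 2π lam k`. About 250 lines. -/

namespace Pool.Agent.Work.MP_7ba843_gt.N

open Set Topology

theorem CvC_desc {X Z Γ R : Type} [TopologicalSpace X] [TopologicalSpace Z] [Group Γ]
    [TopologicalSpace R] [Nonempty R] (C : Cv Z Γ) {h : Z → X} (hh : IsEmbedding h) {φ : C.E → R}
    (hφ : Continuous φ) (hi : ∀ (g : Γ) e, φ (g • e) = φ e) :
    ∃ f : X → R, ContinuousOn f (range h) ∧ ∀ e, f (h (C.p e)) = φ e := by
  have fa : Function.FactorsThrough φ (h ∘ C.p) := fun e e' k => by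
    obtain ⟨g, rfl⟩ := CvA_deck C (hh.injective k)
    exact hi g e'
  have e1 : ∀ e, Function.extend (h ∘ C.p) φ (fun _ => Classical.arbitrary R) (h (C.p e)) = φ e :=
    fun e => fa.extend_apply _ e
  refine ⟨_, continuousOn_iff_continuous_domRestrict.2 ?_, e1⟩
  rw [(hh.toHomeomorph.isQuotientMap.comp C.cov.toIsQuotientMap).continuous_iff]
  exact hφ.congr fun e => (e1 e).symm

theorem lam_factor {X Y W P G FW : Type} [TopologicalSpace X] [TopologicalSpace Y]
    [TopologicalSpace W] [Group P] [Group G] [Group FW] [CompactSpace X] [T2Space X]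
    {Z : Fin 3 → Type} [∀ i, TopologicalSpace (Z i)] [∀ i, CompactSpace (Z i)]
    [∀ i, T2Space (Z i)] {Γ : Fin 3 → Type} [∀ i, Group (Γ i)] {CX : Cv X G} (hX : CX.Univ)
    {CS : Cv Y P} [ConnectedSpace CS.E] {CW : Cv W FW} {CZ : ∀ i, Cv (Z i) (Γ i)}
    {h : ∀ i, Z i → X} {b : Fin 3 → W → X} {j : Y → X} (hh : ∀ i, IsEmbedding (h i))
    (hb : ∀ i, IsEmbedding (b i)) (hj : Continuous j) (hcov : (⋃ i, range (h i)) = univ)
    (hS : (⋂ i, range (h i)) = range j)
    (hr : ∀ i, range (b i) = range (h i) ∩ range (h (i + 1)))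
    {θ : P →* G} {FX : CS.E → CX.E} (lX : Lf CS CX j θ FX)
    {z : ∀ i, Y → Z i} (hz : ∀ i y, h i (z i y) = j y) {ψ : ∀ i, P →* Γ i}
    {F : ∀ i, CS.E → (CZ i).E} (lZ : ∀ i, Lf CS (CZ i) (z i) (ψ i) (F i))
    {ρ : Fin 3 → P →* FW} (hρ : ∀ i, Function.Surjective (ρ i))
    {m : ∀ i, W → Z i} {m' : ∀ i, W → Z (i + 1)} (hm : ∀ i w, h i (m i w) = b i w)
    (hm' : ∀ i w, h (i + 1) (m' i w) = b i w) {η : ∀ i, FW →* Γ i} {η' : ∀ i, FW →* Γ (i + 1)}
    {M : ∀ i, CW.E → (CZ i).E} {M' : ∀ i, CW.E → (CZ (i + 1)).E}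
    (lM : ∀ i, Lf CW (CZ i) (m i) (η i) (M i)) (lM' : ∀ i, Lf CW (CZ (i + 1)) (m' i) (η' i) (M' i))
    (e : ∀ i k, η i (ρ i k) = ψ i k) (e' : ∀ i k, η' i (ρ i k) = ψ (i + 1) k)
    (lam : P →* Multiplicative ℤ) (μ : ∀ i, Γ i →* Multiplicative ℤ)
    (hμ : ∀ i k, μ i (ψ i k) = lam k) :
    ∃ ν : G →* Multiplicative ℝ, ∀ k, ν (θ k) = 1 ↔ lam k = 1 := by
  choose φ c1 c2 using fun i => exists_real (CZ i) (μ i)
  choose f f1 f2 using fun i => CvC_desc (CZ i) (hh i)
    (φ := fun x => Circle.exp (2 * Real.pi * φ i x)) (by have := c1 i; fun_prop) fun g x => by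
      rw [c2, mul_add, Circle.exp_add, mul_comm (2 * Real.pi), Circle.exp_int_mul_two_pi, one_mul]
  have lg : ∀ i, f i / f (i + 1) ∈ Lg (range (h i) ∩ range (h (i + 1))) := fun i => by
    obtain ⟨u, u1, u2⟩ := CvC_desc CW (hb i)
      (φ := fun x => 2 * Real.pi * φ i (M i x) - 2 * Real.pi * φ (i + 1) (M' i x))
      (((c1 i).comp (lM i).cont).const_mul _ |>.sub (((c1 _).comp (lM' i).cont).const_mul _))
      fun g x => by
        obtain ⟨k, rfl⟩ := hρ i g
        rw [(lM i).eqv, (lM' i).eqv, c2, c2, e, e', hμ, hμ]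
        ring
    rw [← hr]
    refine ⟨u, u1, ?_⟩
    rintro _ ⟨w, rfl⟩
    obtain ⟨x, rfl⟩ := CW.cov.surjective w
    rw [u2, Circle.exp_sub, ← f2, ← f2, (lM i).proj, (lM' i).proj, hm, hm']
    rfl
  have cl : ∀ i, IsClosed (range (h i)) := fun i => (isCompact_range (hh i).continuous).isClosed
  have pc : IsPreconnected (range j) := by
    rw [← CS.cov.surjective.range_comp]
    exact isPreconnected_range (hj.comp CS.cov.continuous)
  obtain ⟨Gc, g1, g2⟩ := glue (cl 0) (cl 1) (cl 2) (S := range j) (by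
      rw [← hcov]
      ext x
      simp [Fin.exists_fin_succ, or_assoc]) (by
      rw [← hS]
      ext x
      simp [Fin.forall_fin_succ, and_assoc]) pc (f1 0) (f1 1) (f1 2) (lg 0) (lg 1) (lg 2)
  obtain ⟨u, ν, u1, u2, u3⟩ := hom_of_circle hX g1
  have one : ∀ x, Circle.exp (u (FX x) - 2 * Real.pi * φ 0 (F 0 x)) = 1 := fun x => by
    rw [Circle.exp_sub, u2, lX.proj, ← f2, (lZ 0).proj, hz, g2 _ ⟨_, hz 0 _⟩, div_self']
  refine ⟨ν, fun k => ?_⟩
  obtain ⟨x⟩ : Nonempty CS.E := inferInstance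
  have k1 := Circle.isCoveringMap_exp.const_of_comp
    ((u1.comp lX.cont).sub (((c1 0).comp (lZ 0).cont).const_mul (2 * Real.pi)))
    (fun a a' => (one a).trans (one a').symm) (k • x) x
  simp only [Pi.sub_apply, Function.comp, lX.eqv, (lZ 0).eqv, u3, c2, hμ] at k1
  have k2 : (ν (θ k)).toAdd = 2 * Real.pi * ((lam k).toAdd : ℤ) := by linarith
  rw [← toAdd_eq_zero, ← toAdd_eq_zero, k2]
  simp [Real.pi_ne_zero]

end Pool.Agent.Work.MP_7ba843_gt.N
end

-- merged part: Pool.Agent.Work.MP_7ba843_gt.N.NielB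
section
/-! Nielsen reduction.

PLAN. From the two moves derive: for `i ≠ j` and signs, `P u` gives
`P (update u i (val u (i, ε) * val u (j, δ)))` and `P (update u i (val u (j, δ) * val u (i, ε)))`
(invert `j`, multiply, invert back). Let `ρ l = Nat.ofDigits (2k+1) (l.map code)` with an injective
`code` of letters below `2k+1` (`Nat.ofDigits_append`; injective on words of equal length),
`Φ x = ρ (x.toWord.take (norm x / 2)) + ρ (x⁻¹.toWord.take (norm x / 2))` (invariant under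
inversion). Take `u` with `P u` minimal for `(∑ norm, ∑ Φ)` in the lexicographic order
(`WellFounded.min` or strong induction). If no `u i = 1`, check the hypothesis of
`free_of_cancel`: for `s.1 ≠ s'.1` minimality gives `norm (xy) ≥ norm x, norm y`; for `s = s'`
one has `norm (x x) > norm x` (`x ≠ 1`; from `exists_cancel`: if `2 |C| ≥ |x|` the middle of the
reduced word cancels; or use `reduce_flatten_replicate_succ`). If the strict inequality fails, all
are equalities, `s.1 ≠ s'.1 ≠ s''.1`, `y = a b⁻¹` with `|a| = |b|`, `x = x' a⁻¹`, `z = b z'`,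
`|z'| ≥ |b|`, `a ≠ b`; if `ρ a < ρ b` replace `z` by `y z = a z'` (same norm, smaller `Φ`),
otherwise do the same for `(y⁻¹, x⁻¹)`. About 300 lines. -/

namespace Pool.Agent.Work.MP_7ba843_gt.N

section Aux

open FreeGroup

variable {α : Type} [Fintype α] [DecidableEq α]

/-- a word read as a number -/
noncomputable def NielB_rho : List (α × Bool) → ℕ
  | [] => 0
  | a :: l => Fintype.equivFin (α × Bool) a + Fintype.card (α × Bool) * NielB_rho l

omit [DecidableEq α] in
theorem NielB_rho_append (a w : List (α × Bool)) :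
    NielB_rho (a ++ w) = NielB_rho a + Fintype.card (α × Bool) ^ a.length * NielB_rho w := by
  induction a with
  | nil => simp [NielB_rho]
  | cons c a ih =>
    simp only [List.cons_append, NielB_rho, ih, List.length_cons]
    ring

omit [DecidableEq α] in
theorem NielB_rho_inj (a : List (α × Bool)) :
    ∀ b : List (α × Bool), a.length = b.length → NielB_rho a = NielB_rho b → a = b := by
  induction a with
  | nil => exact fun b h _ => (List.length_eq_zero_iff.1 h.symm).symm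
  | cons c a ih =>
    rintro (_ | ⟨d, b⟩) h e
    · exact absurd h (Nat.succ_ne_zero _)
    have h1 := (Fintype.equivFin (α × Bool) c).2
    have h2 := (Fintype.equivFin (α × Bool) d).2
    simp only [NielB_rho] at e
    have e1 := congrArg (· % Fintype.card (α × Bool)) e
    simp only [Nat.add_mul_mod_self_left, Nat.mod_eq_of_lt h1, Nat.mod_eq_of_lt h2] at e1
    rw [e1, Nat.add_left_cancel_iff, Nat.mul_left_cancel_iff (by omega)] at e
    rw [(Fintype.equivFin (α × Bool)).injective (Fin.ext e1), ih b (Nat.succ.inj h) e]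

/-- the second weight -/
noncomputable def NielB_phi (x : FreeGroup α) : ℕ :=
  NielB_rho (x.toWord.take (x.norm / 2)) + NielB_rho (x⁻¹.toWord.take (x.norm / 2))

theorem NielB_phi_inv (x : FreeGroup α) : NielB_phi x⁻¹ = NielB_phi x := by
  rw [NielB_phi, NielB_phi, inv_inv, norm_inv_eq, add_comm]

theorem NielB_key {z w : FreeGroup α} {a b c : List (α × Bool)} (hz : z.toWord = b ++ c)
    (hw : w.toWord = a ++ c) (h1 : a.length = b.length) (h2 : b.length ≤ c.length)
    (h : NielB_rho a < NielB_rho b) : NielB_phi w < NielB_phi z := by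
  have k : ∀ d : List (α × Bool), d.length = b.length →
      NielB_rho ((d ++ c).take ((b.length + c.length) / 2)) +
        NielB_rho ((invRev (d ++ c)).take ((b.length + c.length) / 2)) =
      NielB_rho d + (Fintype.card (α × Bool) ^ b.length *
        NielB_rho (c.take ((b.length + c.length) / 2 - b.length)) +
        NielB_rho ((invRev c).take ((b.length + c.length) / 2))) := fun d hd => by
    rw [invRev_append, List.take_append_of_le_length (l₁ := invRev c) (by simp; omega),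
      List.take_append, List.take_of_length_le (by omega), NielB_rho_append, hd, add_assoc]
  rw [NielB_phi, NielB_phi, toWord_inv, toWord_inv, FreeGroup.norm, FreeGroup.norm, hz, hw,
    List.length_append, List.length_append, h1, k a h1, k b rfl]
  exact Nat.add_lt_add_right h _

theorem NielB_three {x y z : FreeGroup α} (hy : y ≠ 1) (h1 : (x * y).norm = x.norm)
    (h2 : y.norm ≤ (x * y).norm) (h3 : (y * z).norm = z.norm) (h4 : y.norm ≤ (y * z).norm) :
    NielB_phi (y * z) < NielB_phi z ∨ NielB_phi (x * y) < NielB_phi x := by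
  obtain ⟨A, a, B, e1, e2, e3⟩ := exists_cancel x y
  obtain ⟨A', b, B', e4, e5, e6⟩ := exists_cancel y z
  have l := congrArg List.length (e2.symm.trans e4)
  rw [FreeGroup.norm, FreeGroup.norm, e3] at h1 h2
  rw [FreeGroup.norm, FreeGroup.norm, e6] at h3 h4
  rw [e1] at h1
  rw [e2] at h2
  rw [e5] at h3
  rw [e4] at h4
  simp only [List.length_append, invRev_length] at l h1 h2 h3 h4
  obtain ⟨rfl, rfl⟩ := List.append_inj (e2.symm.trans e4) (by omega)
  rw [invRev_length] at h1 h2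
  rcases lt_trichotomy (NielB_rho a) (NielB_rho b) with h | h | h
  · exact Or.inl (NielB_key e5 e6 (by omega) (by omega) h)
  · obtain rfl := NielB_rho_inj a b (by omega) h
    refine absurd ?_ hy
    rw [← mk_toWord (x := y), e2, ← mul_mk, ← inv_mk, mul_inv_cancel]
  · refine Or.inr ?_
    rw [← NielB_phi_inv x, ← NielB_phi_inv (x * y)]
    refine NielB_key (b := a) (a := b) (c := invRev A) ?_ ?_ (by omega) (by simp; omega) h
    · rw [toWord_inv, e1, invRev_append, invRev_invRev]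
    · rw [toWord_inv, e3, invRev_append, invRev_invRev]

omit [Fintype α] in
theorem NielB_sq {x : FreeGroup α} (hx : x ≠ 1) : x.norm < (x * x).norm := by
  obtain ⟨A, C, B, e1, e2, e3⟩ := exists_cancel x x
  have l := congrArg List.length (e1.symm.trans e2)
  rw [FreeGroup.norm, FreeGroup.norm, e3, e1]
  simp only [List.length_append, invRev_length] at l ⊢
  by_contra c
  obtain ⟨D, rfl⟩ : A <+: C := List.prefix_of_prefix_length_le ⟨_, e1.symm⟩ ⟨_, e2.symm⟩ (by omega)
  rw [e1, List.append_assoc, List.append_cancel_left_eq, invRev_append] at e2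
  obtain ⟨-, rfl⟩ := List.append_inj' e2 (by simp at l ⊢; omega)
  refine hx ((pow_eq_one_iff_left two_ne_zero).1 ?_)
  rw [sq, ← mk_toWord (x := x * x), e3, ← mul_mk, ← inv_mk, mul_inv_cancel]

end Aux

section Moves

variable {ι G : Type} [Group G]

theorem NielB_val_not (u : ι → G) (s : ι × Bool) : val u (s.1, !s.2) = (val u s)⁻¹ := by
  rcases s with ⟨i, _ | _⟩ <;> simp [val]

theorem NielB_val (φ : G → ℕ) (h : ∀ x, φ x⁻¹ = φ x) (u : ι → G) (s : ι × Bool) :
    φ (val u s) = φ (u s.1) := by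
  rcases s with ⟨i, _ | _⟩ <;> simp [val, h]

variable [DecidableEq ι]

theorem NielB_move {P : (ι → G) → Prop} (hinv : ∀ u i, P u → P (Function.update u i (u i)⁻¹))
    (hmul : ∀ u i j, i ≠ j → P u → P (Function.update u i (u i * u j))) {u : ι → G} (h : P u)
    {s s' : ι × Bool} (hs : s.1 ≠ s'.1) : P (Function.update u s.1 (val u s * val u s')) := by
  have P1 : ∀ u (s : ι × Bool), P u → P (Function.update u s.1 (val u s)) := by
    rintro u ⟨i, _ | _⟩ h
    · exact hinv u i h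
    · exact (Function.update_eq_self i u).symm ▸ h
  have := P1 _ s' (hmul _ _ _ hs (P1 _ s' (P1 u s h)))
  refine (congrArg P (funext fun l => ?_)).mp this
  obtain ⟨j, ε⟩ := s'
  have hs' : j ≠ s.1 := Ne.symm hs
  by_cases a : l = j
  · subst a
    cases ε <;> simp [val, hs']
  by_cases b : l = s.1
  · subst b
    cases ε <;> simp [val, hs', a]
  · simp [a, b]

omit [Group G] in
theorem NielB_sum [Fintype ι] (φ : G → ℕ) (u : ι → G) (i : ι) (w : G) :
    ∑ j, φ (Function.update u i w j) + φ (u i) = ∑ j, φ (u j) + φ w := by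
  rw [← Finset.add_sum_erase _ _ (Finset.mem_univ i),
    ← Finset.add_sum_erase _ (fun j => φ (u j)) (Finset.mem_univ i), Function.update_self,
    Finset.sum_congr rfl fun j hj => by rw [Function.update_of_ne (Finset.ne_of_mem_erase hj)]]
  omega

end Moves

theorem nielsen {k : ℕ} {ι : Type} [Fintype ι] [DecidableEq ι]
    (P : (ι → FreeGroup (Fin k)) → Prop)
    (hinv : ∀ u i, P u → P (Function.update u i (u i)⁻¹))
    (hmul : ∀ u i j, i ≠ j → P u → P (Function.update u i (u i * u j)))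
    {u₀ : ι → FreeGroup (Fin k)} (h₀ : P u₀) :
    ∃ u, P u ∧ ((∃ i, u i = 1) ∨ Function.Injective (FreeGroup.lift u)) := by
  obtain ⟨u₁, h₁, m₁⟩ := (measure fun u : ι → FreeGroup (Fin k) => ∑ j, (u j).norm).wf.has_min
    {u | P u} ⟨u₀, h₀⟩
  obtain ⟨u, ⟨hu, e⟩, m₂⟩ :=
    (measure fun u : ι → FreeGroup (Fin k) => ∑ j, NielB_phi (u j)).wf.has_min
      {u | P u ∧ ∑ j, (u j).norm = ∑ j, (u₁ j).norm} ⟨u₁, h₁, rfl⟩
  refine ⟨u, hu, or_iff_not_imp_left.2 fun hne => free_of_cancel u ?_⟩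
  have vn := NielB_val FreeGroup.norm (fun _ => FreeGroup.norm_inv_eq) u
  have vp := NielB_val NielB_phi NielB_phi_inv u
  have nz : ∀ s, val u s ≠ 1 := fun s h => hne ⟨s.1, FreeGroup.norm_eq_zero.1 (by
    rw [← vn, h, FreeGroup.norm_one])⟩
  have M : ∀ s s' : ι × Bool, s.1 ≠ s'.1 → (val u s).norm ≤ (val u s * val u s').norm ∧
      ((val u s * val u s').norm = (val u s).norm →
        NielB_phi (val u s) ≤ NielB_phi (val u s * val u s')) := fun s s' hs => by
    have p := NielB_move hinv hmul hu hs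
    have a := NielB_sum FreeGroup.norm u s.1 (val u s * val u s')
    have b := NielB_sum NielB_phi u s.1 (val u s * val u s')
    have c : ¬ ∑ j, (Function.update u s.1 (val u s * val u s') j).norm < ∑ j, (u₁ j).norm :=
      m₁ _ p
    rw [vn s, vp s]
    refine ⟨by omega, fun q => ?_⟩
    have d : ¬ ∑ j, NielB_phi (Function.update u s.1 (val u s * val u s') j) <
      ∑ j, NielB_phi (u j) := m₂ _ ⟨p, by omega⟩
    omega
  have M' : ∀ s s' : ι × Bool, s.1 ≠ s'.1 → (val u s').norm ≤ (val u s * val u s').norm ∧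
      ((val u s * val u s').norm = (val u s').norm →
        NielB_phi (val u s') ≤ NielB_phi (val u s * val u s')) := fun s s' hs => by
    have := M (s'.1, !s'.2) (s.1, !s.2) hs.symm
    rwa [NielB_val_not, NielB_val_not, ← mul_inv_rev, FreeGroup.norm_inv_eq, FreeGroup.norm_inv_eq,
      NielB_phi_inv, NielB_phi_inv] at this
  have D : ∀ s s' : ι × Bool, s' ≠ (s.1, !s.2) → s.1 ≠ s'.1 ∨ s = s' := by
    rintro ⟨i, a⟩ ⟨j, b⟩ h
    refine or_iff_not_imp_left.2 fun q => ?_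
    obtain rfl : i = j := not_not.1 q
    cases a <;> cases b
    exacts [rfl, absurd rfl h, absurd rfl h, rfl]
  intro s s' s'' a b
  rcases D s s' a with a | rfl <;> rcases D _ s'' b with b | rfl
  · by_contra c
    obtain ⟨a1, a2⟩ := M s s' a
    obtain ⟨b1, b2⟩ := M' s' s'' b
    have e1 : (val u s * val u s').norm = (val u s).norm := by omega
    have e2 : (val u s' * val u s'').norm = (val u s'').norm := by omega
    exact (NielB_three (nz s') e1 (M' s s' a).1 e2 (M s' s'' b).1).elim (not_lt.2 (b2 e2))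
      (not_lt.2 (a2 e1))
  · exact Nat.add_lt_add_of_le_of_lt (M s s' a).1 (NielB_sq (nz s'))
  · exact Nat.add_lt_add_of_lt_of_le (NielB_sq (nz s)) (M' s s'' b).1
  · exact Nat.add_lt_add (NielB_sq (nz s)) (NielB_sq (nz s))

end Pool.Agent.Work.MP_7ba843_gt.N
end

-- merged part: Pool.Agent.Work.MP_7ba843_gt.N.Sys
section
/-! Moves on surface systems.

PLAN. All moves are substitutions given by words, natural in the group, with an inverse
substitution, which keep the product of the `cm`. For `univ`: split the target list at the same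
positions (`List.take`, `List.drop`, or induction on `A`), apply the inverse substitution to the
target, get `f`, then `f` of the new pairs is the substitution of the inverse substitution. For `gen`:
old generators are words in the new ones (`Subgroup.closure_le`).
swap: `p' = (k⁻¹ p.1 k, k⁻¹ p.2 k)`, `k = cm q`. rot: `(x, t) ↦ (t⁻¹, t⁻¹ x t)`, inverse
`(x, t) ↦ (x⁻¹ t x, x⁻¹)`; inv is rot twice. slide: with `k = (x₁ x₂)⁻¹ t₁ (x₁ x₂)`,
`M = x₁⁻¹ t₁ x₁`: `p' = (x₁ x₂, t₁)`, `q' = (k⁻¹ x₂ k, k⁻¹ (t₂ M⁻¹) k)`; inverse: `t₁ = t₁'`,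
`k = x₁'⁻¹ t₁' x₁'`, `x₂ = k x₂' k⁻¹`, `x₁ = x₁' x₂⁻¹`, `t₂ = k t₂' k⁻¹ M`. About 200 lines. -/

namespace Pool.Agent.Work.MP_7ba843_gt.N

variable {P : Type} [Group P]

theorem Sys_rel (A B : List (P × P)) : rel (A ++ B) = rel A * rel B := by
  simp only [rel, List.map_append, List.prod_append]

theorem Sys_move {A M M' B : List (P × P)} (h : IsSys (A ++ (M ++ B))) (hl : M'.length = M.length)
    (hr : rel M' = rel M)
    (hg : ∀ H : Subgroup P, (∀ p ∈ M', p.1 ∈ H ∧ p.2 ∈ H) → ∀ p ∈ M, p.1 ∈ H ∧ p.2 ∈ H)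
    (hu : ∀ (E : Type) [Group E] (N' : List (E × E)), N'.length = M.length →
      ∃ N : List (E × E), N.length = M.length ∧ rel N = rel N' ∧
        ∀ f : P →* E, M.map (Prod.map f f) = N → M'.map (Prod.map f f) = N') :
    IsSys (A ++ (M' ++ B)) := by
  refine ⟨?_, top_le_iff.1 (h.gen.ge.trans ((Subgroup.closure_le _).2 ?_)), fun E _ L hL h1 => ?_⟩
  · rw [← h.rel_eq, Sys_rel, Sys_rel, Sys_rel, Sys_rel, hr]
  · have k : ∀ p ∈ A ++ (M' ++ B), p.1 ∈ Subgroup.closure (gens (A ++ (M' ++ B))) ∧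
        p.2 ∈ Subgroup.closure (gens (A ++ (M' ++ B))) := fun p hp =>
      ⟨Subgroup.subset_closure ⟨p, hp, .inl rfl⟩, Subgroup.subset_closure ⟨p, hp, .inr rfl⟩⟩
    have k' : ∀ p ∈ A ++ (M ++ B), p.1 ∈ Subgroup.closure (gens (A ++ (M' ++ B))) ∧
        p.2 ∈ Subgroup.closure (gens (A ++ (M' ++ B))) := fun p hp => by
      rcases List.mem_append.1 hp with hp | hp
      · exact k p (List.mem_append_left _ hp)
      rcases List.mem_append.1 hp with hp | hp
      · exact hg _ (fun q hq => k q (List.mem_append_right _ (List.mem_append_left _ hq))) p hp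
      · exact k p (List.mem_append_right _ (List.mem_append_right _ hp))
    rintro x ⟨p, hp, rfl | rfl⟩
    exacts [(k' p hp).1, (k' p hp).2]
  · obtain ⟨A', N', B', rfl, l1, l2⟩ : ∃ A' N' B', L = A' ++ (N' ++ B') ∧ A'.length = A.length ∧
        N'.length = M.length := by
      simp only [List.length_append] at hL
      refine ⟨L.take A.length, (L.drop A.length).take M.length, (L.drop A.length).drop M.length,
        by rw [List.take_append_drop, List.take_append_drop], ?_, ?_⟩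
      · rw [List.length_take]
        omega
      · rw [List.length_take, List.length_drop]
        omega
    obtain ⟨N, l3, r, hN⟩ := hu E N' l2
    obtain ⟨f, hf⟩ := h.univ E (A' ++ (N ++ B'))
      (by simp only [List.length_append] at hL ⊢; omega)
      (by rw [← h1, Sys_rel, Sys_rel, Sys_rel, Sys_rel, r])
    rw [List.map_append, List.map_append] at hf
    obtain ⟨e1, e2⟩ := List.append_inj hf (by rw [List.length_map, l1])
    obtain ⟨e2, e3⟩ := List.append_inj e2 (by rw [List.length_map, l3])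
    exact ⟨f, by rw [List.map_append, List.map_append, e1, hN f e2, e3]⟩

theorem IsSys.swap {A B : List (P × P)} {p q : P × P} (h : IsSys (A ++ p :: q :: B)) :
    ∃ p', IsSys (A ++ q :: p' :: B) ∧ ∀ (E : Type) [Group E] (f : P →* E), f q.2 = 1 →
      f p'.1 = f p.1 ∧ f p'.2 = f p.2 := by
  refine ⟨((cm q)⁻¹ * p.1 * cm q, (cm q)⁻¹ * p.2 * cm q),
    Sys_move (M := [p, q]) (M' := [q, _]) h rfl ?_ (fun H k => ?_) fun E _ N' l => ?_,
    fun E _ f e => by simp [cm, e]⟩
  · simp only [rel, cm, List.map, List.prod_cons]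
    group
  · simp only [List.forall_mem_cons] at k ⊢
    obtain ⟨⟨a, b⟩, ⟨c, d⟩, -⟩ := k
    have k : cm q ∈ H := mul_mem (mul_mem (mul_mem (inv_mem b) (inv_mem a)) b) a
    rw [H.mul_mem_cancel_right k, H.mul_mem_cancel_left (inv_mem k)] at c d
    exact ⟨⟨c, d⟩, ⟨a, b⟩, by simp⟩
  · obtain ⟨a, b, rfl⟩ := List.length_eq_two.1 l
    refine ⟨[(cm a * b.1 * (cm a)⁻¹, cm a * b.2 * (cm a)⁻¹), a], rfl, ?_, fun f e => ?_⟩
    · simp only [rel, cm, List.map, List.prod_cons]
      group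
    · simp only [List.map, List.cons.injEq, Prod.ext_iff, Prod.map_fst, Prod.map_snd, cm, map_mul,
        map_inv, and_true] at e ⊢
      obtain ⟨⟨e1, e2⟩, e3, e4⟩ := e
      rw [e1, e2, e3, e4]
      refine ⟨⟨rfl, rfl⟩, ?_, ?_⟩ <;> group

theorem IsSys.rot {B : List (P × P)} {p : P × P} (h : IsSys (p :: B)) :
    IsSys ((p.2⁻¹, p.2⁻¹ * p.1 * p.2) :: B) := by
  refine Sys_move (A := []) (M := [p]) (M' := [_]) h rfl ?_ (fun H k => ?_) fun E _ N' l => ?_
  · simp only [rel, cm, List.map, List.prod_cons]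
    group
  · simp only [List.forall_mem_cons] at k ⊢
    obtain ⟨⟨a, b⟩, -⟩ := k
    rw [H.mul_mem_cancel_right (inv_mem_iff.1 a), H.mul_mem_cancel_left a] at b
    exact ⟨⟨b, inv_mem_iff.1 a⟩, by simp⟩
  · obtain ⟨a, rfl⟩ := List.length_eq_one_iff.1 l
    refine ⟨[(a.1⁻¹ * a.2 * a.1, a.1⁻¹)], rfl, ?_, fun f e => ?_⟩
    · simp only [rel, cm, List.map, List.prod_cons]
      group
    · simp only [List.map, List.cons.injEq, Prod.ext_iff, Prod.map_fst, Prod.map_snd, map_mul,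
        map_inv, and_true] at e ⊢
      rw [e.1, e.2]
      constructor <;> group

theorem IsSys.inv {B : List (P × P)} {p : P × P} (h : IsSys (p :: B)) :
    ∃ p', IsSys (p' :: B) ∧ ∀ (E : Type) [Group E] (f : P →* E),
      (f p'.2 = 1 ↔ f p.2 = 1) ∧ (f p.2 = 1 → f p'.1 = (f p.1)⁻¹) := by
  refine ⟨_, h.rot.rot, fun E _ f => ⟨?_, fun e => by simp [e]⟩⟩
  rw [map_mul, map_mul, map_inv, mul_assoc, inv_mul_eq_one, right_eq_mul, map_inv, inv_eq_one]

theorem IsSys.slide {B : List (P × P)} {p q : P × P} (h : IsSys (p :: q :: B)) :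
    ∃ p' q', IsSys (p' :: q' :: B) ∧ ∀ (E : Type) [Group E] (f : P →* E),
      ((f p'.2 = 1 ∧ f q'.2 = 1) ↔ (f p.2 = 1 ∧ f q.2 = 1)) ∧
      (f p.2 = 1 → f q.2 = 1 → f p'.1 = f p.1 * f q.1 ∧ f q'.1 = f q.1) := by
  obtain ⟨k, hk⟩ : ∃ k, k = (p.1 * q.1)⁻¹ * p.2 * (p.1 * q.1) := ⟨_, rfl⟩
  refine ⟨(p.1 * q.1, p.2), (k⁻¹ * q.1 * k, k⁻¹ * (q.2 * (p.1⁻¹ * p.2 * p.1)⁻¹) * k),
    Sys_move (A := []) (M := [p, q]) (M' := [_, _]) h rfl ?_ (fun H k => ?_) fun E _ N' l => ?_,
    fun E _ f => ⟨and_congr_right fun e : f p.2 = 1 => by simp [hk, e],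
      fun e e' => by simp [hk, e]⟩⟩
  · simp only [rel, cm, List.map, List.prod_cons, hk]
    group
  · simp only [List.forall_mem_cons] at k ⊢
    obtain ⟨⟨a, b⟩, ⟨c, d⟩, -⟩ := k
    have k := hk ▸ mul_mem (mul_mem (inv_mem a) b) a
    rw [H.mul_mem_cancel_right k, H.mul_mem_cancel_left (inv_mem k)] at c d
    rw [H.mul_mem_cancel_right c] at a
    rw [H.mul_mem_cancel_right (inv_mem (mul_mem (mul_mem (inv_mem a) b) a))] at d
    exact ⟨⟨a, b⟩, ⟨c, d⟩, by simp⟩
  · obtain ⟨a, b, rfl⟩ := List.length_eq_two.1 l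
    obtain ⟨c, hc⟩ : ∃ c, c = a.1⁻¹ * a.2 * a.1 := ⟨_, rfl⟩
    obtain ⟨x, hx⟩ : ∃ x, x = a.1 * (c * b.1 * c⁻¹)⁻¹ := ⟨_, rfl⟩
    refine ⟨[(x, a.2), (c * b.1 * c⁻¹, c * b.2 * c⁻¹ * (x⁻¹ * a.2 * x))], rfl, ?_, fun f e => ?_⟩
    · simp only [rel, cm, List.map, List.prod_cons, hx, hc]
      group
    · simp only [List.map, List.cons.injEq, Prod.ext_iff, Prod.map_fst, Prod.map_snd, hk, map_mul,
        map_inv, and_true] at e ⊢
      obtain ⟨⟨e1, e2⟩, e3, e4⟩ := e
      rw [e1, e2, e3, e4, hx, hc]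
      refine ⟨⟨?_, rfl⟩, ?_, ?_⟩ <;> group

theorem IsSys.map {P' : Type} [Group P'] {L : List (P × P)} (h : IsSys L) (e : P ≃* P') :
    IsSys (L.map (Prod.map e e)) := by
  refine ⟨?_, ?_, fun E _ L' l r => ?_⟩
  · rw [← map_one e, ← h.rel_eq, rel, rel, map_list_prod, List.map_map, List.map_map]
    exact congrArg (fun g => (L.map g).prod) (funext fun p => by simp [cm])
  · rw [← Subgroup.map_top_of_surjective (e : P →* P') e.surjective, ← h.gen,
      MonoidHom.map_closure]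
    refine congrArg _ (Set.ext fun x => ⟨?_, ?_⟩)
    · rintro ⟨_, hq, hx⟩
      obtain ⟨p, hp, rfl⟩ := List.mem_map.1 hq
      rcases hx with rfl | rfl
      exacts [⟨p.1, ⟨p, hp, .inl rfl⟩, rfl⟩, ⟨p.2, ⟨p, hp, .inr rfl⟩, rfl⟩]
    · rintro ⟨_, ⟨p, hp, rfl | rfl⟩, rfl⟩
      exacts [⟨_, List.mem_map_of_mem hp, .inl rfl⟩, ⟨_, List.mem_map_of_mem hp, .inr rfl⟩]
  · obtain ⟨f, hf⟩ := h.univ E L' (by rw [l, List.length_map]) r
    refine ⟨f.comp (e.symm : P' →* P), ?_⟩
    rw [← hf, List.map_map]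
    exact congrArg (fun g => L.map g) (funext fun p => by simp [Prod.ext_iff])

end Pool.Agent.Work.MP_7ba843_gt.N
end

-- merged part: Pool.Agent.Work.MP_7ba843_gt.N.NielS
section
/-! Nielsen reduction of surface systems.

PLAN. `Q ys := ∃ L, IsSys L ∧ L.length = L₀.length ∧ (∀ E f, Kill f L ↔ Kill f L₀) ∧
L.map (fun p => ψ p.1) = ys`. `Q` is closed under adjacent swaps in any context (`IsSys.swap`),
hence under `List.Perm` (induction on the permutation, generalising a left context), under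
inversion of the head and under `x :: y :: l ↦ x * y :: y :: l`. Put `P u := Q (List.ofFn u)` for
`u : Fin L₀.length → _`; for `i ≠ j` there is `l` with `List.ofFn (update u i y) ~ y :: u j :: l`
for all `y`. Apply `nielsen`. First case: permute `1` to the head. Second case: by `gen` every
`γ` has a word `w : FreeGroup (Fin _)` with `f γ = lift (fun i => f (L.get i).1) w` for all `f`
killing `L` (`Subgroup.closure_induction`; do it for the pair `ψ`, `f`). About 200 lines. -/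

namespace Pool.Agent.Work.MP_7ba843_gt.N

section
variable {P F : Type} [Group P] [Group F]

/-- The lists of values of systems with the same meridian subgroup. -/
def NielS_Q (L₀ : List (P × P)) (ψ : P →* F) (ys : List F) : Prop :=
  ∃ L, IsSys L ∧ (∀ (E : Type) [Group E] (f : P →* E), Kill f L ↔ Kill f L₀) ∧
    L.map (fun p => ψ p.1) = ys

variable {L₀ : List (P × P)} {ψ : P →* F}

theorem NielS_swap (hψ : Kill ψ L₀) {A B : List F} {x y : F} (h : NielS_Q L₀ ψ (A ++ x :: y :: B)) :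
    NielS_Q L₀ ψ (A ++ y :: x :: B) := by
  obtain ⟨L, h1, h2, h3⟩ := h
  obtain ⟨A', M, rfl, rfl, h4⟩ := List.map_eq_append_iff.1 h3
  obtain ⟨p, M', rfl, rfl, h5⟩ := List.map_eq_cons_iff.1 h4
  obtain ⟨q, B', rfl, rfl, rfl⟩ := List.map_eq_cons_iff.1 h5
  obtain ⟨p', a1, a2⟩ := h1.swap
  refine ⟨_, a1, fun E _ f => Iff.trans ?_ (h2 E f), ?_⟩
  · simp only [Kill, List.forall_mem_append, List.forall_mem_cons]
    exact ⟨fun ⟨a, b, c, d⟩ => ⟨a, (a2 E f b).2 ▸ c, b, d⟩,
      fun ⟨a, b, c, d⟩ => ⟨a, c, (a2 E f c).2.trans b, d⟩⟩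
  · simp [(a2 F ψ ((h2 F ψ).2 hψ q (by simp))).1]

theorem NielS_perm (hψ : Kill ψ L₀) {l l' : List F} (h : l.Perm l') :
    ∀ A, NielS_Q L₀ ψ (A ++ l) → NielS_Q L₀ ψ (A ++ l') := by
  induction h with
  | nil => exact fun _ h => h
  | cons x _ ih => exact fun A h => by simpa using ih (A ++ [x]) (by simpa using h)
  | swap x y l => exact fun A h => NielS_swap hψ h
  | trans _ _ ih ih' => exact fun A h => ih' A (ih A h)

theorem NielS_inv (hψ : Kill ψ L₀) {B : List F} {x : F} (h : NielS_Q L₀ ψ (x :: B)) :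
    NielS_Q L₀ ψ (x⁻¹ :: B) := by
  obtain ⟨L, h1, h2, h3⟩ := h
  obtain ⟨p, B', rfl, rfl, rfl⟩ := List.map_eq_cons_iff.1 h3
  obtain ⟨p', a1, a2⟩ := h1.inv
  refine ⟨_, a1, fun E _ f => Iff.trans ?_ (h2 E f), ?_⟩
  · simp only [Kill, List.forall_mem_cons, (a2 E f).1]
  · simp [(a2 F ψ).2 ((h2 F ψ).2 hψ p (by simp))]

theorem NielS_mul (hψ : Kill ψ L₀) {B : List F} {x y : F} (h : NielS_Q L₀ ψ (x :: y :: B)) :
    NielS_Q L₀ ψ ((x * y) :: y :: B) := by
  obtain ⟨L, h1, h2, h3⟩ := h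
  obtain ⟨p, M', rfl, rfl, h5⟩ := List.map_eq_cons_iff.1 h3
  obtain ⟨q, B', rfl, rfl, rfl⟩ := List.map_eq_cons_iff.1 h5
  obtain ⟨p', q', a1, a2⟩ := h1.slide
  refine ⟨_, a1, fun E _ f => Iff.trans ?_ (h2 E f), ?_⟩
  · simp only [Kill, List.forall_mem_cons, ← and_assoc, (a2 E f).1]
  · have := (a2 F ψ).2 ((h2 F ψ).2 hψ p (by simp)) ((h2 F ψ).2 hψ q (by simp))
    simp [this.1, this.2]

theorem NielS_upd {X : Type} {n : ℕ} (u : Fin n → X) (i : Fin n) (y : X) :
    (List.ofFn (Function.update u i y)).Perm (y :: ((List.finRange n).erase i).map u) := by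
  rw [List.ofFn_eq_map]
  refine ((List.perm_cons_erase (List.mem_finRange i)).map _).trans (List.Perm.of_eq ?_)
  rw [List.map_cons, Function.update_self, List.map_congr_left fun j hj =>
    Function.update_of_ne ((List.nodup_finRange n).mem_erase_iff.1 hj).1 y u]

end

theorem niel_sys {P : Type} [Group P] {k : ℕ} {L₀ : List (P × P)} (h₀ : IsSys L₀)
    (ψ : P →* FreeGroup (Fin k)) (hψ : Kill ψ L₀) :
    (∃ c s L, IsSys ((c, s) :: L) ∧ L.length + 1 = L₀.length ∧ ψ c = 1 ∧ ψ s = 1) ∨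
      ∀ (E : Type) [Group E] (f : P →* E), Kill f L₀ → ∀ γ, ψ γ = 1 → f γ = 1 := by
  have pm : ∀ {l l'}, l.Perm l' → NielS_Q L₀ ψ l → NielS_Q L₀ ψ l' := fun h => NielS_perm hψ h []
  have hd : ∀ (u : Fin L₀.length → _) i, NielS_Q L₀ ψ (List.ofFn u) →
      NielS_Q L₀ ψ (u i :: ((List.finRange _).erase i).map u) := fun u i h =>
    pm (by simpa using NielS_upd u i (u i)) h
  obtain ⟨u, hu, h⟩ := nielsen (fun u : Fin L₀.length → _ => NielS_Q L₀ ψ (List.ofFn u))
    (fun u i h => pm (NielS_upd u i _).symm (NielS_inv hψ (hd u i h)))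
    (fun u i j hij h => by
      have e := (List.perm_cons_erase (((List.nodup_finRange _).mem_erase_iff).2
        ⟨hij.symm, List.mem_finRange j⟩)).map u
      exact pm ((NielS_upd u i _).trans (e.cons _)).symm (NielS_mul hψ (pm (e.cons _) (hd u i h))))
    (u₀ := fun i => ψ (L₀.get i).1) ⟨L₀, h₀, fun _ _ _ => Iff.rfl, by
      rw [← List.ofFn_get L₀, List.map_ofFn]
      simp [Function.comp_def]⟩
  rcases h with ⟨i, hi⟩ | h
  · obtain ⟨L, h1, h2, h3⟩ := hd u i hu
    obtain ⟨p, B, rfl, e1, e2⟩ := List.map_eq_cons_iff.1 h3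
    refine Or.inl ⟨p.1, p.2, B, h1, ?_, e1.trans hi, (h2 _ ψ).2 hψ p (by simp)⟩
    have := congrArg List.length e2
    have := i.2
    simp only [List.length_map, List.length_erase_of_mem (List.mem_finRange i),
      List.length_finRange] at *
    omega
  · obtain ⟨L, h1, h2, h3⟩ := hu
    have hl : L.length = L₀.length := by simpa using congrArg List.length h3
    refine Or.inr fun E _ f hf γ hγ => ?_
    have key : ∀ γ ∈ Subgroup.closure (gens L), ∃ w, ψ γ = FreeGroup.lift u w ∧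
        f γ = FreeGroup.lift (fun i : Fin L₀.length => f (L[i.1]'(i.2.trans_eq hl.symm)).1) w := fun γ hγ => by
      induction hγ using Subgroup.closure_induction with
      | mem x hx =>
        obtain ⟨p, hp, rfl | rfl⟩ := hx
        · obtain ⟨i, hi, rfl⟩ := List.mem_iff_getElem.1 hp
          refine ⟨FreeGroup.of ⟨i, hl ▸ hi⟩, ?_, by simp⟩
          have e := List.getElem_of_eq h3 (i := i) (by simpa using hi)
          rw [List.getElem_map] at e
          simpa using e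
        · exact ⟨1, by rw [(h2 _ ψ).2 hψ p hp, map_one], by rw [(h2 _ f).2 hf p hp, map_one]⟩
      | one => exact ⟨1, by simp, by simp⟩
      | mul x y _ _ hx hy =>
        obtain ⟨w, a, b⟩ := hx
        obtain ⟨w', a', b'⟩ := hy
        exact ⟨w * w', by simp only [map_mul, a, a'], by simp only [map_mul, b, b']⟩
      | inv x _ hx =>
        obtain ⟨w, a, b⟩ := hx
        exact ⟨w⁻¹, by simp only [map_inv, a], by simp only [map_inv, b]⟩
    obtain ⟨w, a, b⟩ := key γ (h1.gen ▸ Subgroup.mem_top γ)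
    rw [b, h (a₁ := w) (a₂ := 1) (by rw [← a, hγ, map_one]), map_one]

end Pool.Agent.Work.MP_7ba843_gt.N
end

-- merged part: Pool.Agent.Work.MP_7ba843_gt.N.Iso
section
/-! Two rank arguments.

PLAN. `iso_false`: for `a b : Fin g → ℝ` map `FreeGroup (Fin g)` to the real Heisenberg group
(own structure, or unitriangular matrices) by `of i ↦ (a i, b i, 0)`; with
`λ a : FreeGroup (Fin g) →* Multiplicative ℝ` the relator gives
`∑ q ∈ L, (λ a (p q.1) λ b (p q.2) - λ a (p q.2) λ b (p q.1)) = 0`. Let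
`A B : (Fin g → ℝ) →ₗ EuclideanSpace ℝ (Fin L.length)`, `A a = (λ a (p q.1))`, `B a = (λ a (p q.2))`.
`A a = 0 = B a` forces `a = 0` (`gen`, surjectivity). `B` is injective on `ker A` with image in
`(range A)ᗮ`; rank-nullity and `Submodule.finrank_add_finrank_orthogonal` give `g ≤ L.length`.
`exists_lam`: for `m : Fin L.length → ℤ`, `univ` gives `λ m` with `(L.get i).1 ↦ m i`, meridians
`↦ 1`; `λ (m + m') = λ m * λ m'` by `gen`; `m ↦ (λ m a, λ m b)` is a homomorphism `ℤ ^ g → ℤ ^ 2`,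
not injective (`LinearMap.finrank_le_finrank_of_injective`). About 250 lines. -/

namespace Pool.Agent.Work.MP_7ba843_gt.N

variable {P : Type} [Group P]

/-- the real Heisenberg group -/
@[ext] structure Iso_H where
  x : ℝ
  y : ℝ
  z : ℝ

instance : Mul Iso_H := ⟨fun u v => ⟨u.x + v.x, u.y + v.y, u.z + v.z + u.x * v.y⟩⟩
instance : One Iso_H := ⟨⟨0, 0, 0⟩⟩
instance : Inv Iso_H := ⟨fun u => ⟨-u.x, -u.y, -u.z + u.x * u.y⟩⟩

@[simp] theorem Iso_mul_x (u v : Iso_H) : (u * v).x = u.x + v.x := rfl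
@[simp] theorem Iso_mul_y (u v : Iso_H) : (u * v).y = u.y + v.y := rfl
@[simp] theorem Iso_mul_z (u v : Iso_H) : (u * v).z = u.z + v.z + u.x * v.y := rfl
@[simp] theorem Iso_one_x : (1 : Iso_H).x = 0 := rfl
@[simp] theorem Iso_one_y : (1 : Iso_H).y = 0 := rfl
@[simp] theorem Iso_one_z : (1 : Iso_H).z = 0 := rfl
@[simp] theorem Iso_inv_x (u : Iso_H) : (u⁻¹).x = -u.x := rfl
@[simp] theorem Iso_inv_y (u : Iso_H) : (u⁻¹).y = -u.y := rfl
@[simp] theorem Iso_inv_z (u : Iso_H) : (u⁻¹).z = -u.z + u.x * u.y := rfl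

instance : Group Iso_H :=
  Group.ofLeftAxioms
    (fun a b c => by ext <;> simp <;> ring)
    (fun a => by ext <;> simp)
    (fun a => by ext <;> simp)

theorem Iso_rel (M : List (Iso_H × Iso_H)) :
    (rel M).x = 0 ∧ (rel M).y = 0 ∧
      (rel M).z = (M.map fun q => q.2.x * q.1.y - q.1.x * q.2.y).sum := by
  induction M with
  | nil => simp [rel]
  | cons q M ih =>
    obtain ⟨h1, h2, h3⟩ := ih
    have e : rel (q :: M) = cm q * rel M := by simp [rel]
    rw [e]
    refine ⟨?_, ?_, ?_⟩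
    · simp [cm, h1]
    · simp [cm, h2]
    · simp only [Iso_mul_z, h2, h3, List.map_cons, List.sum_cons, cm, Iso_mul_x,
        Iso_inv_x, Iso_inv_y, Iso_inv_z]
      ring

theorem Iso_rel_map {E : Type} [Group E] (f : P →* E) (L : List (P × P)) :
    rel (L.map (Prod.map f f)) = f (rel L) := by
  unfold rel
  rw [map_list_prod, List.map_map, List.map_map]
  congr 1
  refine List.map_congr_left fun q _ => ?_
  simp [cm]

/-- the abelianisation of the free group, as linear functionals -/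
noncomputable def Iso_E (g : ℕ) : FreeGroup (Fin g) →* Multiplicative ((Fin g → ℝ) →ₗ[ℝ] ℝ) :=
  FreeGroup.lift fun i => Multiplicative.ofAdd (LinearMap.proj i)

theorem Iso_lift {g : ℕ} (a b : Fin g → ℝ) (w : FreeGroup (Fin g)) :
    (FreeGroup.lift (fun i => (⟨a i, b i, 0⟩ : Iso_H)) w).x = (Iso_E g w).toAdd a ∧
      (FreeGroup.lift (fun i => (⟨a i, b i, 0⟩ : Iso_H)) w).y = (Iso_E g w).toAdd b := by
  induction w using FreeGroup.induction_on with
  | C1 => simp
  | of i => simp [Iso_E]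
  | inv_of i ih => simp [Iso_E]
  | mul u v hu hv => simp [hu.1, hu.2, hv.1, hv.2]

theorem Iso_lin {n : ℕ} {V : Type} [AddCommGroup V] [Module ℝ V] [FiniteDimensional ℝ V]
    (A B : V →ₗ[ℝ] EuclideanSpace ℝ (Fin n))
    (h : ∀ a b, inner ℝ (A b) (B a) = inner ℝ (B b) (A a))
    (hi : ∀ a, A a = 0 → B a = 0 → a = 0) : Module.finrank ℝ V ≤ n := by
  have h1 := LinearMap.finrank_range_add_finrank_ker A
  have h2 := Submodule.finrank_add_finrank_orthogonal (LinearMap.range A)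
  rw [finrank_euclideanSpace, Fintype.card_fin] at h2
  let C : LinearMap.ker A →ₗ[ℝ] (LinearMap.range A)ᗮ :=
    LinearMap.codRestrict _ (B.domRestrict _) fun a => by
      rw [Submodule.mem_orthogonal]
      rintro _ ⟨b, rfl⟩
      have ha : A a = 0 := a.2
      rw [LinearMap.domRestrict_apply, h, ha, inner_zero_right]
  have hC : Function.Injective C := by
    rw [injective_iff_map_eq_zero]
    intro a ha
    exact Subtype.ext (hi a a.2 (congrArg Subtype.val ha))
  have h3 := LinearMap.finrank_le_finrank_of_injective hC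
  omega

theorem iso_false {g : ℕ} {L : List (P × P)} {c s : P} (h : IsSys ((c, s) :: L))
    (hl : L.length + 1 = g) (p : P →* FreeGroup (Fin g)) (hp : Function.Surjective p)
    (hc : p c = 1) (hs : p s = 1) : False := by
  let A : (Fin g → ℝ) →ₗ[ℝ] EuclideanSpace ℝ (Fin L.length) :=
    (WithLp.linearEquiv 2 ℝ (Fin L.length → ℝ)).symm.toLinearMap ∘ₗ
      LinearMap.pi fun i => (Iso_E g (p (L.get i).1)).toAdd
  let B : (Fin g → ℝ) →ₗ[ℝ] EuclideanSpace ℝ (Fin L.length) :=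
    (WithLp.linearEquiv 2 ℝ (Fin L.length → ℝ)).symm.toLinearMap ∘ₗ
      LinearMap.pi fun i => (Iso_E g (p (L.get i).2)).toAdd
  have hA : ∀ a i, A a i = (Iso_E g (p (L.get i).1)).toAdd a := fun _ _ => rfl
  have hB : ∀ a i, B a i = (Iso_E g (p (L.get i).2)).toAdd a := fun _ _ => rfl
  have key := Iso_lin A B (fun a b => ?_) (fun a ha hb => ?_)
  · rw [Module.finrank_fin_fun] at key
    omega
  · set f : P →* Iso_H := (FreeGroup.lift fun i => (⟨a i, b i, 0⟩ : Iso_H)).comp p with hf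
    have hx : ∀ u, (f u).x = (Iso_E g (p u)).toAdd a := fun u => (Iso_lift a b (p u)).1
    have hy : ∀ u, (f u).y = (Iso_E g (p u)).toAdd b := fun u => (Iso_lift a b (p u)).2
    have h0 := (Iso_rel (((c, s) :: L).map (Prod.map f f))).2.2
    rw [Iso_rel_map, h.rel_eq, map_one, Iso_one_z, List.map_map, List.map_cons, List.sum_cons]
      at h0
    have e1 : f c = 1 := by simp [hf, hc]
    have e2 : f s = 1 := by simp [hf, hs]
    simp only [Function.comp_apply, Prod.map_fst, Prod.map_snd, e1, e2, Iso_one_x, Iso_one_y,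
      mul_zero, sub_zero, zero_add] at h0
    rw [← List.ofFn_get L, List.map_ofFn, List.sum_ofFn] at h0
    simp only [Function.comp_apply, Prod.map_fst, Prod.map_snd, hx, hy,
      Finset.sum_sub_distrib] at h0
    simp only [PiLp.inner_apply, hA, hB, RCLike.inner_apply, conj_trivial]
    linarith
  · have hall : ∀ u : P, (Iso_E g (p u)).toAdd a = 0 := by
      intro u
      have hu : u ∈ Subgroup.closure (gens ((c, s) :: L)) := by rw [h.gen]; trivial
      induction hu using Subgroup.closure_induction with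
      | mem u hu =>
        obtain ⟨q, hq, hu⟩ := hu
        rcases List.mem_cons.1 hq with rfl | hq
        · rcases hu with rfl | rfl
          · simp [hc]
          · simp [hs]
        · obtain ⟨i, rfl⟩ := List.mem_iff_get.1 hq
          rcases hu with rfl | rfl
          · rw [← hA, ha]; rfl
          · rw [← hB, hb]; rfl
      | one => simp
      | mul u v _ _ hu hv => simp [hu, hv]
      | inv u _ hu => simp [hu]
    funext i
    obtain ⟨u, hu⟩ := hp (FreeGroup.of i)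
    have := hall u
    rw [hu] at this
    simpa [Iso_E] using this

theorem exists_lam {L : List (P × P)} (h : IsSys L) (hl : 3 ≤ L.length) (a b : P) :
    ∃ lam : P →* Multiplicative ℤ, Kill lam L ∧ lam a = 1 ∧ lam b = 1 ∧ ∃ γ, lam γ ≠ 1 := by
  classical
  obtain ⟨f, hf⟩ := h.univ (Multiplicative (Fin L.length → ℤ))
    (List.ofFn fun i : Fin L.length => (Multiplicative.ofAdd (Pi.single i 1), 1))
    (List.length_ofFn) (by
      unfold rel
      refine List.prod_eq_one fun x hx => ?_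
      obtain ⟨q, hq, rfl⟩ := List.mem_map.1 hx
      obtain ⟨i, rfl⟩ := List.mem_ofFn.1 hq
      simp [cm])
  have hget : ∀ i : Fin L.length, f (L.get i).1 = Multiplicative.ofAdd (Pi.single i 1) ∧
      f (L.get i).2 = 1 := by
    intro i
    have e : (List.ofFn fun i : Fin L.length => Prod.map f f (L.get i)) =
        List.ofFn fun i : Fin L.length => (Multiplicative.ofAdd (Pi.single i 1), 1) := by
      rw [← hf]
      exact List.map_ofFn.symm.trans (congrArg (List.map (Prod.map f f)) (List.ofFn_get L))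
    have := congrFun (List.ofFn_injective e) i
    exact ⟨congrArg Prod.fst this, congrArg Prod.snd this⟩
  let T : (Fin L.length → ℤ) →ₗ[ℤ] (Fin 2 → ℤ) :=
    Matrix.mulVecLin (Matrix.of ![(f a).toAdd, (f b).toAdd])
  have hT : ¬ Function.Injective T := fun hi => by
    have := LinearMap.finrank_le_finrank_of_injective hi
    rw [Module.finrank_fin_fun, Module.finrank_fin_fun] at this
    omega
  rw [injective_iff_map_eq_zero] at hT
  push Not at hT
  obtain ⟨m, hm, hm0⟩ := hT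
  let d : (Fin L.length → ℤ) →+ ℤ :=
    { toFun := fun v => v ⬝ᵥ m
      map_zero' := zero_dotProduct m
      map_add' := fun v w => add_dotProduct v w m }
  have hd : ∀ u, ((AddMonoidHom.toMultiplicative d).comp f) u =
      Multiplicative.ofAdd ((f u).toAdd ⬝ᵥ m) := fun _ => rfl
  refine ⟨(AddMonoidHom.toMultiplicative d).comp f, fun q hq => ?_, ?_, ?_, ?_⟩
  · obtain ⟨i, rfl⟩ := List.mem_iff_get.1 hq
    rw [MonoidHom.comp_apply, (hget i).2, map_one]
  · rw [hd]
    exact congrArg Multiplicative.ofAdd (congrFun hm 0)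
  · rw [hd]
    exact congrArg Multiplicative.ofAdd (congrFun hm 1)
  · obtain ⟨i, hi⟩ := Function.ne_iff.1 hm0
    refine ⟨(L.get i).1, ?_⟩
    rw [hd, (hget i).1]
    simpa using hi

end Pool.Agent.Work.MP_7ba843_gt.N
end

-- merged part: Pool.Agent.Work.MP_7ba843_gt.N.NoTri
section
/-! A surface none of whose handles dies is not the core of a trisection. -/

namespace Pool.Agent.Work.MP_7ba843_gt.N

open Set Topology

theorem no_tri {X Y W P G FW : Type} [TopologicalSpace X] [TopologicalSpace Y]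
    [TopologicalSpace W] [Group P] [Group G] [Group FW] [CompactSpace X] [T2Space X]
    [CompactSpace W] {Z : Fin 3 → Type} [∀ i, TopologicalSpace (Z i)] [∀ i, CompactSpace (Z i)]
    [∀ i, T2Space (Z i)] {k : Fin 3 → ℕ} {CX : Cv X G} (hX : CX.Univ) {CS : Cv Y P} (hS : CS.Univ)
    {CW : Cv W FW} (hW : CW.Univ) {CZ : ∀ i, Cv (Z i) (FreeGroup (Fin (k i)))}
    (hZ : ∀ i, (CZ i).Univ) {ι : Y → W} {p : P →* FW} {F₀ : CS.E → CW.E} (l₀ : Lf CS CW ι p F₀)
    (hp : Function.Surjective p) {L₀ : List (P × P)} (h₀ : IsSys L₀) (hK : Kill p L₀)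
    (hl : 3 ≤ L₀.length) {j : Y → X} (hj : IsEmbedding j) {θ : P →* G} {FX : CS.E → CX.E}
    (lX : Lf CS CX j θ FX) (hθ : Function.Surjective θ) {a₁ a₂ : G}
    (ha : Subgroup.closure {a₁, a₂} = ⊤)
    (alg : ∀ c s L, IsSys ((c, s) :: L) → L.length + 1 = L₀.length → θ c = 1 → θ s = 1 → False)
    {h : ∀ i, Z i → X} {b : Fin 3 → W → X} {β : Fin 3 → Y ≃ₜ Y} (hh : ∀ i, IsEmbedding (h i))
    (hb : ∀ i, IsEmbedding (b i)) (hcov : (⋃ i, range (h i)) = univ)
    (hcap : (⋂ i, range (h i)) = range j)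
    (hr : ∀ i, range (b i) = range (h i) ∩ range (h (i + 1)))
    (hβ : ∀ i y, b i (ι (β i y)) = j y)
    (hc : ∀ i, IsPreconnected ((CZ i).p ⁻¹' (h i ⁻¹' (range (b i) ∪ range (b (i + 2)))))) :
    False := by
  have := hS.1
  have : Nonempty Y := ⟨CS.p (Classical.arbitrary _)⟩
  have n3 : ∀ i : Fin 3, i + 2 + 1 = i := by decide
  have n4 : ∀ i l : Fin 3, l = i ∨ l = i + 1 ∨ l = i + 2 := by decide
  choose α A lA using fun i => Lf.exists hS CS (β i).continuous
  let e : Fin 3 → P ≃* P := fun i => MulEquiv.ofBijective (α i) (Lf.bij hS hS (β i) (lA i))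
  have lW := fun i => (lA i).comp l₀
  have hρ : ∀ i, Function.Surjective (p.comp (α i)) := fun i => hp.comp (e i).surjective
  have sy := fun i => h₀.map (e i).symm
  have ki : ∀ i, Kill (p.comp (α i)) (L₀.map (Prod.map (e i).symm (e i).symm)) := by
    intro i q hq
    obtain ⟨r, hr, rfl⟩ := List.mem_map.1 hq
    exact (congrArg p ((e i).apply_symm_apply r.2)).trans (hK r hr)
  choose z hz ez using fun i => lift_emb (hh i) hj (hcap ▸ iInter_subset _ i)
  choose ψ F lZ using fun i => Lf.exists hS (CZ i) (hz i).continuous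
  have inc : ∀ i l, range (b l) ⊆ range (h i) → ∃ (m : W → Z i) (η : FW →* _) (M : CW.E → _),
      IsClosedEmbedding m ∧ (∀ w, h i (m w) = b l w) ∧ (∀ y, m (ι (β l y)) = z i y) ∧
      Lf CW (CZ i) m η M ∧ (∀ x, M (F₀ (A l x)) = F i x) ∧ ∀ γ, η (p.comp (α l) γ) = ψ i γ := by
    intro i l s
    obtain ⟨m, hm, em⟩ := lift_emb (hh i) (hb l) s
    have e1 : ∀ y, m (ι (β l y)) = z i y := fun y =>
      (hh i).injective (by rw [em, hβ, ez])
    obtain ⟨η, M, k1, k2, k3⟩ := Lf.factor hW hm.continuous (lW l)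
      ((funext e1 : m ∘ ι ∘ β l = z i) ▸ lZ i)
    exact ⟨m, η, M, hm.continuous.isClosedEmbedding hm.injective, em, e1, k1, k2, k3⟩
  choose m η M c1 e1 f1 l1 g1 k1 using fun i => inc i i (hr i ▸ inter_subset_left)
  choose m' η' M' c2 e2 f2 l2 g2 k2 using fun i => inc (i + 1) i (hr i ▸ inter_subset_right)
  have su : ∀ i, Function.Surjective (ψ i) := fun i => by
    obtain ⟨m', η', M', c2, e2, f2, l2, g2, k2⟩ := inc i (i + 2) (by
      rw [hr, n3]
      exact inter_subset_right)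
    refine sector_surj (c1 i) c2 (lW i) (lW (i + 2)) (hρ i) (hρ _) (l1 i) l2
      (fun x => (g1 i x).trans (g2 x).symm) (k1 i) k2 ?_ ?_
    · rintro _ ⟨⟨w, rfl⟩, w', hw⟩
      have a1 := (hr i).subset (mem_range_self w)
      have a2 := (hr (i + 2)).subset (mem_range_self w')
      rw [← e2, hw, e1] at a2
      obtain ⟨y, hy⟩ := hcap.subset (mem_iInter.2 fun l => by
        rcases n4 i l with rfl | rfl | rfl
        exacts [a1.1, a1.2, a2.1] : b i w ∈ _)
      exact ⟨y, (f1 i y).trans ((hh i).injective (by rw [ez, e1, hy]))⟩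
    · convert hc i using 2
      ext y
      refine or_congr ⟨?_, ?_⟩ ⟨?_, ?_⟩
      · rintro ⟨w, rfl⟩
        exact ⟨w, (e1 i w).symm⟩
      · exact fun ⟨w, hw⟩ => ⟨w, (hh i).injective ((e1 i w).trans hw)⟩
      · rintro ⟨w, rfl⟩
        exact ⟨w, (e2 w).symm⟩
      · exact fun ⟨w, hw⟩ => ⟨w, (hh i).injective ((e2 w).trans hw)⟩
  have key : ∀ i l, (∃ η : FW →* _, ∀ γ, η (p.comp (α l) γ) = ψ i γ) → ∀ (E : Type) [Group E]
      (f : P →* E), Kill f (L₀.map (Prod.map (e l).symm (e l).symm)) →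
      ∀ γ, ψ i γ = 1 → f γ = 1 := by
    rintro i l ⟨η, hη⟩
    refine (niel_sys (sy l) (ψ i) fun q hq => by rw [← hη, ki l q hq, map_one]).resolve_left ?_
    rintro ⟨c, s, L, a1, a2, a3, a4⟩
    obtain ⟨η', _, -, -, a5⟩ := Lf.factor (hZ i) (hh i).continuous (lZ i)
      ((funext (ez i) : h i ∘ z i = j) ▸ lX)
    exact alg c s L a1 (by rw [a2, List.length_map]) (by rw [← a5, a3, map_one])
      (by rw [← a5, a4, map_one])
  obtain ⟨b₁, rfl⟩ := hθ a₁
  obtain ⟨b₂, rfl⟩ := hθ a₂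
  obtain ⟨lam, q1, q2, q3, γ₀, q4⟩ := exists_lam (sy 0) (by rwa [List.length_map]) b₁ b₂
  have kl : ∀ i γ, ψ i γ = 1 → lam γ = 1 := by
    have t1 := key (0 + 1) 0 ⟨_, k2 0⟩ _ lam q1
    intro i
    rcases n4 0 i with rfl | rfl | rfl
    · exact key 0 0 ⟨_, k1 0⟩ _ lam q1
    · exact t1
    · exact fun γ hγ => t1 γ (by
        rw [← k1, key (0 + 1 + 1) (0 + 1) ⟨_, k2 _⟩ _ _ (ki _) γ hγ, map_one])
  obtain ⟨ν, hν⟩ := lam_factor hX hh hb hj.continuous hcov hcap hr lX ez lZ hρ e1 e2 l1 l2 k1 k2 lam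
    (fun i => (ψ i).liftOfSurjective (su i) ⟨lam, kl i⟩)
    fun i γ => MonoidHom.liftOfRightInverse_comp_apply _ _ _ _ γ
  have : ν = 1 := MonoidHom.eq_of_eqOn_dense ha (by
    rintro _ (rfl | rfl)
    exacts [(hν _).2 q2, (hν _).2 q3])
  exact q4 ((hν γ₀).1 (this ▸ rfl))

end Pool.Agent.Work.MP_7ba843_gt.N
end
end

-- merged part: Pool.Agent.Work.MP_7ba843_gt.N.Alg
section
-- merged part: Pool.Agent.Work.MP_7ba843_gt.N.Cup
section
/-! The value of a two-cocycle on the fundamental class does not depend on the system.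

PLAN. Group structure on a copy `Ext cc` of `P × ZMod 2`,
`(γ, z) (δ, z') = (γ δ, z + z' + cc γ δ)` (`cc 1 _ = 0 = cc _ 1` from `hK`, `hH`). For a system
`L` let `ob L` be the second coordinate of `rel` of the lifts `(x, 0), (t, 0)`; `rel` does not
depend on the lifts (central elements cancel in `cm`). If `ob L = 0`, `univ` gives a section
homomorphism `σ` (a section on generators, so everywhere), and then `ob L' = 0` for every system
`L'` (`rel` of the `σ`-lifts is `σ (rel L') = 1`). Two elements of `ZMod 2` that vanish together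
are equal. Values: `{(δ, 0) | δ ∈ H}` is a subgroup and right multiplication by it keeps `z`;
`s̃ ỹ = c̃⁻¹ s̃` for `ỹ = s̃⁻¹ c̃⁻¹ s̃` gives `z = cc c⁻¹ s`. For `L₀`: `x̃ ỹ = t̃ x̃` for
`ỹ = x̃⁻¹ t̃ x̃` gives `z = cc x (x⁻¹ t x)`, and `(k, z) (γ, z') = (k γ, z + z')` for `k ∈ K`.
About 200 lines. -/

namespace Pool.Agent.Work.MP_7ba843_gt.N

section CupAux

variable {P : Type} [Group P]

/-- normalised two-cocycles -/
structure Cup_Coc (P : Type) [Group P] where
  c : P → P → ZMod 2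
  coc : ∀ a b d, c a b + c (a * b) d = c b d + c a (b * d)
  one_l : ∀ a, c 1 a = 0
  one_r : ∀ a, c a 1 = 0

/-- the central extension -/
@[ext] structure Cup_E (κ : Cup_Coc P) where
  g : P
  z : ZMod 2

variable {κ : Cup_Coc P}

instance : Mul (Cup_E κ) := ⟨fun a b => ⟨a.g * b.g, a.z + b.z + κ.c a.g b.g⟩⟩

instance : One (Cup_E κ) := ⟨⟨1, 0⟩⟩

instance : Inv (Cup_E κ) := ⟨fun a => ⟨a.g⁻¹, -a.z - κ.c a.g⁻¹ a.g⟩⟩

theorem Cup_mul_g (a b : Cup_E κ) : (a * b).g = a.g * b.g := rfl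

theorem Cup_mul_z (a b : Cup_E κ) : (a * b).z = a.z + b.z + κ.c a.g b.g := rfl

theorem Cup_one_g : (1 : Cup_E κ).g = 1 := rfl

theorem Cup_one_z : (1 : Cup_E κ).z = 0 := rfl

theorem Cup_inv_g (a : Cup_E κ) : (a⁻¹).g = a.g⁻¹ := rfl

theorem Cup_inv_z (a : Cup_E κ) : (a⁻¹).z = -a.z - κ.c a.g⁻¹ a.g := rfl

instance : Group (Cup_E κ) :=
  Group.ofLeftAxioms
    (fun a b d => Cup_E.ext (mul_assoc _ _ _) (by
      simp only [Cup_mul_z, Cup_mul_g]
      linear_combination κ.coc a.g b.g d.g))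
    (fun a => Cup_E.ext (one_mul _) (by
      rw [Cup_mul_z, Cup_one_z, Cup_one_g, κ.one_l, zero_add, add_zero]))
    (fun a => Cup_E.ext (inv_mul_cancel _) (by
      rw [Cup_mul_z, Cup_inv_z, Cup_inv_g, Cup_one_z]
      ring))

/-- the projection -/
def Cup_pi (κ : Cup_Coc P) : Cup_E κ →* P where
  toFun := Cup_E.g
  map_one' := rfl
  map_mul' _ _ := rfl

/-- the standard lift -/
def Cup_l (κ : Cup_Coc P) (γ : P) : Cup_E κ := ⟨γ, 0⟩

theorem Cup_rel_cons {E : Type} [Group E] (p : E × E) (L : List (E × E)) :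
    rel (p :: L) = cm p * rel L := by
  simp [rel]

theorem Cup_rel_map {E : Type} [Group E] (f : P →* E) (L : List (P × P)) :
    rel (L.map (Prod.map f f)) = f (rel L) := by
  induction L with
  | nil => exact f.map_one.symm
  | cons p L ih => simp [Cup_rel_cons, ih, cm]

theorem Cup_dec (a : Cup_E κ) : ∃ ζ ∈ Subgroup.center (Cup_E κ), a = Cup_l κ a.g * ζ := by
  refine ⟨⟨1, a.z⟩, Subgroup.mem_center_iff.2 fun b => Cup_E.ext ?_ ?_, Cup_E.ext ?_ ?_⟩
  · exact (mul_one _).trans (one_mul _).symm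
  · simp only [Cup_mul_z, κ.one_l, κ.one_r, add_comm]
  · exact (mul_one _).symm
  · simp only [Cup_mul_z, Cup_l, κ.one_r, zero_add, add_zero]

theorem Cup_cm_cen {E : Type} [Group E] (a b : E) {ζ ζ' : E} (h : ζ ∈ Subgroup.center E)
    (h' : ζ' ∈ Subgroup.center E) : cm (a * ζ, b * ζ') = cm (a, b) := by
  have e : ∀ x, ζ⁻¹ * x * ζ = x := fun x => by
    rw [mul_assoc, Subgroup.mem_center_iff.1 h x, inv_mul_cancel_left]
  have e' : ∀ x, ζ'⁻¹ * x * ζ' = x := fun x => by
    rw [mul_assoc, Subgroup.mem_center_iff.1 h' x, inv_mul_cancel_left]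
  have k1 : (b * ζ')⁻¹ * (a * ζ)⁻¹ * (b * ζ') = b⁻¹ * (a * ζ)⁻¹ * b := by
    rw [← e' (b⁻¹ * (a * ζ)⁻¹ * b)]
    group
  have k2 : (a * ζ)⁻¹ * b * (a * ζ) = a⁻¹ * b * a := by
    rw [← e (a⁻¹ * b * a)]
    group
  show (b * ζ')⁻¹ * (a * ζ)⁻¹ * (b * ζ') * (a * ζ) = b⁻¹ * a⁻¹ * b * a
  rw [k1, mul_assoc b⁻¹, mul_assoc b⁻¹, k2]
  group

theorem Cup_rel_sec (σ : P → Cup_E κ) (hσ : ∀ γ, (σ γ).g = γ) (L : List (P × P)) :
    rel (L.map (Prod.map σ σ)) = rel (L.map (Prod.map (Cup_l κ) (Cup_l κ))) := by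
  induction L with
  | nil => rfl
  | cons p L ih =>
    obtain ⟨ζ, h, e⟩ := Cup_dec (σ p.1)
    obtain ⟨ζ', h', e'⟩ := Cup_dec (σ p.2)
    rw [List.map_cons, List.map_cons, Cup_rel_cons, Cup_rel_cons, ih, Prod.map, e, e', hσ, hσ,
      Cup_cm_cen _ _ h h']
    rfl

/-- the obstruction to a section -/
def Cup_ob (κ : Cup_Coc P) (L : List (P × P)) : ZMod 2 :=
  (rel (L.map (Prod.map (Cup_l κ) (Cup_l κ)))).z

theorem Cup_ob_zero {L L' : List (P × P)} (h : IsSys L) (h' : IsSys L') (h0 : Cup_ob κ L = 0) :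
    Cup_ob κ L' = 0 := by
  have e : rel (L.map (Prod.map (Cup_l κ) (Cup_l κ))) = 1 := by
    refine Cup_E.ext ?_ h0
    have k := Cup_rel_map (Cup_pi κ) (L.map (Prod.map (Cup_l κ) (Cup_l κ)))
    rw [List.map_map, show Prod.map (Cup_pi κ) (Cup_pi κ) ∘ Prod.map (Cup_l κ) (Cup_l κ) = id from
      rfl, List.map_id, h.rel_eq] at k
    exact k.symm
  obtain ⟨σ, hσ⟩ := h.univ _ _ (List.length_map _) e
  have k : (Cup_pi κ).comp σ = MonoidHom.id P := by
    refine MonoidHom.eq_of_eqOn_dense h.gen ?_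
    rintro x ⟨p, hp, hx⟩
    have := List.map_inj_left.1 hσ p hp
    rcases hx with rfl | rfl
    · exact congrArg (fun q => q.1.g) this
    · exact congrArg (fun q => q.2.g) this
  rw [Cup_ob, ← Cup_rel_sec σ (fun γ => DFunLike.congr_fun k γ), Cup_rel_map, h'.rel_eq, map_one,
    Cup_one_z]

theorem Cup_ob_eq {L L' : List (P × P)} (h : IsSys L) (h' : IsSys L') :
    Cup_ob κ L = Cup_ob κ L' := by
  have k : ∀ x y : ZMod 2, (x = 0 → y = 0) → (y = 0 → x = 0) → x = y := by decide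
  exact k _ _ (Cup_ob_zero h h') (Cup_ob_zero h' h)

/-- the standard lift of a subgroup on which the cocycle vanishes -/
def Cup_H (κ : Cup_Coc P) (H : Subgroup P) (hH : ∀ γ, ∀ δ ∈ H, κ.c γ δ = 0) :
    Subgroup (Cup_E κ) where
  carrier := {a | a.g ∈ H ∧ a.z = 0}
  one_mem' := ⟨H.one_mem, rfl⟩
  mul_mem' := fun {a b} ha hb => ⟨H.mul_mem ha.1 hb.1, by
    rw [Cup_mul_z, ha.2, hb.2, hH _ _ hb.1, add_zero, add_zero]⟩
  inv_mem' := fun {a} ha => ⟨H.inv_mem ha.1, by
    rw [Cup_inv_z, ha.2, hH _ _ ha.1, neg_zero, sub_zero]⟩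

theorem Cup_ob_H {H : Subgroup P} (hH : ∀ γ, ∀ δ ∈ H, κ.c γ δ = 0) {L : List (P × P)} {c s : P}
    (hcH : c ∈ H) (hsH : s⁻¹ * c * s ∈ H) (hL : ∀ p ∈ L, p.1 ∈ H ∧ p.2 ∈ H) :
    Cup_ob κ ((c, s) :: L) = κ.c c⁻¹ s := by
  have k1 : rel (L.map (Prod.map (Cup_l κ) (Cup_l κ))) ∈ Cup_H κ H hH := by
    refine Subgroup.list_prod_mem _ fun x hx => ?_
    obtain ⟨q, hq, rfl⟩ := List.mem_map.1 hx
    obtain ⟨p, hp, rfl⟩ := List.mem_map.1 hq
    have a : Cup_l κ p.1 ∈ Cup_H κ H hH := ⟨(hL p hp).1, rfl⟩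
    have b : Cup_l κ p.2 ∈ Cup_H κ H hH := ⟨(hL p hp).2, rfl⟩
    exact mul_mem (mul_mem (mul_mem (inv_mem b) (inv_mem a)) b) a
  have k2 : ∀ a b : Cup_E κ, b ∈ Cup_H κ H hH → (a * b).z = a.z := fun a b hb => by
    rw [Cup_mul_z, hb.2, hH _ _ hb.1, add_zero, add_zero]
  have k3 : Cup_l κ c ∈ Cup_H κ H hH := ⟨hcH, rfl⟩
  have k4 : Cup_l κ s * ((Cup_l κ s)⁻¹ * (Cup_l κ c)⁻¹ * Cup_l κ s) =
      (Cup_l κ c)⁻¹ * Cup_l κ s := by
    group
  have k5 : ((Cup_l κ s)⁻¹ * (Cup_l κ c)⁻¹ * Cup_l κ s).g ∈ H := by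
    have := H.inv_mem hsH
    rwa [mul_inv_rev, mul_inv_rev, inv_inv, ← mul_assoc] at this
  have k6 := congrArg Cup_E.z k4
  rw [Cup_mul_z (Cup_l κ s), hH _ _ k5, Cup_mul_z (Cup_l κ c)⁻¹, (inv_mem k3).2] at k6
  rw [Cup_ob, List.map_cons, Cup_rel_cons, k2 _ _ k1]
  exact (k2 _ _ k3).trans (by simpa [Cup_l, Cup_inv_g] using k6)

theorem Cup_ob_K {K : Subgroup P} [K.Normal] (hK : ∀ k ∈ K, ∀ γ, κ.c k γ = 0)
    {L : List (P × P)} (hL : ∀ p ∈ L, p.2 ∈ K) :
    Cup_ob κ L = (L.map fun p => κ.c p.1 (p.1⁻¹ * p.2 * p.1)).sum := by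
  induction L with
  | nil => rfl
  | cons p L ih =>
    have hp := hL p List.mem_cons_self
    have k1 : (cm (Prod.map (Cup_l κ) (Cup_l κ) p)).g ∈ K := by
      have := K.mul_mem (K.inv_mem hp) (Subgroup.Normal.conj_mem' inferInstance _ hp p.1)
      rwa [← mul_assoc, ← mul_assoc] at this
    have k2 : cm (Prod.map (Cup_l κ) (Cup_l κ) p) =
        (Cup_l κ p.2)⁻¹ * ((Cup_l κ p.1)⁻¹ * Cup_l κ p.2 * Cup_l κ p.1) := by
      simp only [cm, Prod.map, mul_assoc]
    have k3 : Cup_l κ p.1 * ((Cup_l κ p.1)⁻¹ * Cup_l κ p.2 * Cup_l κ p.1) =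
        Cup_l κ p.2 * Cup_l κ p.1 := by
      group
    have k4 := congrArg Cup_E.z k3
    rw [Cup_mul_z (Cup_l κ p.1), Cup_mul_z (Cup_l κ p.2), hK (Cup_l κ p.2).g hp] at k4
    have k5 : ∀ x y : ZMod 2, 0 + x + y = 0 + 0 + 0 → -0 - 0 + x + 0 = y := by decide
    rw [List.map_cons, List.sum_cons, ← ih fun q hq => hL q (List.mem_cons_of_mem _ hq), Cup_ob,
      List.map_cons, Cup_rel_cons, Cup_mul_z, hK _ k1, add_zero, k2, Cup_mul_z, Cup_inv_z,
      hK (Cup_l κ p.2).g⁻¹ (K.inv_mem hp), hK (Cup_l κ p.2)⁻¹.g (K.inv_mem hp)]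
    exact congrArg (· + Cup_ob κ L) (k5 _ _ k4)

end CupAux



theorem cup_eq {P : Type} [Group P] (cc : P → P → ZMod 2)
    (hc : ∀ a b c, cc a b + cc (a * b) c = cc b c + cc a (b * c)) (H K : Subgroup P) [K.Normal]
    (hH : ∀ γ, ∀ δ ∈ H, cc γ δ = 0) (hK : ∀ k ∈ K, ∀ γ, cc k γ = 0) {L₀ L : List (P × P)}
    {c s : P} (h₀ : IsSys L₀) (hL₀ : ∀ p ∈ L₀, p.2 ∈ K) (h₁ : IsSys ((c, s) :: L)) (hcH : c ∈ H)
    (hsH : s⁻¹ * c * s ∈ H) (hL : ∀ p ∈ L, p.1 ∈ H ∧ p.2 ∈ H) :
    cc c⁻¹ s = (L₀.map fun p => cc p.1 (p.1⁻¹ * p.2 * p.1)).sum := by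
  let κ : Cup_Coc P := ⟨cc, hc, hK 1 K.one_mem, fun a => hH a 1 H.one_mem⟩
  exact (Cup_ob_H (κ := κ) hH hcH hsH hL).symm.trans
    ((Cup_ob_eq h₁ h₀).trans (Cup_ob_K (κ := κ) hK hL₀))

end Pool.Agent.Work.MP_7ba843_gt.N
end

-- merged part: Pool.Agent.Work.MP_7ba843_gt.N.DualB
section
/-! The pattern of a simple closed curve on a handlebody has an abstract dual.

PLAN. `w = p c`, `σ = p s`, `Λ = U ⧸ zpowers w`, `u` from `cocycle_u` with `y₀ = mk 1`.
`H = {δ | u δ = 0}` is a subgroup containing `c`, `s⁻¹ c s` and the generators of `L`;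
`B = H.map p`, `V = U ⧸ B`, `e₀ (mk f) = mk f`, `e₁ (mk f) = mk (f σ)`.
(1) `bd (h • u γ) = single (mk h) 1 + single (mk (h * p γ)) 1` (closure induction), so it vanishes
for `p γ = 1`. (2) Formula: for `AI φ` and a line `l`, apply `cup_eq` to
`cc γ δ = ∑ᶠ h, (φ (h * p γ) + φ h) * ((u δ).mapDomain ((h * p γ) • ·)) l`, `K = ker p`. The left
side is `∑ᶠ` over `h ∈ l` of `φ (h w⁻¹) + φ h`, which telescopes to
`φ (f w ^ N) + φ (f (w ^ N)⁻¹)` for large `N` (`n ↦ f w ^ n` is injective); the right side is the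
value at `l` of `Z φ = ∑ q ∈ L₀, ∑ h, (φ (h * p q.1) + φ h) • (h • u q.2)` (as
`p x • u (x⁻¹ t x) = u t` for `p t = 1`). So `IsD w φ (Z φ)` and `bd (Z φ) = 0`.
(3) `Y = {Z | ∃ φ, AI φ ∧ IsD w φ Z}` is a submodule; by `fox_phi` and (2) it contains
`h • u q.2`, hence `h • u k` for all `k` in the normal closure
(`u (γ k γ⁻¹) = p γ • u k`). Then `mk (p γ) ↦ [u γ]` is well defined from `V` to the quotient by
`Y`, its linear extension `S` has `S (bd Z) = [Z]` (check on `single (mk f) 1`). About 350 lines;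
put the telescoping lemma first. -/

namespace Pool.Agent.Work.MP_7ba843_gt.N

section aux

variable {P U : Type} [Group P] [Group U]

theorem DualB_two {X : Type} (Z : X →₀ ZMod 2) : Z + Z = 0 := by
  ext x
  exact CharTwo.add_self_eq_zero (Z x)

/-- the coboundary of an almost invariant function -/
noncomputable def DualB_D {φ : U → ZMod 2} (hφ : AI φ) (g : U) : U →₀ ZMod 2 :=
  Finsupp.ofSupportFinite (fun h => φ (h * g) + φ h) ((hφ g).subset fun h hh e => hh (by
    show φ (h * g) + φ h = 0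
    rw [e]
    exact CharTwo.add_self_eq_zero _))

theorem DualB_D_apply {φ : U → ZMod 2} (hφ : AI φ) (g h : U) :
    DualB_D hφ g h = φ (h * g) + φ h := rfl

theorem DualB_D_one {φ : U → ZMod 2} (hφ : AI φ) : DualB_D hφ 1 = 0 := by
  ext h
  rw [DualB_D_apply, mul_one]
  exact CharTwo.add_self_eq_zero _

theorem DualB_D_mul {φ : U → ZMod 2} (hφ : AI φ) (a b : U) :
    DualB_D hφ (a * b) = DualB_D hφ a + (DualB_D hφ b).mapDomain (Equiv.mulRight a⁻¹) := by
  ext h
  rw [Finsupp.add_apply, Finsupp.mapDomain_equiv_apply]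
  simp only [DualB_D_apply, Equiv.mulRight_symm, inv_inv, Equiv.coe_mulRight, mul_assoc]
  have := CharTwo.add_self_eq_zero (φ (h * a))
  linear_combination -this

theorem DualB_tele {φ : U → ZMod 2} (hφ : AI φ) {w : U} (hw : ∀ n : ℤ, w ^ n = 1 → n = 0)
    (f : U) (I : U → ZMod 2) (h1 : ∀ n : ℤ, I (f * w ^ n) = 1)
    (h0 : ∀ h, I h ≠ 0 → ∃ n : ℤ, h = f * w ^ n) :
    ∃ N₀ : ℕ, ∀ N ≥ N₀, Finsupp.linearCombination (ZMod 2) I (DualB_D hφ w⁻¹) =
      φ (f * w ^ N) + φ (f * (w ^ N)⁻¹) := by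
  classical
  have hinj : Function.Injective fun n : ℤ => f * w ^ n := by
    intro m n h
    have h' : w ^ m = w ^ n := mul_left_cancel h
    have := hw (m - n) (by rw [zpow_sub, h', mul_inv_cancel])
    omega
  have hfin := ((DualB_D hφ w⁻¹).support.finite_toSet.preimage hinj.injOn).image Int.natAbs
  obtain ⟨M, hM⟩ := hfin.bddAbove
  refine ⟨M + 1, fun N hN => ?_⟩
  rw [Finsupp.linearCombination_apply, Finsupp.sum,
    ← finsum_eq_sum_of_support_subset (s := (DualB_D hφ w⁻¹).support) _ (fun h hh => by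
      rw [Finset.mem_coe, Finsupp.mem_support_iff]
      intro e
      exact hh (by simp only [e, zero_smul])),
    finsum_eq_sum_of_support_subset
      (s := (Finset.range (2 * N)).image fun i : ℕ => f * w ^ ((i : ℤ) + 1 - N)) _ (fun h hh => by
      have a1 : DualB_D hφ w⁻¹ h ≠ 0 := fun e => hh (by simp only [e, zero_smul])
      obtain ⟨n, rfl⟩ := h0 h fun e => hh (by simp only [e, smul_zero])
      have a2 : n.natAbs ≤ M := hM ⟨n, Finsupp.mem_support_iff.2 a1, rfl⟩
      refine Finset.mem_coe.2 (Finset.mem_image.2 ⟨(n + N - 1).toNat, Finset.mem_range.2 (by omega),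
        ?_⟩)
      congr 2
      omega),
    Finset.sum_image fun i _ j _ e => by
      have := hinj e
      omega]
  have hs : ∀ a b : ZMod 2, a - b = a + b := CharTwo.sub_eq_add
  have e1 : ∀ i : ℕ, DualB_D hφ w⁻¹ (f * w ^ ((i : ℤ) + 1 - N)) • I (f * w ^ ((i : ℤ) + 1 - N)) =
      φ (f * w ^ (((i + 1 : ℕ) : ℤ) - N)) - φ (f * w ^ ((i : ℤ) - N)) := by
    intro i
    have x1 : (i : ℤ) + 1 - N - 1 = i - N := by ring
    have x2 : ((i + 1 : ℕ) : ℤ) - N = i + 1 - N := by push_cast; ring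
    rw [h1, smul_eq_mul, mul_one, DualB_D_apply, mul_assoc, ← zpow_sub_one, hs, x1, x2]
    first | rfl | exact add_comm _ _
  rw [Finset.sum_congr rfl fun i _ => e1 i,
    Finset.sum_range_sub fun i : ℕ => φ (f * w ^ ((i : ℤ) - N)), hs]
  have e2 : ((2 * N : ℕ) : ℤ) - N = N := by omega
  rw [e2, zpow_natCast, Nat.cast_zero, zero_sub, zpow_neg, zpow_natCast]

variable {Y : Type} [MulAction U Y]

/-- the action on chains -/
noncomputable def DualB_act (h : U) (Z : Y →₀ ZMod 2) : Y →₀ ZMod 2 := Z.mapDomain (h • ·)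

theorem DualB_act_mul (g h : U) (Z : Y →₀ ZMod 2) :
    DualB_act g (DualB_act h Z) = DualB_act (g * h) Z := by
  unfold DualB_act
  rw [← Finsupp.mapDomain_comp]
  congr 1
  funext y
  exact (mul_smul g h y).symm

theorem DualB_act_one (Z : Y →₀ ZMod 2) : DualB_act (1 : U) Z = Z := by
  unfold DualB_act
  simp only [one_smul]
  exact Finsupp.mapDomain_id

theorem DualB_act_add (g : U) (Z Z' : Y →₀ ZMod 2) :
    DualB_act g (Z + Z') = DualB_act g Z + DualB_act g Z' := Finsupp.mapDomain_add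

theorem DualB_act_zero (g : U) : DualB_act g (0 : Y →₀ ZMod 2) = 0 := Finsupp.mapDomain_zero

theorem DualB_act_single (g : U) (y : Y) (a : ZMod 2) :
    DualB_act g (Finsupp.single y a) = Finsupp.single (g • y) a := Finsupp.mapDomain_single

variable {p : P →* U} {u : P → (Y →₀ ZMod 2)}
  (hu : ∀ γ δ, u (γ * δ) = u γ + DualB_act (p γ) (u δ))
include hu

theorem DualB_u_one : u 1 = 0 := by
  have h := hu 1 1
  rw [mul_one, map_one, DualB_act_one, DualB_two] at h
  exact h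

theorem DualB_u_inv (γ : P) : u γ⁻¹ = DualB_act (p γ)⁻¹ (u γ) := by
  have h := hu γ⁻¹ γ
  rw [inv_mul_cancel, DualB_u_one hu, map_inv] at h
  rw [← add_zero (u γ⁻¹), ← DualB_two (DualB_act (p γ)⁻¹ (u γ)), ← add_assoc, ← h, zero_add]

theorem DualB_u_conj (γ : P) {k : P} (hk : p k = 1) :
    u (γ * k * γ⁻¹) = DualB_act (p γ) (u k) := by
  rw [hu, hu, DualB_u_inv hu, map_mul, hk, mul_one, DualB_act_mul, mul_inv_cancel, DualB_act_one,
    add_right_comm, DualB_two, zero_add]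

/-- the kernel of the cocycle -/
def DualB_H : Subgroup P where
  carrier := {δ | u δ = 0}
  one_mem' := DualB_u_one hu
  mul_mem' := fun {a b} ha hb => by
    show u (a * b) = 0
    rw [hu, ha, hb, DualB_act_zero, add_zero]
  inv_mem' := fun {a} ha => by
    show u a⁻¹ = 0
    rw [DualB_u_inv hu, ha, DualB_act_zero]

omit hu in
/-- the cup product on the level of chains -/
noncomputable def DualB_T {φ : U → ZMod 2} (hφ : AI φ) (g : U) (Z : Y →₀ ZMod 2) :
    Y →₀ ZMod 2 :=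
  Finsupp.linearCombination (ZMod 2) (fun h => DualB_act (h * g) Z) (DualB_D hφ g)

theorem DualB_T_coc {φ : U → ZMod 2} (hφ : AI φ) (a b c : P) :
    DualB_T hφ (p a) (u b) + DualB_T hφ (p (a * b)) (u c) =
      DualB_T hφ (p b) (u c) + DualB_T hφ (p a) (u (b * c)) := by
  unfold DualB_T
  rw [map_mul, DualB_D_mul, map_add, Finsupp.linearCombination_mapDomain]
  have e1 : ((fun h => DualB_act (h * (p a * p b)) (u c)) ∘ Equiv.mulRight (p a)⁻¹) =
      fun h => DualB_act (h * p b) (u c) := by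
    funext h
    simp [mul_assoc]
  have e2 : Finsupp.linearCombination (ZMod 2) (fun h => DualB_act (h * p a) (u (b * c)))
      (DualB_D hφ (p a)) =
      Finsupp.linearCombination (ZMod 2) (fun h => DualB_act (h * p a) (u b)) (DualB_D hφ (p a)) +
        Finsupp.linearCombination (ZMod 2) (fun h => DualB_act (h * (p a * p b)) (u c))
          (DualB_D hφ (p a)) := by
    simp only [Finsupp.linearCombination_apply, Finsupp.sum, hu, DualB_act_add, DualB_act_mul,
      smul_add, Finset.sum_add_distrib, mul_assoc]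
  rw [e1, e2]
  abel

omit hu in
theorem DualB_T_zero {φ : U → ZMod 2} (hφ : AI φ) (g : U) :
    DualB_T hφ g (0 : Y →₀ ZMod 2) = 0 := by
  simp [DualB_T, Finsupp.linearCombination_apply, Finsupp.sum, DualB_act_zero]

omit hu in
theorem DualB_T_mem {φ : U → ZMod 2} (hφ : AI φ) (g : U) {Z : Y →₀ ZMod 2}
    (M : Submodule (ZMod 2) (Y →₀ ZMod 2)) (h : ∀ h : U, DualB_act h Z ∈ M) :
    DualB_T hφ g Z ∈ M := by
  rw [DualB_T, Finsupp.linearCombination_apply, Finsupp.sum]
  exact M.sum_mem fun x _ => M.smul_mem _ (h _)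

end aux

/-- the boundary operator as a linear map -/
noncomputable def DualB_bd {Λ V : Type} (e₀ e₁ : Λ → V) :
    (Λ →₀ ZMod 2) →ₗ[ZMod 2] (V →₀ ZMod 2) :=
  Finsupp.lmapDomain _ _ e₀ + Finsupp.lmapDomain _ _ e₁

theorem DualB_bd_single {Λ V : Type} (e₀ e₁ : Λ → V) (l : Λ) (a : ZMod 2) :
    DualB_bd e₀ e₁ (Finsupp.single l a) = Finsupp.single (e₀ l) a + Finsupp.single (e₁ l) a := by
  simp [DualB_bd]

/-- the cuts -/
def DualB_Y {U : Type} [Group U] (w : U) :
    Submodule (ZMod 2) ((U ⧸ Subgroup.zpowers w) →₀ ZMod 2) where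
  carrier := {Z | ∃ φ, AI φ ∧ IsD w φ Z}
  zero_mem' := ⟨0, fun g => by simp, fun f => ⟨0, fun N _ => by simp⟩⟩
  add_mem' := by
    rintro Z Z' ⟨φ, a1, a2⟩ ⟨ψ, b1, b2⟩
    refine ⟨φ + ψ, fun g => ((a1 g).union (b1 g)).subset fun h hh => ?_, fun f => ?_⟩
    · by_contra hc
      simp only [Set.mem_union, Set.mem_setOf_eq, not_or, not_not] at hc
      exact hh (by simp only [Pi.add_apply, hc.1, hc.2])
    · obtain ⟨N₁, h₁⟩ := a2 f
      obtain ⟨N₂, h₂⟩ := b2 f
      refine ⟨N₁ + N₂, fun N hN => ?_⟩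
      rw [Finsupp.add_apply, h₁ N (by omega), h₂ N (by omega)]
      simp only [Pi.add_apply]
      ring
  smul_mem' := by
    rintro a Z ⟨φ, a1, a2⟩
    refine ⟨a • φ, fun g => (a1 g).subset fun h hh e => hh ?_, fun f => ?_⟩
    · simp only [Pi.smul_apply, e]
    · obtain ⟨N₁, h₁⟩ := a2 f
      refine ⟨N₁, fun N hN => ?_⟩
      rw [Finsupp.smul_apply, h₁ N hN, smul_add]
      rfl

theorem planar_of_sys {P U : Type} [Group P] [Group U] {L₀ L : List (P × P)} {c s : P}
    (h₀ : IsSys L₀) (p : P →* U) (hp : Function.Surjective p) (hK : Kill p L₀)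
    (hker : ∀ γ, p γ = 1 → γ ∈ Subgroup.normalClosure (mers L₀)) (h₁ : IsSys ((c, s) :: L))
    (hw : ∀ n : ℤ, p c ^ n = 1 → n = 0) : Planar (p c) := by
  classical
  have q1 : ∀ (f : U) (n : ℤ), (QuotientGroup.mk (f * p c ^ n) : U ⧸ Subgroup.zpowers (p c)) =
      QuotientGroup.mk f := fun f n =>
    QuotientGroup.mk_mul_of_mem f (Subgroup.zpow_mem_zpowers _ _)
  have q2 : ∀ f : U, f • (QuotientGroup.mk 1 : U ⧸ Subgroup.zpowers (p c)) = QuotientGroup.mk f :=
    fun f => by rw [MulAction.Quotient.smul_mk, smul_eq_mul, mul_one]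
  have hy : p c • (QuotientGroup.mk 1 : U ⧸ Subgroup.zpowers (p c)) = QuotientGroup.mk 1 := by
    rw [q2, ← q1 1 1, one_mul, zpow_one]
  obtain ⟨u, hu, uc, us, uL⟩ := cocycle_u h₁ p _ hy
  change ∀ γ δ, u (γ * δ) = u γ + DualB_act (p γ) (u δ) at hu
  have hcH : c ∈ DualB_H hu := uc
  have hsH : s⁻¹ * c * s ∈ DualB_H hu := by
    show u (s⁻¹ * c * s) = 0
    rw [hu, hu, uc, DualB_act_zero, add_zero, DualB_u_inv hu, map_mul, ← DualB_act_mul, us,
      DualB_act_single (p c), hy, map_inv, DualB_two]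
  let B : Subgroup U := (DualB_H hu).map p
  let e₀ : U ⧸ Subgroup.zpowers (p c) → U ⧸ B := fun l => Quotient.liftOn' l
    (fun f => (QuotientGroup.mk f : U ⧸ B)) fun f g h => QuotientGroup.eq.2
      ((Subgroup.zpowers_le.2 (Subgroup.mem_map_of_mem p hcH)) (QuotientGroup.leftRel_apply.1 h))
  let e₁ : U ⧸ Subgroup.zpowers (p c) → U ⧸ B := fun l => Quotient.liftOn' l
    (fun f => (QuotientGroup.mk (f * p s) : U ⧸ B)) fun f g h => QuotientGroup.eq.2 (by
      obtain ⟨n, hn⟩ := Subgroup.mem_zpowers_iff.1 (QuotientGroup.leftRel_apply.1 h)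
      have h1 := B.zpow_mem (Subgroup.mem_map_of_mem p hsH) n
      have h2 : (f * p s)⁻¹ * (g * p s) = (p s)⁻¹ * (f⁻¹ * g) * (p s)⁻¹⁻¹ := by group
      rwa [h2, ← hn, ← conj_zpow, inv_inv, ← map_inv, ← map_mul, ← map_mul])
  have b0 : ∀ δ ∈ DualB_H hu, ∀ h : U, DualB_bd e₀ e₁ (DualB_act h (u δ)) =
      Finsupp.single (QuotientGroup.mk h) 1 + Finsupp.single (QuotientGroup.mk (h * p δ)) 1 := by
    intro δ hδ h
    rw [show u δ = 0 from hδ, DualB_act_zero, map_zero,
      QuotientGroup.mk_mul_of_mem h (Subgroup.mem_map_of_mem p hδ), DualB_two]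
  have b1 : ∀ (γ : P) (h : U), DualB_bd e₀ e₁ (DualB_act h (u γ)) =
      Finsupp.single (QuotientGroup.mk h) 1 + Finsupp.single (QuotientGroup.mk (h * p γ)) 1 := by
    intro γ
    have hγ : γ ∈ Subgroup.closure (gens ((c, s) :: L)) := h₁.gen ▸ Subgroup.mem_top γ
    induction hγ using Subgroup.closure_induction with
    | mem x hx =>
      obtain ⟨q, hq, hx⟩ := hx
      rcases List.mem_cons.1 hq with rfl | hq
      · rcases hx with rfl | rfl
        · exact b0 _ hcH
        · intro h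
          rw [us, DualB_act_single, q2, DualB_bd_single]
          rfl
      · rcases hx with rfl | rfl
        · exact b0 _ (uL q hq).1
        · exact b0 _ (uL q hq).2
    | one => exact b0 _ (one_mem _)
    | mul x y _ _ hx hy =>
      intro h
      rw [hu, DualB_act_add, map_add, DualB_act_mul, hx, hy, map_mul, mul_assoc h, add_assoc,
        ← add_assoc (Finsupp.single _ 1) (Finsupp.single _ 1) (Finsupp.single _ 1), DualB_two,
        zero_add]
    | inv x _ hx =>
      intro h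
      rw [DualB_u_inv hu, DualB_act_mul, hx, inv_mul_cancel_right, map_inv, add_comm]
  have F : ∀ (φ : U → ZMod 2) (hφ : AI φ), IsD (p c) φ
      (L₀.map fun q => DualB_T hφ (p q.1) (u (q.1⁻¹ * q.2 * q.1))).sum := by
    intro φ hφ f
    have h := cup_eq (fun γ δ => DualB_T hφ (p γ) (u δ) (QuotientGroup.mk f))
      (fun a b c => by rw [← Finsupp.add_apply, DualB_T_coc hu, Finsupp.add_apply])
      (DualB_H hu) p.ker
      (fun γ δ hδ => by rw [show u δ = 0 from hδ, DualB_T_zero, Finsupp.zero_apply])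
      (fun k hk γ => by
        rw [show p k = 1 from hk, DualB_T, DualB_D_one, map_zero, Finsupp.zero_apply])
      h₀ hK h₁ hcH hsH uL
    obtain ⟨N₀, hN⟩ := DualB_tele hφ hw f
      (fun h => Finsupp.single (QuotientGroup.mk h : U ⧸ Subgroup.zpowers (p c)) (1 : ZMod 2)
        (QuotientGroup.mk f)) (fun n => by rw [q1, Finsupp.single_eq_same]) (fun h hh => by
        have e := (Finsupp.single_apply_ne_zero.1 hh).1
        obtain ⟨n, hn⟩ := Subgroup.mem_zpowers_iff.1 (QuotientGroup.eq.1 e)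
        exact ⟨n, by rw [hn, mul_inv_cancel_left]⟩)
    refine ⟨N₀, fun N hN' => ?_⟩
    rw [← hN N hN', ← Finsupp.applyAddHom_apply, map_list_sum, List.map_map]
    refine h.symm.trans ?_
    rw [DualB_T, map_inv, Finsupp.linearCombination_apply, Finsupp.linearCombination_apply,
      Finsupp.sum, Finsupp.sum, Finsupp.finset_sum_apply]
    refine Finset.sum_congr rfl fun x _ => ?_
    rw [us, DualB_act_single, q2, ← zpow_neg_one, q1, Finsupp.smul_apply]
  have conj : ∀ q ∈ L₀, u (q.1⁻¹ * q.2 * q.1) = DualB_act (p q.1)⁻¹ (u q.2) := fun q hq => by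
    rw [← map_inv, ← DualB_u_conj hu q.1⁻¹ (hK q hq), inv_inv]
  refine ⟨U ⧸ B, e₀, e₁, fun φ hφ => ⟨_, F φ hφ, ?_⟩, fun Z hZ => ?_⟩
  · refine (LinearMap.ker (DualB_bd e₀ e₁)).list_sum_mem fun Z hZ => ?_
    obtain ⟨q, hq, rfl⟩ := List.mem_map.1 hZ
    refine DualB_T_mem hφ _ _ fun h => ?_
    rw [LinearMap.mem_ker, conj q hq, DualB_act_mul, b1, hK q hq, mul_one, DualB_two]
  have m1 : ∀ q ∈ L₀, ∀ h : U, DualB_act h (u q.2) ∈ DualB_Y (p c) := by
    intro q hq h
    have cq := conj q hq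
    obtain ⟨A, C, rfl⟩ := List.append_of_mem hq
    obtain ⟨φ, hφ, f1, f2⟩ := fox_phi h₀ p hp hK hker h
    refine ⟨φ, hφ, ?_⟩
    have z : ∀ M : List (P × P), (∀ r ∈ M, r ∈ A ++ C) →
        (M.map fun q => DualB_T hφ (p q.1) (u (q.1⁻¹ * q.2 * q.1))).sum = 0 := fun M hM =>
      List.sum_eq_zero fun Z hZ => by
        obtain ⟨r, hr, rfl⟩ := List.mem_map.1 hZ
        have : DualB_D hφ (p r.1) = 0 := by
          ext x
          rw [DualB_D_apply, f2 r (hM r hr)]
          exact CharTwo.add_self_eq_zero _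
        rw [DualB_T, this, map_zero]
    have d : DualB_D hφ (p q.1) = Finsupp.single h 1 := by
      ext x
      rw [DualB_D_apply, f1, Finsupp.single_apply]
      simp only [eq_comm]
    have := F φ hφ
    rwa [List.map_append, List.sum_append, List.map_cons, List.sum_cons,
      z A fun r hr => List.mem_append_left _ hr, z C fun r hr => List.mem_append_right _ hr,
      zero_add, add_zero, DualB_T, d, Finsupp.linearCombination_single, one_smul, cq,
      DualB_act_mul, mul_inv_cancel_right] at this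
  let Nk : Subgroup P :=
    { carrier := {k | p k = 1 ∧ ∀ h : U, DualB_act h (u k) ∈ DualB_Y (p c)}
      one_mem' := ⟨map_one p, fun h => by
        rw [DualB_u_one hu, DualB_act_zero]
        exact zero_mem _⟩
      mul_mem' := fun {a b} ha hb => ⟨by rw [map_mul, ha.1, hb.1, mul_one], fun h => by
        rw [hu, DualB_act_add, DualB_act_mul]
        exact add_mem (ha.2 _) (hb.2 _)⟩
      inv_mem' := fun {a} ha => ⟨by rw [map_inv, ha.1, inv_one], fun h => by
        rw [DualB_u_inv hu, DualB_act_mul]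
        exact ha.2 _⟩ }
  haveI : Nk.Normal := ⟨fun k hk γ => ⟨by
    rw [map_mul, map_mul, hk.1, mul_one, map_inv, mul_inv_cancel], fun h => by
    rw [DualB_u_conj hu γ hk.1, DualB_act_mul]
    exact hk.2 _⟩⟩
  have m2 : ∀ k, p k = 1 → u k ∈ DualB_Y (p c) := fun k hk => by
    have h := Subgroup.normalClosure_le_normal (N := Nk) (s := mers L₀)
      (by
        rintro _ ⟨q, hq, rfl⟩
        exact ⟨hK q hq, m1 q hq⟩) (hker k hk)
    have := h.2 1
    rwa [DualB_act_one] at this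
  have m3 : ∀ γ δ, p γ = p δ → (DualB_Y (p c)).mkQ (u γ) = (DualB_Y (p c)).mkQ (u δ) := by
    intro γ δ h
    have k : p (γ * δ⁻¹) = 1 := by rw [map_mul, map_inv, h, mul_inv_cancel]
    have e := hu (γ * δ⁻¹) δ
    rw [inv_mul_cancel_right, k, DualB_act_one] at e
    rw [e, map_add, Submodule.mkQ_apply, (Submodule.Quotient.mk_eq_zero _).2 (m2 _ k), zero_add]
  let Sv : U ⧸ B → _ ⧸ DualB_Y (p c) := fun v => Quotient.liftOn' v
    (fun g => (DualB_Y (p c)).mkQ (u (Function.surjInv hp g))) fun f g h => by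
      obtain ⟨δ, hδ, e⟩ := Subgroup.mem_map.1 (QuotientGroup.leftRel_apply.1 h)
      have e1 := hu (Function.surjInv hp f) δ
      rw [show u δ = 0 from hδ, DualB_act_zero, add_zero] at e1
      rw [← e1]
      refine m3 _ _ ?_
      rw [map_mul, Function.surjInv_eq hp, Function.surjInv_eq hp, e, mul_inv_cancel_left]
  have m4 : ∀ γ, Sv (QuotientGroup.mk (p γ)) = (DualB_Y (p c)).mkQ (u γ) := fun γ =>
    m3 _ _ (Function.surjInv_eq hp _)
  have m5 : ∀ Z, Finsupp.linearCombination (ZMod 2) Sv (DualB_bd e₀ e₁ Z) =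
      (DualB_Y (p c)).mkQ Z := by
    intro Z
    induction Z using Finsupp.induction_linear with
    | zero => simp only [map_zero]
    | add a b ha hb => simp only [map_add, ha, hb]
    | single l a =>
      obtain ⟨f, rfl⟩ := QuotientGroup.mk_surjective l
      obtain ⟨γ, rfl⟩ := hp f
      have a0 : e₀ (QuotientGroup.mk (p γ)) = QuotientGroup.mk (p γ) := rfl
      have a1 : e₁ (QuotientGroup.mk (p γ)) = QuotientGroup.mk (p (γ * s)) := by
        rw [map_mul]
        rfl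
      rw [DualB_bd_single, map_add, Finsupp.linearCombination_single,
        Finsupp.linearCombination_single, a0, a1, m4, m4, ← smul_add, ← map_add, hu, ← add_assoc,
        DualB_two, zero_add, us, DualB_act_single, q2, ← map_smul, Finsupp.smul_single,
        smul_eq_mul, mul_one]
  have h := m5 Z
  rw [show DualB_bd e₀ e₁ Z = 0 from hZ, map_zero] at h
  exact (Submodule.Quotient.mk_eq_zero _).1 h.symm

end Pool.Agent.Work.MP_7ba843_gt.N
end

-- merged part: Pool.Agent.Work.MP_7ba843_gt.N.K33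
section
/-! The complete bipartite graph on three and three vertices has no abstract dual.

PLAN. `k33_count`: for a vertex `v` let `St v` be the set of `e` with `α e = v ∨ β e = v`. Rows
and columns of `St v` are even, so `St v = ∅` or `4 ≤ card` (`decide` over
`Finset (Fin 3 × Fin 3)` or over functions to `Bool`). For `v₀ = α (0,0)` the other ends of the
edges of `St v₀` are distinct and differ from `v₀`: five vertices of degree at least four, while
the degree sum over any finite set of vertices is at most `18`.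
`k33`: the `l i j` are distinct and not `Int` (rows, columns). `O` = lines neither `Int` nor chosen,
`W` = image under `bd` (linear) of `Finsupp.supported _ _ O`, `C = (V →₀ ZMod 2) ⧸ W`,
`cl v = mk (single v 1)`, `α e = cl (e₀ (l e))`, `β e = cl (e₁ (l e))`. A loop or a pair of
parallel edges gives `Z = single (l e) 1 (+ single (l e') 1) + Y`, `Y` supported in `O`, with
`bd Z = 0`, against `hcut` (`decide`: `a i + b j` never has support of size one or two). Parity: pair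
`bd Z = 0` with the indicator `χ` of `{v | cl v = U}` (`Finsupp.linearCombination`); `χ` agrees on
the two ends of an `O`-line. About 220 lines. -/

namespace Pool.Agent.Work.MP_7ba843_gt.N

theorem K33_nine : ∀ a b c d e f g h i : ZMod 2, a + b + c = 0 → d + e + f = 0 → g + h + i = 0 →
    a + d + g = 0 → b + e + h = 0 → c + f + i = 0 →
    a.val + b.val + c.val + (d.val + e.val + f.val) + (g.val + h.val + i.val) = 0 ∨
      4 ≤ a.val + b.val + c.val + (d.val + e.val + f.val) + (g.val + h.val + i.val) := by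
  decide

theorem K33_even (f : Fin 3 × Fin 3 → ZMod 2) (hr : ∀ i, ∑ j, f (i, j) = 0)
    (hc : ∀ j, ∑ i, f (i, j) = 0) : ∑ e, (f e).val = 0 ∨ 4 ≤ ∑ e, (f e).val := by
  simp only [Fin.sum_univ_three] at hr hc
  rw [Fintype.sum_prod_type]
  simp only [Fin.sum_univ_three]
  exact K33_nine _ _ _ _ _ _ _ _ _ (hr 0) (hr 1) (hr 2) (hc 0) (hc 1) (hc 2)

theorem K33_one : ∀ e : Fin 3 × Fin 3, ∃ i i' j j' : Fin 3,
    ((if (i, j) = e then 1 else 0) + (if (i, j') = e then 1 else 0) +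
      (if (i', j) = e then 1 else 0) + if (i', j') = e then 1 else 0 : ZMod 2) ≠ 0 := by
  decide

theorem K33_pair : ∀ e e' : Fin 3 × Fin 3, e ≠ e' → ∃ i i' j j' : Fin 3,
    (((if (i, j) = e then 1 else 0) + if (i, j) = e' then 1 else 0) +
      ((if (i, j') = e then 1 else 0) + if (i, j') = e' then 1 else 0) +
      ((if (i', j) = e then 1 else 0) + if (i', j) = e' then 1 else 0) +
      ((if (i', j') = e then 1 else 0) + if (i', j') = e' then 1 else 0) : ZMod 2) ≠ 0 := by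
  decide

theorem K33_two {M : Type} [AddCommGroup M] [Module (ZMod 2) M] (x : M) : x + x = 0 := by
  have h : (2 : ZMod 2) = 0 := rfl
  rw [← two_smul (ZMod 2) x, h, zero_smul]

theorem K33_eq {M : Type} [AddCommGroup M] [Module (ZMod 2) M] {x y : M} (h : x + y = 0) :
    x = y := by
  rw [← add_zero x, ← K33_two y, ← add_assoc, h, zero_add]

open Classical in
theorem k33_count {C : Type} (α β : Fin 3 × Fin 3 → C) (h1 : ∀ e, α e ≠ β e)
    (h2 : ∀ e e', e ≠ e' → ¬ (α e = α e' ∧ β e = β e') ∧ ¬ (α e = β e' ∧ β e = α e'))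
    (hr : ∀ v i, ∑ j, ((if α (i, j) = v then 1 else 0) + if β (i, j) = v then 1 else 0 : ZMod 2)
      = 0)
    (hc : ∀ v j, ∑ i, ((if α (i, j) = v then 1 else 0) + if β (i, j) = v then 1 else 0 : ZMod 2)
      = 0) : False := by
  let d : C → Fin 3 × Fin 3 → ℕ := fun v e =>
    (if α e = v then 1 else 0) + if β e = v then 1 else 0
  have hd : ∀ v, ∑ e, d v e = 0 ∨ 4 ≤ ∑ e, d v e := fun v => by
    have h := K33_even
      (fun e => (if α e = v then 1 else 0) + if β e = v then 1 else 0) (hr v) (hc v)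
    have e1 : ∀ e, ((if α e = v then 1 else 0) + if β e = v then 1 else 0 : ZMod 2).val =
        d v e := fun e => by
      have := h1 e
      by_cases a : α e = v <;> by_cases b : β e = v
      · exact absurd (a.trans b.symm) this
      all_goals simp only [d, a, b, if_true, if_false]; rfl
    simpa only [e1] using h
  have hs : ∀ S : Finset C, ∑ v ∈ S, ∑ e, d v e ≤ 18 := fun S => by
    rw [Finset.sum_comm]
    refine (Finset.sum_le_sum (g := fun _ => 2) fun e _ => ?_).trans (by simp)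
    simp only [d, Finset.sum_add_distrib, Finset.sum_ite_eq]
    split_ifs <;> omega
  have h4 : ∀ v e, α e = v ∨ β e = v → 4 ≤ ∑ e, d v e := fun v e h => by
    refine (hd v).resolve_left fun h0 => ?_
    have := Finset.sum_eq_zero_iff.1 h0 e (Finset.mem_univ e)
    rcases h with h | h <;> simp [d, h] at this
  obtain ⟨v, hv⟩ : ∃ v, α (0, 0) = v := ⟨_, rfl⟩
  let St : Finset (Fin 3 × Fin 3) := Finset.univ.filter fun e => α e = v ∨ β e = v
  let o : Fin 3 × Fin 3 → C := fun e => if α e = v then β e else α e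
  have hSt : ∀ e, e ∈ St → α e = v ∨ β e = v := fun e he => (Finset.mem_filter.1 he).2
  have hcard : 4 ≤ St.card := by
    refine (h4 v _ (Or.inl hv)).trans (le_of_eq ?_)
    rw [Finset.card_filter]
    refine Finset.sum_congr rfl fun e _ => ?_
    have := h1 e
    by_cases a : α e = v <;> by_cases b : β e = v
    · exact absurd (a.trans b.symm) this
    all_goals simp [d, a, b]
  have hinj : Set.InjOn o St := by
    intro e he e' he' h
    by_contra hne
    obtain ⟨p, q⟩ := h2 e e' hne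
    have a1 := hSt e he
    have a2 := hSt e' he'
    simp only [o] at h
    by_cases a : α e = v <;> by_cases b : α e' = v
    · rw [if_pos a, if_pos b] at h
      exact p ⟨a.trans b.symm, h⟩
    · rw [if_pos a, if_neg b] at h
      exact q ⟨a.trans (a2.resolve_left b).symm, h⟩
    · rw [if_neg a, if_pos b] at h
      exact q ⟨h, (a1.resolve_left a).trans b.symm⟩
    · rw [if_neg a, if_neg b] at h
      exact p ⟨h, (a1.resolve_left a).trans (a2.resolve_left b).symm⟩
  have hno : v ∉ St.image o := by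
    intro h
    obtain ⟨e, -, he⟩ := Finset.mem_image.1 h
    simp only [o] at he
    split_ifs at he with a
    · exact h1 e (a.trans he.symm)
    · exact a he
  have h5 : 5 ≤ (insert v (St.image o)).card := by
    rw [Finset.card_insert_of_notMem hno, Finset.card_image_of_injOn hinj]
    omega
  have h6 := Finset.card_nsmul_le_sum (insert v (St.image o)) (fun u => ∑ e, d u e) 4 (by
    intro u hu
    rcases Finset.mem_insert.1 hu with rfl | hu
    · exact h4 _ _ (Or.inl hv)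
    · obtain ⟨e, -, rfl⟩ := Finset.mem_image.1 hu
      refine h4 _ e ?_
      simp only [o]
      split_ifs
      exacts [Or.inr rfl, Or.inl rfl])
  have h7 := hs (insert v (St.image o))
  rw [smul_eq_mul] at h6
  omega

theorem k33 {Λ V : Type} (e₀ e₁ : Λ → V) (Int : Λ → Prop) (l : Fin 3 → Fin 3 → Λ)
    (hrow : ∀ i, ∃ Z, bd e₀ e₁ Z = 0 ∧ (∀ x, Int x → Z x = 0) ∧
      ∀ i' j, Z (l i' j) = if i' = i then 1 else 0)
    (hcol : ∀ j, ∃ Z, bd e₀ e₁ Z = 0 ∧ (∀ x, Int x → Z x = 0) ∧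
      ∀ i j', Z (l i j') = if j' = j then 1 else 0)
    (hcut : ∀ Z, bd e₀ e₁ Z = 0 → (∀ x, Int x → Z x = 0) →
      ∃ a b : Fin 3 → ZMod 2, ∀ i j, Z (l i j) = a i + b j) : False := by
  classical
  have hI : ∀ e : Fin 3 × Fin 3, ¬ Int (l e.1 e.2) := fun e h => by
    obtain ⟨Z, -, h1, h2⟩ := hrow e.1
    have := h2 e.1 e.2
    rw [h1 _ h, if_pos rfl] at this
    exact zero_ne_one this
  have hl : ∀ e e' : Fin 3 × Fin 3, l e.1 e.2 = l e'.1 e'.2 → e = e' := fun e e' h => by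
    obtain ⟨Z, -, -, h2⟩ := hrow e.1
    obtain ⟨Z', -, -, h3⟩ := hcol e.2
    have a := h2 e'.1 e'.2
    have b := h3 e'.1 e'.2
    rw [← h, h2, if_pos rfl] at a
    rw [← h, h3, if_pos rfl] at b
    refine Prod.ext (by_contra fun k => ?_) (by_contra fun k => ?_)
    · rw [if_neg (Ne.symm k)] at a
      exact one_ne_zero a
    · rw [if_neg (Ne.symm k)] at b
      exact one_ne_zero b
  let O : Set Λ := {x | ¬ Int x ∧ ∀ e : Fin 3 × Fin 3, l e.1 e.2 ≠ x}
  let B : (Λ →₀ ZMod 2) →ₗ[ZMod 2] V →₀ ZMod 2 :=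
    Finsupp.lmapDomain _ _ e₀ + Finsupp.lmapDomain _ _ e₁
  have hB : ∀ Z, bd e₀ e₁ Z = B Z := fun Z => rfl
  have hB1 : ∀ x, B (Finsupp.single x 1) =
      Finsupp.single (e₀ x) 1 + Finsupp.single (e₁ x) 1 := fun x => by
    rw [← hB, bd, Finsupp.mapDomain_single, Finsupp.mapDomain_single]
  let W : Submodule (ZMod 2) (V →₀ ZMod 2) := (Finsupp.supported (ZMod 2) (ZMod 2) O).map B
  let cl : V → (V →₀ ZMod 2) ⧸ W := fun v => W.mkQ (Finsupp.single v 1)
  let X : (Fin 3 × Fin 3 → ZMod 2) → Λ →₀ ZMod 2 := fun c =>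
    ∑ e, c e • Finsupp.single (l e.1 e.2) 1
  have hX1 : ∀ c e, X c (l e.1 e.2) = c e := fun c e => by
    simp only [X, Finsupp.finsetSum_apply, Finsupp.smul_apply]
    rw [Finset.sum_eq_single e]
    · simp
    · intro e' _ h
      rw [Finsupp.single_eq_of_ne' fun k => h (hl _ _ k), smul_zero]
    · simp
  have hX0 : ∀ c x, (∀ e : Fin 3 × Fin 3, l e.1 e.2 ≠ x) → X c x = 0 := fun c x h => by
    simp only [X, Finsupp.finsetSum_apply, Finsupp.smul_apply]
    exact Finset.sum_eq_zero fun e _ => by rw [Finsupp.single_eq_of_ne' (h e), smul_zero]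
  have hsup : ∀ Y ∈ Finsupp.supported (ZMod 2) (ZMod 2) O, ∀ x, x ∉ O → Y x = 0 :=
    fun Y hY => (Finsupp.mem_supported' _ _).1 hY
  have key : ∀ c : Fin 3 × Fin 3 → ZMod 2,
      ∑ e, c e • (cl (e₀ (l e.1 e.2)) + cl (e₁ (l e.1 e.2))) = 0 →
      ∀ i i' j j', c (i, j) + c (i, j') + c (i', j) + c (i', j') = 0 := by
    intro c hc i i' j j'
    have h1 : W.mkQ (B (X c)) = 0 := by
      rw [← hc]
      simp only [X, cl, map_sum, map_smul, hB1, map_add]
    obtain ⟨Y, hY, e⟩ := (Submodule.Quotient.mk_eq_zero W).1 h1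
    obtain ⟨a, b, hab⟩ := hcut (X c - Y) (by rw [hB, map_sub, e, sub_self]) fun x hx => by
      rw [Finsupp.sub_apply, hX0 c x fun e k => hI e (k ▸ hx), hsup Y hY x fun k => k.1 hx,
        sub_self]
    have h2 : ∀ i j, c (i, j) = a i + b j := fun i j => by
      rw [← hab, Finsupp.sub_apply, hX1 c (i, j), hsup Y hY _ fun k => k.2 (i, j) rfl, sub_zero]
    rw [h2, h2, h2, h2]
    linear_combination K33_two (a i + a i' + b j + b j')
  have par : ∀ Z, bd e₀ e₁ Z = 0 → (∀ x, Int x → Z x = 0) → ∀ U,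
      ∑ e : Fin 3 × Fin 3, Z (l e.1 e.2) * ((if cl (e₀ (l e.1 e.2)) = U then 1 else 0) +
        if cl (e₁ (l e.1 e.2)) = U then 1 else 0) = 0 := by
    intro Z h0 hZ U
    let φ : (V →₀ ZMod 2) →ₗ[ZMod 2] ZMod 2 :=
      Finsupp.linearCombination (ZMod 2) fun v => if cl v = U then 1 else 0
    have hφ : ∀ x, φ (B (Finsupp.single x 1)) =
        (if cl (e₀ x) = U then 1 else 0) + if cl (e₁ x) = U then 1 else 0 := fun x => by
      simp only [φ, hB1, map_add, Finsupp.linearCombination_single, one_smul]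
    have h1 : Finsupp.supported (ZMod 2) (ZMod 2) O ≤ LinearMap.ker (φ ∘ₗ B) := by
      conv_lhs => rw [Finsupp.supported_eq_span_single]
      rw [Submodule.span_le]
      rintro _ ⟨x, hx, rfl⟩
      have h2 : cl (e₀ x) = cl (e₁ x) := by
        refine K33_eq ?_
        simp only [cl]
        rw [← map_add, ← hB1]
        exact (Submodule.Quotient.mk_eq_zero W).2
          ⟨_, Finsupp.single_mem_supported _ _ hx, rfl⟩
      show φ (B (Finsupp.single x 1)) = 0
      rw [hφ, h2, K33_two]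
    have h3 : Z - X (fun e => Z (l e.1 e.2)) ∈ Finsupp.supported (ZMod 2) (ZMod 2) O := by
      refine (Finsupp.mem_supported' _ _).2 fun x hx => ?_
      rw [Finsupp.sub_apply]
      by_cases k : ∀ e : Fin 3 × Fin 3, l e.1 e.2 ≠ x
      · rw [hX0 _ x k, hZ x (by_contra fun k' => hx ⟨k', k⟩), sub_self]
      · obtain ⟨e, he⟩ := not_forall.1 k
        rw [← not_not.1 he, hX1, sub_self]
    have h4 : φ (B (Z - X fun e => Z (l e.1 e.2))) = 0 := h1 h3
    rw [map_sub, ← hB Z, h0, zero_sub, map_neg, neg_eq_zero] at h4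
    refine Eq.trans ?_ h4
    simp only [X, map_sum, map_smul, hφ, smul_eq_mul]
  refine k33_count (fun e => cl (e₀ (l e.1 e.2))) (fun e => cl (e₁ (l e.1 e.2))) ?_ ?_ ?_ ?_
  · intro e h
    obtain ⟨i, i', j, j', k⟩ := K33_one e
    refine k (key (fun x => if x = e then 1 else 0) ?_ i i' j j')
    simp only [ite_smul, one_smul, zero_smul, Finset.sum_ite_eq', Finset.mem_univ, if_true]
    rw [h, K33_two]
  · intro e e' hne
    obtain ⟨i, i', j, j', k⟩ := K33_pair e e' hne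
    have h : ¬ cl (e₀ (l e.1 e.2)) + cl (e₁ (l e.1 e.2)) =
        cl (e₀ (l e'.1 e'.2)) + cl (e₁ (l e'.1 e'.2)) := fun h => by
      refine k (key (fun x => (if x = e then 1 else 0) + if x = e' then 1 else 0) ?_ i i' j j')
      simp only [add_smul, Finset.sum_add_distrib, ite_smul, one_smul, zero_smul,
        Finset.sum_ite_eq', Finset.mem_univ, if_true]
      rw [h, K33_two]
    exact ⟨fun k => h (congrArg₂ (· + ·) k.1 k.2),
      fun k => h ((congrArg₂ (· + ·) k.1 k.2).trans (add_comm _ _))⟩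
  · intro U i
    obtain ⟨Z, h0, h1, h2⟩ := hrow i
    have h := par Z h0 h1 U
    rw [Fintype.sum_prod_type, Finset.sum_eq_single i] at h
    · simpa only [h2, if_true, one_mul] using h
    · intro i' _ hi
      simp only [h2, if_neg hi, zero_mul, Finset.sum_const_zero]
    · simp
  · intro U j
    obtain ⟨Z, h0, h1, h2⟩ := hcol j
    have h := par Z h0 h1 U
    rw [Fintype.sum_prod_type_right, Finset.sum_eq_single j] at h
    · simpa only [h2, if_true, one_mul] using h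
    · intro j' _ hj
      simp only [h2, if_neg hj, zero_mul, Finset.sum_const_zero]
    · simp

end Pool.Agent.Work.MP_7ba843_gt.N
end

-- merged part: Pool.Agent.Work.MP_7ba843_gt.N.Tree
section
/-! A rich line pattern in the tree of the free group is not planar.

PLAN. `cone r = {x | r <+: x.toWord}`. Six cones: `[s]` for the three letters `s ≠ (0, true)`,
`[(0, true), s']` for the three `s' ≠ (0, false)`; they are pairwise disjoint. The indicator of a
cone is `AI` (a step by one letter changes membership only between `r.dropLast` and `r`, or only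
for words of bounded norm; `AI` for generators implies `AI`), and its restriction along `ι` is `AI`.
`Int x := ∃ f, mk f = x ∧ ∃ r among the six, ∀ᶠ N, ι (f w ^ N), ι (f (w ^ N)⁻¹) ∈ cone r`.
`l i j = mk h` from `h3` (`v = 1`). Rows, columns: first half of `Planar` for the indicators.
Cuts: `φ₀` from the second half, `φ` from `hext`. There is `R` with `φ (x * of a) = φ x` when
`norm x ≥ R` (finite sets), so `φ` is constant on `cone r` if `r` is reduced of length `> R`.
Downward induction on the length: for reduced `r` extending one of the six, `∃ m`, `φ = m` on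
`cone r` outside a finite set: for children `s ≠ s'` the line of `h2 (mk r) s s'` has its ends in
`cone (r ++ [s])`, `cone (r ++ [s'])` (`IsReduced.append_overlap`), is `Int`, and
`N ↦ ι (h w ^ N)` is injective, so `m s = m s'`. Use `red_of_inf`, `toWord_mk_red`.
About 350 lines. -/

namespace Pool.Agent.Work.MP_7ba843_gt.N

open FreeGroup Filter

theorem Tree_step (x : F2) (s : Fin 2 × Bool) :
    (x * mk [s]).toWord = x.toWord ++ [s] ∨
      x.toWord = (x * mk [s]).toWord ++ [(s.1, !s.2)] := by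
  obtain ⟨L, hL, rfl⟩ : ∃ L, IsReduced L ∧ x = mk L := ⟨_, isReduced_toWord, mk_toWord.symm⟩
  rw [mul_mk, toWord_mk_red hL]
  rcases List.eq_nil_or_concat L with rfl | ⟨L', t, rfl⟩
  · exact Or.inl (toWord_mk_red IsReduced.singleton)
  · rw [List.concat_eq_append] at hL ⊢
    by_cases h : t.1 = s.1 → t.2 = s.2
    · refine Or.inl (toWord_mk_red (hL.append_overlap ?_ (List.cons_ne_nil _ _)))
      exact List.isChain_pair.2 h
    · have h1 : t = (s.1, !s.2) := by
        obtain ⟨h1, h2⟩ := Classical.not_imp.1 h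
        exact Prod.ext h1 (Bool.eq_not.2 h2)
      have h2 : mk [t] * mk [s] = (1 : F2) := by
        rw [h1, mul_eq_one_iff_eq_inv, inv_mk]
        rfl
      right
      rw [← mul_mk, ← mul_mk, mul_assoc, h2, mul_one,
        toWord_mk_red (red_of_inf hL ⟨[], [t], by simp⟩), h1]

theorem Tree_fin (n : ℕ) : {x : F2 | x.toWord.length ≤ n}.Finite :=
  (List.finite_length_le (Fin 2 × Bool) n).preimage toWord_injective.injOn

theorem Tree_ai {φ : F2 → ZMod 2} (h : ∀ s, {x | φ (x * mk [s]) ≠ φ x}.Finite) : AI φ := by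
  intro g
  induction g using FreeGroup.induction_on with
  | C1 => simp
  | of a => exact h (a, true)
  | inv_of a _ => exact h (a, false)
  | mul g g' h1 h2 =>
    refine (h1.union (h2.preimage (mul_left_injective g).injOn)).subset fun x hx => ?_
    by_contra hc
    simp only [Set.mem_union, Set.mem_preimage, Set.mem_ofPred_eq, not_or, not_not] at hc
    exact hx (by rw [← mul_assoc, hc.2, hc.1])

/-- the indicator of a cone -/
def Tree_ind (r : List (Fin 2 × Bool)) (x : F2) : ZMod 2 := if r <+: x.toWord then 1 else 0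

theorem Tree_ai_ind (r : List (Fin 2 × Bool)) : AI (Tree_ind r) := by
  refine Tree_ai fun s => (Tree_fin r.length).subset fun x hx => ?_
  by_contra hc
  have h1 : r.length < x.toWord.length := not_le.1 hc
  refine hx (if_congr ?_ rfl rfl)
  rcases Tree_step x s with h | h
  · rw [h, List.prefix_concat_iff]
    refine or_iff_right fun e => ?_
    rw [e, List.length_append] at h1
    omega
  · rw [h, List.prefix_concat_iff]
    refine (or_iff_right fun e => ?_).symm
    rw [h, ← e] at h1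
    omega

theorem Tree_ai_comp {U : Type} [Group U] (ι : U →* F2) (hι : Function.Injective ι)
    {φ : F2 → ZMod 2} (h : AI φ) : AI fun u => φ (ι u) := fun g =>
  ((h (ι g)).preimage hι.injOn).subset fun x hx e =>
    hx ((congrArg φ (ι.map_mul x g)).trans e)

theorem Tree_rad {φ : F2 → ZMod 2} (h : AI φ) :
    ∃ R : ℕ, ∀ x : F2, R ≤ x.toWord.length → ∀ s, φ (x * mk [s]) = φ x := by
  obtain ⟨R, hR⟩ := ((Set.finite_iUnion fun s : Fin 2 × Bool => h (mk [s])).image
    fun x => x.toWord.length).bddAbove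
  refine ⟨R + 1, fun x hx s => ?_⟩
  by_contra hc
  have := hR ⟨x, Set.mem_iUnion.2 ⟨s, hc⟩, rfl⟩
  simp only at this
  omega

theorem Tree_const {φ : F2 → ZMod 2} {R : ℕ}
    (h : ∀ x : F2, R ≤ x.toWord.length → ∀ s, φ (x * mk [s]) = φ x) {r : List (Fin 2 × Bool)}
    (hr : R ≤ r.length) (t : List (Fin 2 × Bool)) (ht : IsReduced (r ++ t)) :
    φ (mk (r ++ t)) = φ (mk r) := by
  induction t using List.reverseRecOn with
  | nil => rw [List.append_nil]
  | append_singleton t s ih =>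
    rw [← List.append_assoc] at ht ⊢
    have h1 : IsReduced (r ++ t) := red_of_inf ht ⟨[], [s], by simp⟩
    rw [← mul_mk, h _ (by rw [toWord_mk_red h1, List.length_append]; omega), ih h1]

/-- the value of `φ` on almost all of the cone of `r` is `m` -/
def Tree_EC (φ : F2 → ZMod 2) (r : List (Fin 2 × Bool)) (m : ZMod 2) : Prop :=
  {x : F2 | r <+: x.toWord ∧ φ x ≠ m}.Finite

theorem Tree_down {φ : F2 → ZMod 2} (h : AI φ) {r₀ : List (Fin 2 × Bool)}
    (hs : ∀ r s s' m m', r₀ <+: r → s ≠ s' → IsReduced (r ++ [s]) → IsReduced (r ++ [s']) →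
      Tree_EC φ (r ++ [s]) m → Tree_EC φ (r ++ [s']) m' → m = m') : ∃ m, Tree_EC φ r₀ m := by
  obtain ⟨R, hR⟩ := Tree_rad h
  have key : ∀ n r, R ≤ List.length r + n → r₀ <+: r → ∃ m, Tree_EC φ r m := by
    intro n
    induction n with
    | zero =>
      refine fun r hr _ => ⟨φ (mk r), Set.finite_empty.subset ?_⟩
      rintro x ⟨⟨t, ht⟩, hx⟩
      exact hx (by rw [← Tree_const hR hr t (ht ▸ isReduced_toWord), ht, mk_toWord])
    | succ n ih =>
      intro r hr hr₀
      choose m hm using fun s => ih (r ++ [s]) (by rw [List.length_append]; simp; omega)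
        (List.prefix_append_of_prefix hr₀)
      obtain ⟨m₀, hm₀⟩ : ∃ m₀, ∀ s, IsReduced (r ++ [s]) → m s = m₀ := by
        by_cases h0 : ∃ s, IsReduced (r ++ [s])
        · obtain ⟨s₀, h0⟩ := h0
          refine ⟨m s₀, fun s h1 => ?_⟩
          by_cases e : s = s₀
          · rw [e]
          · exact hs r s s₀ _ _ hr₀ e h1 h0 (hm s) (hm s₀)
        · exact ⟨0, fun s h1 => absurd ⟨s, h1⟩ h0⟩
      refine ⟨m₀, ((Set.finite_iUnion hm).insert (mk r)).subset ?_⟩
      rintro x ⟨⟨t, ht⟩, hx⟩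
      rcases t with _ | ⟨s, t⟩
      · exact Or.inl (by rw [← mk_toWord (x := x), ← ht, List.append_nil])
      · have h1 : r ++ [s] <+: x.toWord := ⟨t, by rw [← ht]; simp⟩
        refine Or.inr (Set.mem_iUnion.2 ⟨s, h1, ?_⟩)
        rwa [hm₀ s (red_of_inf isReduced_toWord h1.isInfix)]
  exact key R r₀ (Nat.le_add_left _ _) List.prefix_rfl

theorem Tree_ev {φ : F2 → ZMod 2} {r : List (Fin 2 × Bool)} {m : ZMod 2} (h : Tree_EC φ r m)
    {y : ℕ → F2} (hy : Function.Injective y) (hr : ∀ N, 1 ≤ N → r <+: (y N).toWord) :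
    ∀ᶠ N in atTop, φ (y N) = m := by
  have h1 := (h.preimage hy.injOn).compl_mem_cofinite
  rw [Nat.cofinite_eq_atTop] at h1
  filter_upwards [h1, eventually_ge_atTop 1] with N h2 h3
  by_contra hc
  exact h2 ⟨hr N h3, hc⟩

theorem Tree_child {r : List (Fin 2 × Bool)} {s : Fin 2 × Bool} (h : IsReduced (r ++ [s]))
    {x : F2} (hx : [s] <+: ((mk r)⁻¹ * x).toWord) : r ++ [s] <+: x.toWord := by
  obtain ⟨t, ht⟩ := hx
  have h1 : x = mk (r ++ [s] ++ t) := by
    rw [List.append_assoc, ← mul_mk, ht, mk_toWord, mul_inv_cancel_left]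
  rw [h1, toWord_mk_red (h.append_overlap (ht ▸ isReduced_toWord) (List.cons_ne_nil _ _))]
  exact List.prefix_append _ _

theorem Tree_isD {U : Type} [Group U] {w : U} {φ : U → ZMod 2}
    {Z : (U ⧸ Subgroup.zpowers w) →₀ ZMod 2} (h : IsD w φ Z) (f : U) {a b : ZMod 2}
    (ha : ∀ᶠ N in atTop, φ (f * w ^ N) = a) (hb : ∀ᶠ N in atTop, φ (f * (w ^ N)⁻¹) = b) :
    Z (QuotientGroup.mk f) = a + b := by
  obtain ⟨N, h1, h2, h3⟩ := ((eventually_atTop.2 (h f)).and (ha.and hb)).exists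
  rw [h1, h2, h3]

theorem Tree_inj {U : Type} [Group U] {ι : U →* F2} (hι : Function.Injective ι) {w : U}
    (hw : ∀ n : ℤ, w ^ n = 1 → n = 0) (f : U) :
    (Function.Injective fun N : ℕ => ι (f * w ^ N)) ∧
      Function.Injective fun N : ℕ => ι (f * (w ^ N)⁻¹) := by
  have h : ∀ N N' : ℕ, w ^ N = w ^ N' → N = N' := fun N N' e => by
    have := hw ((N : ℤ) - N') (by rw [zpow_sub, zpow_natCast, zpow_natCast, e, mul_inv_cancel])
    omega
  exact ⟨fun N N' e => h N N' (mul_left_cancel (hι e)),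
    fun N N' e => h N N' (inv_injective (mul_left_cancel (hι e)))⟩

/-- the first letters of the rows -/
def Tree_A : Fin 3 → Fin 2 × Bool := ![(0, false), (1, true), (1, false)]

/-- the second letters of the columns -/
def Tree_B : Fin 3 → Fin 2 × Bool := ![(0, true), (1, true), (1, false)]

/-- the six cones -/
def Tree_rho : Fin 3 ⊕ Fin 3 → List (Fin 2 × Bool) :=
  Sum.elim (fun i => [Tree_A i]) fun j => [(0, true), Tree_B j]

theorem Tree_val (u u' : Fin 3 ⊕ Fin 3) {x : F2} (h : Tree_rho u' <+: x.toWord) :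
    Tree_ind (Tree_rho u) x = if u' = u then 1 else 0 := by
  refine if_congr ⟨fun h' => ?_, fun e => e ▸ h⟩ rfl rfl
  have h1 : ∀ v v', Tree_rho v <+: Tree_rho v' → v = v' := by decide
  exact (List.prefix_or_prefix_of_prefix h h').elim (h1 _ _) fun e => (h1 _ _ e).symm

theorem tree_false {U : Type} [Group U] (ι : U →* F2) (hι : Function.Injective ι) (w : U)
    (hw : ∀ n : ℤ, w ^ n = 1 → n = 0)
    (hext : ∀ φ₀ : U → ZMod 2, AI φ₀ → ∃ φ : F2 → ZMod 2, AI φ ∧ ∀ h, φ (ι h) = φ₀ h)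
    (h2 : ∀ v s s', s ≠ s' → Line ι w v [s] [s'])
    (h3 : ∀ s s', s ≠ (0, true) → s' ≠ (0, false) → Line ι w 1 [s] [(0, true), s']) :
    ¬ Planar w := by
  rintro ⟨V, e₀, e₁, hP, hQ⟩
  choose g hg using fun i j => h3 (Tree_A i) (Tree_B j) (by revert i; decide) (by revert j; decide)
  simp only [inv_one, one_mul] at hg
  have h1 : ∀ u, ∃ Z, bd e₀ e₁ Z = 0 ∧ ∀ f v v',
      (∀ N, 1 ≤ N → Tree_rho v <+: (ι (f * w ^ N)).toWord ∧
        Tree_rho v' <+: (ι (f * (w ^ N)⁻¹)).toWord) →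
      Z (QuotientGroup.mk f) = (if v = u then 1 else 0) + if v' = u then 1 else 0 := fun u => by
    obtain ⟨Z, hZ, h0⟩ := hP _ (Tree_ai_comp ι hι (Tree_ai_ind (Tree_rho u)))
    exact ⟨Z, h0, fun f v v' h => Tree_isD hZ f
      ((eventually_ge_atTop 1).mono fun N hN => Tree_val u v (h N hN).1)
      ((eventually_ge_atTop 1).mono fun N hN => Tree_val u v' (h N hN).2)⟩
  refine k33 e₀ e₁ (fun x => ∃ f v, QuotientGroup.mk f = x ∧ ∀ N, 1 ≤ N →
    Tree_rho v <+: (ι (f * w ^ N)).toWord ∧ Tree_rho v <+: (ι (f * (w ^ N)⁻¹)).toWord)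
    (fun i j => QuotientGroup.mk (g i j)) (fun i => ?_) (fun j => ?_) fun Z h0 hZ => ?_
  · obtain ⟨Z, h0, hZ⟩ := h1 (Sum.inl i)
    refine ⟨Z, h0, ?_, fun i' j => ?_⟩
    · rintro _ ⟨f, v, rfl, h⟩
      rw [hZ f v v h, CharTwo.add_self_eq_zero]
    · rw [hZ _ (Sum.inl i') (Sum.inr j) (hg i' j)]
      simp
  · obtain ⟨Z, h0, hZ⟩ := h1 (Sum.inr j)
    refine ⟨Z, h0, ?_, fun i j' => ?_⟩
    · rintro _ ⟨f, v, rfl, h⟩
      rw [hZ f v v h, CharTwo.add_self_eq_zero]
    · rw [hZ _ (Sum.inl i) (Sum.inr j') (hg i j')]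
      simp
  · obtain ⟨φ₀, ha, hD⟩ := hQ Z h0
    obtain ⟨φ, hφ, he⟩ := hext φ₀ ha
    have h4 : ∀ (f : U) r r' m m', Tree_EC φ r m → Tree_EC φ r' m' →
        (∀ N, 1 ≤ N → r <+: (ι (f * w ^ N)).toWord ∧ r' <+: (ι (f * (w ^ N)⁻¹)).toWord) →
        Z (QuotientGroup.mk f) = m + m' := fun f r r' m m' hm hm' h => by
      refine Tree_isD hD f ?_ ?_
      · simpa only [he] using Tree_ev hm (Tree_inj hι hw f).1 fun N hN => (h N hN).1
      · simpa only [he] using Tree_ev hm' (Tree_inj hι hw f).2 fun N hN => (h N hN).2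
    choose m hm using fun u => Tree_down hφ (r₀ := Tree_rho u)
      fun r s s' m m' hr hs k k' hm hm' => by
        obtain ⟨f, hf⟩ := h2 (mk r) s s' hs
        have h5 := fun N hN => And.intro (Tree_child k (hf N hN).1) (Tree_child k' (hf N hN).2)
        have h6 := hZ _ ⟨f, u, rfl, fun N hN =>
          ⟨(List.prefix_append_of_prefix hr).trans (h5 N hN).1,
            (List.prefix_append_of_prefix hr).trans (h5 N hN).2⟩⟩
        rw [h4 f _ _ m m' hm hm' h5] at h6
        exact CharTwo.add_eq_zero.1 h6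
    exact ⟨fun i => m (Sum.inl i), fun j => m (Sum.inr j), fun i j =>
      h4 _ _ _ _ _ (hm (Sum.inl i)) (hm (Sum.inr j)) (hg i j)⟩

end Pool.Agent.Work.MP_7ba843_gt.N
end

-- merged part: Pool.Agent.Work.MP_7ba843_gt.N.Alg
section
/-! No handle of the surface dies in the one-relator group. -/

namespace Pool.Agent.Work.MP_7ba843_gt.N

theorem alg_one {P : Type} [Group P] {d n : ℕ} (hd : 1 ≤ d) (hn : d + 2 ≤ n)
    {L₀ L : List (P × P)} {c s : P} (h₀ : IsSys L₀) (p : P →* FreeGroup (Fin (d + 1)))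
    (hp : Function.Surjective p) (hK : Kill p L₀)
    (hker : ∀ γ, p γ = 1 → γ ∈ Subgroup.normalClosure (mers L₀)) (h₁ : IsSys ((c, s) :: L))
    (hc : th d (p c) ∈ NN n) : p c = 1 := by
  by_contra h1
  have hw : ∀ k : ℤ, p c ^ k = 1 → k = 0 := fun k hk => by
    by_contra h0
    exact h1 (zpow_left_injective h0 (hk.trans (one_zpow k).symm))
  exact tree_false (th d) (th_inj hd) (p c) hw (ext_AI hd) (line_two hd hn hc h1)
    (line_three hd hn hc h1) (planar_of_sys h₀ p hp hK hker h₁ hw)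

theorem alg_false {P : Type} [Group P] {d n : ℕ} (hd : 1 ≤ d) (hn : d + 2 ≤ n)
    {L₀ L : List (P × P)} {c s : P} (h₀ : IsSys L₀) (p : P →* FreeGroup (Fin (d + 1)))
    (hp : Function.Surjective p) (hK : Kill p L₀)
    (hker : ∀ γ, p γ = 1 → γ ∈ Subgroup.normalClosure (mers L₀)) (h₁ : IsSys ((c, s) :: L))
    (hl : L.length = d) (hc : th d (p c) ∈ NN n) (hs : th d (p s) ∈ NN n) : False := by
  have h2 := alg_one hd hn h₀ p hp hK hker h₁.rot (by
    rw [map_inv, map_inv]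
    exact inv_mem hs)
  rw [map_inv, inv_eq_one] at h2
  exact iso_false h₁ (by rw [hl]) p hp (alg_one hd hn h₀ p hp hK hker h₁ hc) h2

end Pool.Agent.Work.MP_7ba843_gt.N
end
end

-- merged part: Pool.Agent.Work.MP_7ba843_gt.N.Main
section
-- merged part: Pool.Agent.Work.MP_7ba843_gt.N.K5
section
/-! The lattice model of a presentation complex in five-space, with its base graph exposed.

PLAN. Redo `exists_sch` (735653/XSch, last lines) with `e = Equiv.refl (Fin m)`, `C = Empty`,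
`wd = Sum.elim r Empty.elim`, so that `sc.m = m`; then `exists_lattice` (XOut) and the first part of
`LC.resize` (Resize) with the explicit complex `sc.K.image (Resize_rs 5)`. `chi`: the matching
`sc.pm.m` pairs cells whose dimensions differ by one (`Finset.sum_involution` on the non critical
cells), the critical cells are the injective image of `IR (Fin m) Rl Empty` with dimensions `dR`.
The cells `![k, h, 0, 0, 0, 0]` with `Gp m k h` are in `sc.Base`. For `v + ee i ∈ gr3 g` one has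
`i ≠ 2`, `emb off (v + ee i) = emb off v + ee (i.castLE _)`, and the label is `sc.w`.
`pres_ext`: Tietze. About 300 lines. -/

namespace Pool.Agent.Work.MP_7ba843_gt.N

open Pool.Agent.Work.MP_735653_gt

theorem K5_sgn {D : ℕ} {a b : Cell D} (h : Fc b a) : sgn (dim a) + sgn (dim b) = 0 := by
  rw [← h.dim_eq]
  simp only [sgn, Int.even_add_one]
  split_ifs <;> simp_all

theorem K5_chi {D : ℕ} {S Rl C : Type} [Fintype S] [Fintype Rl] [Fintype C] {K : Finset (Cell D)}
    {wd : Rl ⊕ C → FreeGroup S} (P : PM K wd) : chi K = ∑ j : IR S Rl C, sgn (dR j) := by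
  classical
  rw [chi, ← Finset.sum_filter_add_sum_filter_not K fun a => P.m.up a ∨ P.m.dn a]
  have h1 : ∑ a ∈ K with P.m.up a ∨ P.m.dn a, sgn (dim a) = 0 := by
    refine Finset.sum_involution (fun a _ => P.m.σ a) (fun a ha => ?_) (fun a ha _ h => ?_)
      (fun a ha => ?_) fun a ha => ?_ <;> obtain ⟨ha, k | k⟩ := Finset.mem_filter.1 ha
    · exact K5_sgn (P.m.up_σ a ha k).2.2.2
    · obtain ⟨k1, k2, k3⟩ := P.m.dn_σ a ha k
      have := K5_sgn (P.m.up_σ _ k1 k2).2.2.2
      rwa [k3, add_comm] at this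
    · exact P.m.disj a ha k (h ▸ (P.m.up_σ a ha k).2.1)
    · exact P.m.disj a ha (h ▸ (P.m.dn_σ a ha k).2.1) k
    · exact Finset.mem_filter.2 ⟨(P.m.up_σ a ha k).1, .inr (P.m.up_σ a ha k).2.1⟩
    · exact Finset.mem_filter.2 ⟨(P.m.dn_σ a ha k).1, .inl (P.m.dn_σ a ha k).2.1⟩
    · exact (P.m.up_σ a ha k).2.2.1
    · exact (P.m.dn_σ a ha k).2.2
  have h2 : (K.filter fun a => ¬ (P.m.up a ∨ P.m.dn a)) = Finset.univ.image P.cr := by
    ext a
    simp only [Finset.mem_filter, Finset.mem_image, Finset.mem_univ, true_and, not_or]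
    refine ⟨fun h => (P.crit a h.1).1 h.2, ?_⟩
    rintro ⟨j, rfl⟩
    exact ⟨P.cr_mem j, (P.crit _ (P.cr_mem j)).2 ⟨j, rfl⟩⟩
  rw [h1, h2, zero_add, Finset.sum_image fun _ _ _ _ h => P.cr_inj h]
  simp only [P.cr_dim]

theorem K5_resize {D : ℕ} {G : Type} [Group G] (X : LC D G) (D' : ℕ)
    (h : ∀ a ∈ X.K, ∀ i : Fin D, D' ≤ i.1 → a i = 0) :
    ∃ X' : LC D' G, (∀ y ∈ X'.K, Resize_rs D y ∈ X.K ∧ Resize_R y (Resize_rs D y)) ∧
      (∀ x ∈ X.K, Resize_rs D' x ∈ X'.K) ∧ (SCp X → SCp X') ∧ (Conn X → Conn X') ∧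
      chi X'.K = chi X.K ∧ ∀ y z, X'.μ y z = X.μ (Resize_rs D y) (Resize_rs D z) := by
  have hR : ∀ x ∈ X.K, Resize_R x (Resize_rs D' x) := fun x hx => Resize_R_rs (h x hx)
  have hK : ∀ y ∈ X.K.image (Resize_rs D'), Resize_rs D y ∈ X.K ∧ Resize_R y (Resize_rs D y) := by
    intro y hy
    obtain ⟨x, hx, rfl⟩ := Finset.mem_image.1 hy
    rw [(hR x hx).symm.rs_eq]
    exact ⟨hx, (hR x hx).symm⟩
  have hK' : ∀ x ∈ X.K, Resize_rs D' x ∈ X.K.image (Resize_rs D') :=
    fun x hx => Finset.mem_image_of_mem _ hx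
  have hdown : Down (X.K.image (Resize_rs D')) := by
    intro y hy z hz
    obtain ⟨h1, h2⟩ := hK y hy
    have h3 := h2.of_face hz
    rw [← h3.symm.rs_eq]
    exact hK' _ (X.down _ h1 _ (h2.face h3 hz))
  have hf : ∀ y ∈ X.K.image (Resize_rs D'), ∀ z, Face z y →
      Face (Resize_rs D z) (Resize_rs D y) :=
    fun y hy z hz => (hK y hy).2.face ((hK y hy).2.of_face hz) hz
  have hf' : ∀ x ∈ X.K, ∀ z, Face z x → Face (Resize_rs D' z) (Resize_rs D' x) :=
    fun x hx z hz => (hR x hx).face ((hR x hx).of_face hz) hz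
  refine ⟨⟨X.K.image (Resize_rs D'), fun y z => X.μ (Resize_rs D y) (Resize_rs D z), hdown,
    fun y hy z w hz hw => X.coc _ (hK y hy).1 _ _ (hf y hy z hz) (hf z (hdown y hy z hz) w hw)⟩,
    hK, hK', fun hS H _ ψ hψ => ?_, fun hC => ?_, ?_, fun _ _ => rfl⟩
  · obtain ⟨θ, f, hθ⟩ := hS H (fun x z => ψ (Resize_rs D' x) (Resize_rs D' z))
      fun x hx z w hz hw => hψ _ (hK' x hx) _ _ (hf' x hx z hz) (hf' z (X.down x hx z hz) w hw)
    refine ⟨θ, fun y => f (Resize_rs D y), fun y hy z hz => ?_⟩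
    have := hθ _ (hK y hy).1 _ (hf y hy z hz)
    rwa [(hK y hy).2.symm.rs_eq, (hK z (hdown y hy z hz)).2.symm.rs_eq] at this
  · refine ⟨hC.1.image _, fun φ hφ g g' y hy z hz hg => ?_⟩
    have := hC.2 (fun g x => φ g (Resize_rs D' x)) (fun g x hx w hw => ?_) g g' _ (hK y hy).1 _
      (hK z hz).1
    · simp only [(hK y hy).2.symm.rs_eq, (hK z hz).2.symm.rs_eq] at this
      exact this hg
    · have := hφ g _ (hK' x hx) _ (hf' x hx w hw)
      simp only [(hR x hx).symm.rs_eq, (hR w (X.down x hx w hw)).symm.rs_eq] at this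
      exact this
  · refine (Finset.sum_image fun x hx y hy e => ?_).trans
      (Finset.sum_congr rfl fun x hx => by rw [(hR x hx).dim_eq])
    rw [← (hR x hx).symm.rs_eq, e, (hR y hy).symm.rs_eq]

theorem K5_emb (off : ℕ) (a : Cell 3) :
    Resize_rs 6 (emb off a) = ![a 0 + 4 * off, a 1, 0, 0, 0, 0] := by
  funext i
  fin_cases i <;> rfl

theorem exists_K5 {G Rl : Type} [Group G] [Fintype Rl] [Nonempty Rl] {m : ℕ} {γ : Fin m → G}
    {r : Rl → FreeGroup (Fin m)} (h : Pres γ r) :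
    ∃ X : LC 5 G, (∀ a ∈ X.K, dim a ≤ 2 ∧ a 4 = 0) ∧ SCp X ∧ Conn X ∧
      chi X.K = 1 - m + Fintype.card Rl ∧
      ∀ (off g : ℕ) (hg : off + g ≤ m), (∀ a ∈ gr3 g, emb off a ∈ X.K) ∧
        ∀ v i, Vtx v → v + ee i ∈ gr3 g →
          mue (fun a b => X.μ (emb off a) (emb off b)) v i =
            FreeGroup.lift (fun k : Fin g => γ ⟨off + k.1, by omega⟩) (glab (D := 1) g v i) := by
  obtain ⟨P⟩ := XSch_ex (Equiv.refl (Fin m)) (Sum.elim r Empty.elim) Finset.univ
  let sc : Sch (Sum.elim r Empty.elim) := ⟨m, Equiv.refl _, P.N, P.p, P.gid, P.u, P.fs, P.ls,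
    P.N_nonneg, P.p_zero, P.p_N, P.vtx, P.step, P.last, P.gid_succ,
    fun j => P.fs_spec j (Finset.mem_univ _), P.fs_uniq,
    fun j => P.ls_spec j (Finset.mem_univ _), P.ls_uniq, P.u_fst, P.u_succ, P.u_lst⟩
  obtain ⟨μ, h1, hμ⟩ := exists_mu sc.down (sc.pm.ecoc h)
  let X : LC 6 G := ⟨sc.K, μ, sc.down, h1⟩
  obtain ⟨X', e1, e2, e3, e4, e5, e6⟩ := K5_resize X 5 fun a ha i hi => by
    have : i = 5 := Fin.ext (by omega)
    rw [this]
    exact (sc.dim_le_two a ha).2.2
  have mem : ∀ k l : ℤ, Gp m k l → ![k, l, 0, 0, 0, 0] ∈ sc.K := fun k l hk =>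
    sc.mem_K.2 (XInv_base sc hk le_rfl (by have := sc.N_nonneg; omega))
  refine ⟨X', fun a ha => ?_, e3 (PM.sce (X := X) sc.pm h hμ).scp,
    e4 (PM.connE (X := X) sc.pm h hμ).conn, ?_, fun off g hg => ?_⟩
  · obtain ⟨k1, k2⟩ := e1 a ha
    obtain ⟨k3, k4, -⟩ := sc.dim_le_two _ k1
    exact ⟨k2.dim_eq ▸ k3, k4⟩
  · rw [e5, K5_chi sc.pm]
    simp [Fintype.sum_sum_type, dR, sgn]
    ring
  have gp : ∀ a ∈ gr3 g, Gp m (a 0 + 4 * off) (a 1) := fun a ha => by
    have := (mem_gr3.1 ha).1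
    simp only [Gp, Tt, Tp] at this ⊢
    omega
  refine ⟨fun a ha => ?_, fun v i hv hm => ?_⟩
  · have := e2 _ (mem _ _ (gp a ha))
    convert this
    funext i
    fin_cases i <;> rfl
  have h0 := hv 0
  have h1 := hv 1
  have h2 := hv 2
  have hV : Vtx ![v 0 + 4 * off, v 1, 0, 0, 0, 0] := fun j => by
    fin_cases j <;> simp <;> omega
  have k1 := gp _ hm
  obtain ⟨k2, k3⟩ := mem_gr3.1 hm
  simp only [mue, e6, K5_emb]
  fin_cases i
  · have q : ∀ c : ℕ, ![(v + c • ee 0 : Cell 3) 0 + 4 * off, (v + c • ee 0 : Cell 3) 1, 0, 0, 0, 0] =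
        (![v 0 + 4 * off, v 1, 0, 0, 0, 0] + c • ee 0 : Cell 6) := fun c => by
      funext j
      fin_cases j <;> simp [ee]
      ring
    have q1 := q 1
    rw [one_nsmul, one_nsmul] at q1
    refine Eq.trans ?_ ((hμ _ 0 hV (q1 ▸ mem _ _ k1)).trans ?_)
    · rw [mue, ← q1, ← q 2]
      rfl
    simp only [Gp, Tt, Tp, ee, Fin.zero_eta, Pi.add_apply, Pi.single_eq_same, ne_eq, one_ne_zero,
      not_false_eq_true, Pi.single_eq_of_ne] at k2
    change FreeGroup.lift γ (if v 1 = 2 ∧ (v 0 + 4 * off) % 4 = 2 ∧ ¬ (_ ∧ (0 : ℤ) = 2) then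
      lab (Equiv.refl _) ((v 0 + 4 * off) / 4) else 1) = FreeGroup.lift _
        (if (0 : Fin 3) = 0 ∧ v 1 = 2 ∧ v 0 % 4 = 2 then lab (Equiv.refl _) (v 0 / 4) else 1)
    by_cases c : v 1 = 2 ∧ v 0 % 4 = 2
    · rw [if_pos ⟨c.1, by omega, by simp⟩, if_pos ⟨rfl, c⟩, lab, lab, dif_pos (by omega),
        dif_pos (by omega), FreeGroup.lift_apply_of, FreeGroup.lift_apply_of]
      refine congrArg γ (Fin.ext ?_)
      simp only [Equiv.refl_symm, Equiv.refl_apply]
      omega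
    · rw [if_neg (by omega), if_neg (fun k => c k.2), map_one, map_one]
  · have q : ∀ c : ℕ, ![(v + c • ee 1 : Cell 3) 0 + 4 * off, (v + c • ee 1 : Cell 3) 1, 0, 0, 0, 0] =
        (![v 0 + 4 * off, v 1, 0, 0, 0, 0] + c • ee 1 : Cell 6) := fun c => by
      funext j
      fin_cases j <;> simp [ee]
    have q1 := q 1
    rw [one_nsmul, one_nsmul] at q1
    refine Eq.trans ?_ ((hμ _ 1 hV (q1 ▸ mem _ _ k1)).trans ?_)
    · rw [mue, ← q1, ← q 2]
      rfl
    · exact (map_one _).trans (by simp [glab])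
  · simp [ee] at k3
    omega

theorem pres_ext (n M : ℕ) (w : ℕ → F2) (h0 : w 0 = FreeGroup.of 0) (h1 : w 1 = FreeGroup.of 1) :
    ∃ r : Option (Fin M) → FreeGroup (Fin (M + 2)),
      Pres (fun k : Fin (M + 2) => QuotientGroup.mk' (NN n) (w k.1)) r := by
  let s : F2 →* FreeGroup (Fin (M + 2)) := FreeGroup.map fun i => ⟨i.1, by omega⟩
  have key : ∀ {H : Type} [Group H] (f : Fin (M + 2) → H) (u : F2), FreeGroup.lift f (s u) =
      FreeGroup.lift (fun i : Fin 2 => f ⟨i.1, by omega⟩) u := fun f u =>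
    DFunLike.congr_fun (FreeGroup.ext_hom ((FreeGroup.lift f).comp s) _ fun i => by simp [s]) u
  have k2 : FreeGroup.lift (fun i : Fin 2 => QuotientGroup.mk' (NN n) (w i.1)) =
      QuotientGroup.mk' (NN n) := FreeGroup.ext_hom _ _ fun i => by
    fin_cases i <;> simp [h0, h1]
  refine ⟨fun j => j.elim (s (cc ^ n)) fun k => (FreeGroup.of ⟨k.1 + 2, by omega⟩)⁻¹ *
    s (w (k.1 + 2)), ?_, fun H _ f hf => ?_, ?_⟩
  · rintro (_ | k)
    · rw [Option.elim_none, key, k2]
      exact (QuotientGroup.eq_one_iff _).2 (Subgroup.subset_normalClosure rfl)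
    · rw [Option.elim_some, map_mul, map_inv, key, k2, FreeGroup.lift_apply_of, inv_mul_cancel]
  · refine ⟨QuotientGroup.lift (NN n) (FreeGroup.lift fun i : Fin 2 => f ⟨i.1, by omega⟩)
      (Subgroup.normalClosure_le_normal (N := MonoidHom.ker _) ?_), fun k => ?_⟩
    · rintro _ rfl
      exact (key f _).symm.trans (hf none)
    · change FreeGroup.lift _ (w k.1) = f k
      rcases k with ⟨_ | _ | k, hk⟩
      · rw [h0, FreeGroup.lift_apply_of]
        rfl
      · exact (congrArg _ h1).trans FreeGroup.lift_apply_of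
      · have := hf (some ⟨k, by omega⟩)
        rw [Option.elim_some, map_mul, map_inv, key, FreeGroup.lift_apply_of,
          inv_mul_eq_one] at this
        exact this.symm
  · rw [eq_top_iff, ← Subgroup.map_top_of_surjective _ (QuotientGroup.mk'_surjective (NN n)),
      ← FreeGroup.closure_range_of, MonoidHom.map_closure]
    refine Subgroup.closure_mono ?_
    rintro _ ⟨_, ⟨i, rfl⟩, rfl⟩
    refine ⟨⟨i.1, by omega⟩, ?_⟩
    fin_cases i <;> simp [h0, h1]

end Pool.Agent.Work.MP_7ba843_gt.N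
end

-- merged part: Pool.Agent.Work.MP_7ba843_gt.N.Ori
section
/-! Regular level sets in five-space are oriented smooth manifolds.

PLAN. Adapt 735653/Level.lean. For `p` choose `i` with `∂ᵢ F p ≠ 0` and a linear map
`L : (Fin 5 → ℝ) →L E4` (`removeNth i`, composed with the reflection of one coordinate if needed)
such that `Ψ x = J (F x, L x)`, `J : ℝ × E4 ≃L (Fin 5 → ℝ)` fixed, has derivative of positive
determinant at `p`; shrink the source to the open set where the determinant is positive. The chart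
is `x ↦ L x` with inverse `y ↦ Ψ.symm (J (c, y))`. For two charts, `T = Ψq ∘ Ψp.symm` has positive
determinant and `J⁻¹ T J (s, y) = (s, T' (s, y))`, so its derivative is block triangular and
`det = det (fderiv (T' (c, ·)))` (`LinearMap.det_prodMap`, or `Matrix.det_fromBlocks_zero₁₂`,
`LinearMap.det_conj`). The last two statements follow from `contMDiffAt_iff_target`,
`contMDiffAt_iff_source_of_mem_source` because the charts are restrictions of linear maps with
smooth inverses. About 300 lines. -/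

namespace Pool.Agent.Work.MP_7ba843_gt.N

open scoped Manifold ContDiff

/-- the model space -/
abbrev Ori_E : Type := EuclideanSpace ℝ (Fin 4)

/-- a fixed identification -/
noncomputable def Ori_J : (ℝ × Ori_E) ≃L[ℝ] (Fin 5 → ℝ) :=
  ContinuousLinearEquiv.ofFinrankEq (by simp)

/-- the determinant of a covector together with a projection -/
noncomputable def Ori_D (φ : (Fin 5 → ℝ) →L[ℝ] ℝ) (L : (Fin 5 → ℝ) →L[ℝ] Ori_E) : ℝ :=
  ((ContinuousLinearMap.inl ℝ ℝ Ori_E ∘L φ + ContinuousLinearMap.inr ℝ ℝ Ori_E ∘L L) ∘L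
    (Ori_J : (ℝ × Ori_E) →L[ℝ] (Fin 5 → ℝ))).det

theorem Ori_det {φ : (Fin 5 → ℝ) →L[ℝ] ℝ} {v : Fin 5 → ℝ} (hv : φ v ≠ 0)
    {G : Ori_E →L[ℝ] (Fin 5 → ℝ)} (hG : ∀ y, φ (G y) = 0) :
    ∃ m : ℝ, ∀ L, Ori_D φ L * m = (L ∘L G).det := by
  let n := (φ v)⁻¹ • v
  have hn : φ n = 1 := by simp [n, hv]
  refine ⟨LinearMap.det ((Ori_J.symm : (Fin 5 → ℝ) →ₗ[ℝ] ℝ × Ori_E) ∘ₗ
    ((LinearMap.fst ℝ ℝ Ori_E).smulRight n + G.toLinearMap ∘ₗ LinearMap.snd ℝ ℝ Ori_E)),
    fun L => ?_⟩
  have h1 := LinearMap.det_comp (LinearMap.transvection (LinearMap.fst ℝ ℝ Ori_E) (0, L n))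
    (LinearMap.prodMap LinearMap.id (L ∘L G).toLinearMap)
  rw [LinearMap.transvection.det, LinearMap.det_prodMap, LinearMap.det_id] at h1
  rw [Ori_D, ContinuousLinearMap.det, ← LinearMap.det_comp]
  refine Eq.trans (congrArg _ (LinearMap.ext fun z => ?_)) (h1.trans (by
    simp [ContinuousLinearMap.det]))
  simp [LinearMap.transvection.apply, hn, hG, add_comm]

theorem Ori_refl : ∃ R : Ori_E ≃L[ℝ] Ori_E, ∀ φ L,
    Ori_D φ ((R : Ori_E →L[ℝ] Ori_E) ∘L L) = -Ori_D φ L := by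
  let u : Ori_E := EuclideanSpace.single 0 1
  let R := ((ℝ ∙ u)ᗮ).reflection
  have hR : LinearMap.det (R.toLinearMap : Ori_E →ₗ[ℝ] Ori_E) = -1 := by
    rw [Submodule.det_reflection, Submodule.orthogonal_orthogonal, finrank_span_singleton, pow_one]
    simp [u]
  refine ⟨R.toContinuousLinearEquiv, fun φ L => ?_⟩
  rw [← neg_one_mul, ← hR, ← one_mul (LinearMap.det _), ← LinearMap.det_id (M := ℝ) (A := ℝ),
    ← LinearMap.det_prodMap, Ori_D, Ori_D, ContinuousLinearMap.det, ContinuousLinearMap.det,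
    ← LinearMap.det_comp]
  exact congrArg _ (LinearMap.ext fun z => by simp)

variable {F : (Fin 5 → ℝ) → ℝ} {c : ℝ}

theorem Ori_der (hF : ContDiff ℝ ∞ F) {e : OpenPartialHomeomorph {x // F x = c} Ori_E}
    {L : (Fin 5 → ℝ) →L[ℝ] Ori_E} (h1 : ∀ x, e x = L x.1)
    (h2 : ContDiffOn ℝ ∞ (fun y => (e.symm y).1) e.target) {w : Ori_E} (hw : w ∈ e.target)
    {v : Fin 5 → ℝ} (hv : fderiv ℝ F (e.symm w).1 v ≠ 0) :
    ∃ m : ℝ, Ori_D (fderiv ℝ F (e.symm w).1) L * m = 1 ∧ ∀ L' : (Fin 5 → ℝ) →L[ℝ] Ori_E,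
      (fderiv ℝ (fun y => L' (e.symm y).1) w).det = Ori_D (fderiv ℝ F (e.symm w).1) L' * m := by
  have hG := ((h2.contDiffAt (e.open_target.mem_nhds hw)).differentiableAt (by simp)).hasFDerivAt
  have k1 := ((hF.differentiable (by simp) (e.symm w).1).hasFDerivAt.comp w hG).unique
    ((hasFDerivAt_const c w).congr_of_eventuallyEq (.of_forall fun y => (e.symm y).2))
  obtain ⟨m, hm⟩ := Ori_det hv (G := fderiv ℝ (fun y => (e.symm y).1) w) fun y =>
    DFunLike.congr_fun k1 y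
  refine ⟨m, ?_, fun L' => ?_⟩
  · rw [hm, (L.hasFDerivAt.comp w hG).unique ((hasFDerivAt_id w).congr_of_eventuallyEq
      (Filter.mem_of_superset (e.open_target.mem_nhds hw) fun y hy =>
        (h1 _).symm.trans (e.right_inv hy)))]
    exact LinearMap.det_id
  · rw [hm]
    exact congrArg _ (L'.hasFDerivAt.comp w hG).fderiv

theorem Ori_chart (hF : ContDiff ℝ ∞ F) (p : {x // F x = c}) {i : Fin 5}
    (h : fderiv ℝ F p.1 (Pi.single i 1) ≠ 0) :
    ∃ (e : OpenPartialHomeomorph {x // F x = c} Ori_E) (L : (Fin 5 → ℝ) →L[ℝ] Ori_E),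
      p ∈ e.source ∧ (∀ x, e x = L x.1) ∧ ContDiffOn ℝ ∞ (fun y => (e.symm y).1) e.target ∧
      ∀ x ∈ e.source, 0 < Ori_D (fderiv ℝ F x.1) L := by
  obtain ⟨e, h1, h2, h3⟩ := MP_735653_gt.Level_chart hF p h
  let L : (Fin 5 → ℝ) →L[ℝ] Ori_E := (EuclideanSpace.equiv (Fin 4) ℝ).symm.toContinuousLinearMap ∘L
    ContinuousLinearMap.pi fun k => ContinuousLinearMap.proj (i.succAbove k)
  have key : ∃ (e : OpenPartialHomeomorph {x // F x = c} Ori_E) (L : (Fin 5 → ℝ) →L[ℝ] Ori_E),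
      p ∈ e.source ∧ (∀ x, e x = L x.1) ∧ ContDiffOn ℝ ∞ (fun y => (e.symm y).1) e.target ∧
      0 < Ori_D (fderiv ℝ F p.1) L := by
    obtain ⟨m, hm, -⟩ := Ori_der hF (L := L) h2 h3 (e.map_source h1) (by rwa [e.left_inv h1])
    rw [e.left_inv h1] at hm
    rcases lt_or_gt_of_ne (left_ne_zero_of_mul_eq_one hm) with k | k
    · obtain ⟨R, hR⟩ := Ori_refl
      refine ⟨e.transHomeomorph R.toHomeomorph, (R : Ori_E →L[ℝ] Ori_E) ∘L L, h1,
        fun x => congrArg R (h2 x), h3.comp R.symm.contDiff.contDiffOn fun y hy => hy, ?_⟩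
      rw [hR]
      exact neg_pos.2 k
    · exact ⟨e, L, h1, h2, h3, k⟩
  obtain ⟨e, L, h1, h2, h3, h4⟩ := key
  have o : IsOpen {x : {x // F x = c} | 0 < Ori_D (fderiv ℝ F x.1) L} := by
    have := (hF.continuous_fderiv (by simp)).comp (continuous_subtype_val (p := (F · = c)))
    exact isOpen_lt continuous_const (ContinuousLinearMap.continuous_det.comp
      (((continuous_const.clm_comp this).add continuous_const).clm_comp continuous_const))
  exact ⟨e.restrOpen _ o, L, ⟨h1, h4⟩, h2, h3.mono fun _ hy => hy.1, fun _ hx => hx.2⟩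

theorem level_oriented (F : (Fin 5 → ℝ) → ℝ) (hF : ContDiff ℝ ∞ F) (c : ℝ)
    (h : ∀ x, F x = c → ∃ i, fderiv ℝ F x (Pi.single i 1) ≠ 0) :
    ∃ _ : ChartedSpace (EuclideanSpace ℝ (Fin 4)) {x // F x = c},
      IsManifold (𝓡 4) ∞ {x // F x = c} ∧ OrientedAtlas {x // F x = c} ∧
      ContMDiff (𝓡 4) 𝓘(ℝ, Fin 5 → ℝ) ∞ (Subtype.val : {x // F x = c} → Fin 5 → ℝ) ∧
      ∀ (f : EuclideanSpace ℝ (Fin 4) → {x // F x = c}) (v : EuclideanSpace ℝ (Fin 4)),
        ContDiffAt ℝ ∞ (fun w => (f w).1) v → ContMDiffAt (𝓡 4) (𝓡 4) ∞ f v := by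
  choose i hi using fun p : {x // F x = c} => h p.1 p.2
  choose e L h1 h2 h3 h4 using fun p : {x // F x = c} => Ori_chart hF p (hi p)
  let C : ChartedSpace (EuclideanSpace ℝ (Fin 4)) {x // F x = c} :=
    { atlas := Set.range e
      chartAt := e
      mem_chart_source := h1
      chart_mem_atlas := fun p => Set.mem_range_self p }
  refine ⟨C, isManifold_of_contDiffOn _ _ _ ?_, ?_, fun p => ?_, fun f v hf => ?_⟩
  · rintro _ _ ⟨p, rfl⟩ ⟨q, rfl⟩
    refine (((L q).contDiff.comp_contDiffOn (h3 p)).mono fun y hy => hy.1.1).congr fun y _ => ?_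
    exact h2 q _
  · rintro _ ⟨p, rfl⟩ _ ⟨q, rfl⟩ w hw
    obtain ⟨m, k1, k2⟩ := Ori_der hF (h2 p) (h3 p) hw.1 (hi _)
    have : ⇑((e p).symm.trans (e q)) = fun y => L q ((e p).symm y).1 := funext fun y => h2 q _
    rw [this, k2]
    exact mul_pos (h4 q _ hw.2)
      ((mul_pos_iff_of_pos_left (h4 p _ ((e p).map_target hw.1))).1 (k1 ▸ one_pos))
  · rw [contMDiffAt_iff_source]
    exact ((h3 p).contDiffAt ((e p).open_target.mem_nhds
      ((e p).map_source (h1 p)))).contMDiffAt.contMDiffWithinAt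
  · rw [contMDiffAt_iff_target]
    refine ⟨Topology.IsInducing.subtypeVal.continuousAt_iff.2 hf.continuousAt, ?_⟩
    have : extChartAt (𝓡 4) (f v) ∘ f = fun w => L (f v) (f w).1 := funext fun w => h2 _ _
    rw [this]
    exact ((L (f v)).contDiff.contDiffAt.comp v hf).contMDiffAt

end Pool.Agent.Work.MP_7ba843_gt.N
end

-- merged part: Pool.Agent.Work.MP_7ba843_gt.N.Main
section
/-! Surfaces of every genus that are not cores of trisections. -/

namespace Pool.Agent.Work.MP_7ba843_gt.N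

open Pool.Agent.Work.MP_735653_gt Set Topology

open scoped Manifold ContDiff

theorem Cv.Univ.conn {Y Γ : Type} [TopologicalSpace Y] [Group Γ] {C : Cv Y Γ} (h : C.Univ) :
    ConnectedSpace Y :=
  have := h.1
  C.cov.surjective.connectedSpace C.cov.continuous

/-- the words of the additional generators -/
def wd (p : ℕ) : F2 :=
  if p = 0 then FreeGroup.of 0 else if p = 1 then FreeGroup.of 1
  else theta (p.sqrt - 1) (p - p.sqrt * p.sqrt)

theorem wd_eq {d k : ℕ} (hd : 1 ≤ d) (hk : k < d + 1) :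
    wd ((d + 1) * (d + 1) + k) = theta d k := by
  have : 4 ≤ (d + 1) * (d + 1) := by nlinarith
  rw [wd, if_neg (by omega), if_neg (by omega), Nat.sqrt_add_eq _ (by omega),
    Nat.add_sub_cancel, Nat.add_sub_cancel_left]

theorem gen_two (n : ℕ) : Subgroup.closure {QuotientGroup.mk' (NN n) (FreeGroup.of 0),
    QuotientGroup.mk' (NN n) (FreeGroup.of 1)} = ⊤ := by
  have : ({FreeGroup.of 0, FreeGroup.of 1} : Set F2) = range FreeGroup.of := by
    ext x
    simp [Fin.exists_fin_two, eq_comm]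
  rw [← image_pair, ← MonoidHom.map_closure, this, FreeGroup.closure_range_of,
    Subgroup.map_top_of_surjective _ (QuotientGroup.mk'_surjective _)]

theorem range_eq {Y X : Type} {F : (Fin 3 → ℝ) → ℝ} {O : TopologicalSpace.Opens (Fin 3 → ℝ)}
    (Φ : O → X) {e : Y → {x // F x = 1 / 2}} (he : Function.Surjective e)
    (h : ∀ x, 1 / 2 ≤ F x → x ∈ O) :
    Φ '' {x | F x.1 - 1 / 2 = 0} = range fun y => Φ ⟨(e y).1, h _ (e y).2.ge⟩ := by
  ext z
  refine ⟨?_, ?_⟩
  · rintro ⟨x, hx, rfl⟩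
    obtain ⟨y, hy⟩ := he ⟨x.1, sub_eq_zero.1 hx⟩
    exact ⟨y, by simp only [hy]⟩
  · rintro ⟨y, rfl⟩
    exact ⟨_, sub_eq_zero.2 (e y).2, rfl⟩

theorem main (N : ℕ) :
    ∃ (X : Type) (_ : TopologicalSpace X) (_ : ChartedSpace (EuclideanSpace ℝ (Fin 4)) X),
      IsManifold (𝓡 4) ∞ X ∧ T2Space X ∧ CompactSpace X ∧ ConnectedSpace X ∧
      OrientedAtlas X ∧ HasEulerChar X 0 ∧
      (∀ x : X, ∃ a b : FundamentalGroup X x, Subgroup.closure {a, b} = ⊤) ∧
      ∀ g : ℕ, 3 ≤ g → g ≤ N →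
        ∃ (F : (Fin 3 → ℝ) → ℝ) (O : TopologicalSpace.Opens (Fin 3 → ℝ)) (Φ : O → X) (S : Set X),
          ContDiff ℝ ∞ F ∧ (∀ x, F x = 0 → fderiv ℝ F x ≠ 0) ∧ {x | 0 ≤ F x} ⊆ O ∧
          Nonempty ({x | 0 ≤ F x} ≃ₜ Th 1 g) ∧
          Manifold.IsSmoothEmbedding 𝓘(ℝ, Fin 3 → ℝ) (𝓡 4) ∞ Φ ∧
          S = Φ '' {x | F x.1 = 0} ∧
          (∀ x : S, Function.Surjective
            (FundamentalGroup.map (⟨Subtype.val, continuous_subtype_val⟩ : C(S, X)) x)) ∧
          ¬ ∃ T : Fin 3 → Set X, Trisection g S T := by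
  obtain ⟨r, hr⟩ := pres_ext (N.factorial + 1) ((N + 1) * (N + 1)) wd rfl rfl
  obtain ⟨K, a1, a2, a3, a4, a5⟩ := exists_K5 hr
  obtain ⟨C, b1, b2, b3, b4⟩ := level_oriented (FK K.K) (contDiff_FK _) (1 / 2) (FK_regular K.down)
  obtain ⟨CX, κ, F₃, c1, c2, c3, c4⟩ := level_cv K (fun a ha => by
    have := (a1 a ha).1
    omega) a2 a3
  obtain ⟨e⟩ := homeo_level K
  have := isCompact_iff_compactSpace.1 (isCompact_Re (down_EK K.down))
  have cpt := e.compactSpace
  refine ⟨_, _, C, b1, inferInstance, cpt, c1.conn, b2, ?_, pi1_gen c1 (gen_two _),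
    fun g h3 hN => ?_⟩
  · convert euler_Re (down_EK K.down) e
    rw [chi_EK K.down, a4]
    simp
    ring
  obtain ⟨d, rfl⟩ : ∃ d, g = d + 1 := ⟨g - 1, by omega⟩
  have hd : 1 ≤ d := by omega
  have hn : d + 2 ≤ N.factorial + 1 := by
    have := N.self_le_factorial
    omega
  have ho : (d + 1) * (d + 1) + (d + 1) ≤ (N + 1) * (N + 1) + 2 := by nlinarith
  obtain ⟨a6, a7⟩ := a5 _ _ ho
  obtain ⟨O, Φ, d1, d2, d3⟩ := exists_emb (fun a ha => (a1 a ha).2) _ _ a6 b3 b4
  obtain ⟨e₃, he⟩ := level_near (down_gr 1 (d + 1))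
  obtain ⟨P, _, CS, CW, p, L₀, F₀, s1, s2, s3, s4, s5, s6, s7, s8, s9⟩ := surf_lifts (d + 1)
  let j := fun y => Φ ⟨(e₃ y).1, d1 _ (e₃ y).2.ge⟩
  have hj : IsEmbedding j := d2.isEmbedding.comp
    ((IsEmbedding.subtypeVal.comp e₃.isEmbedding).codRestrict _ _)
  have hS : _ = range j := range_eq Φ e₃.surjective d1
  obtain ⟨θ, FX, lX⟩ := Lf.exists s1 CX hj.continuous
  obtain ⟨F₂, l₂⟩ := s9 _ K _ ((QuotientGroup.mk' _).comp (th d)) (κ ∘ j) (c2.comp hj.continuous) a6
    (fun v i hv hm => by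
      rw [a7 v i hv hm]
      refine DFunLike.congr_fun (FreeGroup.ext_hom _ _ fun k => ?_) _
      simp only [FreeGroup.lift_apply_of, MonoidHom.comp_apply, th, wd_eq hd k.2])
    fun y => (congrArg cellOf (c3 _)).symm ▸ face_kap (he y)
      (d3 ⟨(e₃ y).1, d1 _ (e₃ y).2.ge⟩ _ (mem_EK.1 y.2).1)
  have := s1.1
  obtain ⟨c, -, hc⟩ := (lX.comp c4).unique l₂
  have hθ : Function.Surjective θ := fun y => by
    obtain ⟨k, hk⟩ := ((th_surj hd (by
      rw [Nat.coprime_add_iff_right (Nat.dvd_factorial hd (by omega))]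
      exact Nat.coprime_one_right _)).comp s4) (c * y * c⁻¹)
    exact ⟨k, mul_left_cancel (mul_right_cancel ((hc k).symm.trans hk))⟩
  have hk : ∀ k, θ k = 1 → th d (p k) ∈ NN (N.factorial + 1) := fun k h =>
    (QuotientGroup.eq_one_iff _).1 ((hc k).trans (by
      rw [MonoidHom.comp_apply, h, map_one, mul_one, mul_inv_cancel]))
  refine ⟨fun x => FK (gr3 (d + 1)) x - 1 / 2, O, Φ, range j, (contDiff_FK _).sub contDiff_const,
    fun x hx h => ?_, fun x hx => d1 x (sub_nonneg.1 hx), ?_, d2, hS.symm,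
    pi1_surj c1 hj.continuous lX hθ rfl, ?_⟩
  · obtain ⟨i, hi⟩ := FK_regular (down_gr 1 (d + 1)) x (sub_eq_zero.1 hx)
    rw [fderiv_sub_const] at h
    exact hi (h ▸ rfl)
  · obtain ⟨u⟩ := super_homeo (down_gr 1 (d + 1))
    have q : {x | 0 ≤ FK (gr3 (d + 1)) x - 1 / 2} = {x | 1 / 2 ≤ FK (gr3 (d + 1)) x} := by
      simp only [sub_nonneg]
    exact ⟨((Homeomorph.setCongr q).trans u).trans (Homeomorph.setCongr (Re_WK_gr 1 _))⟩
  rintro ⟨T, hT⟩
  have := s1.conn
  obtain ⟨k, h, b, β, t1, t2, t3, t4, t5, t6⟩ := tri_data loc_chart hj hT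
  choose CZ z1 z2 using fun i => sector_cv (k i)
  refine no_tri c1 s1 s2 z1 s3 s4 s5 s7 (s6 ▸ h3) hj lX hθ (gen_two _)
    (fun c s L k1 k2 k3 k4 => alg_false hd hn s5 p s4 s7 s8 k1 (by omega) (hk c k3) (hk s k4))
    t1 t2 (by simpa only [t3] using hT.1) (by simpa only [t3] using hT.2.2.2.2)
    (by simpa only [t3] using t4) t6 fun i => ?_
  rw [← t5, range_comp, preimage_image_eq _ (t1 i).injective]
  exact z2 i

end Pool.Agent.Work.MP_7ba843_gt.N
end
end
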